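import Pool.Agent.TH850.UV.AcE

set_option autoImplicit false

/-! # The smoothed density of zeros and the prime sum, uniformly in the smoothing parameter -/

namespace Pool.Agent.W2helper93.SW

open Complex Filter Topology MeasureTheory Set
open Pool.Agent.TH850.UV
open Pool.Agent.TH850.UR (int_e int_v)
open H370 (zz hh mult Zf zset AA AA_eq hh_eq zz_refl mult_refl sum_refl mem_Zf good_zeta GoodL pterm)
open H370.A2 (lamC lamC_norm ld_zeta ef_known)

theorem acU : ∃ C T0 : ℝ, 0 < C ∧ 10 ≤ T0 ∧ ∀ T : ℝ, T0 ≤ T →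
    ∃ U1 U2 : ℝ, T ≤ U1 ∧ U1 ≤ T + 1 ∧ 2 * T - 1 ≤ U2 ∧ U2 ≤ 2 * T ∧
      ∀ lam : ℝ, 16 ≤ lam → lam ≤ Real.log T → ∀ t : ℝ, T + Real.log T ≤ t → t ≤ 2 * T - Real.log T →
        |2 * (HTo (Real.log T / lam) U1 U2 t).re - (lam - 2 * (1 / Real.sqrt (2 * Real.pi)) *
          (DDo lamC (Real.log T / lam) (XT T) t).re)| ≤ C * lam ^ 2 / Real.log T := by
  obtain ⟨C1, T1, hC1, hT1, hEF⟩ := ef_known good_zeta (fun n => (lamC_norm n).le)
    (fun s hs _ => ld_zeta s hs)
  have hpi := Real.pi_pos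
  set ζ2 : ℝ := ∑' n : ℕ, 1 / (n : ℝ) ^ 2 with hζ2
  have hζ0 : 0 ≤ ζ2 := tsum_nonneg fun n => by positivity
  set c0 : ℝ := 1 / Real.sqrt (2 * Real.pi) with hc0
  have hs1 : 1 ≤ Real.sqrt (2 * Real.pi) := by
    rw [Real.one_le_sqrt]; linarith [Real.pi_gt_three]
  have hc00 : 0 < c0 := by positivity
  have hc01 : c0 ≤ 1 := by rw [hc0, div_le_one (by positivity)]; exact hs1
  have hlog := Real.tendsto_log_atTop
  -- the truncation error
  set EE : ℝ → ℝ := fun L => 2 * ζ2 * (Real.exp (4 + L / 16) * Real.exp (-(L / 16) ^ 2 / 4)) with hEE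
  have hE0 : Tendsto (fun L => L * EE L) atTop (𝓝 0) := by
    have h1 : Tendsto (fun L : ℝ => 4 + 2 * L + -(L / 16) ^ 2 / 4) atTop atBot := by
      have h2 : Tendsto (fun L : ℝ => L * (L / 1024 - 2)) atTop atTop := by
        apply Tendsto.atTop_mul_atTop₀ tendsto_id
        exact tendsto_atTop_add_const_right _ _ (tendsto_id.atTop_div_const (by norm_num))
      have h3 := (tendsto_neg_atTop_atBot.comp h2)
      have h4 := tendsto_atBot_add_const_left _ 4 h3
      refine h4.congr fun L => ?_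
      simp only [Function.comp_apply]
      ring
    have h2 := (Real.tendsto_exp_atBot.comp h1).const_mul (2 * ζ2)
    rw [mul_zero] at h2
    refine squeeze_zero' (g := fun L => 2 * ζ2 * (Real.exp ∘ fun L : ℝ =>
      4 + 2 * L + -(L / 16) ^ 2 / 4) L) ?_ ?_ h2
    · filter_upwards [eventually_ge_atTop 0] with L hL
      simp only [hEE]
      positivity
    · filter_upwards [eventually_ge_atTop 0] with L hL
      have h3 : L ≤ Real.exp L := by linarith [Real.add_one_le_exp L]
      simp only [Function.comp_apply, hEE]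
      rw [← Real.exp_add]
      calc L * (2 * ζ2 * Real.exp (4 + L / 16 + -(L / 16) ^ 2 / 4)) ≤
          Real.exp L * (2 * ζ2 * Real.exp (4 + L / 16 + -(L / 16) ^ 2 / 4)) := by gcongr
        _ = 2 * ζ2 * Real.exp (L + (4 + L / 16 + -(L / 16) ^ 2 / 4)) := by
            rw [Real.exp_add L]; ring
        _ ≤ 2 * ζ2 * Real.exp (4 + 2 * L + -(L / 16) ^ 2 / 4) := by
            apply mul_le_mul_of_nonneg_left _ (by positivity)
            apply Real.exp_le_exp.2
            linarith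
  have hev1 : ∀ᶠ T : ℝ in atTop, Real.log T * EE (Real.log T) ≤ 1 :=
    (hE0.comp hlog).eventually_le_const (by norm_num)
  obtain ⟨T2, hT2⟩ := hev1.exists_forall_of_atTop
  refine ⟨2 * (C1 + 1) + 40 + 1, max T1 T2, by positivity,
    hT1.trans (le_max_left _ _), fun T hT => ?_⟩
  have hTT1 : T1 ≤ T := (le_max_left _ _).trans hT
  have g1 := hT2 T ((le_max_right _ _).trans hT)
  obtain ⟨U1, U2, hU1, hU2, hU3, hU4, hef⟩ := hEF T hTT1
  have hT10 : 10 ≤ T := hT1.trans hTT1
  have hT0 : 0 < T := by linarith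
  have hL0 : 0 < Real.log T := Real.log_pos (by linarith)
  refine ⟨U1, U2, hU1, hU2, hU3, hU4, fun lam hlam g2 t ht1 ht2 => ?_⟩
  have hlam0 : 0 < lam := by linarith
  set L := Real.log T with hL
  set l := L / lam with hl
  have hl0 : 0 < l := by positivity
  have hl1 : 1 ≤ l := by rw [hl, le_div_iff₀ hlam0, one_mul]; exact g2
  have hlL : l ≤ L / 16 := by
    rw [hl]
    exact div_le_div_of_nonneg_left hL0.le (by norm_num) hlam
  set X : ℕ := XT T with hX
  have hXlog : 1 / 8 * L ≤ Real.log (X + 1) := by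
    rw [hL, ← Real.log_rpow hT0]
    exact Real.log_le_log (by positivity) (Nat.lt_floor_add_one _).le
  have hU : 1 ≤ U1 := by linarith
  have h1 := H_esto (a := lamC) l U1 U2 t L C1 (EE L) X hU hl0.le (by
    intro u hu0 hu1
    have h2 := hef u t hu0 (by linarith) ht1 ht2
    have h3 := H370.PP_trunc (a := lamC) (fun n => (lamC_norm n).le) u t (L / 16) X
      (by positivity) (by linarith)
    have h4 : Real.exp (4 + 2 * u) ≤ Real.exp (4 + L / 16) := Real.exp_le_exp.2 (by linarith)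
    have e1 : AA riemannZeta U1 U2 u t - (c0 : ℂ) *
        (L * cexp (I * u * t) * Real.exp (-u ^ 2 / 2) - ∑ n ∈ Finset.Icc 1 X, pterm lamC u t n) =
        (AA riemannZeta U1 U2 u t - (c0 : ℂ) *
          (L * cexp (I * u * t) * Real.exp (-u ^ 2 / 2) - H370.PP lamC u t)) -
        (c0 : ℂ) * (H370.PP lamC u t - ∑ n ∈ Finset.Icc 1 X, pterm lamC u t n) := by ring
    rw [e1]
    refine (norm_sub_le _ _).trans (add_le_add h2 ?_)
    rw [norm_mul, Complex.norm_real, Real.norm_of_nonneg hc00.le]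
    calc c0 * ‖H370.PP lamC u t - ∑ n ∈ Finset.Icc 1 X, pterm lamC u t n‖ ≤
        1 * (2 * ζ2 * (Real.exp (4 + 2 * u) * Real.exp (-(L / 16) ^ 2 / 4))) := by
          apply mul_le_mul hc01 h3 (norm_nonneg _) zero_le_one
      _ ≤ EE L := by
          rw [one_mul]
          show 2 * ζ2 * (Real.exp (4 + 2 * u) * Real.exp (-(L / 16) ^ 2 / 4)) ≤
            2 * ζ2 * (Real.exp (4 + L / 16) * Real.exp (-(L / 16) ^ 2 / 4))
          gcongr)
  have h2 := Err_leo l C1 (EE L) hl0 hC1.le (by simp only [hEE]; positivity)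
  have h3 := ggo_one hl1
  set HH := HTo l U1 U2 t with hHH
  set D := DDo lamC l X t with hD
  have e1 : 2 * HH.re - (lam - 2 * c0 * D.re) = 2 * (HH - (c0 : ℂ) * (L * (ggo l 1 : ℂ) - D)).re +
      2 * c0 * lam * (l * ggo l 1 - Real.sqrt (2 * Real.pi) / 2) := by
    have e2 : ((c0 : ℂ) * (L * (ggo l 1 : ℂ) - D)).re = c0 * (L * ggo l 1 - D.re) := by
      rw [Complex.re_ofReal_mul, Complex.sub_re, ← Complex.ofReal_mul, Complex.ofReal_re]
    have e3 : c0 * Real.sqrt (2 * Real.pi) = 1 := by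
      rw [hc0]; field_simp
    have e4 : lam * l = L := by rw [hl]; field_simp
    rw [Complex.sub_re, e2]
    linear_combination (-2 * c0 * ggo l 1) * e4 + lam * e3
  have h4 : |2 * (HH - (c0 : ℂ) * (L * (ggo l 1 : ℂ) - D)).re| ≤ 2 * (C1 / l + EE L) := by
    rw [abs_mul, abs_of_pos (by norm_num : (0 : ℝ) < 2)]
    apply mul_le_mul_of_nonneg_left _ (by norm_num)
    exact ((Complex.abs_re_le_norm _).trans h1).trans h2
  have h5 : |2 * c0 * lam * (l * ggo l 1 - Real.sqrt (2 * Real.pi) / 2)| ≤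
      2 * lam * (20 / l) := by
    rw [abs_mul, abs_of_pos (by positivity)]
    apply mul_le_mul _ h3 (abs_nonneg _) (by positivity)
    nlinarith
  have h6 : EE L ≤ 1 / L := by
    rw [le_div_iff₀ hL0]
    linarith
  rw [e1]
  refine (abs_add_le _ _).trans ((add_le_add h4 h5).trans ?_)
  have h7 : C1 / l = C1 * lam / L := by rw [hl]; field_simp
  have h8 : 20 / l = 20 * lam / L := by rw [hl]; field_simp
  rw [h7, h8]
  have h9 : (2 * (C1 * lam + 1) + 2 * lam * (20 * lam) + 1) / L =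
      2 * (C1 * lam / L + 1 / L) + 2 * lam * (20 * lam / L) + 1 / L := by
    ring
  have h10 : 0 < 1 / L := by positivity
  have h11 : (2 * (C1 * lam + 1) + 2 * lam * (20 * lam) + 1) / L ≤
      (2 * (C1 + 1) + 40 + 1) * lam ^ 2 / L := by
    apply div_le_div_of_nonneg_right _ hL0.le
    have hl1 : 1 ≤ lam := by linarith
    have hl2 : lam ≤ lam ^ 2 := by nlinarith only [hl1]
    have hl3 : C1 * lam ≤ C1 * lam ^ 2 := mul_le_mul_of_nonneg_left hl2 hC1.le
    nlinarith only [hl1, hl2, hl3]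
  refine le_trans ?_ h11
  rw [h9]
  linarith

end Pool.Agent.W2helper93.SW
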