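import Pool.Agent.W2helper93.SW.Blk
import Pool.Agent.W2helper93.NV.Glob

set_option autoImplicit false

/-! # Correlations of the kernel sum over all zeros up to a height -/

namespace Pool.Agent.W2helper93.SW

open Complex Filter Topology MeasureTheory Set
open Pool.Agent.W2helper93.NV
open Pool.Agent.TH850.UV
open H370 (zz hh mult Zf zset AA good_zeta mem_Zf NN NN_add NN_mono zcount nn_asymp finsum_Zf)

lemma ev_sqrt {K : ℝ} (hK : 0 < K) (n : ℕ) : ∀ᶠ T : ℝ in atTop, K * Real.log T ^ n ≤ Real.sqrt T := by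
  have h1 : (fun T : ℝ => Real.log T ^ n) =o[atTop] fun T : ℝ => T ^ (1 / 2 : ℝ) := by
    have := isLittleO_log_rpow_rpow_atTop (s := 1 / 2) n (by norm_num : (0 : ℝ) < 1 / 2)
    refine this.congr' ?_ (Eventually.of_forall fun _ => rfl)
    filter_upwards with T
    norm_cast
  have h2 := h1.bound (c := 1 / K) (by positivity)
  filter_upwards [h2, eventually_ge_atTop 1] with T hT hT1
  have hs : T ^ (1 / 2 : ℝ) = Real.sqrt T := (Real.sqrt_eq_rpow T).symm
  have hs1 : 1 ≤ Real.sqrt T := Real.one_le_sqrt.2 hT1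
  rw [hs, Real.norm_of_nonneg (by linarith : (0 : ℝ) ≤ Real.sqrt T)] at hT
  have h3 := (le_abs_self _).trans hT
  calc K * Real.log T ^ n ≤ K * (1 / K * Real.sqrt T) := mul_le_mul_of_nonneg_left h3 hK.le
    _ = Real.sqrt T := by field_simp

lemma KR_split {l : ℝ} {S S' : Finset ℂ} [DecidableEq ℂ] (h : S' ⊆ S) (t : ℝ) :
    KR l S t = KR l (S \ S') t + KR l S' t := by
  unfold KR
  exact (Finset.sum_sdiff h).symm

theorem blk2 {lam0 : ℝ} (h16 : 16 ≤ lam0) (hW : WMom lam0) : ∃ C V0 : ℝ, 0 < C ∧ 10 ≤ V0 ∧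
    ∀ V : ℝ, V0 ≤ V → ∀ T : ℝ, 2 * V ≤ T → T ≤ V ^ 2 → ∀ lam : ℝ, 4 * lam0 ≤ lam →
      lam ≤ Real.log T → ∀ v : ℝ, |v| ≤ 1 →
        |(∫ t in V..(2 * V), KR (Real.log T / lam) (Zf riemannZeta 1 T) t *
          KR (Real.log T / lam) (Zf riemannZeta 1 T) (t + v)) -
          V * (lam ^ 2 + ga0 (v * (Real.log T / lam)))| ≤
        C * V * (1 / lam + |v| + lam ^ 3 * (1 + Real.log (T / V)) / Real.log T) := by
  classical
  obtain ⟨C1, V1, hC1, hV1, hblk⟩ := blk h16 hW
  obtain ⟨C2, T2, hC2, hT2, hpart⟩ := KR_part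
  obtain ⟨V3, hV3⟩ := (ev_sqrt (show (0 : ℝ) < 8 by norm_num) 3).exists_forall_of_atTop
  refine ⟨2 * C1 + 12 * C2 ^ 2 + 10, max (max V1 T2) (max V3 100), by positivity,
    hV1.trans ((le_max_left _ _).trans (le_max_left _ _)), fun V hV T hVT hTV lam hlam hlamL v hv => ?_⟩
  have hVV1 : V1 ≤ V := ((le_max_left _ _).trans (le_max_left _ _)).trans hV
  have hVT2 : T2 ≤ V := ((le_max_right _ _).trans (le_max_left _ _)).trans hV
  have hVV3 : V3 ≤ V := ((le_max_left _ _).trans (le_max_right _ _)).trans hV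
  have hV100 : 100 ≤ V := ((le_max_right _ _).trans (le_max_right _ _)).trans hV
  obtain ⟨U1, U2, hU1, hU1', hU2, hU2', hb⟩ := hblk V hVV1
  have hVpos : 0 < V := by linarith
  have hTpos : 0 < T := by linarith
  have hU : 1 ≤ U1 := by linarith
  set L := Real.log T with hL
  set Lv := Real.log V with hLv
  have hLv0 : 0 < Lv := Real.log_pos (by linarith)
  have hLvL : Lv ≤ L := Real.log_le_log hVpos (by linarith)
  have hL2 : L ≤ 2 * Lv := by
    have := Real.log_le_log hTpos hTV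
    rw [Real.log_pow] at this
    exact_mod_cast this
  have hLpos : 0 < L := by linarith
  have hlampos : 0 < lam := by linarith
  set s := Real.sqrt V with hs
  have hs10 : 10 ≤ s := by
    rw [hs]; exact Real.le_sqrt_of_sq_le (by linarith)
  have hss : s * s = V := Real.mul_self_sqrt hVpos.le
  have hLs : 8 * Lv ^ 3 ≤ s := hV3 V hVV3
  have hL3s : L ^ 3 ≤ s := by
    have : L ^ 3 ≤ (2 * Lv) ^ 3 := pow_le_pow_left₀ hLpos.le hL2 3
    linarith [this, hLs, (by ring : (2 * Lv) ^ 3 = 8 * Lv ^ 3)]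
  have hLv1 : Lv ≤ s - 1 := by
    have h1 : Real.log s ≤ s / 4 + 1 := by
      have h2 := Real.log_le_sub_one_of_pos (show 0 < s / 4 by linarith)
      rw [Real.log_div (by linarith) (by norm_num)] at h2
      have h3 : Real.log 4 ≤ 2 := by
        have : Real.log 4 = 2 * Real.log 2 := by
          rw [show (4 : ℝ) = 2 ^ 2 by norm_num, Real.log_pow]; push_cast; ring
        have := Real.log_two_lt_d9
        linarith
      linarith
    have h2 : Lv = 2 * Real.log s := by
      rw [hLv, ← hss, Real.log_mul (by linarith) (by linarith)]; ring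
    linarith
  set l := L / lam with hl
  have hl1 : 1 ≤ l := by rw [hl, le_div_iff₀ hlampos, one_mul]; exact hlamL
  set S := Zf riemannZeta 1 T with hS
  set SV := Zf riemannZeta U1 U2 with hSV
  have hsub : SV ⊆ S := by
    intro z hz
    rw [hSV, mem_Zf good_zeta hU] at hz
    rw [hS, mem_Zf good_zeta le_rfl]
    exact ⟨hz.1, hz.2.1, by linarith [hz.2.2.1], by linarith [hz.2.2.2.1], hz.2.2.2.2⟩
  have hfar : ∀ t : ℝ, V + s ≤ t → t ≤ 2 * V - s → ∀ z ∈ S \ SV, s / 2 ≤ |t - z.im| := by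
    intro t h1 h2 z hz
    rw [Finset.mem_sdiff, hS, hSV, mem_Zf good_zeta le_rfl, mem_Zf good_zeta hU] at hz
    obtain ⟨⟨g1, g2, g3, g4, g5⟩, g6⟩ := hz
    by_cases h3 : U1 < z.im
    · have h4 : U2 < z.im := by
        by_contra h4
        exact g6 ⟨g1, g2, h3, not_lt.1 h4, g5⟩
      rw [abs_sub_comm]
      exact (by linarith : s / 2 ≤ z.im - t).trans (le_abs_self _)
    · exact (by linarith : s / 2 ≤ t - z.im).trans (le_abs_self _)
  set M := C2 * L with hM
  have hM0 : 0 < M := by positivity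
  have hKT : ∀ t, |KR l S t| ≤ M := by
    intro t
    have := hpart T (by linarith) l hl1 t 0 le_rfl S (Finset.Subset.refl _) (fun _ _ => abs_nonneg _)
    simpa using this
  have hKV : ∀ t, |KR l SV t| ≤ M := by
    intro t
    have := hpart T (by linarith) l hl1 t 0 le_rfl SV hsub (fun _ _ => abs_nonneg _)
    simpa using this
  have hKD : ∀ t : ℝ, V + s ≤ t → t ≤ 2 * V - s → |KR l (S \ SV) t| ≤ 4 * M / V := by
    intro t h1 h2
    have h3 := hpart T (by linarith) l hl1 t (s / 2) (by linarith) (S \ SV) Finset.sdiff_subset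
      (hfar t h1 h2)
    refine h3.trans ?_
    rw [← hL, ← hM, div_le_div_iff₀ (by positivity) hVpos]
    have : (s / 2) ^ 2 = V / 4 := by rw [← hss]; ring
    rw [this]
    nlinarith only [hM0, hVpos]
  set KT := KR l S with hKTd
  set KV := KR l SV with hKVd
  have cT : Continuous KT := KR_cont l S
  have cV : Continuous KV := KR_cont l SV
  have sh : Continuous fun t : ℝ => t + v := continuous_id.add continuous_const
  have cT' : Continuous fun t => KT (t + v) := cT.comp sh
  have cV' : Continuous fun t => KV (t + v) := cV.comp sh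
  have iT : ∀ x y, IntervalIntegrable (fun t => KT t * KT (t + v)) volume x y := fun x y =>
    (cT.mul cT').intervalIntegrable x y
  have iV : ∀ x y, IntervalIntegrable (fun t => KV t * KV (t + v)) volume x y := fun x y =>
    (cV.mul cV').intervalIntegrable x y
  rw [abs_le] at hv
  set a := V + 2 * s with ha
  set b := 2 * V - 2 * s with hb'
  have h10s : 10 * s ≤ V := by rw [← hss]; nlinarith only [hs10]
  have hab : a ≤ b := by rw [ha, hb']; linarith
  -- the local correlation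
  set lv := lam * (Lv / L) with hlv
  have hρ1 : 1 / 2 ≤ Lv / L := by rw [le_div_iff₀ hLpos]; linarith
  have hρ2 : Lv / L ≤ 1 := by rw [div_le_one hLpos]; exact hLvL
  have hlv1 : lam / 2 ≤ lv := by
    rw [hlv]; nlinarith only [hρ1, hlampos]
  have hlv2 : lv ≤ lam := by rw [hlv]; exact mul_le_of_le_one_right hlampos.le hρ2
  have hlvpos : 0 < lv := by linarith
  have hlvL : lv ≤ Lv := by
    rw [hlv, mul_div_assoc', div_le_iff₀ hLpos, mul_comm]
    exact mul_le_mul_of_nonneg_left hlamL hLv0.le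
  have hleq : Lv / lv = l := by
    rw [hlv, hl]; field_simp
  have h1 := hb lv (by linarith) hlvL a b v (by rw [ha]; linarith) hab (by rw [hb']; linarith)
    (by rw [ha]; linarith) (by rw [hb']; linarith)
  rw [hleq] at h1
  -- the difference inside
  have h2 : |(∫ t in a..b, KT t * KT (t + v)) - ∫ t in a..b, KV t * KV (t + v)| ≤ 8 * M ^ 2 := by
    rw [← intervalIntegral.integral_sub (iT _ _) (iV _ _)]
    have h3 : ∀ t ∈ Set.uIoc a b, ‖KT t * KT (t + v) - KV t * KV (t + v)‖ ≤ 8 * M ^ 2 / V := by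
      intro t ht
      rw [Set.uIoc_of_le hab] at ht
      have k1 : KT t = KR l (S \ SV) t + KV t := KR_split hsub t
      have k2 : KT (t + v) = KR l (S \ SV) (t + v) + KV (t + v) := KR_split hsub (t + v)
      have k3 := hKD t (by rw [ha] at ht; linarith [ht.1]) (by rw [hb'] at ht; linarith [ht.2])
      have k4 := hKD (t + v) (by rw [ha] at ht; linarith [ht.1]) (by rw [hb'] at ht; linarith [ht.2])
      have k5 : KT t * KT (t + v) - KV t * KV (t + v) =
          KR l (S \ SV) t * KT (t + v) + KV t * KR l (S \ SV) (t + v) := by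
        rw [k2, k1]; ring
      rw [Real.norm_eq_abs, k5]
      refine (abs_add_le _ _).trans ?_
      rw [abs_mul, abs_mul]
      have k6 : |KR l (S \ SV) t| * |KT (t + v)| ≤ 4 * M / V * M :=
        mul_le_mul k3 (hKT _) (abs_nonneg _) (by positivity)
      have k7 : |KV t| * |KR l (S \ SV) (t + v)| ≤ M * (4 * M / V) :=
        mul_le_mul (hKV _) k4 (abs_nonneg _) hM0.le
      have k8 : 4 * M / V * M + M * (4 * M / V) = 8 * M ^ 2 / V := by ring
      linarith
    have h4 := intervalIntegral.norm_integral_le_of_norm_le_const h3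
    rw [Real.norm_eq_abs, abs_of_nonneg (by linarith : 0 ≤ b - a)] at h4
    refine h4.trans ?_
    rw [div_mul_eq_mul_div, div_le_iff₀ hVpos]
    apply mul_le_mul_of_nonneg_left _ (by positivity)
    rw [ha, hb']; linarith
  -- the edges
  have hedge : ∀ x y, x ≤ y → |∫ t in x..y, KT t * KT (t + v)| ≤ M ^ 2 * (y - x) := by
    intro x y hxy
    have h3 : ∀ t ∈ Set.uIoc x y, ‖KT t * KT (t + v)‖ ≤ M ^ 2 := by
      intro t _
      rw [Real.norm_eq_abs, abs_mul, sq]
      exact mul_le_mul (hKT _) (hKT _) (abs_nonneg _) hM0.le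
    have h4 := intervalIntegral.norm_integral_le_of_norm_le_const h3
    rwa [Real.norm_eq_abs, abs_of_nonneg (by linarith : 0 ≤ y - x)] at h4
  have e1 : ∫ t in V..(2 * V), KT t * KT (t + v) = (∫ t in V..a, KT t * KT (t + v)) +
      (∫ t in a..b, KT t * KT (t + v)) + ∫ t in b..(2 * V), KT t * KT (t + v) := by
    rw [intervalIntegral.integral_add_adjacent_intervals (iT _ _) (iT _ _),
      intervalIntegral.integral_add_adjacent_intervals (iT _ _) (iT _ _)]
  have h5 := hedge V a (by rw [ha]; linarith)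
  have h6 := hedge b (2 * V) (by rw [hb']; linarith)
  have h7 : a - V = 2 * s := by rw [ha]; ring
  have h8 : 2 * V - b = 2 * s := by rw [hb']; ring
  rw [h7] at h5
  rw [h8] at h6
  -- the main terms
  set g0 := ga0 (v * l) with hg0
  have hg01 : |g0| ≤ 1 := ga0_le _
  have hL1 : 1 ≤ L := by linarith
  have hlam1 : 1 ≤ lam := by linarith
  set θ := Real.log (T / V) with hθ
  have hθe : θ = L - Lv := by rw [hθ, Real.log_div hTpos.ne' hVpos.ne']
  have hθ0 : 0 ≤ θ := by rw [hθe]; linarith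
  have h9 : |(b - a) * (lv ^ 2 + g0) - V * (lam ^ 2 + g0)| ≤
      8 * s * L ^ 2 + 2 * V * (lam ^ 2 * θ / L) := by
    have k1 : (b - a) * (lv ^ 2 + g0) - V * (lam ^ 2 + g0) =
        -(4 * s * (lv ^ 2 + g0)) - V * (lam ^ 2 - lv ^ 2) := by rw [ha, hb']; ring
    rw [k1]
    refine (abs_sub _ _).trans ?_
    rw [abs_neg, abs_mul (4 * s), abs_mul V, abs_of_pos hVpos, abs_of_pos (by linarith : 0 < 4 * s)]
    have k2 : |lv ^ 2 + g0| ≤ 2 * L ^ 2 := by
      refine (abs_add_le _ _).trans ?_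
      rw [abs_of_nonneg (sq_nonneg _)]
      have k3 : lv ^ 2 ≤ L ^ 2 := pow_le_pow_left₀ hlvpos.le (hlv2.trans hlamL) 2
      have k4 : 1 ≤ L ^ 2 := one_le_pow₀ hL1
      linarith
    have k3 : |lam ^ 2 - lv ^ 2| ≤ 2 * (lam ^ 2 * θ / L) := by
      have k4 : lam ^ 2 - lv ^ 2 = lam ^ 2 * ((1 - Lv / L) * (1 + Lv / L)) := by rw [hlv]; ring
      have k5 : 1 - Lv / L = θ / L := by rw [hθe]; field_simp
      rw [k4, k5, abs_of_nonneg (by positivity)]
      calc lam ^ 2 * (θ / L * (1 + Lv / L)) ≤ lam ^ 2 * (θ / L * 2) := by gcongr; linarith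
        _ = _ := by ring
    have k6 : 4 * s * |lv ^ 2 + g0| ≤ 4 * s * (2 * L ^ 2) :=
      mul_le_mul_of_nonneg_left k2 (by linarith)
    have k7 : V * |lam ^ 2 - lv ^ 2| ≤ V * (2 * (lam ^ 2 * θ / L)) :=
      mul_le_mul_of_nonneg_left k3 hVpos.le
    linarith
  -- the small terms
  have hsL : s * L ^ 2 ≤ V * (1 / L) := by
    rw [mul_one_div, le_div_iff₀ hLpos, ← hss]
    calc s * L ^ 2 * L = s * L ^ 3 := by ring
      _ ≤ s * s := mul_le_mul_of_nonneg_left hL3s (by linarith)
  have hM2 : M ^ 2 = C2 ^ 2 * L ^ 2 := by rw [hM]; ring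
  have hLL : L ^ 2 ≤ s * L ^ 2 := le_mul_of_one_le_left (sq_nonneg _) (by linarith)
  set R := lam ^ 3 * (1 + θ) / L with hR
  have hR1 : 1 / L ≤ R := by
    rw [hR]
    apply div_le_div_of_nonneg_right _ hLpos.le
    have k1 : 1 ≤ lam ^ 3 := one_le_pow₀ hlam1
    have k2 : 1 * 1 ≤ lam ^ 3 * (1 + θ) := mul_le_mul k1 (by linarith) zero_le_one (by positivity)
    linarith
  have hR2 : lam ^ 2 * θ / L ≤ R := by
    rw [hR]
    apply div_le_div_of_nonneg_right _ hLpos.le
    have k1 : lam ^ 2 ≤ lam ^ 3 := pow_le_pow_right₀ hlam1 (by norm_num)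
    exact mul_le_mul k1 (by linarith) hθ0 (by positivity)
  have hR3 : lv ^ 3 / Lv ≤ 2 * R := by
    have k1 : lv ^ 3 ≤ lam ^ 3 := pow_le_pow_left₀ hlvpos.le hlv2 3
    have k2 : lv ^ 3 / Lv ≤ lam ^ 3 / (L / 2) := by
      apply div_le_div₀ (by positivity) k1 (by positivity) (by linarith)
    have k3 : lam ^ 3 / (L / 2) = 2 * (lam ^ 3 / L) := by field_simp
    have k4 : lam ^ 3 / L ≤ R := by
      rw [hR]
      apply div_le_div_of_nonneg_right _ hLpos.le
      nlinarith only [show 0 ≤ lam ^ 3 * θ by positivity]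
    linarith
  have hR4 : 1 / lv ≤ 2 * (1 / lam) := by
    rw [mul_one_div, div_le_div_iff₀ hlvpos hlampos]
    linarith
  have hR0 : 0 ≤ R := le_trans (by positivity) hR1
  have hv0 := abs_nonneg v
  have e2 : (∫ t in V..(2 * V), KT t * KT (t + v)) - V * (lam ^ 2 + g0) =
      (∫ t in V..a, KT t * KT (t + v)) + (∫ t in b..(2 * V), KT t * KT (t + v)) +
      ((∫ t in a..b, KT t * KT (t + v)) - ∫ t in a..b, KV t * KV (t + v)) +
      ((∫ t in a..b, KV t * KV (t + v)) - (b - a) * (lv ^ 2 + g0)) +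
      ((b - a) * (lv ^ 2 + g0) - V * (lam ^ 2 + g0)) := by
    rw [e1]; ring
  rw [e2]
  refine (abs_add_le _ _).trans ((add_le_add_left ((abs_add_le _ _).trans (add_le_add_left
    ((abs_add_le _ _).trans (add_le_add_left (abs_add_le _ _) _)) _)) _).trans ?_)
  have z1 : C1 * V * (1 / lv + lv ^ 3 / Lv + |v|) ≤ C1 * V * (2 * (1 / lam) + 2 * R + |v|) := by
    gcongr
  have z2 : V * (1 / L) ≤ V * R := mul_le_mul_of_nonneg_left hR1 hVpos.le
  have z3 : V * (lam ^ 2 * θ / L) ≤ V * R := mul_le_mul_of_nonneg_left hR2 hVpos.le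
  have z4 : C2 ^ 2 * L ^ 2 ≤ C2 ^ 2 * (s * L ^ 2) := mul_le_mul_of_nonneg_left hLL (by positivity)
  have z5 : C2 ^ 2 * (s * L ^ 2) ≤ C2 ^ 2 * (V * R) :=
    mul_le_mul_of_nonneg_left (hsL.trans z2) (by positivity)
  have z6 : s * L ^ 2 ≤ V * R := hsL.trans z2
  rw [hM2] at h2 h5 h6
  have z7 : 0 ≤ (12 * C2 ^ 2 + 10) * (V * (1 / lam)) := by positivity
  have z8 : 0 ≤ C1 * V * |v| := by positivity
  have z9 : 0 ≤ (12 * C2 ^ 2 + 10) * (V * |v|) := by positivity
  have e3 : (2 * C1 + 12 * C2 ^ 2 + 10) * V * (1 / lam + |v| + R) =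
      C1 * V * (2 * (1 / lam) + 2 * R + |v|) + C1 * V * |v| + (12 * C2 ^ 2 + 10) * (V * (1 / lam)) +
      (12 * C2 ^ 2 + 10) * (V * |v|) + 12 * (C2 ^ 2 * (V * R)) + 10 * (V * R) := by ring
  rw [e3]
  linarith


lemma q0_int (l : ℝ) (hl : 0 < l) (s : ℂ) : Integrable fun t : ℝ => qk 0 (xx l s t) := by
  have h1 := (qk_integrable 0).comp_mul_right' (R := l / (2 * Real.pi))
    (by have := Real.pi_pos; positivity)
  have h2 := h1.comp_sub_right s.im
  exact h2

lemma KR_int {l : ℝ} (hl : 0 < l) (S : Finset ℂ) : Integrable (KR l S) := by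
  unfold KR
  exact integrable_finsetSum _ fun s _ => (q0_int l hl s).const_mul _

lemma prod_int {l : ℝ} (hl : 0 < l) (S : Finset ℂ) {M : ℝ} (hM : ∀ t, |KR l S t| ≤ M) (v : ℝ) :
    Integrable fun t => KR l S t * KR l S (t + v) := by
  have hc := KR_cont l S
  have sh : Continuous fun t : ℝ => t + v := continuous_id.add continuous_const
  refine Integrable.mono' ((KR_int hl S).norm.mul_const M)
    (hc.mul (hc.comp sh)).aestronglyMeasurable (Eventually.of_forall fun t => ?_)
  rw [norm_mul]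
  exact mul_le_mul_of_nonneg_left (hM _) (norm_nonneg _)

/-- correlations over the whole line -/
theorem glo {lam0 : ℝ} (h16 : 16 ≤ lam0) (hW : WMom lam0) : ∃ C T0 : ℝ, 0 < C ∧ 10 ≤ T0 ∧
    ∀ T : ℝ, T0 ≤ T → ∀ lam : ℝ, 4 * lam0 ≤ lam → lam ≤ Real.log T → ∀ v : ℝ, |v| ≤ 1 →
      |(∫ t, KR (Real.log T / lam) (Zf riemannZeta 1 T) t *
        KR (Real.log T / lam) (Zf riemannZeta 1 T) (t + v)) -
        T * (lam ^ 2 + ga0 (v * (Real.log T / lam)))| ≤
      C * T * (1 / lam + lam ^ 3 / Real.log T + |v|) := by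
  obtain ⟨Cb, V0, hCb, hV0, hblk⟩ := blk2 h16 hW
  obtain ⟨C2, T2, hC2, hT2, hpart⟩ := KR_part
  have hpi := Real.pi_pos
  have ev1 := ev_sqrt (show (0 : ℝ) < 1 by norm_num) 3
  have ev2 : ∀ᶠ T : ℝ in atTop, max V0 (max T2 10) ≤ Real.sqrt T :=
    (Filter.Tendsto.eventually_ge_atTop Real.tendsto_sqrt_atTop _)
  obtain ⟨T1, hT1⟩ := (ev1.and ev2).exists_forall_of_atTop
  refine ⟨3 * Cb + 10 * C2 ^ 2 + 4, max T1 10, by positivity, le_max_right _ _,
    fun T hT lam hlam hlamL v hv => ?_⟩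
  obtain ⟨g1, g2⟩ := hT1 T ((le_max_left _ _).trans hT)
  rw [one_mul] at g1
  have hT10 : 10 ≤ T := (le_max_right _ _).trans hT
  have hTpos : 0 < T := by linarith
  have hsV0 : V0 ≤ Real.sqrt T := (le_max_left _ _).trans g2
  have hsT2 : T2 ≤ Real.sqrt T := ((le_max_left _ _).trans (le_max_right _ _)).trans g2
  have hs10 : 10 ≤ Real.sqrt T := ((le_max_right _ _).trans (le_max_right _ _)).trans g2
  have hss : Real.sqrt T * Real.sqrt T = T := Real.mul_self_sqrt (by linarith)
  have hsT : Real.sqrt T ≤ T := by nlinarith only [hss, hs10]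
  obtain ⟨J, hJ1, hJ2⟩ := dy_J (by linarith : (1 : ℝ) ≤ T)
  set L := Real.log T with hL
  have hlampos : 0 < lam := by linarith
  have hLpos : 0 < L := by linarith
  set l := L / lam with hl
  have hl1 : 1 ≤ l := by rw [hl, le_div_iff₀ hlampos, one_mul]; exact hlamL
  have hlpos : 0 < l := by linarith
  set S := Zf riemannZeta 1 T with hS
  set M := C2 * L with hM
  have hM0 : 0 < M := by positivity
  have hK : ∀ t, |KR l S t| ≤ M := by
    intro t
    have := hpart T (by linarith) l hl1 t 0 le_rfl S (Finset.Subset.refl _) (fun _ _ => abs_nonneg _)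
    simpa using this
  have hint := prod_int hlpos S hK v
  set f : ℝ → ℝ := fun t => KR l S t * KR l S (t + v) with hf
  have hfc : Continuous f := (KR_cont l S).mul ((KR_cont l S).comp (continuous_id.add continuous_const))
  have hfii : ∀ x y, IntervalIntegrable f volume x y := fun x y => hfc.intervalIntegrable x y
  have hS1 : ∀ z ∈ S, 1 < z.im ∧ z.im ≤ T := by
    intro z hz
    rw [hS, mem_Zf good_zeta le_rfl] at hz
    exact ⟨hz.2.2.1, hz.2.2.2.1⟩
  -- outside
  have hneg : |∫ t in Iic (0 : ℝ), f t| ≤ M ^ 2 * Real.pi := by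
    have h1 : ∀ t ∈ Iic (0 : ℝ), ‖f t‖ ≤ M ^ 2 * (1 + t ^ 2)⁻¹ := by
      intro t ht
      have ht0 : t ≤ 0 := ht
      have h2 := hpart T (by linarith) l hl1 t (-t) (by linarith) S (Finset.Subset.refl _)
        (fun z hz => by
          have := hS1 z hz
          rw [abs_sub_comm]
          exact (by linarith : -t ≤ z.im - t).trans (le_abs_self _))
      rw [← hL, ← hM, neg_sq] at h2
      simp only [hf]
      rw [Real.norm_eq_abs, abs_mul]
      calc |KR l S t| * |KR l S (t + v)| ≤ M / (1 + t ^ 2) * M :=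
            mul_le_mul h2 (hK _) (abs_nonneg _) (by positivity)
        _ = _ := by rw [sq, div_eq_mul_inv]; ring
    have h2 : IntegrableOn (fun t : ℝ => M ^ 2 * (1 + t ^ 2)⁻¹) (Iic 0) :=
      (integrable_inv_one_add_sq.const_mul _).integrableOn
    have h3 := norm_integral_le_of_norm_le h2
      ((ae_restrict_iff' measurableSet_Iic).2 (Eventually.of_forall h1))
    rw [Real.norm_eq_abs] at h3
    refine h3.trans ?_
    rw [integral_const_mul]
    apply mul_le_mul_of_nonneg_left _ (sq_nonneg _)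
    rw [← integral_univ_inv_one_add_sq]
    exact setIntegral_le_integral integrable_inv_one_add_sq
      (Eventually.of_forall fun t => by positivity)
  have hpos : |∫ t in Ioi T, f t| ≤ M ^ 2 * Real.pi := by
    have i0 : Integrable fun t : ℝ => (1 + (t - T) ^ 2)⁻¹ := integrable_inv_one_add_sq.comp_sub_right T
    have h1 : ∀ t ∈ Ioi T, ‖f t‖ ≤ M ^ 2 * (1 + (t - T) ^ 2)⁻¹ := by
      intro t ht
      have ht0 : T < t := ht
      have h2 := hpart T (by linarith) l hl1 t (t - T) (by linarith) S (Finset.Subset.refl _)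
        (fun z hz => by
          have := hS1 z hz
          exact (by linarith : t - T ≤ t - z.im).trans (le_abs_self _))
      rw [← hL, ← hM] at h2
      simp only [hf]
      rw [Real.norm_eq_abs, abs_mul]
      calc |KR l S t| * |KR l S (t + v)| ≤ M / (1 + (t - T) ^ 2) * M :=
            mul_le_mul h2 (hK _) (abs_nonneg _) (by positivity)
        _ = _ := by rw [sq, div_eq_mul_inv]; ring
    have h2 : IntegrableOn (fun t : ℝ => M ^ 2 * (1 + (t - T) ^ 2)⁻¹) (Ioi T) :=
      (i0.const_mul _).integrableOn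
    have h3 := norm_integral_le_of_norm_le h2
      ((ae_restrict_iff' measurableSet_Ioi).2 (Eventually.of_forall h1))
    rw [Real.norm_eq_abs] at h3
    refine h3.trans ?_
    rw [integral_const_mul]
    apply mul_le_mul_of_nonneg_left _ (sq_nonneg _)
    rw [← integral_univ_inv_one_add_sq, ← integral_sub_right_eq_self (fun t : ℝ => (1 + t ^ 2)⁻¹) T]
    exact setIntegral_le_integral i0 (Eventually.of_forall fun t => by positivity)
  have hsplit0 : ∫ t, f t = (∫ t in Iic (0 : ℝ), f t) + ((∫ t in (0 : ℝ)..T, f t) + ∫ t in Ioi T, f t) := by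
    rw [intervalIntegral.integral_interval_add_Ioi hint.integrableOn hint.integrableOn,
      intervalIntegral.integral_Iic_add_Ioi hint.integrableOn hint.integrableOn]
  -- the blocks
  set V : ℕ → ℝ := fun j => T / 2 ^ j with hV
  have hVpos : ∀ j, 0 < V j := fun j => by rw [hV]; positivity
  have hVs : ∀ j, V j = 2 * V (j + 1) := by
    intro j
    simp only [hV, pow_succ]
    field_simp
  have hVT : ∀ j, V j ≤ T := by
    intro j
    simp only [hV]
    exact div_le_self (by linarith) (one_le_pow₀ (by norm_num))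
  have hVJ : ∀ j, j ≤ J → Real.sqrt T ≤ V j := by
    intro j hj
    refine hJ1.trans ?_
    simp only [hV]
    apply div_le_div_of_nonneg_left (by linarith) (by positivity)
    exact pow_le_pow_right₀ (by norm_num) hj
  have hlog2 : Real.log 2 ≤ 1 := by
    have := Real.log_two_lt_d9
    linarith
  have hVlog : ∀ j, Real.log (T / V j) ≤ j := by
    intro j
    have : T / V j = 2 ^ j := by simp only [hV]; field_simp
    rw [this, Real.log_pow]
    have h0 : (0 : ℝ) ≤ j := Nat.cast_nonneg _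
    nlinarith only [hlog2, h0]
  have hsum0 : ∑ j ∈ Finset.range J, V (j + 1) = T - V J := dy_sum0 T J
  have hsum1 : ∑ j ∈ Finset.range J, (j + 1 : ℝ) * V (j + 1) ≤ 2 * T := dy_sum1 (by linarith) J
  have hsplit : ∫ t in (0 : ℝ)..T, f t = (∫ t in (0 : ℝ)..(V J), f t) +
      ∑ j ∈ Finset.range J, ∫ t in (V (j + 1))..(V j), f t := by
    have h1 := intervalIntegral.sum_integral_adjacent_intervals (f := f)
      (μ := volume) (a := V) (n := J) fun k _ => hfii _ _
    have h2 : ∑ j ∈ Finset.range J, ∫ t in (V (j + 1))..(V j), f t =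
        -∑ j ∈ Finset.range J, ∫ t in (V j)..(V (j + 1)), f t := by
      rw [← Finset.sum_neg_distrib]
      exact Finset.sum_congr rfl fun j _ => intervalIntegral.integral_symm _ _
    rw [h2, h1, ← intervalIntegral.integral_symm]
    have h3 : V 0 = T := by simp [hV]
    rw [h3, intervalIntegral.integral_add_adjacent_intervals (hfii _ _) (hfii _ _)]
  have hlow : |∫ t in (0 : ℝ)..(V J), f t| ≤ M ^ 2 * (2 * Real.sqrt T) := by
    have h3 : ∀ t ∈ Set.uIoc (0 : ℝ) (V J), ‖f t‖ ≤ M ^ 2 := by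
      intro t _
      simp only [hf]
      rw [Real.norm_eq_abs, abs_mul, sq]
      exact mul_le_mul (hK _) (hK _) (abs_nonneg _) hM0.le
    have h4 := intervalIntegral.norm_integral_le_of_norm_le_const h3
    have h5 := hVpos J
    rw [Real.norm_eq_abs, sub_zero, abs_of_pos h5] at h4
    exact h4.trans (mul_le_mul_of_nonneg_left hJ2 (sq_nonneg _))
  set g0 := ga0 (v * l) with hg0
  have hg01 : |g0| ≤ 1 := ga0_le _
  have hbl : ∀ j ∈ Finset.range J, |(∫ t in (V (j + 1))..(V j), f t) - V (j + 1) * (lam ^ 2 + g0)| ≤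
      Cb * (1 / lam + |v| + lam ^ 3 / L) * V (j + 1) + Cb * (lam ^ 3 / L) * ((j + 1 : ℝ) * V (j + 1)) := by
    intro j hj
    rw [Finset.mem_range] at hj
    have hVsq : T ≤ V (j + 1) ^ 2 := by
      have := pow_le_pow_left₀ (by linarith) (hVJ (j + 1) hj) 2
      rw [sq, hss] at this
      exact this
    have hB := hblk (V (j + 1)) (hsV0.trans (hVJ _ hj)) T (by rw [← hVs]; exact hVT j) hVsq lam
      hlam hlamL v hv
    rw [← hVs, ← hL, ← hl, ← hS] at hB
    have hVp := hVpos (j + 1)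
    refine hB.trans ?_
    have h1 : Real.log (T / V (j + 1)) ≤ (j + 1 : ℝ) := by
      have := hVlog (j + 1)
      push_cast at this
      exact this
    calc Cb * V (j + 1) * (1 / lam + |v| + lam ^ 3 * (1 + Real.log (T / V (j + 1))) / L) ≤
        Cb * V (j + 1) * (1 / lam + |v| + lam ^ 3 * (1 + (j + 1 : ℝ)) / L) := by gcongr
      _ = _ := by ring
  have hsumb : |(∑ j ∈ Finset.range J, ∫ t in (V (j + 1))..(V j), f t) -
      (T - V J) * (lam ^ 2 + g0)| ≤ 3 * Cb * T * (1 / lam + lam ^ 3 / L + |v|) := by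
    rw [← hsum0, Finset.sum_mul, ← Finset.sum_sub_distrib]
    refine (Finset.abs_sum_le_sum_abs _ _).trans ((Finset.sum_le_sum hbl).trans ?_)
    rw [Finset.sum_add_distrib, ← Finset.mul_sum, ← Finset.mul_sum, hsum0]
    have hVJp := hVpos J
    have k1 : Cb * (1 / lam + |v| + lam ^ 3 / L) * (T - V J) ≤
        Cb * (1 / lam + |v| + lam ^ 3 / L) * T :=
      mul_le_mul_of_nonneg_left (by linarith) (by positivity)
    have k2 : Cb * (lam ^ 3 / L) * (∑ j ∈ Finset.range J, (j + 1 : ℝ) * V (j + 1)) ≤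
        Cb * (lam ^ 3 / L) * (2 * T) := mul_le_mul_of_nonneg_left hsum1 (by positivity)
    have k3 : 0 ≤ Cb * T * (1 / lam) := by positivity
    have k4 : 0 ≤ Cb * T * |v| := by positivity
    have e1 : 3 * Cb * T * (1 / lam + lam ^ 3 / L + |v|) =
        Cb * (1 / lam + |v| + lam ^ 3 / L) * T + Cb * (lam ^ 3 / L) * (2 * T) +
          2 * (Cb * T * (1 / lam)) + 2 * (Cb * T * |v|) := by ring
    rw [e1]
    linarith
  have hmain : (∫ t, f t) - T * (lam ^ 2 + g0) = (∫ t in Iic (0 : ℝ), f t) + (∫ t in Ioi T, f t) +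
      (∫ t in (0 : ℝ)..(V J), f t) +
      ((∑ j ∈ Finset.range J, ∫ t in (V (j + 1))..(V j), f t) - (T - V J) * (lam ^ 2 + g0)) -
      V J * (lam ^ 2 + g0) := by
    rw [hsplit0, hsplit]; ring
  have hlast : |V J * (lam ^ 2 + g0)| ≤ 2 * Real.sqrt T * (2 * L ^ 2) := by
    rw [abs_mul, abs_of_pos (hVpos J)]
    apply mul_le_mul hJ2 _ (abs_nonneg _) (by positivity)
    refine (abs_add_le _ _).trans ?_
    rw [abs_of_nonneg (sq_nonneg _)]
    have k3 : lam ^ 2 ≤ L ^ 2 := pow_le_pow_left₀ hlampos.le hlamL 2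
    have k4 : 1 ≤ L ^ 2 := one_le_pow₀ (by linarith)
    linarith
  have hsmall : Real.sqrt T * L ^ 2 ≤ T * (lam ^ 3 / L) := by
    have h1 : Real.sqrt T * L ^ 2 ≤ T * (1 / L) := by
      rw [mul_one_div, le_div_iff₀ hLpos]
      calc Real.sqrt T * L ^ 2 * L = Real.sqrt T * L ^ 3 := by ring
        _ ≤ Real.sqrt T * Real.sqrt T := mul_le_mul_of_nonneg_left g1 (by linarith)
        _ = T := hss
    refine h1.trans (mul_le_mul_of_nonneg_left ?_ hTpos.le)
    apply div_le_div_of_nonneg_right _ hLpos.le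
    exact one_le_pow₀ (by linarith)
  rw [hmain]
  have hpi4 := Real.pi_lt_d2
  refine (abs_sub _ _).trans ((add_le_add_left ((abs_add_le _ _).trans (add_le_add_left
    ((abs_add_le _ _).trans (add_le_add_left (abs_add_le _ _) _)) _)) _).trans ?_)
  have hM2 : M ^ 2 = C2 ^ 2 * L ^ 2 := by rw [hM]; ring
  have z1 : M ^ 2 * Real.pi ≤ 4 * (C2 ^ 2 * (T * (lam ^ 3 / L))) := by
    have k1 : L ^ 2 ≤ T * (lam ^ 3 / L) :=
      le_trans (le_mul_of_one_le_left (sq_nonneg _) (by linarith)) hsmall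
    have k2 : M ^ 2 ≤ C2 ^ 2 * (T * (lam ^ 3 / L)) := by
      rw [hM2]; exact mul_le_mul_of_nonneg_left k1 (sq_nonneg _)
    calc M ^ 2 * Real.pi ≤ C2 ^ 2 * (T * (lam ^ 3 / L)) * 4 :=
          mul_le_mul k2 (by linarith) hpi.le (by positivity)
      _ = _ := by ring
  have z2 : M ^ 2 * (2 * Real.sqrt T) ≤ 2 * (C2 ^ 2 * (T * (lam ^ 3 / L))) := by
    have k1 := mul_le_mul_of_nonneg_left hsmall (sq_nonneg C2)
    calc M ^ 2 * (2 * Real.sqrt T) = 2 * (C2 ^ 2 * (Real.sqrt T * L ^ 2)) := by rw [hM2]; ring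
      _ ≤ _ := by linarith
  have z3 : 2 * Real.sqrt T * (2 * L ^ 2) ≤ 4 * (T * (lam ^ 3 / L)) := by linarith
  have hv0 := abs_nonneg v
  have z4 : 0 ≤ (10 * C2 ^ 2 + 4) * (T * (1 / lam)) := by positivity
  have z5 : 0 ≤ (10 * C2 ^ 2 + 4) * (T * |v|) := by positivity
  have e3 : (3 * Cb + 10 * C2 ^ 2 + 4) * T * (1 / lam + lam ^ 3 / L + |v|) =
      3 * Cb * T * (1 / lam + lam ^ 3 / L + |v|) + (10 * C2 ^ 2 + 4) * (T * (1 / lam)) +
      (10 * C2 ^ 2 + 4) * (T * |v|) + 10 * (C2 ^ 2 * (T * (lam ^ 3 / L))) +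
        4 * (T * (lam ^ 3 / L)) := by ring
  rw [e3]
  linarith

end Pool.Agent.W2helper93.SW
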