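import Pool.Agent.W2helper93.SW.Psi

set_option autoImplicit false

/-! # The limit functional on the dilates of the autocorrelation -/

namespace Pool.Agent.W2helper93.SW

open Filter Topology MeasureTheory Set
open Pool.Agent.TH850.UV
open Pool.Agent.Helper7.Simplex.OT.J26884 (sinc_fourier)

/-- the kernel `1 - (sin πx / πx)²` -/
noncomputable def ks (x : ℝ) : ℝ := 1 - Real.sinc (Real.pi * x) ^ 2

lemma sc2_cont : Continuous fun u : ℝ => Real.sinc (Real.pi * u) ^ 2 := by
  have := Real.continuous_sinc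
  fun_prop

lemma ks_cont : Continuous ks := by
  unfold ks
  exact continuous_const.sub sc2_cont

lemma sc2_le (x : ℝ) : Real.sinc (Real.pi * x) ^ 2 ≤ 1 := by
  have h := Real.abs_sinc_le_one (Real.pi * x)
  rw [← sq_abs]
  exact pow_le_one₀ (abs_nonneg _) h

lemma ks_nonneg (x : ℝ) : 0 ≤ ks x := sub_nonneg.2 (sc2_le x)

lemma ks_le (x : ℝ) : ks x ≤ 1 := by
  unfold ks
  have := sq_nonneg (Real.sinc (Real.pi * x))
  linarith

/-- the limit functional -/
noncomputable def gue (f : ℝ → ℝ) : ℝ := f 0 + ∫ x, f x * ks x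

lemma even_int {f : ℝ → ℝ} (hf : Continuous f) (he : ∀ x, f (-x) = f x) (a : ℝ) :
    ∫ x in (-a)..a, f x = 2 * ∫ x in (0 : ℝ)..a, f x := by
  have h1 : ∫ x in (-a)..a, f x = (∫ x in (-a)..0, f x) + ∫ x in (0 : ℝ)..a, f x :=
    (intervalIntegral.integral_add_adjacent_intervals (hf.intervalIntegrable _ _)
      (hf.intervalIntegrable _ _)).symm
  have h2 := intervalIntegral.integral_comp_neg (a := 0) (b := a) f
  rw [neg_zero] at h2
  simp_rw [he] at h2
  rw [h1, ← h2]; ring

lemma psi_dil {β : ℝ} (hβ : 0 < β) (u : ℝ) : ∫ x, β * psi (β * (x + u)) = 1 := by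
  rw [integral_const_mul, integral_add_right_eq_self (fun x => psi (β * x)) u,
    Measure.integral_comp_mul_left psi β, psi_one, smul_eq_mul, abs_of_pos (by positivity)]
  field_simp

lemma psi_dil_int {β : ℝ} (hβ : 0 < β) (u : ℝ) : Integrable fun x => psi (β * (x + u)) := by
  have h1 := psi_int.comp_mul_left' hβ.ne'
  exact h1.comp_add_right u

theorem gue_psi {β : ℝ} (hβ : 0 < β) (hβ2 : β ≤ 2) (u : ℝ) :
    gue (fun x => β * psi (β * (x + u))) = 1 + β ^ 2 * ga0 (2 * Real.pi * u * β) := by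
  have htc := om_cont0
  obtain ⟨hsi, -⟩ := sinc_fourier 0
  have hse : ∀ x : ℝ, Real.sinc (Real.pi * -x) ^ 2 = Real.sinc (Real.pi * x) ^ 2 := by
    intro x
    rw [mul_neg, Real.sinc_neg]
  have hf := fub (h := fun x => Real.sinc (Real.pi * x) ^ 2) sc2_cont hsi hse
    (w := fun α => om α ^ 2) (by fun_prop) β u
  have e1 : ∫ x, (β * psi (β * (x + u))) * ks x =
      1 - β * ∫ α in (-(1 / 2 : ℝ))..(1 / 2), om α ^ 2 * Real.cos (2 * Real.pi * (β * u) * α) *
        max 0 (1 - |β * α|) := by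
    have i1 : Integrable fun x => β * psi (β * (x + u)) := (psi_dil_int hβ u).const_mul _
    have i2 : Integrable fun x => Real.sinc (Real.pi * x) ^ 2 * psi (β * (x + u)) := by
      have hpc : Continuous fun x => psi (β * (x + u)) := psi_cont.comp (by fun_prop)
      refine Integrable.mono' (psi_dil_int hβ u).norm
        (sc2_cont.mul hpc).aestronglyMeasurable (Eventually.of_forall fun x => ?_)
      rw [norm_mul, Real.norm_of_nonneg (sq_nonneg _)]
      exact mul_le_of_le_one_left (norm_nonneg _) (sc2_le x)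
    have e2 : ∀ x, (β * psi (β * (x + u))) * ks x = β * psi (β * (x + u)) -
        β * (Real.sinc (Real.pi * x) ^ 2 * psi (β * (x + u))) := by
      intro x; unfold ks; ring
    simp_rw [e2]
    rw [integral_sub i1 (i2.const_mul _), psi_dil hβ, integral_const_mul]
    congr 2
    have e3 : ∀ x, psi (β * (x + u)) = ∫ α in (-(1 / 2 : ℝ))..(1 / 2), om α ^ 2 *
        Real.cos (2 * Real.pi * (β * (x + u)) * α) := fun x => psi_eq _
    simp_rw [e3]
    rw [hf]
    refine intervalIntegral.integral_congr fun α _ => ?_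
    rw [(sinc_fourier (β * α)).2]
  unfold gue
  rw [e1]
  simp only [zero_add]
  rw [psi_eq]
  have i3 : IntervalIntegrable (fun α => om α ^ 2 * Real.cos (2 * Real.pi * (β * u) * α)) volume
      (-(1 / 2 : ℝ)) (1 / 2) := Continuous.intervalIntegrable (by fun_prop) _ _
  have i4 : IntervalIntegrable (fun α => om α ^ 2 * Real.cos (2 * Real.pi * (β * u) * α) *
      max 0 (1 - |β * α|)) volume (-(1 / 2 : ℝ)) (1 / 2) :=
    Continuous.intervalIntegrable (by fun_prop) _ _
  have e4 : β * (∫ α in (-(1 / 2 : ℝ))..(1 / 2), om α ^ 2 * Real.cos (2 * Real.pi * (β * u) * α)) +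
      (1 - β * ∫ α in (-(1 / 2 : ℝ))..(1 / 2), om α ^ 2 * Real.cos (2 * Real.pi * (β * u) * α) *
        max 0 (1 - |β * α|)) = 1 + β * ∫ α in (-(1 / 2 : ℝ))..(1 / 2),
        (om α ^ 2 * Real.cos (2 * Real.pi * (β * u) * α) -
          om α ^ 2 * Real.cos (2 * Real.pi * (β * u) * α) * max 0 (1 - |β * α|)) := by
    rw [intervalIntegral.integral_sub i3 i4]; ring
  rw [e4]
  have e5 : ∫ α in (-(1 / 2 : ℝ))..(1 / 2), (om α ^ 2 * Real.cos (2 * Real.pi * (β * u) * α) -
      om α ^ 2 * Real.cos (2 * Real.pi * (β * u) * α) * max 0 (1 - |β * α|)) =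
      ∫ α in (-(1 / 2 : ℝ))..(1 / 2), β * (|α| * (om α ^ 2 * Real.cos (2 * Real.pi * u * β * α))) := by
    refine intervalIntegral.integral_congr fun α hα => ?_
    rw [Set.uIcc_of_le (by norm_num)] at hα
    have h1 : |α| ≤ 1 / 2 := abs_le.2 ⟨by linarith [hα.1], hα.2⟩
    have h2 : |β * α| ≤ 1 := by
      rw [abs_mul, abs_of_pos hβ]
      nlinarith only [h1, hβ2, hβ, abs_nonneg α]
    rw [max_eq_right (by linarith), abs_mul, abs_of_pos hβ,
      show 2 * Real.pi * u * β * α = 2 * Real.pi * (β * u) * α by ring]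
    ring
  rw [e5, intervalIntegral.integral_const_mul, even_int (by fun_prop) (fun x => ?_)]
  · unfold ga0
    have e6 : ∫ α in (0 : ℝ)..(1 / 2), |α| * (om α ^ 2 * Real.cos (2 * Real.pi * u * β * α)) =
        ∫ α in (0 : ℝ)..(1 / 2), α * (om α ^ 2 * Real.cos (2 * Real.pi * u * β * α)) := by
      refine intervalIntegral.integral_congr fun α hα => ?_
      rw [Set.uIcc_of_le (by norm_num)] at hα
      rw [abs_of_nonneg hα.1]
    rw [e6]
    ring
  · rw [abs_neg, show om (-x) = om x from KernAux.om_neg x, mul_neg, Real.cos_neg]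

end Pool.Agent.W2helper93.SW
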