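import Pool.Agent.W2helper93.SW.PB
import Pool.Agent.W2helper93.SW.Glo
import Pool.Agent.W2helper93.SW.Gue

set_option autoImplicit false

/-! # Pair sums against the dilates of the autocorrelation -/

namespace Pool.Agent.W2helper93.SW

open Complex Filter Topology MeasureTheory Set
open Pool.Agent.W2helper93.NV
open Pool.Agent.TH850.UV
open H370 (zz hh mult Zf zset AA good_zeta mem_Zf NN NN_add NN_mono zcount nn_asymp finsum_Zf)

/-- the normalised sum over pairs of zeros -/
noncomputable def mu (T : ℝ) (f : ℝ → ℝ) : ℝ :=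
  2 * Real.pi / (T * Real.log T) * ∑ s ∈ Zf riemannZeta 1 T, ∑ s' ∈ Zf riemannZeta 1 T,
    mm s * mm s' * f (xd T s s')

/-- the trivial bound -/
lemma mu_triv {lam0 : ℝ} (h16 : 16 ≤ lam0) (hW : WMom lam0) : ∃ C T0 : ℝ, 0 < C ∧ 10 ≤ T0 ∧
    ∀ T : ℝ, T0 ≤ T → ∀ β : ℝ, 0 < β → ∀ u : ℝ,
      |mu T (fun x => β * psi (β * (x + u)))| ≤ C * (1 + β) := by
  obtain ⟨C1, T0, hC1, hT0, hpb⟩ := pb h16 hW
  obtain ⟨Cp, hCp, hp⟩ := psi_le
  have hpi := Real.pi_pos
  refine ⟨2 * Real.pi * Cp * C1, T0, by positivity, hT0, fun T hT β hβ u => ?_⟩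
  have hTpos : 0 < T := by linarith
  have hLpos : 0 < Real.log T := Real.log_pos (by linarith)
  set b := min β 1 with hb
  have hb0 : 0 < b := lt_min hβ one_pos
  have hb1 : b ≤ 1 := min_le_right _ _
  have hbβ : b ≤ β := min_le_left _ _
  have h1 := hpb T hT b hb0 hb1 u
  unfold mu
  rw [abs_mul, abs_of_pos (by positivity : 0 < 2 * Real.pi / (T * Real.log T))]
  have h2 : |∑ s ∈ Zf riemannZeta 1 T, ∑ s' ∈ Zf riemannZeta 1 T,
      mm s * mm s' * (β * psi (β * (xd T s s' + u)))| ≤
      β * Cp * ∑ s ∈ Zf riemannZeta 1 T, ∑ s' ∈ Zf riemannZeta 1 T,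
        mm s * mm s' * (1 / (1 + b ^ 2 * (xd T s s' + u) ^ 2)) := by
    rw [Finset.mul_sum]
    refine (Finset.abs_sum_le_sum_abs _ _).trans (Finset.sum_le_sum fun s _ => ?_)
    rw [Finset.mul_sum]
    refine (Finset.abs_sum_le_sum_abs _ _).trans (Finset.sum_le_sum fun s' _ => ?_)
    rw [abs_mul, abs_of_nonneg (mm2' s s'), abs_mul, abs_of_pos hβ]
    have h3 := hp (β * (xd T s s' + u))
    have h4 : Cp / (1 + (β * (xd T s s' + u)) ^ 2) ≤ Cp * (1 / (1 + b ^ 2 * (xd T s s' + u) ^ 2)) := by
      rw [mul_one_div]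
      apply div_le_div_of_nonneg_left hCp.le (by positivity)
      rw [mul_pow]
      have : b ^ 2 ≤ β ^ 2 := pow_le_pow_left₀ hb0.le hbβ 2
      have := mul_le_mul_of_nonneg_right this (sq_nonneg (xd T s s' + u))
      linarith
    calc mm s * mm s' * (β * |psi (β * (xd T s s' + u))|) ≤
        mm s * mm s' * (β * (Cp * (1 / (1 + b ^ 2 * (xd T s s' + u) ^ 2)))) :=
          mul_le_mul_of_nonneg_left (mul_le_mul_of_nonneg_left (h3.trans h4) hβ.le) (mm2' s s')
      _ = _ := by ring
  have h5 : β / b ≤ 1 + β := by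
    rw [div_le_iff₀ hb0, hb]
    rcases le_total β 1 with h | h
    · rw [min_eq_left h]; nlinarith
    · rw [min_eq_right h]; linarith
  calc 2 * Real.pi / (T * Real.log T) * |∑ s ∈ Zf riemannZeta 1 T, ∑ s' ∈ Zf riemannZeta 1 T,
      mm s * mm s' * (β * psi (β * (xd T s s' + u)))| ≤
      2 * Real.pi / (T * Real.log T) * (β * Cp * (C1 * (T * Real.log T) / b)) := by
        apply mul_le_mul_of_nonneg_left _ (by positivity)
        exact h2.trans (mul_le_mul_of_nonneg_left h1 (by positivity))
    _ = 2 * Real.pi * Cp * C1 * (β / b) := by field_simp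
    _ ≤ _ := mul_le_mul_of_nonneg_left h5 (by positivity)

lemma gue_triv : ∃ C : ℝ, 0 < C ∧ ∀ β : ℝ, 0 < β → ∀ u : ℝ,
    |gue (fun x => β * psi (β * (x + u)))| ≤ C * (1 + β) := by
  obtain ⟨Cp, hCp, hp⟩ := psi_le
  have hpi := Real.pi_pos
  refine ⟨Cp + Cp * Real.pi, by positivity, fun β hβ u => ?_⟩
  unfold gue
  have h0 : |β * psi (β * (0 + u))| ≤ Cp * β := by
    rw [abs_mul, abs_of_pos hβ, mul_comm]
    apply mul_le_mul_of_nonneg_right _ hβ.le
    refine (hp _).trans ?_
    apply div_le_self hCp.le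
    have := sq_nonneg (β * (0 + u))
    linarith
  have i0 : Integrable fun x : ℝ => β * (Cp * (1 + (β * (x + u)) ^ 2)⁻¹) :=
    ((((integrable_inv_one_add_sq.comp_mul_left' hβ.ne').comp_add_right u)).const_mul Cp).const_mul β
  have h1 : |∫ x, (β * psi (β * (x + u))) * ks x| ≤ ∫ x, β * (Cp * (1 + (β * (x + u)) ^ 2)⁻¹) := by
    have hpt : ∀ x : ℝ, ‖(β * psi (β * (x + u))) * ks x‖ ≤ β * (Cp * (1 + (β * (x + u)) ^ 2)⁻¹) := by
      intro x
      rw [norm_mul, Real.norm_eq_abs, Real.norm_of_nonneg (ks_nonneg x), abs_mul, abs_of_pos hβ]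
      refine (mul_le_of_le_one_right (by positivity) (ks_le x)).trans ?_
      apply mul_le_mul_of_nonneg_left _ hβ.le
      rw [← div_eq_mul_inv]
      exact hp _
    have h9 := norm_integral_le_of_norm_le i0 (Eventually.of_forall hpt)
    rwa [Real.norm_eq_abs] at h9
  have h2 : ∫ x, β * (Cp * (1 + (β * (x + u)) ^ 2)⁻¹) = Cp * Real.pi := by
    rw [integral_const_mul, integral_const_mul,
      integral_add_right_eq_self (fun x : ℝ => (1 + (β * x) ^ 2)⁻¹) u,
      Measure.integral_comp_mul_left (fun x : ℝ => (1 + x ^ 2)⁻¹) β,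
      integral_univ_inv_one_add_sq, smul_eq_mul, abs_of_pos (by positivity)]
    field_simp
  rw [h2] at h1
  refine (abs_add_le _ _).trans ?_
  have h3 : 0 ≤ Cp * Real.pi * β := by positivity
  have h4 : 0 ≤ Cp := hCp.le
  calc _ ≤ Cp * β + Cp * Real.pi := add_le_add h0 h1
    _ ≤ _ := by nlinarith only [h3, h4]

/-- pair sums against the dilates of the autocorrelation -/
theorem att {lam0 : ℝ} (h16 : 16 ≤ lam0) (hW : WMom lam0) : ∃ C T0 : ℝ, 0 < C ∧ 10 ≤ T0 ∧
    ∀ T : ℝ, T0 ≤ T → ∀ β : ℝ, 0 < β → ∀ u : ℝ,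
      |mu T (fun x => β * psi (β * (x + u))) - gue (fun x => β * psi (β * (x + u)))| ≤
        C * (β ^ 3 + (1 + |u|) / (β * Real.log T)) := by
  obtain ⟨C1, T1, hC1, hT1, hmu⟩ := mu_triv h16 hW
  obtain ⟨C2, hC2, hgu⟩ := gue_triv
  obtain ⟨C3, T3, hC3, hT3, hglo⟩ := glo h16 hW
  have hpi := Real.pi_gt_three
  have hpi4 := Real.pi_lt_d2
  have hlam00 : 0 < lam0 := by linarith
  set K : ℝ := (C1 + C2) * (7 + 2 * (4 * lam0) ^ 3) + 8 * C3 with hK
  refine ⟨K, max T1 T3, by positivity, hT1.trans (le_max_left _ _), fun T hT β hβ u => ?_⟩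
  have hTT1 : T1 ≤ T := (le_max_left _ _).trans hT
  have hTT3 : T3 ≤ T := (le_max_right _ _).trans hT
  have hT10 : 10 ≤ T := hT1.trans hTT1
  have hTpos : 0 < T := by linarith
  set L := Real.log T with hL
  have hLpos : 0 < L := Real.log_pos (by linarith)
  have hu0 := abs_nonneg u
  -- the trivial bound
  have htriv : |mu T (fun x => β * psi (β * (x + u))) - gue (fun x => β * psi (β * (x + u)))| ≤
      (C1 + C2) * (1 + β) := by
    refine (abs_sub _ _).trans ?_
    have := hmu T hTT1 β hβ u
    have := hgu β hβ u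
    linarith
  have hR0 : 0 ≤ (1 + |u|) / (β * L) := by positivity
  have hβ30 : 0 < β ^ 3 := by positivity
  rcases le_or_gt (1 / (4 * lam0)) β with hc | hc
  · -- large β
    refine htriv.trans ?_
    have h1 : 1 + β ≤ 2 * (4 * lam0) ^ 3 * β ^ 3 := by
      have h2 : 1 ≤ 4 * lam0 * β := by
        rw [div_le_iff₀ (by positivity)] at hc; linarith
      set q := 4 * lam0 * β with hq
      have h3 : (4 * lam0) ^ 3 * β ^ 3 = q ^ 3 := by rw [hq]; ring
      have h4 : β ≤ q := by rw [hq]; nlinarith only [h16, hβ]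
      have h5 : q ≤ q ^ 3 := by nlinarith only [h2, mul_pos (lt_of_lt_of_le one_pos h2) (lt_of_lt_of_le one_pos h2), sq_nonneg (q - 1), sq_nonneg q]
      have h6 : 1 ≤ q ^ 3 := one_le_pow₀ h2
      rw [mul_assoc, h3]
      linarith
    have h7 : (C1 + C2) * (1 + β) ≤ (C1 + C2) * (2 * (4 * lam0) ^ 3 * β ^ 3) :=
      mul_le_mul_of_nonneg_left h1 (by positivity)
    have h8 : (C1 + C2) * (2 * (4 * lam0) ^ 3 * β ^ 3) ≤ K * β ^ 3 := by
      rw [← mul_assoc]
      apply mul_le_mul_of_nonneg_right _ hβ30.le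
      rw [hK]
      have : 0 ≤ (C1 + C2) * 7 := by positivity
      nlinarith only [this, hC3]
    have h9 : 0 ≤ K * ((1 + |u|) / (β * L)) := by positivity
    rw [mul_add]
    linarith
  · have hβ1 : β < 1 := by
      refine hc.trans_le ?_
      rw [div_le_one (by positivity)]; linarith
    rcases le_or_gt β (1 / L) with hd | hd
    · -- tiny β
      refine htriv.trans ?_
      have h1 : β * L ≤ 1 := by rwa [le_div_iff₀ hLpos] at hd
      have h2 : 1 ≤ (1 + |u|) / (β * L) := by
        rw [le_div_iff₀ (by positivity)]; linarith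
      have h3 : (C1 + C2) * (1 + β) ≤ (C1 + C2) * 2 := by
        apply mul_le_mul_of_nonneg_left _ (by positivity); linarith
      have h4 : (C1 + C2) * 2 ≤ K * 1 := by
        rw [hK]
        have : 0 ≤ (C1 + C2) * (5 + 2 * (4 * lam0) ^ 3) := by positivity
        nlinarith only [this, hC3]
      have h5 : K * 1 ≤ K * ((1 + |u|) / (β * L)) := mul_le_mul_of_nonneg_left h2 (by positivity)
      have h6 : 0 ≤ K * β ^ 3 := by positivity
      rw [mul_add]
      linarith
    · set v := 2 * Real.pi * u / L with hv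
      rcases le_or_gt |v| 1 with he | he
      · -- the main range
        set lam := 1 / β with hlam
        have hlam1 : 4 * lam0 ≤ lam := by
          rw [hlam, le_div_iff₀ hβ]
          rw [lt_div_iff₀ (by positivity)] at hc
          linarith
        have hlam2 : lam ≤ L := by
          rw [hlam, div_le_iff₀ hβ]
          rw [div_lt_iff₀ hLpos] at hd
          linarith
        have hg := hglo T hTT3 lam hlam1 hlam2 v he
        set l := L / lam with hl
        have hlβ : l = L * β := by rw [hl, hlam]; field_simp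
        have hlpos : 0 < l := by rw [hlβ]; positivity
        rw [pair_int hlpos] at hg
        have hPp : Pp l (Zf riemannZeta 1 T) v = ∑ s ∈ Zf riemannZeta 1 T,
            ∑ s' ∈ Zf riemannZeta 1 T, mm s * mm s' * psi (β * (xd T s s' + u)) := by
          unfold Pp
          refine Finset.sum_congr rfl fun s _ => Finset.sum_congr rfl fun s' _ => ?_
          congr 2
          unfold xd
          rw [hlβ, hv, ← hL]
          field_simp
          ring
        have hvl : v * l = 2 * Real.pi * u * β := by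
          rw [hv, hlβ]; field_simp
        have hmain : mu T (fun x => β * psi (β * (x + u))) - gue (fun x => β * psi (β * (x + u))) =
            β ^ 2 / T * (2 * Real.pi / l * Pp l (Zf riemannZeta 1 T) v -
              T * (lam ^ 2 + ga0 (v * l))) := by
          rw [gue_psi hβ (by linarith), hvl, hPp]
          unfold mu
          have e1 : ∑ s ∈ Zf riemannZeta 1 T, ∑ s' ∈ Zf riemannZeta 1 T,
              mm s * mm s' * (β * psi (β * (xd T s s' + u))) =
              β * ∑ s ∈ Zf riemannZeta 1 T, ∑ s' ∈ Zf riemannZeta 1 T,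
              mm s * mm s' * psi (β * (xd T s s' + u)) := by
            rw [Finset.mul_sum]
            refine Finset.sum_congr rfl fun s _ => ?_
            rw [Finset.mul_sum]
            exact Finset.sum_congr rfl fun s' _ => by ring
          rw [e1, hlβ, hlam, ← hL]
          field_simp
        rw [hmain, abs_mul, abs_of_pos (by positivity : 0 < β ^ 2 / T)]
        have hva : |v| ≤ 7 * |u| / L := by
          rw [hv, abs_div, abs_of_pos hLpos, abs_mul, abs_of_pos (by positivity : 0 < 2 * Real.pi)]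
          gcongr
          linarith
        calc β ^ 2 / T * |2 * Real.pi / l * Pp l (Zf riemannZeta 1 T) v -
              T * (lam ^ 2 + ga0 (v * l))| ≤
            β ^ 2 / T * (C3 * T * (1 / lam + lam ^ 3 / L + |v|)) :=
              mul_le_mul_of_nonneg_left hg (by positivity)
          _ = C3 * (β ^ 3 + 1 / (β * L) + β ^ 2 * |v|) := by
              rw [hlam]; field_simp
          _ ≤ C3 * (β ^ 3 + 1 / (β * L) + 7 * |u| / (β * L)) := by
              apply mul_le_mul_of_nonneg_left _ hC3.le
              apply add_le_add_right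
              calc β ^ 2 * |v| ≤ 1 / β * (7 * |u| / L) := by
                    apply mul_le_mul _ hva (abs_nonneg _) (by positivity)
                    rw [le_div_iff₀ hβ]
                    have : β ^ 2 * β = β ^ 3 := by ring
                    rw [this]
                    exact pow_le_one₀ hβ.le hβ1.le
                _ = _ := by field_simp
          _ ≤ 8 * C3 * (β ^ 3 + (1 + |u|) / (β * L)) := by
              have e2 : 8 * C3 * (β ^ 3 + (1 + |u|) / (β * L)) = C3 * (β ^ 3 + 1 / (β * L) +
                7 * |u| / (β * L)) + C3 * (7 * β ^ 3 + 7 / (β * L) + |u| / (β * L)) := by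
                field_simp; ring
              rw [e2]
              have : 0 ≤ C3 * (7 * β ^ 3 + 7 / (β * L) + |u| / (β * L)) := by positivity
              linarith
          _ ≤ K * (β ^ 3 + (1 + |u|) / (β * L)) := by
              apply mul_le_mul_of_nonneg_right _ (by positivity)
              rw [hK]
              have : 0 ≤ (C1 + C2) * (7 + 2 * (4 * lam0) ^ 3) := by positivity
              linarith
      · -- large shifts
        refine htriv.trans ?_
        have h1 : L ≤ 7 * |u| := by
          have h2 : 1 < 2 * Real.pi * |u| / L := by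
            have : |v| = 2 * Real.pi * |u| / L := by
              rw [hv, abs_div, abs_of_pos hLpos, abs_mul, abs_of_pos (by positivity : 0 < 2 * Real.pi)]
            rwa [this] at he
          rw [lt_div_iff₀ hLpos, one_mul] at h2
          nlinarith only [h2, hpi4, hu0]
        have h2 : 1 ≤ 7 * ((1 + |u|) / (β * L)) := by
          rw [mul_div_assoc', le_div_iff₀ (by positivity)]
          nlinarith only [h1, hβ1, hβ, hLpos, hu0]
        have h3 : (C1 + C2) * (1 + β) ≤ (C1 + C2) * 2 := by
          apply mul_le_mul_of_nonneg_left _ (by positivity); linarith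
        have h4 : (C1 + C2) * 2 * 7 ≤ K := by
          rw [hK]
          have h5 : 16 ^ 3 ≤ lam0 ^ 3 := pow_le_pow_left₀ (by norm_num) h16 3
          have h6 : 14 ≤ 7 + 2 * (4 * lam0) ^ 3 := by nlinarith only [h5]
          have h7 := mul_le_mul_of_nonneg_left h6 (by positivity : 0 ≤ C1 + C2)
          linarith
        have h5 : (C1 + C2) * 2 ≤ (C1 + C2) * 2 * (7 * ((1 + |u|) / (β * L))) :=
          le_mul_of_one_le_right (by positivity) h2
        have h6 : (C1 + C2) * 2 * (7 * ((1 + |u|) / (β * L))) ≤ K * ((1 + |u|) / (β * L)) := by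
          rw [← mul_assoc]
          exact mul_le_mul_of_nonneg_right h4 (by positivity)
        have h7 : 0 ≤ K * β ^ 3 := by positivity
        rw [mul_add]
        linarith

end Pool.Agent.W2helper93.SW
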