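import Pool.Agent.W2helper93.SW.Gc
import Pool.Agent.H345R2.A2.VVl

set_option autoImplicit false

/-! # The autocorrelation of the prime sum: asymptotics -/

namespace Pool.Agent.W2helper93.SW

open Filter Topology MeasureTheory Set
open Pool.Agent.TH850.UV
open Pool.Agent.TH850.UR (WW_bound WW)
open ArithmeticFunction (vonMangoldt)

lemma phi_eq (x : ℝ) : max 0 (1 - 4 * x ^ 2) = 1 - 4 * (min |x| (1 / 2)) ^ 2 := by
  rcases le_total |x| (1 / 2) with h | h
  · rw [min_eq_left h, sq_abs, max_eq_right]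
    have : x ^ 2 ≤ (1 / 2) ^ 2 := by
      rw [← sq_abs]; exact pow_le_pow_left₀ (abs_nonneg _) h 2
    linarith
  · rw [min_eq_right h, max_eq_left]
    · norm_num
    · have : (1 / 2 : ℝ) ^ 2 ≤ x ^ 2 := by
        rw [← sq_abs x]; exact pow_le_pow_left₀ (by norm_num) h 2
      linarith

lemma min_lip (a b c : ℝ) : |min a c - min b c| ≤ |a - b| := by
  rcases le_total a c with h1 | h1 <;> rcases le_total b c with h2 | h2
  · rw [min_eq_left h1, min_eq_left h2]
  · rw [min_eq_left h1, min_eq_right h2, abs_sub_comm, abs_of_nonneg (by linarith), abs_sub_comm,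
      abs_of_nonneg (by linarith)]
    linarith
  · rw [min_eq_right h1, min_eq_left h2, abs_of_nonneg (by linarith), abs_of_nonneg (by linarith)]
    linarith
  · rw [min_eq_right h1, min_eq_right h2, sub_self, abs_zero]; exact abs_nonneg _

lemma om_lip (x y : ℝ) : |om x - om y| ≤ 16 * |x - y| := by
  unfold om
  rw [phi_eq, phi_eq]
  set p := min |x| (1 / 2) with hp
  set q := min |y| (1 / 2) with hq
  have hp0 : 0 ≤ p := le_min (abs_nonneg _) (by norm_num)
  have hq0 : 0 ≤ q := le_min (abs_nonneg _) (by norm_num)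
  have hp1 : p ≤ 1 / 2 := min_le_right _ _
  have hq1 : q ≤ 1 / 2 := min_le_right _ _
  have h1 : |p - q| ≤ |x - y| := (min_lip _ _ _).trans (abs_abs_sub_abs_le x y)
  set a := 1 - 4 * p ^ 2 with ha
  set b := 1 - 4 * q ^ 2 with hb
  have ha0 : 0 ≤ a := by rw [ha]; nlinarith
  have hb0 : 0 ≤ b := by rw [hb]; nlinarith
  have ha1 : a ≤ 1 := by rw [ha]; nlinarith [sq_nonneg p]
  have hb1 : b ≤ 1 := by rw [hb]; nlinarith [sq_nonneg q]
  have h2 : |a - b| ≤ 4 * |p - q| := by
    have : a - b = 4 * ((q - p) * (q + p)) := by rw [ha, hb]; ring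
    rw [this, abs_mul, abs_mul, abs_sub_comm q p, abs_of_nonneg (by linarith : 0 ≤ q + p)]
    norm_num
    nlinarith [abs_nonneg (p - q)]
  have h3 : |a ^ 4 - b ^ 4| ≤ 4 * |a - b| := by
    have : a ^ 4 - b ^ 4 = (a - b) * (a ^ 3 + a ^ 2 * b + a * b ^ 2 + b ^ 3) := by ring
    rw [this, abs_mul, mul_comm]
    apply mul_le_mul_of_nonneg_right _ (abs_nonneg _)
    rw [abs_of_nonneg (by positivity)]
    have k1 : a ^ 3 ≤ 1 := pow_le_one₀ ha0 ha1
    have k2 : b ^ 3 ≤ 1 := pow_le_one₀ hb0 hb1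
    have k3 : a ^ 2 * b ≤ 1 * 1 := mul_le_mul (pow_le_one₀ ha0 ha1) hb1 hb0 zero_le_one
    have k4 : a * b ^ 2 ≤ 1 * 1 := mul_le_mul ha1 (pow_le_one₀ hb0 hb1) (sq_nonneg b) zero_le_one
    linarith
  linarith

lemma om_le1 (x : ℝ) : om x ≤ 1 := Pool.Agent.TH850.UV.om_le_one x

lemma om_nn (x : ℝ) : 0 ≤ om x := om_nonneg0 x

lemma om_zero_of {x : ℝ} (h : 1 / 2 ≤ x) : om x = 0 := by
  unfold om
  rw [max_eq_left (by nlinarith)]
  norm_num

/-- the coefficients inside -/
lemma ggo_in {l : ℝ} (hl : 1 ≤ l) (n : ℕ) (hn : 1 ≤ n) (h : Real.log n ≤ l / 2) :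
    |l * ggo l n - Real.sqrt (2 * Real.pi) * om (Real.log n / l)| ≤ 64 / l + 2 / n := by
  have hl0 : 0 < l := by linarith
  have hn0 : (0 : ℝ) < n := by exact_mod_cast hn
  have htc := om_cont0
  set v := Real.log n with hv
  have hv0 : 0 ≤ v := Real.log_nonneg (by exact_mod_cast hn)
  rw [ggo_eq hl0, ← hv]
  set I0 := ∫ w in (0 : ℝ)..(l / 2), Real.exp (-(w - v) ^ 2 / 2) with hI0
  have e1 : (∫ w in (0 : ℝ)..(l / 2), om (w / l) * Real.exp (-(w - v) ^ 2 / 2)) -
      Real.sqrt (2 * Real.pi) * om (v / l) =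
      (∫ w in (0 : ℝ)..(l / 2), (om (w / l) - om (v / l)) * Real.exp (-(w - v) ^ 2 / 2)) -
        om (v / l) * (Real.sqrt (2 * Real.pi) - I0) := by
    have e2 : ∫ w in (0 : ℝ)..(l / 2), (om (w / l) - om (v / l)) * Real.exp (-(w - v) ^ 2 / 2) =
        (∫ w in (0 : ℝ)..(l / 2), om (w / l) * Real.exp (-(w - v) ^ 2 / 2)) - om (v / l) * I0 := by
      rw [hI0, ← intervalIntegral.integral_const_mul, ← intervalIntegral.integral_sub
        (Continuous.intervalIntegrable (by fun_prop) _ _)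
        (Continuous.intervalIntegrable (by fun_prop) _ _)]
      exact intervalIntegral.integral_congr fun w _ => by ring
    rw [e2]; ring
  rw [e1]
  have h1 : |∫ w in (0 : ℝ)..(l / 2), (om (w / l) - om (v / l)) * Real.exp (-(w - v) ^ 2 / 2)| ≤
      32 / l := by
    calc |∫ w in (0 : ℝ)..(l / 2), (om (w / l) - om (v / l)) * Real.exp (-(w - v) ^ 2 / 2)| ≤
        ∫ w in (0 : ℝ)..(l / 2), |(om (w / l) - om (v / l)) * Real.exp (-(w - v) ^ 2 / 2)| :=
          intervalIntegral.abs_integral_le_integral_abs (by linarith)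
      _ ≤ ∫ w in (0 : ℝ)..(l / 2), 16 / l * (|w - v| * Real.exp (-(w - v) ^ 2 / 2)) := by
          refine intervalIntegral.integral_mono_on (by linarith)
            (Continuous.intervalIntegrable (by fun_prop) _ _)
            (Continuous.intervalIntegrable (by fun_prop) _ _) fun w _ => ?_
          rw [abs_mul, abs_of_pos (Real.exp_pos _)]
          have h2 := om_lip (w / l) (v / l)
          rw [← sub_div, abs_div, abs_of_pos hl0] at h2
          calc |om (w / l) - om (v / l)| * Real.exp (-(w - v) ^ 2 / 2) ≤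
              (16 * (|w - v| / l)) * Real.exp (-(w - v) ^ 2 / 2) :=
                mul_le_mul_of_nonneg_right h2 (Real.exp_pos _).le
            _ = _ := by ring
      _ = 16 / l * ∫ w in (0 : ℝ)..(l / 2), |w - v| * Real.exp (-(w - v) ^ 2 / 2) :=
          intervalIntegral.integral_const_mul _ _
      _ ≤ 16 / l * 2 := mul_le_mul_of_nonneg_left (gabs v (l / 2) (by linarith)) (by positivity)
      _ = 32 / l := by ring
  have e3 : I0 = ∫ u in (0 - v)..(l / 2 - v), Real.exp (-u ^ 2 / 2) :=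
    intervalIntegral.integral_comp_sub_right (fun u => Real.exp (-u ^ 2 / 2)) v
  have h2 := gint_low (0 - v) (l / 2 - v) (by linarith)
  have h3 := gint_le (0 - v) (l / 2 - v) (by linarith)
  rw [← e3] at h2 h3
  have h4 : Real.exp (0 - v) = 1 / n := by
    rw [zero_sub, Real.exp_neg, hv, Real.exp_log hn0, one_div]
  rw [h4] at h2
  have h5 : om (v / l) ≤ 16 / l * (l / 2 - v) := by
    have h6 := om_lip (v / l) (1 / 2)
    rw [om_zero_of le_rfl, sub_zero, abs_of_nonneg (om_nn _), abs_sub_comm,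
      abs_of_nonneg (by rw [sub_nonneg, div_le_div_iff₀ hl0 two_pos]; linarith)] at h6
    refine h6.trans (le_of_eq ?_)
    field_simp
  have h7 : om (v / l) * (2 * Real.exp (-(l / 2 - v))) ≤ 32 / l := by
    set x := l / 2 - v with hx
    have hx0 : 0 ≤ x := by linarith
    have h8 : x * Real.exp (-x) ≤ 1 := by
      rw [Real.exp_neg, ← div_eq_mul_inv, div_le_one (Real.exp_pos _)]
      linarith [Real.add_one_le_exp x]
    calc om (v / l) * (2 * Real.exp (-x)) ≤ (16 / l * x) * (2 * Real.exp (-x)) :=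
          mul_le_mul_of_nonneg_right h5 (by positivity)
      _ = 32 / l * (x * Real.exp (-x)) := by ring
      _ ≤ 32 / l * 1 := mul_le_mul_of_nonneg_left h8 (by positivity)
      _ = _ := mul_one _
  have h9 : |om (v / l) * (Real.sqrt (2 * Real.pi) - I0)| ≤ 32 / l + 2 / n := by
    have ho := om_nn (v / l)
    have ho1 := om_le1 (v / l)
    rw [abs_of_nonneg (mul_nonneg ho (by linarith))]
    have h10 : Real.sqrt (2 * Real.pi) - I0 ≤ 2 * (1 / n) + 2 * Real.exp (-(l / 2 - v)) := by linarith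
    calc om (v / l) * (Real.sqrt (2 * Real.pi) - I0) ≤
        om (v / l) * (2 * (1 / n) + 2 * Real.exp (-(l / 2 - v))) :=
          mul_le_mul_of_nonneg_left h10 ho
      _ = om (v / l) * (2 * (1 / n)) + om (v / l) * (2 * Real.exp (-(l / 2 - v))) := by ring
      _ ≤ 1 * (2 * (1 / n)) + 32 / l := by
          apply add_le_add _ h7
          exact mul_le_mul_of_nonneg_right ho1 (by positivity)
      _ = _ := by ring
  refine (abs_sub _ _).trans ((add_le_add h1 h9).trans (le_of_eq ?_))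
  ring

/-- the coefficients outside -/
lemma ggo_out {l : ℝ} (hl : 1 ≤ l) (n : ℕ) (h : l / 2 ≤ Real.log n) :
    l * ggo l n ≤ 16 / l * Real.exp (-(l / 2 - Real.log n) ^ 2 / 2) := by
  have hl0 : 0 < l := by linarith
  have htc := om_cont0
  set v := Real.log n with hv
  rw [ggo_eq hl0, ← hv]
  have hd : ∀ w ∈ Set.uIcc (0 : ℝ) (l / 2), HasDerivAt (fun w : ℝ => Real.exp (-(w - v) ^ 2 / 2))
      ((v - w) * Real.exp (-(w - v) ^ 2 / 2)) w := by
    intro w _
    have h1 : HasDerivAt (fun w : ℝ => -(w - v) ^ 2 / 2) (v - w) w := by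
      have := ((((hasDerivAt_id' w).sub_const v).pow 2).neg).div_const 2
      refine this.congr_deriv ?_
      norm_num
      ring
    refine h1.exp.congr_deriv ?_
    ring
  have e1 : ∫ w in (0 : ℝ)..(l / 2), (v - w) * Real.exp (-(w - v) ^ 2 / 2) =
      Real.exp (-(l / 2 - v) ^ 2 / 2) - Real.exp (-(0 - v) ^ 2 / 2) :=
    intervalIntegral.integral_eq_sub_of_hasDerivAt hd (Continuous.intervalIntegrable (by fun_prop) _ _)
  calc ∫ w in (0 : ℝ)..(l / 2), om (w / l) * Real.exp (-(w - v) ^ 2 / 2) ≤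
      ∫ w in (0 : ℝ)..(l / 2), 16 / l * ((v - w) * Real.exp (-(w - v) ^ 2 / 2)) := by
        refine intervalIntegral.integral_mono_on (by linarith)
          (Continuous.intervalIntegrable (by fun_prop) _ _)
          (Continuous.intervalIntegrable (by fun_prop) _ _) fun w hw => ?_
        have h2 := om_lip (w / l) (v / l)
        rw [om_zero_of (by rw [div_le_div_iff₀ two_pos hl0]; linarith : 1 / 2 ≤ v / l), sub_zero,
          ← sub_div, abs_div, abs_of_pos hl0, abs_of_nonneg (om_nn _), abs_sub_comm,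
          abs_of_nonneg (by linarith [hw.2])] at h2
        calc om (w / l) * Real.exp (-(w - v) ^ 2 / 2) ≤
            (16 * ((v - w) / l)) * Real.exp (-(w - v) ^ 2 / 2) :=
              mul_le_mul_of_nonneg_right h2 (Real.exp_pos _).le
          _ = _ := by ring
    _ = 16 / l * (Real.exp (-(l / 2 - v) ^ 2 / 2) - Real.exp (-(0 - v) ^ 2 / 2)) := by
        rw [intervalIntegral.integral_const_mul, e1]
    _ ≤ _ := by
        apply mul_le_mul_of_nonneg_left _ (by positivity)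
        linarith [Real.exp_pos (-(0 - v) ^ 2 / 2)]

lemma sqrt2pi : 0 < Real.sqrt (2 * Real.pi) ∧ Real.sqrt (2 * Real.pi) ≤ 3 := by
  refine ⟨Real.sqrt_pos.2 (by positivity), ?_⟩
  rw [Real.sqrt_le_left (by norm_num)]
  have := Real.pi_lt_d2
  norm_num
  linarith

/-- the sum of `Λ² / n²` -/
lemma lam2_sum : ∃ C : ℝ, 0 ≤ C ∧ ∀ X : ℕ, ∑ n ∈ Finset.Icc 1 X, vonMangoldt n ^ 2 / n * (1 / n) ≤ C := by
  have hs : Summable (fun n : ℕ => 16 * (1 / (n : ℝ) ^ (3 / 2 : ℝ))) :=
    (Real.summable_one_div_nat_rpow.2 (by norm_num)).mul_left _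
  refine ⟨∑' n : ℕ, 16 * (1 / (n : ℝ) ^ (3 / 2 : ℝ)), tsum_nonneg fun n => by positivity, fun X => ?_⟩
  refine le_trans (Finset.sum_le_sum fun n hn => ?_) (hs.sum_le_tsum (Finset.Icc 1 X)
    fun n _ => by positivity)
  have hn1 : 1 ≤ n := (Finset.mem_Icc.1 hn).1
  have hn0 : (0 : ℝ) < n := by exact_mod_cast hn1
  have hL0 : 0 ≤ vonMangoldt n := ArithmeticFunction.vonMangoldt_nonneg
  have hL1 : vonMangoldt n ≤ Real.log n := ArithmeticFunction.vonMangoldt_le_log
  have h1 : Real.log n ≤ 4 * (n : ℝ) ^ (1 / 4 : ℝ) := by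
    have := Real.log_le_rpow_div hn0.le (show (0 : ℝ) < 1 / 4 by norm_num)
    linarith
  have h2 : vonMangoldt n ^ 2 ≤ 16 * (n : ℝ) ^ (1 / 2 : ℝ) := by
    have h3 : vonMangoldt n ^ 2 ≤ (4 * (n : ℝ) ^ (1 / 4 : ℝ)) ^ 2 :=
      pow_le_pow_left₀ hL0 (hL1.trans h1) 2
    have h4 : ((n : ℝ) ^ (1 / 4 : ℝ)) ^ 2 = (n : ℝ) ^ (1 / 2 : ℝ) := by
      rw [← Real.rpow_natCast, ← Real.rpow_mul hn0.le]
      norm_num
    rw [mul_pow, h4] at h3
    linarith
  have h5 : (n : ℝ) ^ (3 / 2 : ℝ) * (n : ℝ) ^ (1 / 2 : ℝ) = n * n := by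
    rw [← Real.rpow_add hn0]
    norm_num
    ring
  have h6 : 0 < (n : ℝ) ^ (3 / 2 : ℝ) := by positivity
  rw [div_mul_div_comm, mul_one, mul_one_div, div_le_div_iff₀ (by positivity) h6]
  calc vonMangoldt n ^ 2 * (n : ℝ) ^ (3 / 2 : ℝ) ≤
      16 * (n : ℝ) ^ (1 / 2 : ℝ) * (n : ℝ) ^ (3 / 2 : ℝ) := mul_le_mul_of_nonneg_right h2 h6.le
    _ = 16 * (n * n) := by rw [← h5]; ring

/-- replacing the coefficients by their main term -/
lemma step1 : ∃ C : ℝ, 0 < C ∧ ∀ l : ℝ, 1 ≤ l → ∀ (X : ℕ) (v : ℝ),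
    |(∑ n ∈ Finset.Icc 1 X, vonMangoldt n ^ 2 / n * ((l * ggo l n) ^ 2) * Real.cos (v * Real.log n)) -
      2 * Real.pi * ∑ n ∈ Finset.Icc 1 X, vonMangoldt n ^ 2 / n *
        (om (Real.log n / l) ^ 2 * Real.cos (v * Real.log n))| ≤ C * l := by
  obtain ⟨C1, hC1, hlam⟩ := H370.lam_sq_sum
  obtain ⟨C2, hC2, hW⟩ := WW_bound
  obtain ⟨C3, hC3, hl3⟩ := lam2_sum
  refine ⟨384 * (2 + 2 * C1) + 12 * C3 + 512 * C2, by positivity, fun l hl X v => ?_⟩
  have hl0 : 0 < l := by linarith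
  obtain ⟨hs0, hs3⟩ := sqrt2pi
  have hs2 : Real.sqrt (2 * Real.pi) ^ 2 = 2 * Real.pi := Real.sq_sqrt (by positivity)
  rw [Finset.mul_sum, ← Finset.sum_sub_distrib]
  have hpt : ∀ n ∈ Finset.Icc 1 X,
      |vonMangoldt n ^ 2 / n * ((l * ggo l n) ^ 2) * Real.cos (v * Real.log n) -
        2 * Real.pi * (vonMangoldt n ^ 2 / n *
        (om (Real.log n / l) ^ 2 * Real.cos (v * Real.log n)))| ≤
      (if Real.log n ≤ l / 2 then vonMangoldt n ^ 2 / n * (384 / l) else 0) +
        12 * (vonMangoldt n ^ 2 / n * (1 / n)) +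
        256 / l ^ 2 * (vonMangoldt n ^ 2 / n * Real.exp (-(l / 2 - Real.log n) ^ 2 / 2)) := by
    intro n hn
    have hn1 : 1 ≤ n := (Finset.mem_Icc.1 hn).1
    have hn0 : (0 : ℝ) < n := by exact_mod_cast hn1
    have hw0 : 0 ≤ vonMangoldt n ^ 2 / n := by positivity
    have hcos := Real.abs_cos_le_one (v * Real.log n)
    have hg0 : 0 ≤ l * ggo l n := mul_nonneg hl0.le (ggo_nonneg l n)
    have hg3 : l * ggo l n ≤ 3 := by
      have := ggo_le hl0 n
      rw [le_div_iff₀ hl0] at this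
      linarith
    have ho0 := om_nn (Real.log n / l)
    have ho1 := om_le1 (Real.log n / l)
    have e1 : vonMangoldt n ^ 2 / n * ((l * ggo l n) ^ 2) * Real.cos (v * Real.log n) -
        2 * Real.pi * (vonMangoldt n ^ 2 / n *
        (om (Real.log n / l) ^ 2 * Real.cos (v * Real.log n))) =
        vonMangoldt n ^ 2 / n * ((l * ggo l n) ^ 2 -
          (Real.sqrt (2 * Real.pi) * om (Real.log n / l)) ^ 2) * Real.cos (v * Real.log n) := by
      rw [mul_pow (Real.sqrt (2 * Real.pi)), hs2]; ring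
    rw [e1, abs_mul, abs_mul, abs_of_nonneg hw0]
    have hz1 : 0 ≤ 12 * (vonMangoldt n ^ 2 / n * (1 / n)) := by positivity
    have hz2 : 0 ≤ 256 / l ^ 2 * (vonMangoldt n ^ 2 / n *
      Real.exp (-(l / 2 - Real.log n) ^ 2 / 2)) := by positivity
    refine (mul_le_of_le_one_right (by positivity) hcos).trans ?_
    rcases le_or_gt (Real.log n) (l / 2) with h | h
    · rw [if_pos h]
      have h1 := ggo_in hl n hn1 h
      have h2 : |(l * ggo l n) ^ 2 - (Real.sqrt (2 * Real.pi) * om (Real.log n / l)) ^ 2| ≤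
          (64 / l + 2 / n) * 6 := by
        rw [sq_sub_sq, abs_mul, mul_comm]
        apply mul_le_mul h1 _ (abs_nonneg _) (by positivity)
        rw [abs_of_nonneg (by positivity)]
        have : Real.sqrt (2 * Real.pi) * om (Real.log n / l) ≤ 3 * 1 :=
          mul_le_mul hs3 ho1 ho0 (by norm_num)
        linarith
      have h3 := mul_le_mul_of_nonneg_left h2 hw0
      refine h3.trans ?_
      have e2 : vonMangoldt n ^ 2 / n * ((64 / l + 2 / n) * 6) =
          vonMangoldt n ^ 2 / n * (384 / l) + 12 * (vonMangoldt n ^ 2 / n * (1 / n)) := by ring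
      rw [e2]
      linarith
    · rw [if_neg (not_le.2 h), zero_add]
      have h1 := ggo_out hl n h.le
      have h0 : om (Real.log n / l) = 0 :=
        om_zero_of (by rw [div_le_div_iff₀ two_pos hl0]; linarith)
      rw [h0, mul_zero, zero_pow two_ne_zero, sub_zero, abs_of_nonneg (sq_nonneg _)]
      have h2 : (l * ggo l n) ^ 2 ≤ 256 / l ^ 2 * Real.exp (-(l / 2 - Real.log n) ^ 2 / 2) := by
        have hE := Real.exp_pos (-(l / 2 - Real.log n) ^ 2 / 2)
        have hE1 : Real.exp (-(l / 2 - Real.log n) ^ 2 / 2) ≤ 1 := by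
          rw [Real.exp_le_one_iff]
          have := sq_nonneg (l / 2 - Real.log n)
          linarith
        calc (l * ggo l n) ^ 2 ≤ (16 / l * Real.exp (-(l / 2 - Real.log n) ^ 2 / 2)) ^ 2 :=
              pow_le_pow_left₀ hg0 h1 2
          _ = 256 / l ^ 2 * (Real.exp (-(l / 2 - Real.log n) ^ 2 / 2) *
              Real.exp (-(l / 2 - Real.log n) ^ 2 / 2)) := by ring
          _ ≤ 256 / l ^ 2 * (Real.exp (-(l / 2 - Real.log n) ^ 2 / 2) * 1) := by gcongr
          _ = _ := by ring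
      have h3 := mul_le_mul_of_nonneg_left h2 hw0
      have e2 : vonMangoldt n ^ 2 / n * (256 / l ^ 2 * Real.exp (-(l / 2 - Real.log n) ^ 2 / 2)) =
        256 / l ^ 2 * (vonMangoldt n ^ 2 / n * Real.exp (-(l / 2 - Real.log n) ^ 2 / 2)) := by ring
      rw [e2] at h3
      linarith
  refine (Finset.abs_sum_le_sum_abs _ _).trans ((Finset.sum_le_sum hpt).trans ?_)
  rw [Finset.sum_add_distrib, Finset.sum_add_distrib, ← Finset.mul_sum, ← Finset.mul_sum]
  have b1 : ∑ n ∈ Finset.Icc 1 X, (if Real.log n ≤ l / 2 then vonMangoldt n ^ 2 / n * (384 / l)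
      else 0) ≤ 384 * (2 + 2 * C1) * l := by
    have h1 : ∑ n ∈ Finset.Icc 1 X, (if Real.log n ≤ l / 2 then vonMangoldt n ^ 2 / n * (384 / l)
        else 0) ≤ ∑ n ∈ Finset.Icc 1 ⌊Real.exp (l / 2)⌋₊, vonMangoldt n ^ 2 / n * (384 / l) := by
      rw [← Finset.sum_filter]
      refine Finset.sum_le_sum_of_subset_of_nonneg (fun n hn => ?_) fun n _ _ => by positivity
      rw [Finset.mem_filter, Finset.mem_Icc] at hn
      rw [Finset.mem_Icc]
      refine ⟨hn.1.1, Nat.le_floor ?_⟩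
      have hn0 : (0 : ℝ) < n := by exact_mod_cast hn.1.1
      rw [← Real.log_le_iff_le_exp hn0]
      exact hn.2
    refine h1.trans ?_
    rw [← Finset.sum_mul]
    have h2 := hlam (Real.exp (l / 2)) (Real.one_le_exp (by linarith))
    rw [Real.log_exp] at h2
    have h3 : (l / 2) ^ 2 / 2 + C1 * (l / 2 + 1) ≤ (2 + 2 * C1) * (l * l) := by
      have : l ≤ l * l := by nlinarith only [hl]
      have : C1 * (l / 2 + 1) ≤ C1 * (2 * (l * l)) :=
        mul_le_mul_of_nonneg_left (by nlinarith only [hl]) hC1.le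
      nlinarith only [this, hl]
    calc (∑ n ∈ Finset.Icc 1 ⌊Real.exp (l / 2)⌋₊, vonMangoldt n ^ 2 / n) * (384 / l) ≤
        ((2 + 2 * C1) * (l * l)) * (384 / l) :=
          mul_le_mul_of_nonneg_right (h2.trans h3) (by positivity)
      _ = _ := by field_simp
  have b2 := hl3 X
  have b3 := hW X (l / 2) (by linarith)
  unfold WW at b3
  have b4 : 256 / l ^ 2 * ∑ n ∈ Finset.Icc 1 X, vonMangoldt n ^ 2 / n *
      Real.exp (-(l / 2 - Real.log n) ^ 2 / 2) ≤ 512 * C2 * l := by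
    calc 256 / l ^ 2 * ∑ n ∈ Finset.Icc 1 X, vonMangoldt n ^ 2 / n *
        Real.exp (-(l / 2 - Real.log n) ^ 2 / 2) ≤ 256 / l ^ 2 * (C2 * (1 + l / 2)) :=
          mul_le_mul_of_nonneg_left b3 (by positivity)
      _ ≤ 256 / 1 * (C2 * (l + l)) := by
          gcongr
          · exact one_le_pow₀ hl
          · linarith
      _ = _ := by ring
  have b5 : 12 * C3 ≤ 12 * C3 * l := le_mul_of_one_le_right (by positivity) hl
  linarith


lemma F_lip {l : ℝ} (hl : 1 ≤ l) (v y z : ℝ) :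
    |om (y / l) ^ 2 * Real.cos (v * y) - om (z / l) ^ 2 * Real.cos (v * z)| ≤
      (32 / l + |v|) * |y - z| := by
  have hl0 : 0 < l := by linarith
  have h1 := om_lip (y / l) (z / l)
  rw [← sub_div, abs_div, abs_of_pos hl0] at h1
  have h2 := Real.abs_cos_sub_cos_le (v * y) (v * z)
  rw [← mul_sub, abs_mul] at h2
  have o1 := om_nn (y / l)
  have o2 := om_nn (z / l)
  have o3 := om_le1 (y / l)
  have o4 := om_le1 (z / l)
  have e1 : om (y / l) ^ 2 * Real.cos (v * y) - om (z / l) ^ 2 * Real.cos (v * z) =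
      (om (y / l) - om (z / l)) * ((om (y / l) + om (z / l)) * Real.cos (v * y)) +
        om (z / l) ^ 2 * (Real.cos (v * y) - Real.cos (v * z)) := by ring
  rw [e1]
  refine (abs_add_le _ _).trans ?_
  rw [abs_mul, abs_mul, abs_mul, abs_of_nonneg (by linarith : 0 ≤ om (y / l) + om (z / l)),
    abs_of_nonneg (sq_nonneg (om (z / l)))]
  have h3 : (om (y / l) + om (z / l)) * |Real.cos (v * y)| ≤ 2 * 1 :=
    mul_le_mul (by linarith) (Real.abs_cos_le_one _) (abs_nonneg _) (by norm_num)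
  have h4 : om (z / l) ^ 2 ≤ 1 := pow_le_one₀ o2 o4
  calc |om (y / l) - om (z / l)| * ((om (y / l) + om (z / l)) * |Real.cos (v * y)|) +
      om (z / l) ^ 2 * |Real.cos (v * y) - Real.cos (v * z)| ≤
      (16 * (|y - z| / l)) * (2 * 1) + 1 * (|v| * |y - z|) := by
        apply add_le_add
        · exact mul_le_mul h1 h3 (by positivity) (by positivity)
        · exact mul_le_mul h4 h2 (abs_nonneg _) zero_le_one
    _ = _ := by ring

/-- partial summation -/
lemma step2 : ∃ C : ℝ, 0 < C ∧ ∀ l : ℝ, 1 ≤ l → ∀ X : ℕ, 1 ≤ X → l / 2 ≤ Real.log X → ∀ v : ℝ,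
    |(∑ n ∈ Finset.Icc 1 X, vonMangoldt n ^ 2 / n *
        (om (Real.log n / l) ^ 2 * Real.cos (v * Real.log n))) -
      ∫ y in (0 : ℝ)..(l / 2), y * (om (y / l) ^ 2 * Real.cos (v * y))| ≤ C * ((1 + |v| * l) * l) := by
  obtain ⟨C1, hC1, hlow⟩ := H370.A2.lam_sq_lower
  refine ⟨16 * (3 * (C1 + 8) + 1), by positivity, fun l hl X hX hlX v => ?_⟩
  have hl0 : 0 < l := by linarith
  have htc := om_cont0
  set F : ℝ → ℝ := fun y => om (y / l) ^ 2 * Real.cos (v * y) with hF
  have hFc : Continuous F := by rw [hF]; fun_prop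
  set K := 32 / l + |v| with hK
  have hK0 : 0 ≤ K := by positivity
  have hlip : ∀ y z, |F y - F z| ≤ K * |y - z| := fun y z => F_lip hl v y z
  have hF0 : ∀ y, l / 2 ≤ y → F y = 0 := by
    intro y hy
    simp only [hF]
    rw [om_zero_of (by rw [div_le_div_iff₀ two_pos hl0]; linarith)]
    ring
  set m : ℕ → ℝ := fun n => min (Real.log n) (l / 2) with hm
  set M : ℕ → ℝ := fun n => ∑ k ∈ Finset.Icc 1 n, vonMangoldt k ^ 2 / k with hM
  have hFm : ∀ n : ℕ, F (Real.log n) = F (m n) := by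
    intro n
    simp only [hm]
    rcases le_total (Real.log n) (l / 2) with h | h
    · rw [min_eq_left h]
    · rw [min_eq_right h, hF0 _ h, hF0 _ le_rfl]
  have hm1 : m 1 = 0 := by
    simp only [hm, Nat.cast_one, Real.log_one]
    exact min_eq_left (by linarith)
  have hmX : m X = l / 2 := by
    simp only [hm]
    exact min_eq_right hlX
  have hmn : ∀ n : ℕ, 1 ≤ n → 0 ≤ m n := fun n hn =>
    le_min (Real.log_nonneg (by exact_mod_cast hn)) (by linarith)
  have hml : ∀ n : ℕ, m n ≤ l / 2 := fun n => min_le_right _ _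
  have hmm : ∀ n : ℕ, 1 ≤ n → m n ≤ m (n + 1) := by
    intro n hn
    apply min_le_min _ le_rfl
    apply Real.log_le_log (by exact_mod_cast hn)
    push_cast; linarith
  have hd1 : ∀ n : ℕ, 1 ≤ n → m (n + 1) - m n ≤ 1 := by
    intro n hn
    have hn0 : (0 : ℝ) < n := by exact_mod_cast hn
    have hn1 : (1 : ℝ) ≤ n := by exact_mod_cast hn
    have h1 := min_lip (Real.log ((n + 1 : ℕ) : ℝ)) (Real.log n) (l / 2)
    have h2 : Real.log ((n + 1 : ℕ) : ℝ) - Real.log n ≤ 1 := by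
      rw [← Real.log_div (by positivity) (by positivity)]
      have := Real.log_le_sub_one_of_pos (x := ((n + 1 : ℕ) : ℝ) / n) (by positivity)
      have h5 : ((n + 1 : ℕ) : ℝ) / n - 1 = 1 / n := by push_cast; field_simp; ring
      have h6 : (1 : ℝ) / n ≤ 1 := by
        rw [div_le_one (by linarith)]; exact hn1
      linarith
    have h3 : 0 ≤ Real.log ((n + 1 : ℕ) : ℝ) - Real.log n := by
      rw [sub_nonneg]; apply Real.log_le_log hn0; push_cast; linarith
    rw [abs_of_nonneg h3] at h1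
    exact (le_abs_self _).trans (h1.trans h2)
  have e1 : ∑ n ∈ Finset.Icc 1 X, vonMangoldt n ^ 2 / n *
        (om (Real.log n / l) ^ 2 * Real.cos (v * Real.log n)) =
      - ∑ n ∈ Finset.Ico 1 X, M n * (F (m (n + 1)) - F (m n)) := by
    have h1 := H370.nt_abel (fun n => vonMangoldt n ^ 2 / n) (fun n => F (m n)) X hX
    simp only [] at h1
    have h2 : ∑ n ∈ Finset.Icc 1 X, vonMangoldt n ^ 2 / n *
        (om (Real.log n / l) ^ 2 * Real.cos (v * Real.log n)) =
        ∑ n ∈ Finset.Icc 1 X, vonMangoldt n ^ 2 / n * F (m n) := by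
      refine Finset.sum_congr rfl fun n _ => ?_
      rw [← hFm n]
    rw [h2, h1, hmX, hF0 _ le_rfl, mul_zero, zero_sub]
  have hint : ∀ a b : ℝ, IntervalIntegrable (fun y => y * F y) volume a b := fun a b =>
    (continuous_id.mul hFc).intervalIntegrable a b
  have e2 : ∫ y in (0 : ℝ)..(l / 2), y * (om (y / l) ^ 2 * Real.cos (v * y)) =
      ∑ n ∈ Finset.Ico 1 X, ∫ y in (m n)..(m (n + 1)), y * F y := by
    rw [intervalIntegral.sum_integral_adjacent_intervals_Ico hX fun k _ => hint _ _, hm1, hmX]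
  have e3 : ∑ n ∈ Finset.Ico 1 X, (m (n + 1) ^ 2 / 2 * F (m (n + 1)) - m n ^ 2 / 2 * F (m n)) = 0 := by
    rw [Finset.sum_Ico_sub (fun n => m n ^ 2 / 2 * F (m n)) hX, hmX, hm1, hF0 _ le_rfl]
    ring
  have e4 : (∑ n ∈ Finset.Icc 1 X, vonMangoldt n ^ 2 / n *
        (om (Real.log n / l) ^ 2 * Real.cos (v * Real.log n))) -
      ∫ y in (0 : ℝ)..(l / 2), y * (om (y / l) ^ 2 * Real.cos (v * y)) =
      ∑ n ∈ Finset.Ico 1 X, (-(M n - m n ^ 2 / 2) * (F (m (n + 1)) - F (m n)) +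
        ((m (n + 1) ^ 2 - m n ^ 2) / 2 * F (m (n + 1)) - ∫ y in (m n)..(m (n + 1)), y * F y)) := by
    have h1 : ∀ n ∈ Finset.Ico 1 X, (-(M n - m n ^ 2 / 2) * (F (m (n + 1)) - F (m n)) +
        ((m (n + 1) ^ 2 - m n ^ 2) / 2 * F (m (n + 1)) - ∫ y in (m n)..(m (n + 1)), y * F y)) =
        (m (n + 1) ^ 2 / 2 * F (m (n + 1)) - m n ^ 2 / 2 * F (m n)) -
          M n * (F (m (n + 1)) - F (m n)) - ∫ y in (m n)..(m (n + 1)), y * F y :=
      fun n _ => by ring
    rw [Finset.sum_congr rfl h1, Finset.sum_sub_distrib, Finset.sum_sub_distrib, e3, e1, e2]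
    ring
  rw [e4]
  have key : ∀ n ∈ Finset.Ico 1 X, |(-(M n - m n ^ 2 / 2) * (F (m (n + 1)) - F (m n)) +
        ((m (n + 1) ^ 2 - m n ^ 2) / 2 * F (m (n + 1)) - ∫ y in (m n)..(m (n + 1)), y * F y))| ≤
      ((C1 + 8) * (1 + l / 2) + l / 2) * K * (m (n + 1) - m n) := by
    intro n hn
    have hn1 : 1 ≤ n := (Finset.mem_Ico.1 hn).1
    have hD0 : 0 ≤ m (n + 1) - m n := sub_nonneg.2 (hmm n hn1)
    have k1 : |-(M n - m n ^ 2 / 2) * (F (m (n + 1)) - F (m n))| ≤
        (C1 + 8) * (1 + l / 2) * (K * (m (n + 1) - m n)) := by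
      rcases le_or_gt (l / 2) (Real.log n) with h | h
      · have h1 : m n = l / 2 := min_eq_right h
        have h2 : m (n + 1) = l / 2 := le_antisymm (hml _) (h1 ▸ hmm n hn1)
        rw [h1, h2, sub_self, mul_zero, abs_zero, sub_self, mul_zero, mul_zero]
      · have h1 : m n = Real.log n := min_eq_left h.le
        have hlg : 0 ≤ Real.log n := Real.log_nonneg (by exact_mod_cast hn1)
        have h2 := hlow n hn1
        have h3 := H370.lam_sq_sum_nat n hn1
        rw [abs_mul, abs_neg]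
        have h4 : |M n - m n ^ 2 / 2| ≤ (C1 + 8) * (1 + l / 2) := by
          rw [h1]
          have h5 : C1 * (Real.log n + 1) ≤ C1 * (1 + l / 2) :=
            mul_le_mul_of_nonneg_left (by linarith) hC1
          have h6 : 0 ≤ C1 * (1 + l / 2) := mul_nonneg hC1 (by linarith)
          rw [abs_le]
          simp only [hM]
          constructor <;> linarith
        have h5 := hlip (m (n + 1)) (m n)
        rw [abs_of_nonneg hD0] at h5
        exact mul_le_mul h4 h5 (abs_nonneg _) (by positivity)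
    have k2 : |(m (n + 1) ^ 2 - m n ^ 2) / 2 * F (m (n + 1)) - ∫ y in (m n)..(m (n + 1)), y * F y| ≤
        l / 2 * (K * (m (n + 1) - m n)) := by
      have h1 : (m (n + 1) ^ 2 - m n ^ 2) / 2 * F (m (n + 1)) =
          ∫ y in (m n)..(m (n + 1)), y * F (m (n + 1)) := by
        rw [intervalIntegral.integral_mul_const, integral_id]
      rw [h1, ← intervalIntegral.integral_sub
        (Continuous.intervalIntegrable (by fun_prop) _ _) (hint _ _)]
      have h2 : ∀ y ∈ Set.uIoc (m n) (m (n + 1)), ‖y * F (m (n + 1)) - y * F y‖ ≤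
          l / 2 * (K * 1) := by
        intro y hy
        rw [Set.uIoc_of_le (hmm n hn1)] at hy
        have hy0 : 0 ≤ y := (hmn n hn1).trans hy.1.le
        rw [Real.norm_eq_abs, ← mul_sub, abs_mul, abs_of_nonneg hy0]
        apply mul_le_mul (hy.2.trans (hml _)) _ (abs_nonneg _) (by linarith)
        refine (hlip _ _).trans (mul_le_mul_of_nonneg_left ?_ hK0)
        rw [abs_of_nonneg (by linarith [hy.2])]
        linarith [hy.1, hd1 n hn1]
      have h3 := intervalIntegral.norm_integral_le_of_norm_le_const h2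
      rw [Real.norm_eq_abs, abs_of_nonneg hD0] at h3
      calc _ ≤ l / 2 * (K * 1) * (m (n + 1) - m n) := h3
        _ = _ := by ring
    refine (abs_add_le _ _).trans ((add_le_add k1 k2).trans (le_of_eq ?_))
    ring
  refine (Finset.abs_sum_le_sum_abs _ _).trans ((Finset.sum_le_sum key).trans ?_)
  rw [← Finset.mul_sum, Finset.sum_Ico_sub (fun n => m n) hX, hmX, hm1, sub_zero]
  have e5 : ((C1 + 8) * (1 + l / 2) + l / 2) * K * (l / 2) =
      ((C1 + 8) * (1 + l / 2) + l / 2) * ((32 + |v| * l) / 2) := by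
    rw [hK]; field_simp
  rw [e5]
  have h6 : (C1 + 8) * (1 + l / 2) + l / 2 ≤ (3 * (C1 + 8) + 1) * l := by
    have : (C1 + 8) * (1 + l / 2) ≤ (C1 + 8) * (3 * l) :=
      mul_le_mul_of_nonneg_left (by linarith) (by linarith)
    linarith
  have h7 : (32 + |v| * l) / 2 ≤ 16 * (1 + |v| * l) := by
    have : 0 ≤ |v| * l := by positivity
    linarith
  calc ((C1 + 8) * (1 + l / 2) + l / 2) * ((32 + |v| * l) / 2) ≤
      ((3 * (C1 + 8) + 1) * l) * (16 * (1 + |v| * l)) :=
        mul_le_mul h6 h7 (by positivity) (by positivity)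
    _ = _ := by ring

/-- the value of the autocorrelation -/
noncomputable def ga0 (x : ℝ) : ℝ := 2 * ∫ α in (0 : ℝ)..(1 / 2), α * (om α ^ 2 * Real.cos (x * α))

/-- the autocorrelation of the prime sum -/
theorem ga : ∃ C : ℝ, 0 < C ∧ ∀ l : ℝ, 1 ≤ l → ∀ X : ℕ, 1 ≤ X → l / 2 ≤ Real.log X → ∀ v : ℝ,
    |Gs l X v - ga0 (v * l)| ≤ C * ((1 + |v| * l) / l) := by
  obtain ⟨C1, hC1, h1⟩ := step1
  obtain ⟨C2, hC2, h2⟩ := step2
  refine ⟨C1 + 2 * C2, by positivity, fun l hl X hX hlX v => ?_⟩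
  have hl0 : 0 < l := by linarith
  have hpi := Real.pi_gt_three
  have a1 := h1 l hl X v
  have a2 := h2 l hl X hX hlX v
  set A := ∑ n ∈ Finset.Icc 1 X, vonMangoldt n ^ 2 / n * ((l * ggo l n) ^ 2) * Real.cos (v * Real.log n)
    with hA
  set B := ∑ n ∈ Finset.Icc 1 X, vonMangoldt n ^ 2 / n *
        (om (Real.log n / l) ^ 2 * Real.cos (v * Real.log n)) with hB
  set D := ∫ y in (0 : ℝ)..(l / 2), y * (om (y / l) ^ 2 * Real.cos (v * y)) with hD
  have e1 : Gs l X v = 1 / Real.pi * (A / l ^ 2) := by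
    unfold Gs
    rw [hA, Finset.sum_div]
    congr 1
    refine Finset.sum_congr rfl fun n hn => ?_
    have hn0 : (0 : ℝ) < n := by exact_mod_cast (Finset.mem_Icc.1 hn).1
    unfold be
    have hs : (Real.sqrt n)⁻¹ ^ 2 = 1 / n := by
      rw [inv_pow, Real.sq_sqrt hn0.le, one_div]
    rw [mul_pow, mul_pow, hs]
    field_simp
  have e2 : ga0 (v * l) = 2 * (D / l ^ 2) := by
    unfold ga0
    have h3 := intervalIntegral.integral_comp_mul_left
      (a := 0) (b := 1 / 2) (fun y => y * (om (y / l) ^ 2 * Real.cos (v * y))) hl0.ne'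
    rw [mul_zero, show l * (1 / 2) = l / 2 by ring, ← hD, smul_eq_mul] at h3
    have h4 : ∫ α in (0 : ℝ)..(1 / 2), l * α * (om (l * α / l) ^ 2 * Real.cos (v * (l * α))) =
        l * ∫ α in (0 : ℝ)..(1 / 2), α * (om α ^ 2 * Real.cos (v * l * α)) := by
      rw [← intervalIntegral.integral_const_mul]
      refine intervalIntegral.integral_congr fun α _ => ?_
      change l * α * (om (l * α / l) ^ 2 * Real.cos (v * (l * α))) = _
      rw [mul_div_cancel_left₀ _ hl0.ne']
      ring_nf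
    rw [h4] at h3
    have h5 : (∫ α in (0 : ℝ)..(1 / 2), α * (om α ^ 2 * Real.cos (v * l * α))) = l⁻¹ * (l⁻¹ * D) := by
      rw [← h3, ← mul_assoc, inv_mul_cancel₀ hl0.ne', one_mul]
    rw [h5]
    field_simp
  have e3 : Gs l X v - ga0 (v * l) = 1 / (Real.pi * l ^ 2) * (A - 2 * Real.pi * B) +
      2 / l ^ 2 * (B - D) := by
    rw [e1, e2]; field_simp; ring
  rw [e3]
  refine (abs_add_le _ _).trans ?_
  rw [abs_mul, abs_mul, abs_of_pos (by positivity : 0 < 1 / (Real.pi * l ^ 2)),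
    abs_of_pos (by positivity : 0 < 2 / l ^ 2)]
  have hvl : 0 ≤ |v| * l := by positivity
  calc 1 / (Real.pi * l ^ 2) * |A - 2 * Real.pi * B| + 2 / l ^ 2 * |B - D| ≤
      1 / (1 * l ^ 2) * (C1 * l) + 2 / l ^ 2 * (C2 * ((1 + |v| * l) * l)) := by
        gcongr
        linarith
    _ = C1 * (1 / l) + 2 * C2 * ((1 + |v| * l) / l) := by field_simp
    _ ≤ C1 * ((1 + |v| * l) / l) + 2 * C2 * ((1 + |v| * l) / l) := by
        gcongr
        linarith
    _ = _ := by ring

end Pool.Agent.W2helper93.SW
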