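import Pool.Agent.W2helper93.NV.Var

set_option autoImplicit false

/-! # A lemma on integrals of products -/

namespace Pool.Agent.W2helper93.SW

open MeasureTheory Set
open Pool.Agent.W2helper93.NV (sub_int)

lemma prod_est {K g : ℝ → ℝ} (hK : Continuous K) (hg : Continuous g)
    {A B a b v lam η G P g1 p1 : ℝ} (hlam : 0 ≤ lam) (hη : 0 < η) (hAa : A ≤ a) (hab : a ≤ b)
    (hbB : b ≤ B) (hAv : A ≤ a + v) (hBv : b + v ≤ B)
    (hG : ∫ t in A..B, g t ^ 2 ≤ G) (hP : ∫ t in A..B, (K t - lam + g t) ^ 2 ≤ P)
    (hg1 : ∀ c d, A ≤ c → c ≤ d → d ≤ B → |∫ t in c..d, g t| ≤ g1)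
    (hp1 : ∀ c d, A ≤ c → c ≤ d → d ≤ B → |∫ t in c..d, (K t - lam + g t)| ≤ p1) :
    |(∫ t in a..b, K t * K (t + v)) - ((b - a) * lam ^ 2 + ∫ t in a..b, g t * g (t + v))| ≤
      2 * lam * (g1 + p1) + η * G + P / η + P := by
  set p : ℝ → ℝ := fun t => K t - lam + g t with hp
  have hpc : Continuous p := (hK.sub continuous_const).add hg
  have sh : Continuous fun t : ℝ => t + v := continuous_id.add continuous_const
  have hg' : Continuous fun t => g (t + v) := hg.comp sh
  have hp' : Continuous fun t => p (t + v) := hpc.comp sh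
  have i1 : IntervalIntegrable (fun t => g t * g (t + v)) volume a b :=
    (hg.mul hg').intervalIntegrable _ _
  have i2 : IntervalIntegrable (fun t => lam * (g t + g (t + v))) volume a b :=
    (continuous_const.mul (hg.add hg')).intervalIntegrable _ _
  have i3 : IntervalIntegrable (fun t => lam * (p t + p (t + v))) volume a b :=
    (continuous_const.mul (hpc.add hp')).intervalIntegrable _ _
  have i4 : IntervalIntegrable (fun t => p t * p (t + v) - g t * p (t + v) - p t * g (t + v))
      volume a b := (((hpc.mul hp').sub (hg.mul hp')).sub (hpc.mul hg')).intervalIntegrable _ _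
  have i0 : IntervalIntegrable (fun _ : ℝ => lam ^ 2) volume a b :=
    continuous_const.intervalIntegrable _ _
  have ig : IntervalIntegrable g volume a b := hg.intervalIntegrable _ _
  have ig' : IntervalIntegrable (fun t => g (t + v)) volume a b := hg'.intervalIntegrable _ _
  have ip : IntervalIntegrable p volume a b := hpc.intervalIntegrable _ _
  have ip' : IntervalIntegrable (fun t => p (t + v)) volume a b := hp'.intervalIntegrable _ _
  have e0 : ∫ t in a..b, K t * K (t + v) = ((b - a) * lam ^ 2 + ∫ t in a..b, g t * g (t + v)) -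
      lam * ((∫ t in a..b, g t) + ∫ t in (a + v)..(b + v), g t) +
      lam * ((∫ t in a..b, p t) + ∫ t in (a + v)..(b + v), p t) +
      ∫ t in a..b, (p t * p (t + v) - g t * p (t + v) - p t * g (t + v)) := by
    have e1 : ∀ t, K t * K (t + v) = lam ^ 2 + g t * g (t + v) - lam * (g t + g (t + v)) +
        lam * (p t + p (t + v)) + (p t * p (t + v) - g t * p (t + v) - p t * g (t + v)) := by
      intro t
      simp only [hp]
      ring
    simp_rw [e1]
    rw [intervalIntegral.integral_add (((i0.add i1).sub i2).add i3) i4,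
      intervalIntegral.integral_add ((i0.add i1).sub i2) i3,
      intervalIntegral.integral_sub (i0.add i1) i2, intervalIntegral.integral_add i0 i1,
      intervalIntegral.integral_const_mul, intervalIntegral.integral_const_mul,
      intervalIntegral.integral_add ig ig', intervalIntegral.integral_add ip ip',
      intervalIntegral.integral_const, smul_eq_mul,
      intervalIntegral.integral_comp_add_right (fun t => g t) v,
      intervalIntegral.integral_comp_add_right (fun t => p t) v]
  have a1 := hg1 a b hAa hab hbB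
  have a2 := hg1 (a + v) (b + v) hAv (by linarith) hBv
  have a3 := hp1 a b hAa hab hbB
  have a4 := hp1 (a + v) (b + v) hAv (by linarith) hBv
  have sq1 : ∀ f : ℝ → ℝ, Continuous f → ∫ t in a..b, f t ^ 2 ≤ ∫ t in A..B, f t ^ 2 := fun f hf =>
    sub_int (hf.pow 2) (fun t => sq_nonneg _) hAa hab hbB
  have sq2 : ∀ f : ℝ → ℝ, Continuous f → ∫ t in a..b, f (t + v) ^ 2 ≤ ∫ t in A..B, f t ^ 2 := by
    intro f hf
    rw [intervalIntegral.integral_comp_add_right (fun t => f t ^ 2) v]
    exact sub_int (hf.pow 2) (fun t => sq_nonneg _) hAv (by linarith) hBv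
  have j1 : IntervalIntegrable (fun t => g t ^ 2) volume a b := (hg.pow 2).intervalIntegrable _ _
  have j2 : IntervalIntegrable (fun t => g (t + v) ^ 2) volume a b :=
    (hg'.pow 2).intervalIntegrable _ _
  have j3 : IntervalIntegrable (fun t => p t ^ 2) volume a b := (hpc.pow 2).intervalIntegrable _ _
  have j4 : IntervalIntegrable (fun t => p (t + v) ^ 2) volume a b :=
    (hp'.pow 2).intervalIntegrable _ _
  have b4 : |∫ t in a..b, (p t * p (t + v) - g t * p (t + v) - p t * g (t + v))| ≤
      η * G + P / η + P := by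
    refine (intervalIntegral.abs_integral_le_integral_abs hab).trans ?_
    have h1 : ∫ t in a..b, |p t * p (t + v) - g t * p (t + v) - p t * g (t + v)| ≤
        ∫ t in a..b, (η / 2 * g t ^ 2 + η / 2 * g (t + v) ^ 2 +
          (1 / 2 + 1 / (2 * η)) * p t ^ 2 + (1 / 2 + 1 / (2 * η)) * p (t + v) ^ 2) := by
      refine intervalIntegral.integral_mono_on hab i4.abs
        ((((j1.const_mul _).add (j2.const_mul _)).add (j3.const_mul _)).add (j4.const_mul _))
        fun t _ => ?_
      set x := g t
      set x' := g (t + v)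
      set y := p t
      set y' := p (t + v)
      have k1 : |y * y'| ≤ 1 / 2 * y ^ 2 + 1 / 2 * y' ^ 2 := by
        rw [abs_mul]
        nlinarith only [sq_nonneg (|y| - |y'|), sq_abs y, sq_abs y']
      have k2 : ∀ z w : ℝ, |z * w| ≤ η / 2 * z ^ 2 + 1 / (2 * η) * w ^ 2 := by
        intro z w
        rw [abs_mul]
        have h8 : 0 ≤ (η * |z| - |w|) ^ 2 := sq_nonneg _
        have h9 : η / 2 * z ^ 2 + 1 / (2 * η) * w ^ 2 = (η ^ 2 * z ^ 2 + w ^ 2) / (2 * η) := by
          field_simp
        rw [h9, le_div_iff₀ (by positivity)]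
        nlinarith only [h8, sq_abs z, sq_abs w]
      have k3 := k2 x y'
      have k4 := k2 x' y
      rw [mul_comm x' y] at k4
      have k5 : |y * y' - x * y' - y * x'| ≤ |y * y'| + |x * y'| + |y * x'| :=
        (abs_sub _ _).trans (add_le_add_left (abs_sub _ _) _)
      linarith
    refine h1.trans ?_
    rw [intervalIntegral.integral_add (((j1.const_mul _).add (j2.const_mul _)).add (j3.const_mul _))
      (j4.const_mul _), intervalIntegral.integral_add ((j1.const_mul _).add (j2.const_mul _))
      (j3.const_mul _), intervalIntegral.integral_add (j1.const_mul _) (j2.const_mul _),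
      intervalIntegral.integral_const_mul, intervalIntegral.integral_const_mul,
      intervalIntegral.integral_const_mul, intervalIntegral.integral_const_mul]
    have c1 : η / 2 * (∫ t in a..b, g t ^ 2) ≤ η / 2 * G :=
      mul_le_mul_of_nonneg_left ((sq1 g hg).trans hG) (by positivity)
    have c2 : η / 2 * (∫ t in a..b, g (t + v) ^ 2) ≤ η / 2 * G :=
      mul_le_mul_of_nonneg_left ((sq2 g hg).trans hG) (by positivity)
    have c3 : (1 / 2 + 1 / (2 * η)) * (∫ t in a..b, p t ^ 2) ≤ (1 / 2 + 1 / (2 * η)) * P :=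
      mul_le_mul_of_nonneg_left ((sq1 p hpc).trans hP) (by positivity)
    have c4 : (1 / 2 + 1 / (2 * η)) * (∫ t in a..b, p (t + v) ^ 2) ≤ (1 / 2 + 1 / (2 * η)) * P :=
      mul_le_mul_of_nonneg_left ((sq2 p hpc).trans hP) (by positivity)
    have e5 : η / 2 * G + η / 2 * G + (1 / 2 + 1 / (2 * η)) * P + (1 / 2 + 1 / (2 * η)) * P =
        η * G + P / η + P := by
      field_simp; ring
    linarith
  rw [e0]
  set X1 := ∫ t in a..b, g t
  set X2 := ∫ t in (a + v)..(b + v), g t
  set X3 := ∫ t in a..b, p t
  set X4 := ∫ t in (a + v)..(b + v), p t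
  set X5 := ∫ t in a..b, (p t * p (t + v) - g t * p (t + v) - p t * g (t + v))
  set M := (b - a) * lam ^ 2 + ∫ t in a..b, g t * g (t + v)
  have h1 : M - lam * (X1 + X2) + lam * (X3 + X4) + X5 - M =
      -(lam * (X1 + X2)) + lam * (X3 + X4) + X5 := by ring
  rw [h1]
  have h2 : |lam * (X1 + X2)| ≤ lam * (g1 + g1) := by
    rw [abs_mul, abs_of_nonneg hlam]
    exact mul_le_mul_of_nonneg_left ((abs_add_le _ _).trans (add_le_add a1 a2)) hlam
  have h3 : |lam * (X3 + X4)| ≤ lam * (p1 + p1) := by
    rw [abs_mul, abs_of_nonneg hlam]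
    exact mul_le_mul_of_nonneg_left ((abs_add_le _ _).trans (add_le_add a3 a4)) hlam
  have h4 : |-(lam * (X1 + X2)) + lam * (X3 + X4) + X5| ≤
      |lam * (X1 + X2)| + |lam * (X3 + X4)| + |X5| := by
    refine (abs_add_le _ _).trans (add_le_add_left ((abs_add_le _ _).trans ?_) _)
    rw [abs_neg]
  linarith

end Pool.Agent.W2helper93.SW
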