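import Pool.Agent.W2helper93.SW.Lw
import Pool.Agent.W2helper93.SW.Pe
import Pool.Agent.W2helper93.SW.Ga
import Pool.Agent.W2helper93.SW.AcU

set_option autoImplicit false

/-! # Correlations of the kernel sum on a dyadic block -/

namespace Pool.Agent.W2helper93.SW

open Complex Filter Topology MeasureTheory Set
open Pool.Agent.W2helper93.NV
open Pool.Agent.TH850.UV
open H370 (zz hh mult Zf zset AA good_zeta mem_Zf NN NN_add NN_mono zcount nn_asymp finsum_Zf)
open H370.A2 (lamC lamC_norm)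

lemma XT_facts {V : ℝ} (hV : Real.exp 64 ≤ V) : (XT V : ℝ) ≤ Real.exp (Real.log V / 8) ∧
    Real.log V / 64 ≤ Real.log (XT V) ∧ 1 ≤ XT V := by
  have hV0 : 0 < V := (Real.exp_pos _).trans_le hV
  have hL : 64 ≤ Real.log V := by rw [Real.le_log_iff_exp_le hV0]; exact hV
  have e : V ^ (1 / 8 : ℝ) = Real.exp (Real.log V / 8) := by
    rw [Real.rpow_def_of_pos hV0]; congr 1; ring
  have h1 : (XT V : ℝ) ≤ Real.exp (Real.log V / 8) := by
    rw [← e]; exact Nat.floor_le (by positivity)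
  have h2 : Real.exp (Real.log V / 8) - 1 < XT V := by
    rw [← e]; exact Nat.sub_one_lt_floor _
  have h3 : Real.exp (Real.log V / 64) ≤ Real.exp (Real.log V / 8) - 1 := by
    have h4 : Real.exp (Real.log V / 64) * Real.exp (Real.log V / 64) ≤ Real.exp (Real.log V / 8) := by
      rw [← Real.exp_add]; exact Real.exp_le_exp.2 (by linarith)
    have h5 := Real.add_one_le_exp (Real.log V / 64)
    have h6 : 1 ≤ Real.exp (Real.log V / 64) := by linarith
    nlinarith only [h4, h5, h6, hL]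
  have h4 : Real.exp (Real.log V / 64) ≤ XT V := by linarith
  have h5 : (0 : ℝ) < XT V := lt_of_lt_of_le (Real.exp_pos _) h4
  refine ⟨h1, ?_, ?_⟩
  · rw [Real.le_log_iff_exp_le h5]; exact h4
  · exact_mod_cast h5

lemma ga0_le (x : ℝ) : |ga0 x| ≤ 1 := by
  unfold ga0
  have h0 : ∀ α ∈ Set.uIoc (0 : ℝ) (1 / 2), ‖α * (om α ^ 2 * Real.cos (x * α))‖ ≤ 1 / 2 := by
    intro α hα
    rw [Set.uIoc_of_le (by norm_num)] at hα
    rw [Real.norm_eq_abs, abs_mul, abs_mul, abs_of_pos hα.1, abs_of_nonneg (sq_nonneg _)]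
    have h1 : om α ^ 2 * |Real.cos (x * α)| ≤ 1 * 1 :=
      mul_le_mul (pow_le_one₀ (om_nn α) (om_le1 α)) (Real.abs_cos_le_one _) (abs_nonneg _) zero_le_one
    calc α * (om α ^ 2 * |Real.cos (x * α)|) ≤ 1 / 2 * (1 * 1) :=
          mul_le_mul hα.2 h1 (by positivity) (by norm_num)
      _ = 1 / 2 := by norm_num
  have h := intervalIntegral.norm_integral_le_of_norm_le_const h0
  rw [Real.norm_eq_abs] at h
  rw [abs_mul, abs_two]
  have h2 : |(1 / 2 : ℝ) - 0| = 1 / 2 := by norm_num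
  rw [h2] at h
  linarith

/-- the kernel off the line in terms of a larger weight -/
lemma y_bd {y0 r : ℝ} (hr : 2 ≤ r) :
    (y0 / r) ^ 2 * Real.exp (Real.pi * |y0 / r|) ≤ Real.exp (Real.pi * |y0|) / r ^ 2 := by
  have hpi := Real.pi_gt_three
  have hr0 : 0 < r := by linarith
  have h1 : Real.pi * |y0 / r| ≤ Real.pi * |y0| / 2 := by
    rw [abs_div, abs_of_pos hr0, mul_div_assoc]
    apply mul_le_mul_of_nonneg_left _ (by linarith)
    exact div_le_div_of_nonneg_left (abs_nonneg _) (by norm_num) hr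
  set x := Real.pi * |y0| / 2 with hx
  have hx0 : 0 ≤ x := by positivity
  have h2 : y0 ^ 2 ≤ Real.exp x := by
    have h3 := Real.quadratic_le_exp_of_nonneg hx0
    have h4 : y0 ^ 2 ≤ x ^ 2 / 2 := by
      rw [← sq_abs y0, hx]
      have h5 : (9 : ℝ) ≤ Real.pi ^ 2 := by nlinarith only [hpi]
      have h6 : (Real.pi * |y0| / 2) ^ 2 / 2 = Real.pi ^ 2 * |y0| ^ 2 / 8 := by ring
      rw [h6]
      nlinarith only [h5, sq_nonneg |y0|]
    linarith
  have h3 : y0 ^ 2 * Real.exp (Real.pi * |y0 / r|) ≤ Real.exp (Real.pi * |y0|) := by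
    calc y0 ^ 2 * Real.exp (Real.pi * |y0 / r|) ≤ Real.exp x * Real.exp x :=
          mul_le_mul h2 (Real.exp_le_exp.2 h1) (Real.exp_pos _).le (Real.exp_pos _).le
      _ = Real.exp (Real.pi * |y0|) := by rw [← Real.exp_add, hx]; congr 1; ring
  rw [div_pow, div_mul_eq_mul_div]
  exact div_le_div_of_nonneg_right h3 (by positivity)

lemma e_bd {l0 r : ℝ} (hr : 2 ≤ r) (S : Finset ℂ) (t : ℝ) :
    |K0 (l0 / r) S t - KR (l0 / r) S t| ≤ 110 / r ^ 2 * ww l0 (l0 / r) S t := by
  unfold K0 KR ww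
  rw [← Finset.sum_sub_distrib, Finset.mul_sum]
  refine (Finset.abs_sum_le_sum_abs _ _).trans (Finset.sum_le_sum fun s _ => ?_)
  rw [← mul_sub, abs_mul, abs_of_nonneg (mm_nonneg s)]
  have e1 : yy (l0 / r) s = yy l0 s / r := by unfold yy; ring
  have h1 := kdiff (yy (l0 / r) s) (xx (l0 / r) s t)
  rw [e1] at h1 ⊢
  have h2 := y_bd (y0 := yy l0 s) hr
  have h3 : |qk (yy l0 s / r) (xx (l0 / r) s t) - qk 0 (xx (l0 / r) s t)| ≤
      110 / r ^ 2 * (Real.exp (Real.pi * |yy l0 s|) / (1 + xx (l0 / r) s t ^ 2)) := by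
    refine h1.trans ?_
    calc 110 * ((yy l0 s / r) ^ 2 * Real.exp (Real.pi * |yy l0 s / r|)) / (1 + xx (l0 / r) s t ^ 2) ≤
        110 * (Real.exp (Real.pi * |yy l0 s|) / r ^ 2) / (1 + xx (l0 / r) s t ^ 2) := by gcongr
      _ = _ := by ring
  calc _ ≤ mm s * (110 / r ^ 2 * (Real.exp (Real.pi * |yy l0 s|) / (1 + xx (l0 / r) s t ^ 2))) :=
        mul_le_mul_of_nonneg_left h3 (mm_nonneg s)
    _ = _ := by ring

lemma WW_ww {l0 r : ℝ} (hr : 1 ≤ r) (S : Finset ℂ) (t : ℝ) :
    WW (l0 / r) S t ≤ ww l0 (l0 / r) S t := by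
  unfold WW ww
  refine Finset.sum_le_sum fun s _ => mul_le_mul_of_nonneg_left ?_ (mm_nonneg s)
  have e1 : yy (l0 / r) s = yy l0 s / r := by unfold yy; ring
  have hr0 : 0 < r := by linarith
  refine div_le_div_of_nonneg_right (Real.exp_le_exp.2 (mul_le_mul_of_nonneg_left ?_ Real.pi_pos.le))
    (by positivity)
  rw [e1, abs_div, abs_of_pos hr0]
  exact div_le_self (abs_nonneg _) hr

lemma gs_int {l : ℝ} (hl : 0 < l) (X : ℕ) (c d : ℝ) :
    |∫ t in c..d, gs l X t| ≤ 2 * Real.pi / l * X := by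
  have h1 := Db_bd hl (d - c) X c
  rw [Db_int, add_sub_cancel] at h1
  have e1 : ∀ t, gd l X t = l / (2 * Real.pi) * gs l X t := by
    intro t
    unfold gd gs
    rw [re_DDo]
  simp_rw [e1] at h1
  rw [intervalIntegral.integral_const_mul, abs_mul,
    abs_of_pos (by positivity : 0 < l / (2 * Real.pi))] at h1
  calc |∫ t in c..d, gs l X t| = 2 * Real.pi / l * (l / (2 * Real.pi) * |∫ t in c..d, gs l X t|) := by
        field_simp
    _ ≤ _ := mul_le_mul_of_nonneg_left h1 (by positivity)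

theorem blk {lam0 : ℝ} (h16 : 16 ≤ lam0) (hW : WMom lam0) : ∃ C V0 : ℝ, 0 < C ∧ 10 ≤ V0 ∧
    ∀ V : ℝ, V0 ≤ V → ∃ U1 U2 : ℝ, V ≤ U1 ∧ U1 ≤ V + 1 ∧ 2 * V - 1 ≤ U2 ∧ U2 ≤ 2 * V ∧
      ∀ lam : ℝ, 2 * lam0 ≤ lam → lam ≤ Real.log V → ∀ a b v : ℝ, V + Real.log V ≤ a → a ≤ b →
        b ≤ 2 * V - Real.log V → V + Real.log V ≤ a + v → b + v ≤ 2 * V - Real.log V →
        |(∫ t in a..b, KR (Real.log V / lam) (Zf riemannZeta U1 U2) t *
          KR (Real.log V / lam) (Zf riemannZeta U1 U2) (t + v)) -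
          (b - a) * (lam ^ 2 + ga0 (v * (Real.log V / lam)))| ≤
        C * V * (1 / lam + lam ^ 3 / Real.log V + |v|) := by
  obtain ⟨C1, V1, hC1, hV1, hA⟩ := acU
  obtain ⟨C2, hC2, hG⟩ := gau_corr
  obtain ⟨C3, V3, hC3, hV3, hmo⟩ := mo h16 hW
  obtain ⟨C4, V4, hC4, hV4, hei⟩ := eint
  obtain ⟨C5, hC5, hga⟩ := ga
  obtain ⟨L0, hL01, hL0⟩ := exp_big (show (0 : ℝ) < 18 + C4 by positivity)
  have hpi := Real.pi_pos
  have hlam00 : 0 < lam0 := by linarith
  set K1 : ℝ := 4 * C1 ^ 2 + 4 * C2 ^ 2 * C3 + 24200 * C3 * lam0 ^ 2 with hK1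
  set K2 : ℝ := 19 + C5 with hK2
  set K3 : ℝ := C1 + C2 * (1 + C3) with hK3
  have hK10 : 0 < K1 := by positivity
  have hK20 : 0 < K2 := by positivity
  have hK30 : 0 < K3 := by positivity
  refine ⟨2 * (1 + K3) + K2 + 3 * K1 + 1 + C5, max (max V1 V3) (max V4 (max (Real.exp 64) (Real.exp L0))),
    by positivity, hV1.trans ((le_max_left _ _).trans (le_max_left _ _)), fun V hV => ?_⟩
  have hVV1 : V1 ≤ V := ((le_max_left _ _).trans (le_max_left _ _)).trans hV
  have hVV3 : V3 ≤ V := ((le_max_right _ _).trans (le_max_left _ _)).trans hV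
  have hVV4 : V4 ≤ V := ((le_max_left _ _).trans (le_max_right _ _)).trans hV
  have hVe : Real.exp 64 ≤ V := ((le_max_left _ _).trans ((le_max_right _ _).trans
    (le_max_right _ _))).trans hV
  have hVe2 : Real.exp L0 ≤ V := ((le_max_right _ _).trans ((le_max_right _ _).trans
    (le_max_right _ _))).trans hV
  have hV10 : 10 ≤ V := hV1.trans hVV1
  have hVpos : 0 < V := by linarith
  obtain ⟨U1, U2, hU1, hU1', hU2, hU2', hac⟩ := hA V hVV1
  refine ⟨U1, U2, hU1, hU1', hU2, hU2', fun lam hlam hlamL a b v ha hab hb hav hbv => ?_⟩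
  obtain ⟨hX1, hX2, hX3⟩ := XT_facts hVe
  have hU : 1 ≤ U1 := by linarith
  set L := Real.log V with hL
  have hL64 : 64 ≤ L := by rw [hL, Real.le_log_iff_exp_le hVpos]; exact hVe
  have hLL0 : L0 ≤ L := by rw [hL, Real.le_log_iff_exp_le hVpos]; exact hVe2
  have hLpos : 0 < L := by linarith
  have hVL : V = Real.exp L := by rw [hL, Real.exp_log hVpos]
  have hlam32 : 32 ≤ lam := by linarith
  have hlampos : 0 < lam := by linarith
  set X := XT V with hX
  set r := lam / lam0 with hr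
  have hr2 : 2 ≤ r := by rw [hr, le_div_iff₀ hlam00]; exact hlam
  have hr0 : 0 < r := by linarith
  have hrL : r ≤ L := by
    rw [hr, div_le_iff₀ hlam00]
    nlinarith only [hlamL, h16, hLpos]
  have hrlam : r ≤ lam := by rw [hr]; exact div_le_self hlampos.le (by linarith)
  set l0 := L / lam0 with hl0
  set l := L / lam with hl
  have hl0r : l0 / r = l := by
    rw [hl0, hr, hl]; field_simp
  have hl1 : 1 ≤ l := by rw [hl, le_div_iff₀ hlampos, one_mul]; exact hlamL
  have hlpos : 0 < l := by linarith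
  have hl16 : l ≤ L / 32 := by
    rw [hl]; exact div_le_div_of_nonneg_left hLpos.le (by norm_num) hlam32
  set S := Zf riemannZeta U1 U2 with hS
  have hSre : ∀ s ∈ S, |s.re - 1 / 2| ≤ 1 / 2 := by
    intro s hs
    rw [hS, mem_Zf good_zeta hU] at hs
    rw [abs_le]
    constructor <;> linarith [hs.1, hs.2.1]
  set A := V + L with hAdef
  set B := 2 * V - L with hBdef
  have hAB : A ≤ B := ha.trans (hab.trans hb)
  set W : ℝ → ℝ := ww l0 l S with hWdef
  have hWc : Continuous W := ww_cont l0 l S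
  have hW0 : ∀ t, 0 ≤ W t := fun t => ww_nonneg l0 l S t
  set g : ℝ → ℝ := gs l X with hgdef
  have hgc : Continuous g := gs_cont l X
  have hKRc := KR_cont l S
  have hK0c := K0_cont l S
  set e : ℝ → ℝ := fun t => K0 l S t - KR l S t with he
  have hec : Continuous e := hK0c.sub hKRc
  set q : ℝ → ℝ := fun t => K0 l S t - lam + g t with hq
  have hqc : Continuous q := (hK0c.sub continuous_const).add hgc
  -- pointwise bounds
  have he1 : ∀ t, |e t| ≤ 110 / r ^ 2 * W t := by
    intro t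
    have := e_bd (l0 := l0) hr2 S t
    rw [hl0r] at this
    exact this
  have hq1 : ∀ t ∈ Set.Icc A B, |q t| ≤ C1 * lam ^ 2 / L + C2 / l ^ 2 * W t := by
    intro t ht
    have h1 := hG l S hlpos hSre t
    have h2 := fullo (U2 := U2) l hU t
    rw [← hS] at h2
    rw [h2, Complex.ofReal_re] at h1
    have h3 := hac lam (by linarith) hlamL t ht.1 ht.2
    have h4 : 2 * (1 / Real.sqrt (2 * Real.pi)) * (DDo lamC l X t).re = g t := by
      simp only [hgdef]
      unfold gs
      rw [re_DDo]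
    rw [h4] at h3
    have h5 : WW l S t ≤ W t := by
      have := WW_ww (l0 := l0) (by linarith : 1 ≤ r) S t
      rw [hl0r] at this
      exact this
    have h6 : C2 / l ^ 2 * WW l S t ≤ C2 / l ^ 2 * W t :=
      mul_le_mul_of_nonneg_left h5 (by positivity)
    have h7 : q t = (2 * (HTo l U1 U2 t).re - (lam - g t)) -
        (2 * (HTo l U1 U2 t).re - K0 l S t) := by
      simp only [hq]; ring
    rw [h7]
    exact (abs_sub _ _).trans (add_le_add h3 (h1.trans h6))
  -- the second moment of the weight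
  have hmom : ∫ t in V..(2 * V), W t ^ 2 ≤ C3 * r ^ 2 * V := by
    have := hmo V hVV3 U1 U2 hU1 hU2' r (by linarith) hrL
    rw [← hL, ← hl0, ← hS, hl0r] at this
    exact this
  have hmomAB : ∫ t in A..B, W t ^ 2 ≤ C3 * r ^ 2 * V :=
    (sub_int (hWc.pow 2) (fun t => sq_nonneg _) (by linarith) hAB (by linarith)).trans hmom
  have hr2l : r ^ 2 / l ^ 4 ≤ lam ^ 4 / L ^ 2 := by
    have h1 : ∀ x : ℝ, x ^ 2 / (L / lam) ^ 4 = lam ^ 4 / L ^ 2 * (x ^ 2 / L ^ 2) := by
      intro x
      field_simp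
    rw [hl, h1 r]
    apply mul_le_of_le_one_right (by positivity)
    rw [div_le_one (by positivity)]
    exact pow_le_pow_left₀ hr0.le hrL 2
  set η := 1 / lam + lam ^ 2 / L with hη
  have hη0 : 0 < η := by positivity
  -- the second moment of the remainder
  have hP : ∫ t in A..B, (KR l S t - lam + g t) ^ 2 ≤ V * K1 * η ^ 2 := by
    have i1 : IntervalIntegrable (fun t => (KR l S t - lam + g t) ^ 2) volume A B :=
      (((hKRc.sub continuous_const).add hgc).pow 2).intervalIntegrable _ _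
    have i2 : IntervalIntegrable (fun t => 4 * (C1 * lam ^ 2 / L) ^ 2 +
        (4 * (C2 / l ^ 2) ^ 2 + 2 * (110 / r ^ 2) ^ 2) * W t ^ 2) volume A B :=
      (continuous_const.add (continuous_const.mul (hWc.pow 2))).intervalIntegrable _ _
    have i3 : IntervalIntegrable (fun t => (4 * (C2 / l ^ 2) ^ 2 + 2 * (110 / r ^ 2) ^ 2) * W t ^ 2)
        volume A B := (continuous_const.mul (hWc.pow 2)).intervalIntegrable _ _
    have i4 : IntervalIntegrable (fun _ : ℝ => 4 * (C1 * lam ^ 2 / L) ^ 2) volume A B :=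
      continuous_const.intervalIntegrable _ _
    have h1 : ∫ t in A..B, (KR l S t - lam + g t) ^ 2 ≤ ∫ t in A..B, (4 * (C1 * lam ^ 2 / L) ^ 2 +
        (4 * (C2 / l ^ 2) ^ 2 + 2 * (110 / r ^ 2) ^ 2) * W t ^ 2) := by
      refine intervalIntegral.integral_mono_on hAB i1 i2 fun t ht => ?_
      have h2 : KR l S t - lam + g t = q t - e t := by simp only [hq, he]; ring
      rw [h2]
      have h3 := hq1 t ht
      have h4 := he1 t
      have h5 : q t ^ 2 ≤ (C1 * lam ^ 2 / L + C2 / l ^ 2 * W t) ^ 2 := by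
        rw [← sq_abs (q t)]; exact pow_le_pow_left₀ (abs_nonneg _) h3 2
      have h6 : e t ^ 2 ≤ (110 / r ^ 2 * W t) ^ 2 := by
        rw [← sq_abs (e t)]; exact pow_le_pow_left₀ (abs_nonneg _) h4 2
      have h7 : (q t - e t) ^ 2 ≤ 2 * q t ^ 2 + 2 * e t ^ 2 := by
        nlinarith only [sq_nonneg (q t + e t)]
      have h8 : (C1 * lam ^ 2 / L + C2 / l ^ 2 * W t) ^ 2 ≤
          2 * (C1 * lam ^ 2 / L) ^ 2 + 2 * (C2 / l ^ 2 * W t) ^ 2 := by
        nlinarith only [sq_nonneg (C1 * lam ^ 2 / L - C2 / l ^ 2 * W t)]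
      calc (q t - e t) ^ 2 ≤ 2 * (2 * (C1 * lam ^ 2 / L) ^ 2 + 2 * (C2 / l ^ 2 * W t) ^ 2) +
            2 * (110 / r ^ 2 * W t) ^ 2 := by linarith
        _ = _ := by ring
    refine h1.trans ?_
    rw [intervalIntegral.integral_add i4 i3, intervalIntegral.integral_const,
      intervalIntegral.integral_const_mul, smul_eq_mul]
    have h9 : (B - A) * (4 * (C1 * lam ^ 2 / L) ^ 2) ≤ V * (4 * (C1 * lam ^ 2 / L) ^ 2) := by
      apply mul_le_mul_of_nonneg_right _ (by positivity)
      simp only [hAdef, hBdef]; linarith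
    have h10 : (4 * (C2 / l ^ 2) ^ 2 + 2 * (110 / r ^ 2) ^ 2) * (∫ t in A..B, W t ^ 2) ≤
        (4 * (C2 / l ^ 2) ^ 2 + 2 * (110 / r ^ 2) ^ 2) * (C3 * r ^ 2 * V) :=
      mul_le_mul_of_nonneg_left hmomAB (by positivity)
    have e1 : (4 * (C2 / l ^ 2) ^ 2 + 2 * (110 / r ^ 2) ^ 2) * (C3 * r ^ 2 * V) =
        V * (4 * C2 ^ 2 * C3) * (r ^ 2 / l ^ 4) + V * (24200 * C3 * lam0 ^ 2) * (1 / lam) ^ 2 := by
      rw [hr]; field_simp; ring
    have h11 : V * (4 * C2 ^ 2 * C3) * (r ^ 2 / l ^ 4) ≤ V * (4 * C2 ^ 2 * C3) * (lam ^ 4 / L ^ 2) :=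
      mul_le_mul_of_nonneg_left hr2l (by positivity)
    have e2 : V * (4 * (C1 * lam ^ 2 / L) ^ 2) = V * (4 * C1 ^ 2) * (lam ^ 4 / L ^ 2) := by
      field_simp
    have h12 : lam ^ 4 / L ^ 2 ≤ η ^ 2 := by
      have : lam ^ 4 / L ^ 2 = (lam ^ 2 / L) ^ 2 := by field_simp
      rw [this, hη]
      apply pow_le_pow_left₀ (by positivity)
      have : 0 < 1 / lam := by positivity
      linarith
    have h13 : (1 / lam) ^ 2 ≤ η ^ 2 := by
      apply pow_le_pow_left₀ (by positivity)
      rw [hη]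
      have : 0 < lam ^ 2 / L := by positivity
      linarith
    calc (B - A) * (4 * (C1 * lam ^ 2 / L) ^ 2) +
        (4 * (C2 / l ^ 2) ^ 2 + 2 * (110 / r ^ 2) ^ 2) * (∫ t in A..B, W t ^ 2) ≤
        V * (4 * C1 ^ 2) * (lam ^ 4 / L ^ 2) + (V * (4 * C2 ^ 2 * C3) * (lam ^ 4 / L ^ 2) +
          V * (24200 * C3 * lam0 ^ 2) * (1 / lam) ^ 2) := by
          rw [← e2]
          linarith
      _ ≤ V * (4 * C1 ^ 2) * η ^ 2 + (V * (4 * C2 ^ 2 * C3) * η ^ 2 +
          V * (24200 * C3 * lam0 ^ 2) * η ^ 2) := by gcongr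
      _ = _ := by rw [hK1]; ring
  -- the prime sum
  have hX0 : (0 : ℝ) ≤ X := Nat.cast_nonneg _
  have hX13 : (X : ℝ) ^ 3 ≤ Real.exp (3 / 8 * L) := by
    calc (X : ℝ) ^ 3 ≤ Real.exp (L / 8) ^ 3 := pow_le_pow_left₀ hX0 hX1 3
      _ = _ := by rw [← Real.exp_nat_mul]; congr 1; push_cast; ring
  have hbig := hL0 L hLL0
  have hL2 : L ≤ L ^ 2 := by nlinarith only [hL64]
  have hX3V : 18 * (X : ℝ) ^ 3 * L ≤ V := by
    calc 18 * (X : ℝ) ^ 3 * L ≤ 18 * Real.exp (3 / 8 * L) * L ^ 2 := by gcongr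
      _ = (18 * L ^ 2) * Real.exp (3 / 8 * L) := by ring
      _ ≤ ((18 + C4) * L ^ 2) * Real.exp (3 / 8 * L) := by
          gcongr
          linarith
      _ ≤ Real.exp (L / 4) * Real.exp (3 / 8 * L) := mul_le_mul_of_nonneg_right hbig (Real.exp_pos _).le
      _ ≤ V := by
          rw [← Real.exp_add, hVL]
          exact Real.exp_le_exp.2 (by linarith)
  have hl64 : l / 2 ≤ Real.log X := by
    refine le_trans ?_ hX2
    linarith
  have hGG : ∫ t in A..B, g t ^ 2 ≤ K2 * V := by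
    have h1 := corr hl1 hX3 (a := A) (b := B) 0
    have h2 := hga l hl1 X hX3 hl64 0
    simp only [add_zero, abs_zero, zero_mul] at h1 h2
    have h3 := ga0_le 0
    have h4 : ∫ t in A..B, g t ^ 2 = ∫ t in A..B, gs l X t * gs l X t := by
      refine intervalIntegral.integral_congr fun t _ => ?_
      simp only [hgdef]
      ring
    have h5 : Gs l X 0 ≤ 1 + C5 := by
      have h6 : C5 * (1 / l) ≤ C5 := by
        rw [mul_one_div]; exact div_le_self hC5.le hl1
      have h7 := (abs_le.1 h2).2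
      have h8 := (abs_le.1 h3).2
      linarith
    have h6 := (abs_le.1 h1).2
    have h7 : (B - A) * Gs l X 0 ≤ V * (1 + C5) := by
      have h8 : 0 ≤ B - A := by linarith
      have h9 : B - A ≤ V := by simp only [hAdef, hBdef]; linarith
      calc (B - A) * Gs l X 0 ≤ (B - A) * (1 + C5) := mul_le_mul_of_nonneg_left h5 h8
        _ ≤ _ := mul_le_mul_of_nonneg_right h9 (by positivity)
    have h8 : 18 * (X : ℝ) ^ 3 ≤ V := by
      have : 18 * (X : ℝ) ^ 3 * 1 ≤ 18 * (X : ℝ) ^ 3 * L := by gcongr; linarith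
      linarith
    rw [h4, hK2]
    nlinarith only [h6, h7, h8, hVpos]
  have hg1 : ∀ c d, A ≤ c → c ≤ d → d ≤ B → |∫ t in c..d, g t| ≤ 7 * X := by
    intro c d _ _ _
    refine (gs_int hlpos X c d).trans (mul_le_mul_of_nonneg_right ?_ hX0)
    have := Real.pi_lt_d2
    rw [div_le_iff₀ hlpos]
    linarith
  -- the mean of the remainder
  have hp1 : ∀ c d, A ≤ c → c ≤ d → d ≤ B → |∫ t in c..d, (KR l S t - lam + g t)| ≤
      C4 * L * Real.exp (L / 64) + K3 * (lam ^ 2 / L) * V := by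
    intro c d hc hcd hd
    have i1 : IntervalIntegrable q volume c d := hqc.intervalIntegrable _ _
    have i2 : IntervalIntegrable e volume c d := hec.intervalIntegrable _ _
    have e1 : ∫ t in c..d, (KR l S t - lam + g t) = (∫ t in c..d, q t) - ∫ t in c..d, e t := by
      rw [← intervalIntegral.integral_sub i1 i2]
      refine intervalIntegral.integral_congr fun t _ => ?_
      simp only [hq, he]
      ring
    have h1 : |∫ t in c..d, e t| ≤ C4 * L * Real.exp (L / 64) :=
      hei V hVV4 U1 U2 hU1 hU2' l hl1 (by linarith) c d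
    have iW : IntervalIntegrable W volume c d := hWc.intervalIntegrable _ _
    have h2 : |∫ t in c..d, q t| ≤ C1 * lam ^ 2 / L * V + C2 / l ^ 2 * ∫ t in c..d, W t := by
      refine (intervalIntegral.abs_integral_le_integral_abs hcd).trans ?_
      have i3 : IntervalIntegrable (fun t => C1 * lam ^ 2 / L + C2 / l ^ 2 * W t) volume c d :=
        (continuous_const.add (continuous_const.mul hWc)).intervalIntegrable _ _
      have i4 : IntervalIntegrable (fun _ : ℝ => C1 * lam ^ 2 / L) volume c d :=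
        continuous_const.intervalIntegrable _ _
      have h3 : ∫ t in c..d, |q t| ≤ ∫ t in c..d, (C1 * lam ^ 2 / L + C2 / l ^ 2 * W t) :=
        intervalIntegral.integral_mono_on hcd i1.abs i3 fun t ht =>
          hq1 t ⟨hc.trans ht.1, ht.2.trans hd⟩
      rw [intervalIntegral.integral_add i4 (iW.const_mul _), intervalIntegral.integral_const,
        intervalIntegral.integral_const_mul, smul_eq_mul] at h3
      refine h3.trans (add_le_add_left ?_ _)
      rw [mul_comm]
      apply mul_le_mul_of_nonneg_left _ (by positivity)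
      have : B - A ≤ V := by simp only [hAdef, hBdef]; linarith
      linarith
    have h3 : ∫ t in c..d, W t ≤ (1 + C3) * lam * V := by
      have i5 : IntervalIntegrable (fun t => lam / 2 + 1 / (2 * lam) * W t ^ 2) volume c d :=
        (continuous_const.add (continuous_const.mul (hWc.pow 2))).intervalIntegrable _ _
      have i6 : IntervalIntegrable (fun t => 1 / (2 * lam) * W t ^ 2) volume c d :=
        (continuous_const.mul (hWc.pow 2)).intervalIntegrable _ _
      have i7 : IntervalIntegrable (fun _ : ℝ => lam / 2) volume c d :=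
        continuous_const.intervalIntegrable _ _
      have h4 : ∫ t in c..d, W t ≤ ∫ t in c..d, (lam / 2 + 1 / (2 * lam) * W t ^ 2) := by
        refine intervalIntegral.integral_mono_on hcd iW i5 fun t _ => ?_
        have h5 : lam / 2 + 1 / (2 * lam) * W t ^ 2 = (lam ^ 2 + W t ^ 2) / (2 * lam) := by
          field_simp
        rw [h5, le_div_iff₀ (by positivity)]
        nlinarith only [sq_nonneg (lam - W t)]
      rw [intervalIntegral.integral_add i7 i6, intervalIntegral.integral_const,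
        intervalIntegral.integral_const_mul, smul_eq_mul] at h4
      have h5 : ∫ t in c..d, W t ^ 2 ≤ C3 * r ^ 2 * V :=
        (sub_int (hWc.pow 2) (fun t => sq_nonneg _) hc hcd hd).trans hmomAB
      have h6 : 1 / (2 * lam) * (∫ t in c..d, W t ^ 2) ≤ 1 / (2 * lam) * (C3 * lam ^ 2 * V) := by
        apply mul_le_mul_of_nonneg_left (h5.trans _) (by positivity)
        gcongr
      have h7 : 1 / (2 * lam) * (C3 * lam ^ 2 * V) = C3 * lam * V / 2 := by field_simp
      have h8 : (d - c) * (lam / 2) ≤ V * (lam / 2) := by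
        apply mul_le_mul_of_nonneg_right _ (by positivity)
        have : B - A ≤ V := by simp only [hAdef, hBdef]; linarith
        linarith
      have h9 : 0 ≤ lam * V := by positivity
      have h10 : 0 ≤ C3 * lam * V := by positivity
      nlinarith only [h4, h6, h7, h8, h9, h10]
    have h4 : C2 / l ^ 2 * (∫ t in c..d, W t) ≤ C2 * (1 + C3) * (lam ^ 2 / L) * V := by
      calc C2 / l ^ 2 * (∫ t in c..d, W t) ≤ C2 / l ^ 2 * ((1 + C3) * lam * V) :=
            mul_le_mul_of_nonneg_left h3 (by positivity)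
        _ = C2 * (1 + C3) * (lam ^ 2 / L) * V * (lam / L) := by rw [hl]; field_simp
        _ ≤ C2 * (1 + C3) * (lam ^ 2 / L) * V * 1 := by
            apply mul_le_mul_of_nonneg_left _ (by positivity)
            rw [div_le_one hLpos]; exact hlamL
        _ = _ := mul_one _
    rw [e1]
    refine (abs_sub _ _).trans ?_
    have e2 : C1 * lam ^ 2 / L * V = C1 * (lam ^ 2 / L) * V := by ring
    rw [hK3]
    rw [e2] at h2
    nlinarith only [h1, h2, h4]
  -- assembling
  have hmain := prod_est hKRc hgc (v := v) hlampos.le hη0 ha hab hb hav hbv hGG hP hg1 hp1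
  have hcor := corr hl1 hX3 (a := a) (b := b) v
  have hgav := hga l hl1 X hX3 hl64 v
  set Q := 1 / lam + lam ^ 3 / L with hQ
  have hQ0 : 0 < Q := by positivity
  have hηQ : η ≤ Q := by
    rw [hη, hQ]
    have : lam ^ 2 / L ≤ lam ^ 3 / L := by
      apply div_le_div_of_nonneg_right _ hLpos.le
      nlinarith only [hlam32, sq_nonneg lam]
    linarith
  have hη2 : η ^ 2 ≤ 2 * Q := by
    have h1 : η ^ 2 ≤ 2 * (1 / lam) ^ 2 + 2 * (lam ^ 2 / L) ^ 2 := by
      rw [hη]; nlinarith only [sq_nonneg (1 / lam - lam ^ 2 / L)]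
    have h2 : (1 / lam) ^ 2 ≤ 1 / lam := by
      have k1 : 1 / lam ≤ 1 := by rw [div_le_one hlampos]; linarith
      have k2 : 0 < 1 / lam := by positivity
      rw [sq]
      exact mul_le_of_le_one_left k2.le k1
    have h3 : (lam ^ 2 / L) ^ 2 ≤ lam ^ 3 / L := by
      have : (lam ^ 2 / L) ^ 2 = lam ^ 3 / L * (lam / L) := by field_simp
      rw [this]
      apply mul_le_of_le_one_right (by positivity)
      rw [div_le_one hLpos]; exact hlamL
    rw [hQ]; linarith
  have hPη : V * K1 * η ^ 2 / η = V * K1 * η := by field_simp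
  have hQL : 1 / L ≤ Q := by
    rw [hQ]
    have h1 : 1 / L ≤ lam ^ 3 / L := by
      apply div_le_div_of_nonneg_right _ hLpos.le
      exact one_le_pow₀ (by linarith)
    have : 0 < 1 / lam := by positivity
    linarith
  have hsmall : 7 * X + C4 * L * Real.exp (L / 64) ≤ V * (lam ^ 2 / L) := by
    have h1 : L * (7 * X + C4 * L * Real.exp (L / 64)) ≤ V := by
      have h2 : Real.exp (L / 64) ≤ Real.exp (L / 8) := Real.exp_le_exp.2 (by linarith)
      calc L * (7 * X + C4 * L * Real.exp (L / 64)) ≤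
          L * (18 * L * Real.exp (L / 8) + C4 * L * Real.exp (L / 8)) := by
            have k1 : 7 * (X : ℝ) ≤ 18 * L * Real.exp (L / 8) := by
              calc 7 * (X : ℝ) ≤ 7 * Real.exp (L / 8) := mul_le_mul_of_nonneg_left hX1 (by norm_num)
                _ ≤ 18 * L * Real.exp (L / 8) :=
                  mul_le_mul_of_nonneg_right (by linarith) (Real.exp_pos _).le
            have k2 : C4 * L * Real.exp (L / 64) ≤ C4 * L * Real.exp (L / 8) :=
              mul_le_mul_of_nonneg_left h2 (by positivity)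
            exact mul_le_mul_of_nonneg_left (add_le_add k1 k2) hLpos.le
        _ = ((18 + C4) * L ^ 2) * Real.exp (L / 8) := by ring
        _ ≤ Real.exp (L / 4) * Real.exp (L / 8) := mul_le_mul_of_nonneg_right hbig (Real.exp_pos _).le
        _ ≤ V := by rw [← Real.exp_add, hVL]; exact Real.exp_le_exp.2 (by linarith)
    have h3 : 7 * X + C4 * L * Real.exp (L / 64) ≤ V / L := by
      rw [le_div_iff₀ hLpos]; linarith
    refine h3.trans ?_
    rw [mul_div_assoc']
    apply div_le_div_of_nonneg_right _ hLpos.le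
    have : 1 ≤ lam ^ 2 := one_le_pow₀ (by linarith)
    nlinarith only [this, hVpos]
  have hm2 : 2 * lam * (7 * X + (C4 * L * Real.exp (L / 64) + K3 * (lam ^ 2 / L) * V)) ≤
      2 * (1 + K3) * V * Q := by
    have h1 : 2 * lam * (7 * X + (C4 * L * Real.exp (L / 64) + K3 * (lam ^ 2 / L) * V)) ≤
        2 * lam * (V * (lam ^ 2 / L) + K3 * (lam ^ 2 / L) * V) := by
      apply mul_le_mul_of_nonneg_left _ (by positivity)
      linarith
    have h2 : 2 * lam * (V * (lam ^ 2 / L) + K3 * (lam ^ 2 / L) * V) =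
        2 * (1 + K3) * V * (lam ^ 3 / L) := by field_simp
    refine h1.trans (h2.le.trans ?_)
    apply mul_le_mul_of_nonneg_left _ (by positivity)
    rw [hQ]
    have : 0 < 1 / lam := by positivity
    linarith
  have hm3 : η * (K2 * V) + V * K1 * η ^ 2 / η + V * K1 * η ^ 2 ≤ (K2 + 3 * K1) * V * Q := by
    rw [hPη]
    have h1 : η * (K2 * V) ≤ Q * (K2 * V) := mul_le_mul_of_nonneg_right hηQ (by positivity)
    have h2 : V * K1 * η ≤ V * K1 * Q := mul_le_mul_of_nonneg_left hηQ (by positivity)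
    have h3 : V * K1 * η ^ 2 ≤ V * K1 * (2 * Q) := mul_le_mul_of_nonneg_left hη2 (by positivity)
    nlinarith only [h1, h2, h3]
  have hba : 0 ≤ b - a := by linarith
  have hbaV : b - a ≤ V := by
    have : B - A ≤ V := by simp only [hAdef, hBdef]; linarith
    linarith
  have hm4 : 18 * (X : ℝ) ^ 3 ≤ V * Q := by
    have h1 : 18 * (X : ℝ) ^ 3 ≤ V * (1 / L) := by
      rw [mul_one_div, le_div_iff₀ hLpos]; exact hX3V
    exact h1.trans (mul_le_mul_of_nonneg_left hQL hVpos.le)
  have hm5 : (b - a) * |Gs l X v - ga0 (v * l)| ≤ V * C5 * (Q + |v|) := by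
    have h1 : (1 + |v| * l) / l ≤ Q + |v| := by
      have h2 : (1 + |v| * l) / l = lam / L + |v| := by rw [hl]; field_simp
      rw [h2]
      have h3 : lam / L ≤ lam ^ 3 / L := by
        apply div_le_div_of_nonneg_right _ hLpos.le
        have : 1 ≤ lam ^ 2 := one_le_pow₀ (by linarith)
        nlinarith only [this, hlampos]
      rw [hQ]
      have : 0 < 1 / lam := by positivity
      linarith
    calc (b - a) * |Gs l X v - ga0 (v * l)| ≤ V * (C5 * (Q + |v|)) :=
          mul_le_mul hbaV (hgav.trans (mul_le_mul_of_nonneg_left h1 hC5.le)) (abs_nonneg _) hVpos.le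
      _ = _ := by ring
  have hm6 : (∫ t in a..b, KR l S t * KR l S (t + v)) - (b - a) * (lam ^ 2 + ga0 (v * l)) =
      ((∫ t in a..b, KR l S t * KR l S (t + v)) -
        ((b - a) * lam ^ 2 + ∫ t in a..b, g t * g (t + v))) +
      ((∫ t in a..b, g t * g (t + v)) - (b - a) * Gs l X v) +
      (b - a) * (Gs l X v - ga0 (v * l)) := by ring
  rw [hm6]
  have hcor' : |(∫ t in a..b, g t * g (t + v)) - (b - a) * Gs l X v| ≤ 18 * (X : ℝ) ^ 3 := hcor
  refine (abs_add_le _ _).trans ((add_le_add_left (abs_add_le _ _) _).trans ?_)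
  rw [abs_mul, abs_of_nonneg hba]
  have hv0 := abs_nonneg v
  have hVv : 0 ≤ V * |v| := by positivity
  have hVQ : 0 ≤ V * Q := by positivity
  have hfin : (2 * (1 + K3) + K2 + 3 * K1 + 1 + C5) * V * (Q + |v|) =
      2 * (1 + K3) * V * Q + (K2 + 3 * K1) * V * Q + V * Q + V * C5 * (Q + |v|) +
        (2 * (1 + K3) + K2 + 3 * K1 + 1) * (V * |v|) := by ring
  rw [hfin]
  have hz : 0 ≤ (2 * (1 + K3) + K2 + 3 * K1 + 1) * (V * |v|) := by positivity
  linarith

end Pool.Agent.W2helper93.SW
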