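import Pool.Agent.W2helper93.SW.Psi
import Mathlib.Analysis.SpecialFunctions.Gaussian.FourierTransform
import Mathlib.Analysis.SpecialFunctions.Gamma.Basic

set_option autoImplicit false

/-! # The Gaussian as a mixture of dilates of the autocorrelation -/

namespace Pool.Agent.W2helper93.SW

open Filter Topology MeasureTheory Set
open Pool.Agent.TH850.UV

lemma vint (n : ℕ) : IntegrableOn (fun v : ℝ => v ^ n * Real.exp (-(Real.pi * v))) (Ioi 0) := by
  have h := integrableOn_rpow_mul_exp_neg_mul_rpow (s := n) (p := 1) (b := Real.pi)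
    (by have := Nat.cast_nonneg (α := ℝ) n; linarith) one_pos Real.pi_pos
  refine h.congr_fun (fun v _ => ?_) measurableSet_Ioi
  simp only [Real.rpow_one, Real.rpow_natCast, neg_mul]

lemma vval : ∫ v in Ioi (0 : ℝ), v ^ 8 * Real.exp (-(Real.pi * v)) = 40320 / Real.pi ^ 9 := by
  have h := Real.integral_rpow_mul_exp_neg_mul_Ioi (a := 9) (r := Real.pi) (by norm_num) Real.pi_pos
  have h1 : ∫ v in Ioi (0 : ℝ), v ^ 8 * Real.exp (-(Real.pi * v)) =
      ∫ v in Ioi (0 : ℝ), v ^ ((9 : ℝ) - 1) * Real.exp (-(Real.pi * v)) := by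
    refine setIntegral_congr_fun measurableSet_Ioi fun v _ => ?_
    have : (9 : ℝ) - 1 = ((8 : ℕ) : ℝ) := by norm_num
    simp only [this, Real.rpow_natCast]
  have h2 : Real.Gamma 9 = 40320 := by
    have := Real.Gamma_nat_eq_factorial 8
    have e : ((8 : ℕ) : ℝ) + 1 = 9 := by norm_num
    rw [e] at this
    rw [this]
    norm_num [Nat.factorial]
  rw [h1, h, h2]
  have h3 : (1 / Real.pi) ^ (9 : ℝ) = 1 / Real.pi ^ 9 := by
    have : (9 : ℝ) = ((9 : ℕ) : ℝ) := by norm_num
    rw [this, Real.rpow_natCast, div_pow, one_pow]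
  rw [h3]
  ring

/-- the mixing density -/
noncomputable def wv (v : ℝ) : ℝ := Real.pi ^ 9 / 40320 * (v ^ 8 * Real.exp (-(Real.pi * v)))

lemma wv_nonneg (v : ℝ) : 0 ≤ wv v := by
  unfold wv
  have h : 0 ≤ v ^ 8 := by
    have : v ^ 8 = (v ^ 4) ^ 2 := by ring
    rw [this]; exact sq_nonneg _
  have hpi := Real.pi_pos
  positivity

lemma wv_cont : Continuous wv := by
  unfold wv; fun_prop

lemma om_sq_v {v : ℝ} (hv : 0 < v) (a : ℝ) :
    om (a / (2 * Real.sqrt v)) ^ 2 = (max 0 (1 - a ^ 2 / v)) ^ 8 := by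
  unfold om
  have h : 4 * (a / (2 * Real.sqrt v)) ^ 2 = a ^ 2 / v := by
    rw [div_pow, mul_pow, Real.sq_sqrt hv.le]
    field_simp
    ring
  rw [h, ← pow_mul]

lemma om_sq_zero {v a : ℝ} (hv : 0 < v) (h : v ≤ a ^ 2) : om (a / (2 * Real.sqrt v)) ^ 2 = 0 := by
  rw [om_sq_v hv, max_eq_left]
  · norm_num
  · have : 1 ≤ a ^ 2 / v := by rw [le_div_iff₀ hv]; linarith
    linarith

lemma vmix (a : ℝ) : ∫ v in Ioi (0 : ℝ), wv v * om (a / (2 * Real.sqrt v)) ^ 2 =
    Real.exp (-(Real.pi * a ^ 2)) := by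
  have hpi := Real.pi_pos
  set h : ℝ → ℝ := fun v => Real.pi ^ 9 / 40320 * ((v - a ^ 2) ^ 8 * Real.exp (-(Real.pi * v))) with hh
  have h1 : ∫ v in Ioi (0 : ℝ), wv v * om (a / (2 * Real.sqrt v)) ^ 2 =
      ∫ v in Ioi (0 : ℝ), (Ioi (a ^ 2)).indicator h v := by
    refine setIntegral_congr_fun measurableSet_Ioi fun v hv => ?_
    have hv0 : 0 < v := hv
    by_cases h2 : a ^ 2 < v
    · rw [Set.indicator_of_mem (show v ∈ Ioi (a ^ 2) from h2), om_sq_v hv0, max_eq_right]
      · simp only [hh]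
        unfold wv
        have h3 : 1 - a ^ 2 / v = (v - a ^ 2) / v := by field_simp
        rw [h3, div_pow]
        field_simp
      · have : a ^ 2 / v ≤ 1 := by rw [div_le_one hv0]; exact h2.le
        linarith
    · rw [Set.indicator_of_notMem (show v ∉ Ioi (a ^ 2) from h2), om_sq_zero hv0 (not_lt.1 h2),
        mul_zero]
  rw [h1, setIntegral_indicator measurableSet_Ioi]
  have h2 : Ioi (0 : ℝ) ∩ Ioi (a ^ 2) = Ioi (a ^ 2) := by
    rw [Set.inter_eq_right]
    exact Ioi_subset_Ioi (sq_nonneg a)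
  rw [h2, ← integral_indicator measurableSet_Ioi,
    ← integral_add_right_eq_self ((Ioi (a ^ 2)).indicator h) (a ^ 2)]
  have h3 : ∀ x, (Ioi (a ^ 2)).indicator h (x + a ^ 2) = (Ioi (0 : ℝ)).indicator
      (fun x => Real.exp (-(Real.pi * a ^ 2)) * (Real.pi ^ 9 / 40320) *
        (x ^ 8 * Real.exp (-(Real.pi * x)))) x := by
    intro x
    by_cases hx : 0 < x
    · rw [Set.indicator_of_mem (show x ∈ Ioi (0 : ℝ) from hx),
        Set.indicator_of_mem (show x + a ^ 2 ∈ Ioi (a ^ 2) by rw [mem_Ioi]; linarith)]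
      simp only [hh]
      have e : -(Real.pi * (x + a ^ 2)) = -(Real.pi * a ^ 2) + -(Real.pi * x) := by ring
      rw [e, Real.exp_add]
      ring
    · rw [Set.indicator_of_notMem (show x ∉ Ioi (0 : ℝ) from hx),
        Set.indicator_of_notMem (show x + a ^ 2 ∉ Ioi (a ^ 2) by rw [mem_Ioi]; intro h; exact hx (by linarith))]
  simp_rw [h3]
  rw [integral_indicator measurableSet_Ioi, integral_const_mul, vval]
  field_simp

lemma psi_full (z : ℝ) : psi z = ∫ α, om α ^ 2 * Real.cos (2 * Real.pi * z * α) := by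
  rw [psi_eq, intervalIntegral.integral_of_le (by norm_num), ← integral_Icc_eq_integral_Ioc]
  refine setIntegral_eq_integral_of_forall_compl_eq_zero fun α hα => ?_
  rw [show om α = 0 from KernAux.om_out (by
    by_contra hcon
    push Not at hcon
    exact hα ⟨(abs_lt.1 hcon).1.le, (abs_lt.1 hcon).2.le⟩)]
  ring

lemma psi_scale {r : ℝ} (hr : 0 < r) (y : ℝ) :
    r * psi (r * y) = ∫ a, om (a / r) ^ 2 * Real.cos (2 * Real.pi * y * a) := by
  have h := Measure.integral_comp_div (fun α => om α ^ 2 * Real.cos (2 * Real.pi * (r * y) * α)) r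
  rw [← psi_full, smul_eq_mul, abs_of_pos hr] at h
  rw [← h]
  refine integral_congr_ae (Eventually.of_forall fun a => ?_)
  simp only
  congr 2
  field_simp

lemma gau_four (y : ℝ) : ∫ a : ℝ, Real.exp (-(Real.pi * a ^ 2)) * Real.cos (2 * Real.pi * y * a) =
    Real.exp (-(Real.pi * y ^ 2)) := by
  have hpi := Real.pi_pos
  have h := congrFun (fourier_gaussian_pi (b := 1) (by simp)) y
  rw [Real.fourier_real_eq_integral_exp_smul] at h
  have h1 := congrArg Complex.re h
  have hint : Integrable fun v : ℝ => Complex.exp (((-2 * Real.pi * v * y : ℝ) : ℂ) * Complex.I) •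
      Complex.exp (-(Real.pi : ℂ) * 1 * (v : ℂ) ^ 2) := by
    have hg : Integrable fun v : ℝ => Real.exp (-Real.pi * v ^ 2) := integrable_exp_neg_mul_sq hpi
    refine Integrable.mono' hg (by
      have : Continuous fun v : ℝ => Complex.exp (((-2 * Real.pi * v * y : ℝ) : ℂ) * Complex.I) •
        Complex.exp (-(Real.pi : ℂ) * 1 * (v : ℂ) ^ 2) := by fun_prop
      exact this.aestronglyMeasurable) (Eventually.of_forall fun v => ?_)
    rw [norm_smul, Complex.norm_exp_ofReal_mul_I, one_mul]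
    have : (-(Real.pi : ℂ) * 1 * (v : ℂ) ^ 2) = ((-Real.pi * v ^ 2 : ℝ) : ℂ) := by push_cast; ring
    rw [this, ← Complex.ofReal_exp, Complex.norm_real, Real.norm_of_nonneg (Real.exp_pos _).le]
  have h2 : (∫ v : ℝ, Complex.exp (((-2 * Real.pi * v * y : ℝ) : ℂ) * Complex.I) •
      Complex.exp (-(Real.pi : ℂ) * 1 * (v : ℂ) ^ 2)).re =
      ∫ v : ℝ, (Complex.exp (((-2 * Real.pi * v * y : ℝ) : ℂ) * Complex.I) •
      Complex.exp (-(Real.pi : ℂ) * 1 * (v : ℂ) ^ 2)).re := (integral_re hint).symm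
  rw [h2] at h1
  have h3 : (1 / (1 : ℂ) ^ (1 / 2 : ℂ) * Complex.exp (-(Real.pi : ℂ) / 1 * (y : ℂ) ^ 2)).re =
      Real.exp (-(Real.pi * y ^ 2)) := by
    rw [Complex.one_cpow, div_one, div_one, one_mul]
    have : (-(Real.pi : ℂ) * (y : ℂ) ^ 2) = ((-(Real.pi * y ^ 2) : ℝ) : ℂ) := by push_cast; ring
    rw [this, ← Complex.ofReal_exp, Complex.ofReal_re]
  rw [h3] at h1
  rw [← h1]
  refine integral_congr_ae (Eventually.of_forall fun v => ?_)
  simp only
  have : (-(Real.pi : ℂ) * 1 * (v : ℂ) ^ 2) = ((-(Real.pi * v ^ 2) : ℝ) : ℂ) := by push_cast; ring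
  rw [this, ← Complex.ofReal_exp, smul_eq_mul, mul_comm (Complex.exp _), Complex.re_ofReal_mul,
    Complex.exp_ofReal_mul_I_re]
  congr 1
  rw [← Real.cos_neg]
  congr 1
  ring

/-- the Gaussian as a mixture -/
theorem gau_mix (y : ℝ) : Real.exp (-(Real.pi * y ^ 2)) =
    ∫ v in Ioi (0 : ℝ), wv v * (2 * Real.sqrt v * psi (2 * Real.sqrt v * y)) := by
  have hpi := Real.pi_pos
  set ρ : Measure ℝ := volume.restrict (Ioi (0 : ℝ)) with hρ
  set H : ℝ → ℝ → ℝ := fun v a => wv v * om (a / (2 * Real.sqrt v)) ^ 2 *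
    Real.cos (2 * Real.pi * y * a) with hH
  have hom : Measurable om := om_cont0.measurable
  have hHm : Measurable (Function.uncurry H) := by
    simp only [hH]
    have h1 : Measurable fun p : ℝ × ℝ => wv p.1 := wv_cont.measurable.comp measurable_fst
    have h2 : Measurable fun p : ℝ × ℝ => p.2 / (2 * Real.sqrt p.1) :=
      measurable_snd.div (measurable_const.mul (Real.continuous_sqrt.measurable.comp measurable_fst))
    have h3 : Measurable fun p : ℝ × ℝ => Real.cos (2 * Real.pi * y * p.2) :=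
      Real.continuous_cos.measurable.comp (measurable_const.mul measurable_snd)
    exact (h1.mul ((hom.comp h2).pow_const 2)).mul h3
  have hbd1 : Integrable (fun v => wv v * (1 + v)) ρ := by
    have h1 := (vint 8).const_mul (Real.pi ^ 9 / 40320)
    have h2 := (vint 9).const_mul (Real.pi ^ 9 / 40320)
    refine (h1.add h2).congr (Eventually.of_forall fun v => ?_)
    simp only [Pi.add_apply]
    unfold wv
    ring
  have hHi : Integrable (Function.uncurry H) (ρ.prod volume) := by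
    refine Integrable.mono' (hbd1.mul_prod integrable_inv_one_add_sq) hHm.aestronglyMeasurable ?_
    have hae : ∀ᵐ p : ℝ × ℝ ∂(ρ.prod volume), 0 < p.1 := by
      have h1 : ∀ᵐ v ∂ρ, 0 < v := by
        rw [hρ]; exact ae_restrict_mem measurableSet_Ioi
      exact Measure.quasiMeasurePreserving_fst.ae h1
    filter_upwards [hae] with p hp
    simp only [hH]
    show ‖wv p.1 * om (p.2 / (2 * Real.sqrt p.1)) ^ 2 * Real.cos (2 * Real.pi * y * p.2)‖ ≤
      wv p.1 * (1 + p.1) * (1 + p.2 ^ 2)⁻¹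
    rw [norm_mul, norm_mul, Real.norm_of_nonneg (wv_nonneg _), Real.norm_of_nonneg (sq_nonneg _)]
    refine (mul_le_of_le_one_right (mul_nonneg (wv_nonneg _) (sq_nonneg _))
      (Real.abs_cos_le_one _)).trans ?_
    rw [mul_assoc]
    apply mul_le_mul_of_nonneg_left _ (wv_nonneg _)
    rcases le_or_gt (p.2 ^ 2) p.1 with h | h
    · have h1 : om (p.2 / (2 * Real.sqrt p.1)) ^ 2 ≤ 1 := pow_le_one₀ (om_nn _) (om_le1 _)
      refine h1.trans ?_
      rw [← div_eq_mul_inv, le_div_iff₀ (by positivity)]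
      linarith
    · rw [om_sq_zero hp h.le]
      have := sq_nonneg p.2
      positivity
  have hswap := integral_integral_swap hHi
  have e1 : ∀ v ∈ Ioi (0 : ℝ), ∫ a, H v a = wv v * (2 * Real.sqrt v * psi (2 * Real.sqrt v * y)) := by
    intro v hv
    have hv0 : 0 < v := hv
    have hs : 0 < 2 * Real.sqrt v := by have := Real.sqrt_pos.2 hv0; positivity
    rw [psi_scale hs, ← integral_const_mul]
    refine integral_congr_ae (Eventually.of_forall fun a => ?_)
    simp only [hH]
    ring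
  have e2 : ∀ a, ∫ v, H v a ∂ρ = Real.exp (-(Real.pi * a ^ 2)) * Real.cos (2 * Real.pi * y * a) := by
    intro a
    simp only [hH]
    rw [integral_mul_const, ← vmix a]
  rw [← gau_four y]
  simp_rw [e2] at hswap
  rw [← hswap, hρ]
  exact setIntegral_congr_fun measurableSet_Ioi e1

end Pool.Agent.W2helper93.SW
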