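import Pool.Agent.TH850.UV.AcE

set_option autoImplicit false

/-! # Correlations of the prime sum -/

namespace Pool.Agent.W2helper93.SW

open Filter Topology MeasureTheory Set
open Pool.Agent.TH850.UV
open ArithmeticFunction (vonMangoldt)
open H370.A2 (lamC lamC_norm)

/-- the coefficients -/
noncomputable def be (l : ℝ) (n : ℕ) : ℝ := vonMangoldt n * (Real.sqrt n)⁻¹ * ggo l n

/-- the prime sum -/
noncomputable def fs (l : ℝ) (X : ℕ) (t : ℝ) : ℝ :=
  ∑ n ∈ Finset.Icc 1 X, be l n * Real.cos (t * Real.log n)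

/-- its autocorrelation -/
noncomputable def Gs (l : ℝ) (X : ℕ) (v : ℝ) : ℝ :=
  1 / Real.pi * ∑ n ∈ Finset.Icc 1 X, be l n ^ 2 * Real.cos (v * Real.log n)

lemma fs_cont (l : ℝ) (X : ℕ) : Continuous (fs l X) := by
  unfold fs
  exact continuous_finsetSum _ fun n _ => by fun_prop

lemma re_DDo (l : ℝ) (X : ℕ) (t : ℝ) : (DDo lamC l X t).re = fs l X t := by
  unfold DDo fs be
  rw [Complex.re_sum]
  refine Finset.sum_congr rfl fun n hn => ?_
  have hn1 : 1 ≤ n := (Finset.mem_Icc.1 hn).1
  have hn0 : (n : ℂ) ≠ 0 := by exact_mod_cast (by omega : n ≠ 0)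
  have h1 : lamC n * (Real.sqrt n : ℂ)⁻¹ * (ggo l n : ℂ) =
      ((vonMangoldt n * (Real.sqrt n)⁻¹ * ggo l n : ℝ) : ℂ) := by
    unfold lamC; push_cast; rfl
  rw [h1, Complex.re_ofReal_mul]
  congr 1
  rw [Complex.cpow_def_of_ne_zero hn0, ← Complex.natCast_log]
  have h2 : ((Real.log n : ℝ) : ℂ) * (-(t : ℂ) * Complex.I) =
      ((-(t * Real.log n) : ℝ) : ℂ) * Complex.I := by
    push_cast; ring
  rw [h2, Complex.exp_ofReal_mul_I_re, Real.cos_neg]

lemma be_bd {l : ℝ} (hl : 1 ≤ l) (n : ℕ) (hn : 1 ≤ n) : |be l n| ≤ 3 := by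
  have hl0 : 0 < l := by linarith
  have hn0 : (0 : ℝ) < n := by exact_mod_cast hn
  have hg := ggo_le hl0 n
  have hg0 := ggo_nonneg l n
  have hs : Real.sqrt (2 * Real.pi) ≤ 3 := by
    rw [Real.sqrt_le_left (by norm_num)]
    have := Real.pi_lt_d2
    norm_num
    linarith
  have hg3 : ggo l n ≤ 3 := by
    refine hg.trans ?_
    rw [div_le_iff₀ hl0]
    nlinarith
  have hL0 : 0 ≤ vonMangoldt n := ArithmeticFunction.vonMangoldt_nonneg
  have hL1 : vonMangoldt n ≤ Real.log n := ArithmeticFunction.vonMangoldt_le_log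
  have hsn : 0 < Real.sqrt n := Real.sqrt_pos.2 hn0
  have h1 : Real.log n ≤ Real.sqrt n := by
    have h2 : Real.log n = 2 * Real.log (Real.sqrt n) := by
      rw [Real.log_sqrt hn0.le]; ring
    have h3 : Real.log (Real.sqrt n / 2) ≤ Real.sqrt n / 2 - 1 :=
      Real.log_le_sub_one_of_pos (by positivity)
    rw [Real.log_div hsn.ne' two_ne_zero] at h3
    have := Real.log_two_lt_d9
    rw [h2]
    linarith
  have h2 : vonMangoldt n * (Real.sqrt n)⁻¹ ≤ 1 := by
    rw [← div_eq_mul_inv, div_le_one hsn]; exact hL1.trans h1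
  have h20 : 0 ≤ vonMangoldt n * (Real.sqrt n)⁻¹ := by positivity
  unfold be
  rw [abs_of_nonneg (by positivity)]
  calc vonMangoldt n * (Real.sqrt n)⁻¹ * ggo l n ≤ 1 * 3 := mul_le_mul h2 hg3 hg0 zero_le_one
    _ = 3 := by norm_num

lemma int_cos (μ φ a b : ℝ) (hμ : μ ≠ 0) : |∫ t in a..b, Real.cos (μ * t + φ)| ≤ 2 / |μ| := by
  have h := intervalIntegral.integral_comp_mul_add (a := a) (b := b) (fun x => Real.cos x) hμ φ
  rw [h, integral_cos, smul_eq_mul, abs_mul, abs_inv, div_eq_inv_mul]
  apply mul_le_mul_of_nonneg_left _ (by positivity)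
  have h1 := Real.neg_one_le_sin (μ * b + φ)
  have h2 := Real.sin_le_one (μ * b + φ)
  have h3 := Real.neg_one_le_sin (μ * a + φ)
  have h4 := Real.sin_le_one (μ * a + φ)
  rw [abs_le]
  constructor <;> linarith

lemma log_gap {m n X : ℕ} (hm : 1 ≤ m) (hmX : m ≤ X) (hn : 1 ≤ n) (hnX : n ≤ X) (hmn : m ≠ n) :
    1 / (X : ℝ) ≤ |Real.log m - Real.log n| := by
  have key : ∀ m n : ℕ, 1 ≤ m → 1 ≤ n → n ≤ X → m < n → 1 / (X : ℝ) ≤ Real.log n - Real.log m := by
    intro m n hm hn hnX hmn
    have hm0 : (0 : ℝ) < m := by exact_mod_cast hm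
    have hn0 : (0 : ℝ) < n := by exact_mod_cast hn
    have hX0 : (0 : ℝ) < X := by exact_mod_cast (by omega : 0 < X)
    have h1 : Real.log (m / n) ≤ m / n - 1 := Real.log_le_sub_one_of_pos (by positivity)
    rw [Real.log_div hm0.ne' hn0.ne'] at h1
    have h2 : (m : ℝ) + 1 ≤ n := by exact_mod_cast hmn
    have h3 : 1 / (X : ℝ) ≤ 1 / n := one_div_le_one_div_of_le hn0 (by exact_mod_cast hnX)
    have h4 : 1 / (n : ℝ) ≤ 1 - m / n := by
      rw [← sub_nonneg]
      have : 1 - (m : ℝ) / n - 1 / n = (n - m - 1) / n := by field_simp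
      rw [this]
      apply div_nonneg _ hn0.le
      linarith
    linarith
  rcases lt_or_gt_of_ne hmn with h | h
  · have := key m n hm hn hnX h
    rw [abs_sub_comm]
    exact this.trans (le_abs_self _)
  · have := key n m hn hm hmX h
    exact this.trans (le_abs_self _)

lemma be_one (l : ℝ) : be l 1 = 0 := by
  unfold be
  simp

theorem corr_fs {l : ℝ} (hl : 1 ≤ l) {X : ℕ} (hX : 1 ≤ X) {a b : ℝ} (v : ℝ) :
    |(∫ t in a..b, fs l X t * fs l X (t + v)) -
      (b - a) / 2 * ∑ n ∈ Finset.Icc 1 X, be l n ^ 2 * Real.cos (v * Real.log n)| ≤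
      18 * (X : ℝ) ^ 3 := by
  have hX1 : (1 : ℝ) ≤ X := by exact_mod_cast hX
  have e1 : ∀ t, fs l X t * fs l X (t + v) = ∑ m ∈ Finset.Icc 1 X, ∑ n ∈ Finset.Icc 1 X,
      be l m * be l n * (1 / 2 * (Real.cos ((Real.log m - Real.log n) * t + -(v * Real.log n)) +
        Real.cos ((Real.log m + Real.log n) * t + v * Real.log n))) := by
    intro t
    unfold fs
    rw [Finset.sum_mul_sum]
    refine Finset.sum_congr rfl fun m _ => Finset.sum_congr rfl fun n _ => ?_
    have h1 : Real.cos ((Real.log m - Real.log n) * t + -(v * Real.log n)) =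
        Real.cos (t * Real.log m - (t + v) * Real.log n) := by congr 1; ring
    have h2 : Real.cos ((Real.log m + Real.log n) * t + v * Real.log n) =
        Real.cos (t * Real.log m + (t + v) * Real.log n) := by congr 1; ring
    rw [h1, h2, Real.cos_sub, Real.cos_add]
    ring
  have hint : ∀ m n : ℕ, IntervalIntegrable (fun t => be l m * be l n * (1 / 2 *
      (Real.cos ((Real.log m - Real.log n) * t + -(v * Real.log n)) +
        Real.cos ((Real.log m + Real.log n) * t + v * Real.log n)))) volume a b := fun m n =>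
    Continuous.intervalIntegrable (by fun_prop) _ _
  have e2 : ∫ t in a..b, fs l X t * fs l X (t + v) = ∑ m ∈ Finset.Icc 1 X, ∑ n ∈ Finset.Icc 1 X,
      be l m * be l n * (1 / 2 * ((∫ t in a..b, Real.cos ((Real.log m - Real.log n) * t + -(v * Real.log n))) +
        ∫ t in a..b, Real.cos ((Real.log m + Real.log n) * t + v * Real.log n))) := by
    simp_rw [e1]
    rw [intervalIntegral.integral_finsetSum fun m _ => ?_]
    · refine Finset.sum_congr rfl fun m _ => ?_
      rw [intervalIntegral.integral_finsetSum fun n _ => hint m n]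
      refine Finset.sum_congr rfl fun n _ => ?_
      rw [intervalIntegral.integral_const_mul, intervalIntegral.integral_const_mul,
        intervalIntegral.integral_add (Continuous.intervalIntegrable (by fun_prop) _ _)
          (Continuous.intervalIntegrable (by fun_prop) _ _)]
    · exact Continuous.intervalIntegrable (continuous_finsetSum _ fun n _ => by fun_prop) _ _
  have e3 : (b - a) / 2 * ∑ n ∈ Finset.Icc 1 X, be l n ^ 2 * Real.cos (v * Real.log n) =
      ∑ m ∈ Finset.Icc 1 X, ∑ n ∈ Finset.Icc 1 X, (if m = n then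
        (b - a) / 2 * (be l n ^ 2 * Real.cos (v * Real.log n)) else 0) := by
    rw [Finset.mul_sum]
    refine Finset.sum_congr rfl fun m hm => ?_
    rw [Finset.sum_ite_eq, if_pos hm]
  rw [e2, e3, ← Finset.sum_sub_distrib]
  simp_rw [← Finset.sum_sub_distrib]
  have key : ∀ m ∈ Finset.Icc 1 X, ∀ n ∈ Finset.Icc 1 X,
      |be l m * be l n * (1 / 2 * ((∫ t in a..b, Real.cos ((Real.log m - Real.log n) * t + -(v * Real.log n))) +
        ∫ t in a..b, Real.cos ((Real.log m + Real.log n) * t + v * Real.log n))) -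
        (if m = n then (b - a) / 2 * (be l n ^ 2 * Real.cos (v * Real.log n)) else 0)| ≤
      18 * X := by
    intro m hm n hn
    rw [Finset.mem_Icc] at hm hn
    by_cases hm1 : m = 1
    · subst hm1
      rw [be_one, zero_mul, zero_mul, zero_sub, abs_neg]
      by_cases hn1 : 1 = n
      · subst hn1
        rw [if_pos rfl, be_one]
        simp
      · rw [if_neg hn1, abs_zero]
        positivity
    · by_cases hn1 : n = 1
      · subst hn1
        rw [if_neg hm1, be_one, mul_zero, zero_mul, sub_zero, abs_zero]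
        positivity
      · have hm2 : (2 : ℝ) ≤ m := by exact_mod_cast (by omega : 2 ≤ m)
        have hn2 : (2 : ℝ) ≤ n := by exact_mod_cast (by omega : 2 ≤ n)
        have hlm : Real.log 2 ≤ Real.log m := Real.log_le_log two_pos hm2
        have hln : Real.log 2 ≤ Real.log n := Real.log_le_log two_pos hn2
        have hl2 := Real.log_two_gt_d9
        have hsum : 1 ≤ Real.log m + Real.log n := by linarith
        have c1 := int_cos (Real.log m + Real.log n) (v * Real.log n) a b (by linarith)
        have c2 : |∫ t in a..b, Real.cos ((Real.log m + Real.log n) * t + v * Real.log n)| ≤ 2 := by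
          refine c1.trans ?_
          rw [div_le_iff₀ (by rw [abs_of_pos (by linarith)]; linarith), abs_of_pos (by linarith)]
          linarith
        have hb : |be l m * be l n| ≤ 9 := by
          rw [abs_mul]
          calc |be l m| * |be l n| ≤ 3 * 3 :=
                mul_le_mul (be_bd hl m hm.1) (be_bd hl n hn.1) (abs_nonneg _) (by norm_num)
            _ = 9 := by norm_num
        by_cases hmn : m = n
        · subst hmn
          rw [if_pos rfl]
          have e4 : ∫ t in a..b, Real.cos ((Real.log m - Real.log m) * t + -(v * Real.log m)) =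
              (b - a) * Real.cos (v * Real.log m) := by
            simp only [sub_self, zero_mul, zero_add, Real.cos_neg]
            rw [intervalIntegral.integral_const, smul_eq_mul]
          rw [e4]
          have e5 : be l m * be l m * (1 / 2 * ((b - a) * Real.cos (v * Real.log m) +
              ∫ t in a..b, Real.cos ((Real.log m + Real.log m) * t + v * Real.log m))) -
              (b - a) / 2 * (be l m ^ 2 * Real.cos (v * Real.log m)) =
              be l m * be l m * (1 / 2 *
                ∫ t in a..b, Real.cos ((Real.log m + Real.log m) * t + v * Real.log m)) := by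
            ring
          rw [e5, abs_mul, abs_mul (1 / 2 : ℝ)]
          calc |be l m * be l m| * (|1 / 2| *
              |∫ t in a..b, Real.cos ((Real.log m + Real.log m) * t + v * Real.log m)|) ≤
              9 * (1 / 2 * 2) := by
                apply mul_le_mul hb _ (by positivity) (by norm_num)
                rw [abs_of_pos (by norm_num : (0 : ℝ) < 1 / 2)]
                exact mul_le_mul_of_nonneg_left c2 (by norm_num)
            _ ≤ 18 * X := by linarith
        · rw [if_neg hmn, sub_zero, abs_mul, abs_mul (1 / 2 : ℝ)]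
          have hgap := log_gap hm.1 hm.2 hn.1 hn.2 hmn
          have hX0 : (0 : ℝ) < X := by linarith
          have hgap0 : 0 < |Real.log m - Real.log n| := lt_of_lt_of_le (by positivity) hgap
          have c3 := int_cos (Real.log m - Real.log n) (-(v * Real.log n)) a b (abs_pos.1 hgap0)
          have c4 : 2 / |Real.log m - Real.log n| ≤ 2 * X := by
            rw [div_le_iff₀ hgap0]
            rw [div_le_iff₀ hX0] at hgap
            nlinarith
          calc |be l m * be l n| * (|1 / 2| *
              |(∫ t in a..b, Real.cos ((Real.log m - Real.log n) * t + -(v * Real.log n))) +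
                ∫ t in a..b, Real.cos ((Real.log m + Real.log n) * t + v * Real.log n)|) ≤
              9 * (1 / 2 * (2 * X + 2)) := by
                apply mul_le_mul hb _ (by positivity) (by norm_num)
                rw [abs_of_pos (by norm_num : (0 : ℝ) < 1 / 2)]
                apply mul_le_mul_of_nonneg_left _ (by norm_num)
                refine (abs_add_le _ _).trans (add_le_add (c3.trans c4) c2)
            _ ≤ 18 * X := by linarith
  refine (Finset.abs_sum_le_sum_abs _ _).trans ?_
  calc ∑ m ∈ Finset.Icc 1 X, |∑ n ∈ Finset.Icc 1 X, _| ≤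
      ∑ m ∈ Finset.Icc 1 X, ∑ n ∈ Finset.Icc 1 X, 18 * (X : ℝ) := by
        refine Finset.sum_le_sum fun m hm => ?_
        refine (Finset.abs_sum_le_sum_abs _ _).trans ?_
        exact Finset.sum_le_sum fun n hn => key m hm n hn
    _ = 18 * (X : ℝ) ^ 3 := by
        simp only [Finset.sum_const, Nat.card_Icc, nsmul_eq_mul]
        push_cast [Nat.add_sub_cancel]
        ring

/-- the prime sum that occurs in the explicit formula -/
noncomputable def gs (l : ℝ) (X : ℕ) (t : ℝ) : ℝ :=
  2 * (1 / Real.sqrt (2 * Real.pi)) * fs l X t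

lemma gs_cont (l : ℝ) (X : ℕ) : Continuous (gs l X) := by
  unfold gs
  exact continuous_const.mul (fs_cont l X)

theorem corr {l : ℝ} (hl : 1 ≤ l) {X : ℕ} (hX : 1 ≤ X) {a b : ℝ} (v : ℝ) :
    |(∫ t in a..b, gs l X t * gs l X (t + v)) - (b - a) * Gs l X v| ≤ 18 * (X : ℝ) ^ 3 := by
  have h := corr_fs hl hX (a := a) (b := b) v
  have hpi := Real.pi_gt_three
  have e0 : (2 * (1 / Real.sqrt (2 * Real.pi))) * (2 * (1 / Real.sqrt (2 * Real.pi))) = 2 / Real.pi := by
    have h1 : Real.sqrt (2 * Real.pi) * Real.sqrt (2 * Real.pi) = 2 * Real.pi :=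
      Real.mul_self_sqrt (by positivity)
    have h2 : (2 * (1 / Real.sqrt (2 * Real.pi))) * (2 * (1 / Real.sqrt (2 * Real.pi))) =
        4 / (Real.sqrt (2 * Real.pi) * Real.sqrt (2 * Real.pi)) := by
      field_simp
      norm_num
    rw [h2, h1]
    field_simp
    norm_num
  have e1 : ∫ t in a..b, gs l X t * gs l X (t + v) =
      2 / Real.pi * ∫ t in a..b, fs l X t * fs l X (t + v) := by
    rw [← intervalIntegral.integral_const_mul]
    refine intervalIntegral.integral_congr fun t _ => ?_
    unfold gs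
    rw [← e0]
    ring
  have e2 : (b - a) * Gs l X v = 2 / Real.pi *
      ((b - a) / 2 * ∑ n ∈ Finset.Icc 1 X, be l n ^ 2 * Real.cos (v * Real.log n)) := by
    unfold Gs
    field_simp
  rw [e1, e2, ← mul_sub, abs_mul, abs_of_pos (by positivity)]
  calc 2 / Real.pi * |(∫ t in a..b, fs l X t * fs l X (t + v)) -
      (b - a) / 2 * ∑ n ∈ Finset.Icc 1 X, be l n ^ 2 * Real.cos (v * Real.log n)| ≤
      1 * (18 * (X : ℝ) ^ 3) := by
        apply mul_le_mul _ h (abs_nonneg _) zero_le_one
        rw [div_le_one (by positivity)]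
        linarith
    _ = _ := one_mul _

end Pool.Agent.W2helper93.SW
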