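import Mathlib.Analysis.SpecialFunctions.Gaussian.GaussianIntegral
import Mathlib.Analysis.Calculus.ParametricIntegral
import Mathlib.MeasureTheory.Integral.IntegralEqImproper
import Mathlib.Analysis.Calculus.ContDiff.Basic

set_option autoImplicit false

/-! # A function as a mixture of Gaussians -/

namespace Pool.Agent.W2helper93.SW

open Filter Topology MeasureTheory Set

/-- the standard Gaussian -/
noncomputable def PG (x : ℝ) : ℝ := Real.exp (-(Real.pi * x ^ 2))

lemma PG_pos (x : ℝ) : 0 < PG x := Real.exp_pos _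

lemma PG_cont : Continuous PG := by unfold PG; fun_prop

lemma PG_int : Integrable PG := by
  refine (integrable_exp_neg_mul_sq Real.pi_pos).congr (Eventually.of_forall fun x => ?_)
  unfold PG
  simp only [neg_mul]

lemma PG_one : ∫ x, PG x = 1 := by
  have h := integral_gaussian Real.pi
  rw [div_self Real.pi_pos.ne', Real.sqrt_one] at h
  rw [← h]
  refine integral_congr_ae (Eventually.of_forall fun x => ?_)
  unfold PG
  simp only [neg_mul]

lemma xPG_int : Integrable fun x : ℝ => x * PG x := by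
  refine (integrable_mul_exp_neg_mul_sq Real.pi_pos).congr (Eventually.of_forall fun x => ?_)
  unfold PG
  simp only [neg_mul]

lemma PG_deriv (x : ℝ) : HasDerivAt PG (-(2 * Real.pi * x) * PG x) x := by
  unfold PG
  have h1 : HasDerivAt (fun x : ℝ => -(Real.pi * x ^ 2)) (-(2 * Real.pi * x)) x := by
    have := ((hasDerivAt_pow 2 x).const_mul Real.pi).neg
    refine this.congr_deriv ?_
    push_cast
    ring
  exact h1.exp.congr_deriv (by ring)

/-- the average against a Gaussian -/
noncomputable def BB (f : ℝ → ℝ) (τ y : ℝ) : ℝ := ∫ x, f (y - τ * x) * PG x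

lemma BB_int {f : ℝ → ℝ} (hf : Continuous f) {M : ℝ} (hM : ∀ x, |f x| ≤ M) (τ y : ℝ) :
    Integrable fun x => f (y - τ * x) * PG x := by
  refine Integrable.mono' (PG_int.const_mul M) ((hf.comp (by fun_prop)).mul PG_cont).aestronglyMeasurable
    (Eventually.of_forall fun x => ?_)
  rw [norm_mul, Real.norm_eq_abs, Real.norm_of_nonneg (PG_pos x).le]
  exact mul_le_mul_of_nonneg_right (hM _) (PG_pos x).le

lemma BB_cont {f : ℝ → ℝ} (hf : Continuous f) {M : ℝ} (hM : ∀ x, |f x| ≤ M) (y : ℝ) :
    Continuous fun τ => BB f τ y := by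
  unfold BB
  refine continuous_of_dominated (bound := fun x => M * PG x) (fun τ => ?_) (fun τ => ?_)
    (PG_int.const_mul M) (Eventually.of_forall fun x => ?_)
  · exact ((hf.comp (by fun_prop)).mul PG_cont).aestronglyMeasurable
  · refine Eventually.of_forall fun x => ?_
    rw [norm_mul, Real.norm_eq_abs, Real.norm_of_nonneg (PG_pos x).le]
    exact mul_le_mul_of_nonneg_right (hM _) (PG_pos x).le
  · exact (hf.comp (by fun_prop)).mul continuous_const

lemma BB_zero (f : ℝ → ℝ) (y : ℝ) : BB f 0 y = f y := by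
  unfold BB
  simp only [zero_mul, sub_zero]
  rw [integral_const_mul, PG_one, mul_one]

lemma BB_deriv {f f1 f2 : ℝ → ℝ} (h1 : ∀ x, HasDerivAt f (f1 x) x) (h2 : ∀ x, HasDerivAt f1 (f2 x) x)
    (hc2 : Continuous f2) {M : ℝ} (m0 : ∀ x, |f x| ≤ M) (m1 : ∀ x, |f1 x| ≤ M) (m2 : ∀ x, |f2 x| ≤ M)
    (τ y : ℝ) : HasDerivAt (fun τ => BB f τ y) (τ / (2 * Real.pi) * BB f2 τ y) τ := by
  have hpi := Real.pi_pos
  have hf : Continuous f := continuous_iff_continuousAt.2 fun x => (h1 x).continuousAt
  have hf1 : Continuous f1 := continuous_iff_continuousAt.2 fun x => (h2 x).continuousAt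
  have key := hasDerivAt_integral_of_dominated_loc_of_deriv_le (μ := volume) (s := univ) (x₀ := τ)
    (F := fun τ x => f (y - τ * x) * PG x) (F' := fun τ x => f1 (y - τ * x) * (-x) * PG x)
    (bound := fun x => M * |x * PG x|) univ_mem
    (Eventually.of_forall fun τ => ((hf.comp (by fun_prop)).mul PG_cont).aestronglyMeasurable)
    (BB_int hf m0 τ y)
    (((hf1.comp (by fun_prop)).mul (by fun_prop)).mul PG_cont).aestronglyMeasurable
    (Eventually.of_forall fun x τ _ => by
      rw [norm_mul, norm_mul, norm_neg, Real.norm_eq_abs, mul_assoc, ← norm_mul]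
      exact mul_le_mul_of_nonneg_right (m1 _) (norm_nonneg _))
    (xPG_int.abs.const_mul M)
    (Eventually.of_forall fun x τ _ => by
      have h3 : HasDerivAt (fun τ : ℝ => y - τ * x) (-x) τ := by
        have := ((hasDerivAt_id' τ).mul_const x).const_sub y
        simpa using this
      exact ((h1 (y - τ * x)).comp τ h3).mul_const (PG x))
  have h4 := key.2
  have e1 : ∫ x, f1 (y - τ * x) * (-x) * PG x = τ / (2 * Real.pi) * BB f2 τ y := by
    have hu : ∀ x, HasDerivAt (fun x => f1 (y - τ * x)) (f2 (y - τ * x) * (-τ)) x := by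
      intro x
      have h3 : HasDerivAt (fun x : ℝ => y - τ * x) (-τ) x := by
        have := ((hasDerivAt_id' x).const_mul τ).const_sub y
        simpa using this
      exact (h2 (y - τ * x)).comp x h3
    have i1 : Integrable ((fun x => f1 (y - τ * x)) * fun x => -(2 * Real.pi * x) * PG x) := by
      have h5 := key.1.const_mul (2 * Real.pi)
      refine h5.congr (Eventually.of_forall fun x => ?_)
      simp only [Pi.mul_apply]
      ring
    have i2 : Integrable ((fun x => f2 (y - τ * x) * (-τ)) * PG) := by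
      have h5 := (BB_int hc2 m2 τ y).const_mul (-τ)
      refine h5.congr (Eventually.of_forall fun x => ?_)
      simp only [Pi.mul_apply]
      ring
    have i3 : Integrable ((fun x => f1 (y - τ * x)) * PG) := BB_int hf1 m1 τ y
    have h6 := integral_mul_deriv_eq_deriv_mul_of_integrable (fun x _ => hu x)
      (fun x _ => PG_deriv x) i1 i2 i3
    have e2 : ∫ x, f1 (y - τ * x) * (-x) * PG x =
        1 / (2 * Real.pi) * ∫ x, f1 (y - τ * x) * (-(2 * Real.pi * x) * PG x) := by
      rw [← integral_const_mul]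
      refine integral_congr_ae (Eventually.of_forall fun x => ?_)
      simp only
      field_simp
    have e3 : ∫ x, f2 (y - τ * x) * (-τ) * PG x = -τ * BB f2 τ y := by
      unfold BB
      rw [← integral_const_mul]
      refine integral_congr_ae (Eventually.of_forall fun x => ?_)
      simp only
      ring
    rw [e2, h6, e3]
    ring
  rw [← e1]
  exact h4

/-- a function as a mixture of Gaussians -/
theorem heat {f f1 f2 f3 f4 : ℝ → ℝ} (h1 : ∀ x, HasDerivAt f (f1 x) x)
    (h2 : ∀ x, HasDerivAt f1 (f2 x) x) (h3 : ∀ x, HasDerivAt f2 (f3 x) x)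
    (h4 : ∀ x, HasDerivAt f3 (f4 x) x) (hc4 : Continuous f4) {M : ℝ} (m0 : ∀ x, |f x| ≤ M)
    (m1 : ∀ x, |f1 x| ≤ M) (m2 : ∀ x, |f2 x| ≤ M) (m3 : ∀ x, |f3 x| ≤ M) (m4 : ∀ x, |f4 x| ≤ M)
    (y : ℝ) : f y = BB f 1 y - 1 / (4 * Real.pi) * BB f2 1 y +
      ∫ τ in (0 : ℝ)..1, τ ^ 3 / (8 * Real.pi ^ 2) * BB f4 τ y := by
  have hpi := Real.pi_pos
  have hf2 : Continuous f2 := continuous_iff_continuousAt.2 fun x => (h3 x).continuousAt
  have hd : ∀ τ ∈ Set.uIcc (0 : ℝ) 1, HasDerivAt (fun τ => BB f τ y - τ ^ 2 / (4 * Real.pi) * BB f2 τ y)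
      (-(τ ^ 3 / (8 * Real.pi ^ 2) * BB f4 τ y)) τ := by
    intro τ _
    have k1 := BB_deriv h1 h2 hf2 m0 m1 m2 τ y
    have k2 := BB_deriv h3 h4 hc4 m2 m3 m4 τ y
    have k3 : HasDerivAt (fun τ : ℝ => τ ^ 2 / (4 * Real.pi)) (2 * τ / (4 * Real.pi)) τ := by
      have := (hasDerivAt_pow 2 τ).div_const (4 * Real.pi)
      refine this.congr_deriv ?_
      push_cast
      ring
    refine (k1.sub (k3.mul k2)).congr_deriv ?_
    field_simp
    ring
  have hint : IntervalIntegrable (fun τ => -(τ ^ 3 / (8 * Real.pi ^ 2) * BB f4 τ y)) volume 0 1 := by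
    have := BB_cont hc4 m4 y
    exact Continuous.intervalIntegrable (by fun_prop) _ _
  have h5 := intervalIntegral.integral_eq_sub_of_hasDerivAt hd hint
  rw [intervalIntegral.integral_neg, BB_zero, BB_zero] at h5
  have h6 : ∫ τ in (0 : ℝ)..1, τ ^ 3 / (8 * Real.pi ^ 2) * BB f4 τ y =
      f y - (BB f 1 y - 1 / (4 * Real.pi) * BB f2 1 y) := by
    have : (0 : ℝ) ^ 2 / (4 * Real.pi) * f2 y = 0 := by simp
    rw [this] at h5
    rw [one_pow] at h5
    linarith
  rw [h6]
  ring

/-- the average as a mixture of translates -/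
lemma BB_conv (f : ℝ → ℝ) {τ : ℝ} (hτ : 0 < τ) (y : ℝ) :
    BB f τ y = 1 / τ * ∫ z, f z * PG ((y - z) / τ) := by
  unfold BB
  set h : ℝ → ℝ := fun x => f (y - τ * x) * PG x with hh
  have e1 : ∀ z, f z * PG ((y - z) / τ) = (fun w => h (w / τ)) (y - z) := by
    intro z
    simp only [hh]
    rw [mul_div_cancel₀ _ hτ.ne', sub_sub_cancel]
  simp_rw [e1]
  rw [integral_sub_left_eq_self (fun w => h (w / τ)) volume y, Measure.integral_comp_div h τ,
    smul_eq_mul, abs_of_pos hτ]
  field_simp

end Pool.Agent.W2helper93.SW
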