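import Pool.Agent.W2helper93.SW.Lam
import Pool.Agent.W2helper93.SW.Heat

set_option autoImplicit false

/-! # General windows -/

namespace Pool.Agent.W2helper93.SW

open Filter Topology MeasureTheory Set
open Pool.Agent.W2helper93.NV
open Pool.Agent.TH850.UV
open H370 (Zf)

lemma gw_eq (W u x : ℝ) : gw W u x = PG ((x + u) / W) := rfl

lemma gw_le (W u x : ℝ) : |gw W u x| ≤ 1 := by
  rw [gw_eq, abs_of_pos (PG_pos _)]
  unfold PG
  rw [Real.exp_le_one_iff]
  have := mul_nonneg Real.pi_pos.le (sq_nonneg ((x + u) / W))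
  linarith

lemma gw_pos (W u x : ℝ) : 0 < gw W u x := PG_pos _

lemma gw_int {W : ℝ} (hW : 0 < W) (u : ℝ) : Integrable (gw W u) ∧ ∫ x, gw W u x = W := by
  have e : gw W u = fun x => (fun x => PG (x / W)) (x + u) := by
    funext x; rw [gw_eq]
  constructor
  · rw [e]
    exact (PG_int.comp_div hW.ne').comp_add_right u
  · rw [e, integral_add_right_eq_self (fun x => PG (x / W)) u, Measure.integral_comp_div PG W,
      PG_one, smul_eq_mul, abs_of_pos hW, mul_one]

theorem gmix {α : Type*} [MeasurableSpace α] {ρ : Measure α} [SFinite ρ] {T : ℝ} {E : ℝ → ℝ → ℝ}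
    (hE : ∀ W : ℝ, 0 < W → ∀ u, |Lam T (gw W u)| ≤ E W u) {a w c : α → ℝ} (ha : Integrable a ρ)
    (hw : Measurable w) (hc : Measurable c) (hpos : ∀ᵐ p ∂ρ, 0 < w p)
    (haw : Integrable (fun p => a p * w p) ρ) {e : α → ℝ} (he : Integrable e ρ)
    (hle : ∀ᵐ p ∂ρ, |a p| * E (w p) (c p) ≤ e p) :
    |Lam T (fun x => ∫ p, a p * gw (w p) (c p) x ∂ρ)| ≤ ∫ p, e p ∂ρ ∧
      Integrable (fun x => ∫ p, a p * gw (w p) (c p) x ∂ρ) := by
  set F : α → ℝ → ℝ := fun p x => a p * gw (w p) (c p) x with hF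
  have hmx : ∀ x, Measurable fun p => gw (w p) (c p) x := by
    intro x
    simp only [gw_eq]
    exact PG_cont.measurable.comp ((measurable_const.add hc).div hw)
  have hm2 : Measurable fun q : α × ℝ => gw (w q.1) (c q.1) q.2 := by
    simp only [gw_eq]
    exact PG_cont.measurable.comp ((measurable_snd.add (hc.comp measurable_fst)).div
      (hw.comp measurable_fst))
  have i1 : ∀ x, Integrable (fun p => F p x) ρ := by
    intro x
    refine Integrable.mono' ha.norm (ha.aestronglyMeasurable.mul (hmx x).aestronglyMeasurable)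
      (Eventually.of_forall fun p => ?_)
    simp only [hF]
    rw [norm_mul]
    exact mul_le_of_le_one_right (norm_nonneg _) (gw_le _ _ _)
  have hFm : AEStronglyMeasurable (Function.uncurry F) (ρ.prod volume) :=
    (ha.aestronglyMeasurable.comp_fst).mul hm2.aestronglyMeasurable
  have i2 : Integrable (Function.uncurry F) (ρ.prod volume) := by
    rw [integrable_prod_iff hFm]
    constructor
    · filter_upwards [hpos] with p hp
      exact (gw_int hp (c p)).1.const_mul (a p)
    · refine haw.norm.congr ?_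
      filter_upwards [hpos] with p hp
      have h1 : ∀ x, ‖Function.uncurry F (p, x)‖ = |a p| * gw (w p) (c p) x := by
        intro x
        show ‖a p * gw (w p) (c p) x‖ = _
        rw [norm_mul, Real.norm_eq_abs, Real.norm_of_nonneg (gw_pos _ _ _).le]
      simp_rw [h1]
      rw [integral_const_mul, (gw_int hp (c p)).2, norm_mul, Real.norm_eq_abs,
        Real.norm_of_nonneg hp.le]
  have hbd : ∀ᵐ p ∂ρ, |Lam T (F p)| ≤ e p := by
    filter_upwards [hpos, hle] with p hp hp2
    have h1 : Lam T (F p) = a p * Lam T (gw (w p) (c p)) := lam_smul T (a p) _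
    rw [h1, abs_mul]
    exact (mul_le_mul_of_nonneg_left (hE _ hp _) (abs_nonneg _)).trans hp2
  exact ⟨lam_le T F i1 i2 he hbd, i2.integral_prod_right⟩

lemma lam_add (T : ℝ) {f h : ℝ → ℝ} (hf : Integrable f) (hh : Integrable h) :
    Lam T (fun x => f x + h x) = Lam T f + Lam T h := by
  have hk : ∀ {q : ℝ → ℝ}, Integrable q → Integrable fun x => q x * ks x := by
    intro q hq
    refine Integrable.mono' hq.norm (hq.aestronglyMeasurable.mul ks_cont.aestronglyMeasurable)
      (Eventually.of_forall fun x => ?_)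
    rw [norm_mul, Real.norm_of_nonneg (ks_nonneg _)]
    exact mul_le_of_le_one_right (norm_nonneg _) (ks_le _)
  unfold Lam mu gue
  have e1 : ∑ s ∈ Zf riemannZeta 1 T, ∑ s' ∈ Zf riemannZeta 1 T, mm s * mm s' *
      (f (xd T s s') + h (xd T s s')) =
      (∑ s ∈ Zf riemannZeta 1 T, ∑ s' ∈ Zf riemannZeta 1 T, mm s * mm s' * f (xd T s s')) +
      ∑ s ∈ Zf riemannZeta 1 T, ∑ s' ∈ Zf riemannZeta 1 T, mm s * mm s' * h (xd T s s') := by
    rw [← Finset.sum_add_distrib]
    refine Finset.sum_congr rfl fun s _ => ?_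
    rw [← Finset.sum_add_distrib]
    exact Finset.sum_congr rfl fun s' _ => by ring
  have e2 : ∫ x, (f x + h x) * ks x = (∫ x, f x * ks x) + ∫ x, h x * ks x := by
    rw [← integral_add (hk hf) (hk hh)]
    exact integral_congr_ae (Eventually.of_forall fun x => by ring)
  rw [e1, e2]
  ring

/-- the norm of the window -/
noncomputable def Nm (g g2 g4 : ℝ → ℝ) : ℝ := ∫ z, (|g z| + |g2 z| + |g4 z|) * (1 + |z|)

theorem gen {lam0 : ℝ} (h16 : 16 ≤ lam0) (hWM : WMom lam0) : ∃ C T0 : ℝ, 0 < C ∧ 10 ≤ T0 ∧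
    ∀ T : ℝ, T0 ≤ T → ∀ g g1 g2 g3 g4 : ℝ → ℝ, (∀ x, HasDerivAt g (g1 x) x) →
      (∀ x, HasDerivAt g1 (g2 x) x) → (∀ x, HasDerivAt g2 (g3 x) x) → (∀ x, HasDerivAt g3 (g4 x) x) →
      Continuous g4 → (∃ M : ℝ, ∀ x, |g x| ≤ M ∧ |g1 x| ≤ M ∧ |g2 x| ≤ M ∧ |g3 x| ≤ M ∧ |g4 x| ≤ M) →
      Integrable (fun z => g z * (1 + |z|)) → Integrable (fun z => g2 z * (1 + |z|)) →
      Integrable (fun z => g4 z * (1 + |z|)) → ∀ W : ℝ, 0 < W → ∀ u : ℝ,
        |Lam T (fun x => g ((x - u) / W))| ≤
          C * Nm g g2 g4 * (1 / W ^ 2 + (1 + |u|) * (1 + W) * W ^ 2 / Real.log T) := by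
  obtain ⟨C, T0, hC, hT0, hgaw⟩ := gaw h16 hWM
  have hpi := Real.pi_gt_three
  have hpi0 := Real.pi_pos
  refine ⟨C, T0, hC, hT0, fun T hT g g1 g2 g3 g4 d1 d2 d3 d4 c4 hM I0 I2 I4 W hW u => ?_⟩
  obtain ⟨M, hM⟩ := hM
  have hLpos : 0 < Real.log T := Real.log_pos (by linarith)
  set L := Real.log T with hL
  have hu0 := abs_nonneg u
  have c0 : Continuous g := continuous_iff_continuousAt.2 fun x => (d1 x).continuousAt
  have c2 : Continuous g2 := continuous_iff_continuousAt.2 fun x => (d3 x).continuousAt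
  set E : ℝ → ℝ → ℝ := fun W u => C * (1 / W ^ 2 + (1 + |u|) * W ^ 2 / L) with hE
  have hE1 : ∀ W : ℝ, 0 < W → ∀ u, |Lam T (gw W u)| ≤ E W u := fun W hW u => hgaw T hT W hW u
  set R := 1 / W ^ 2 + (1 + |u|) * (1 + W) * W ^ 2 / L with hR
  have hR0 : 0 < R := by positivity
  -- the bound for the error of one Gaussian
  have hEb : ∀ τ : ℝ, 0 < τ → τ ≤ 1 → ∀ z : ℝ, τ ^ 2 * E (W * τ) (-(u + W * z)) ≤ C * R * (1 + |z|) := by
    intro τ hτ hτ1 z
    have hz0 := abs_nonneg z
    simp only [hE]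
    have h1 : |-(u + W * z)| ≤ |u| + W * |z| := by
      rw [abs_neg]
      refine (abs_add_le _ _).trans ?_
      rw [abs_mul, abs_of_pos hW]
    have h2 : 1 + |-(u + W * z)| ≤ (1 + |u|) * (1 + W) * (1 + |z|) := by
      have e1 : (1 + |u|) * (1 + W) * (1 + |z|) = 1 + |u| + W * |z| +
        (W + |z| + |u| * W + |u| * |z| + |u| * W * |z|) := by ring
      have h3 : 0 ≤ W + |z| + |u| * W + |u| * |z| + |u| * W * |z| := by positivity
      linarith
    have hτ4 : τ ^ 4 ≤ 1 := pow_le_one₀ hτ.le hτ1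
    calc τ ^ 2 * (C * (1 / (W * τ) ^ 2 + (1 + |-(u + W * z)|) * (W * τ) ^ 2 / L)) =
        C * (1 / W ^ 2 + (1 + |-(u + W * z)|) * W ^ 2 / L * τ ^ 4) := by field_simp
      _ ≤ C * (1 / W ^ 2 * (1 + |z|) + ((1 + |u|) * (1 + W) * (1 + |z|)) * W ^ 2 / L * 1) := by
          apply mul_le_mul_of_nonneg_left _ hC.le
          apply add_le_add
          · exact le_mul_of_one_le_right (by positivity) (by linarith)
          · apply mul_le_mul _ hτ4 (by positivity) (by positivity)
            gcongr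
      _ = _ := by rw [hR]; ring
  -- pieces one and two
  have hone : ∀ f : ℝ → ℝ, Continuous f → Integrable (fun z => f z * (1 + |z|)) →
      |Lam T (fun x => ∫ z, f z * gw W (-(u + W * z)) x)| ≤ ∫ z, |f z| * (C * R * (1 + |z|)) ∧
        Integrable (fun x => ∫ z, f z * gw W (-(u + W * z)) x) := by
    intro f hf hI
    have hfi : Integrable f := by
      refine Integrable.mono' hI.norm hf.aestronglyMeasurable (Eventually.of_forall fun z => ?_)
      rw [norm_mul, Real.norm_of_nonneg (by positivity : 0 ≤ 1 + |z|)]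
      exact le_mul_of_one_le_right (norm_nonneg _) (by linarith [abs_nonneg z])
    refine gmix hE1 hfi measurable_const (by fun_prop) (Eventually.of_forall fun _ => hW)
      (hfi.mul_const W) ?_ (Eventually.of_forall fun z => ?_)
    · have := hI.norm.const_mul (C * R)
      refine this.congr (Eventually.of_forall fun z => ?_)
      simp only
      rw [norm_mul, Real.norm_eq_abs, Real.norm_of_nonneg (by positivity : 0 ≤ 1 + |z|)]
      ring
    · have := hEb 1 one_pos le_rfl z
      rw [one_pow, one_mul, mul_one] at this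
      exact mul_le_mul_of_nonneg_left this (abs_nonneg _)
  obtain ⟨p1, q1⟩ := hone g c0 I0
  obtain ⟨p2, q2⟩ := hone g2 c2 I2
  -- piece three
  set ρ : Measure (ℝ × ℝ) := (volume.restrict (Ioc (0 : ℝ) 1)).prod volume with hρ
  have hτae : ∀ᵐ p : ℝ × ℝ ∂ρ, 0 < p.1 ∧ p.1 ≤ 1 := by
    have h1 : ∀ᵐ v ∂(volume.restrict (Ioc (0 : ℝ) 1)), 0 < v ∧ v ≤ 1 :=
      ae_restrict_mem measurableSet_Ioc
    exact Measure.quasiMeasurePreserving_fst.ae h1
  have i4 : Integrable g4 := by
    refine Integrable.mono' I4.norm c4.aestronglyMeasurable (Eventually.of_forall fun z => ?_)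
    rw [norm_mul, Real.norm_of_nonneg (by positivity : 0 ≤ 1 + |z|)]
    exact le_mul_of_one_le_right (norm_nonneg _) (by linarith [abs_nonneg z])
  have iτ : ∀ n : ℕ, Integrable (fun τ : ℝ => τ ^ n / (8 * Real.pi ^ 2)) (volume.restrict (Ioc (0 : ℝ) 1)) := by
    intro n
    have : Continuous fun τ : ℝ => τ ^ n / (8 * Real.pi ^ 2) := by fun_prop
    exact (this.integrableOn_Icc (a := 0) (b := 1)).mono_set Ioc_subset_Icc_self
  have i1 : Integrable (fun _ : ℝ => (1 : ℝ)) (volume.restrict (Ioc (0 : ℝ) 1)) := by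
    have := iτ 0
    simp only [pow_zero] at this
    have h2 := this.mul_const (8 * Real.pi ^ 2)
    refine h2.congr (Eventually.of_forall fun _ => ?_)
    simp only
    field_simp
  have ia : Integrable (fun p : ℝ × ℝ => p.1 ^ 2 / (8 * Real.pi ^ 2) * g4 p.2) ρ :=
    (iτ 2).mul_prod i4
  have iaw : Integrable (fun p : ℝ × ℝ => p.1 ^ 2 / (8 * Real.pi ^ 2) * g4 p.2 * (W * p.1)) ρ := by
    have h1 := ((iτ 3).mul_prod i4).const_mul W
    refine h1.congr (Eventually.of_forall fun p => ?_)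
    simp only
    ring
  have ie : Integrable (fun p : ℝ × ℝ => (1 : ℝ) * (|g4 p.2| * (C * R * (1 + |p.2|)))) ρ := by
    have h1 : Integrable fun z => |g4 z| * (C * R * (1 + |z|)) := by
      have := I4.norm.const_mul (C * R)
      refine this.congr (Eventually.of_forall fun z => ?_)
      simp only
      rw [norm_mul, Real.norm_eq_abs, Real.norm_of_nonneg (by positivity : 0 ≤ 1 + |z|)]
      ring
    exact i1.mul_prod h1
  obtain ⟨p3, q3⟩ := gmix (ρ := ρ) (T := T) (E := E) hE1
    (a := fun p : ℝ × ℝ => p.1 ^ 2 / (8 * Real.pi ^ 2) * g4 p.2) (w := fun p => W * p.1)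
    (c := fun p => -(u + W * p.2)) ia (by fun_prop) (by fun_prop)
    (by filter_upwards [hτae] with p hp; exact mul_pos hW hp.1) iaw ie (by
      filter_upwards [hτae] with p hp
      rw [abs_mul, abs_of_nonneg (by positivity : 0 ≤ p.1 ^ 2 / (8 * Real.pi ^ 2)), one_mul]
      have h1 := hEb p.1 hp.1 hp.2 p.2
      have hEpos : 0 ≤ E (W * p.1) (-(u + W * p.2)) := by simp only [hE]; positivity
      have h2 : p.1 ^ 2 / (8 * Real.pi ^ 2) ≤ p.1 ^ 2 := by
        apply div_le_self (sq_nonneg _)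
        nlinarith only [hpi]
      calc p.1 ^ 2 / (8 * Real.pi ^ 2) * |g4 p.2| * E (W * p.1) (-(u + W * p.2)) ≤
          p.1 ^ 2 * |g4 p.2| * E (W * p.1) (-(u + W * p.2)) := by gcongr
        _ = |g4 p.2| * (p.1 ^ 2 * E (W * p.1) (-(u + W * p.2))) := by ring
        _ ≤ _ := mul_le_mul_of_nonneg_left h1 (abs_nonneg _))
  have hval3 : ∫ p, (1 : ℝ) * (|g4 p.2| * (C * R * (1 + |p.2|))) ∂ρ =
      ∫ z, |g4 z| * (C * R * (1 + |z|)) := by
    rw [hρ, integral_prod_mul (fun _ : ℝ => (1 : ℝ)) (fun z : ℝ => |g4 z| * (C * R * (1 + |z|)))]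
    simp
  rw [hval3] at p3
  -- the representation
  have hrep : (fun x => g ((x - u) / W)) = fun x => ((∫ z, g z * gw W (-(u + W * z)) x) +
      (-(1 / (4 * Real.pi))) * ∫ z, g2 z * gw W (-(u + W * z)) x) +
      ∫ p, p.1 ^ 2 / (8 * Real.pi ^ 2) * g4 p.2 * gw (W * p.1) (-(u + W * p.2)) x ∂ρ := by
    funext x
    have hh := heat d1 d2 d3 d4 c4 (fun x => (hM x).1) (fun x => (hM x).2.1) (fun x => (hM x).2.2.1)
      (fun x => (hM x).2.2.2.1) (fun x => (hM x).2.2.2.2) ((x - u) / W)
    have hgw : ∀ τ : ℝ, 0 < τ → ∀ z, PG (((x - u) / W - z) / τ) = gw (W * τ) (-(u + W * z)) x := by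
      intro τ hτ z
      rw [gw_eq]
      congr 1
      field_simp
      ring
    have e1 : ∀ f : ℝ → ℝ, BB f 1 ((x - u) / W) = ∫ z, f z * gw W (-(u + W * z)) x := by
      intro f
      rw [BB_conv f one_pos, div_one, one_mul]
      refine integral_congr_ae (Eventually.of_forall fun z => ?_)
      simp only
      rw [hgw 1 one_pos z, mul_one]
    have e2 : ∫ τ in (0 : ℝ)..1, τ ^ 3 / (8 * Real.pi ^ 2) * BB g4 τ ((x - u) / W) =
        ∫ p, p.1 ^ 2 / (8 * Real.pi ^ 2) * g4 p.2 * gw (W * p.1) (-(u + W * p.2)) x ∂ρ := by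
      have i5 : Integrable (fun p : ℝ × ℝ => p.1 ^ 2 / (8 * Real.pi ^ 2) * g4 p.2 *
          gw (W * p.1) (-(u + W * p.2)) x) ρ := by
        have hm : Measurable fun p : ℝ × ℝ => gw (W * p.1) (-(u + W * p.2)) x := by
          simp only [gw_eq]
          exact PG_cont.measurable.comp (by fun_prop)
        refine Integrable.mono' ia.norm (ia.aestronglyMeasurable.mul hm.aestronglyMeasurable)
          (Eventually.of_forall fun p => ?_)
        rw [norm_mul]
        exact mul_le_of_le_one_right (norm_nonneg _) (gw_le _ _ _)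
      rw [hρ, integral_prod _ i5, intervalIntegral.integral_of_le zero_le_one]
      refine setIntegral_congr_fun measurableSet_Ioc fun τ hτ => ?_
      have hτ0 : 0 < τ := hτ.1
      simp only
      rw [BB_conv g4 hτ0, ← mul_assoc, ← integral_const_mul]
      refine integral_congr_ae (Eventually.of_forall fun z => ?_)
      simp only
      rw [hgw τ hτ0 z]
      field_simp
    rw [hh, e1, e1, e2]
    ring
  have q12 : Integrable (fun x => (∫ z, g z * gw W (-(u + W * z)) x) +
      (-(1 / (4 * Real.pi))) * ∫ z, g2 z * gw W (-(u + W * z)) x) := q1.add (q2.const_mul _)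
  rw [hrep, lam_add T q12 q3, lam_add T q1 (q2.const_mul _), lam_smul]
  have hs : |-(1 / (4 * Real.pi))| ≤ 1 := by
    rw [abs_neg, abs_of_pos (by positivity), div_le_one (by positivity)]
    linarith
  have hN : (∫ z, |g z| * (C * R * (1 + |z|))) + (∫ z, |g2 z| * (C * R * (1 + |z|))) +
      (∫ z, |g4 z| * (C * R * (1 + |z|))) = C * Nm g g2 g4 * R := by
    have hi : ∀ f : ℝ → ℝ, Integrable (fun z => f z * (1 + |z|)) →
        Integrable fun z => |f z| * (C * R * (1 + |z|)) := by
      intro f hf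
      refine (hf.norm.const_mul (C * R)).congr (Eventually.of_forall fun z => ?_)
      simp only
      rw [norm_mul, Real.norm_eq_abs, Real.norm_of_nonneg (by positivity : 0 ≤ 1 + |z|)]
      ring
    have i02 : Integrable fun z => |g z| * (C * R * (1 + |z|)) + |g2 z| * (C * R * (1 + |z|)) :=
      (hi g I0).add (hi g2 I2)
    rw [← integral_add (hi g I0) (hi g2 I2), ← integral_add i02 (hi g4 I4)]
    unfold Nm
    have e9 : C * (∫ z, (|g z| + |g2 z| + |g4 z|) * (1 + |z|)) * R =
        ∫ z, (C * R) * ((|g z| + |g2 z| + |g4 z|) * (1 + |z|)) := by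
      rw [integral_const_mul]; ring
    rw [e9]
    refine integral_congr_ae (Eventually.of_forall fun z => ?_)
    simp only
    ring
  rw [← hN]
  refine (abs_add_le _ _).trans (add_le_add ((abs_add_le _ _).trans (add_le_add p1 ?_)) p3)
  rw [abs_mul]
  exact (mul_le_of_le_one_left (abs_nonneg _) hs).trans p2

end Pool.Agent.W2helper93.SW
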