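import Pool.Agent.TH850.UV.Kern

set_option autoImplicit false

/-! # The kernel off the real line: second order difference -/

namespace Pool.Agent.W2helper93.SW

open Complex Filter Topology MeasureTheory Set
open Pool.Agent.TH850.UV

lemma cosh_sub (u : ℝ) : |Real.cosh u - 1| ≤ u ^ 2 * Real.exp |u| := by
  have h0 : 0 ≤ Real.cosh u - 1 := by linarith [Real.one_le_cosh u]
  rw [abs_of_nonneg h0]
  rcases le_or_gt |u| 1 with h | h
  · have h1 := Real.abs_exp_sub_one_sub_id_le h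
    have h2 := Real.abs_exp_sub_one_sub_id_le (x := -u) (by rwa [abs_neg])
    rw [abs_le] at h1 h2
    have h3 : 1 ≤ Real.exp |u| := Real.one_le_exp (abs_nonneg _)
    have h4 : Real.cosh u - 1 ≤ u ^ 2 := by
      rw [Real.cosh_eq]
      have := h1.2
      have := h2.2
      nlinarith
    nlinarith [sq_nonneg u]
  · have h1 : Real.cosh u ≤ Real.exp |u| := by
      rw [← Real.cosh_abs, Real.cosh_eq]
      have h2 : Real.exp (-|u|) ≤ Real.exp |u| := Real.exp_le_exp.2 (by linarith [abs_nonneg u])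
      linarith
    have h3 : 1 ≤ u ^ 2 := by
      rw [← sq_abs]; nlinarith
    have h4 := Real.exp_pos |u|
    nlinarith

lemma sinh_abs (u : ℝ) : |Real.sinh u| ≤ 2 * |u| * Real.exp |u| := by
  have h3 : 1 ≤ Real.exp |u| := Real.one_le_exp (abs_nonneg _)
  rcases le_or_gt |u| 1 with h | h
  · have h1 := Real.abs_exp_sub_one_sub_id_le h
    have h2 := Real.abs_exp_sub_one_sub_id_le (x := -u) (by rwa [abs_neg])
    have e : Real.sinh u = (Real.exp u - 1 - u) / 2 - (Real.exp (-u) - 1 - -u) / 2 + u := by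
      rw [Real.sinh_eq]; ring
    have h4 : |Real.sinh u| ≤ u ^ 2 + |u| := by
      rw [e]
      refine (abs_add_le _ _).trans (add_le_add_left ?_ _)
      refine (abs_sub _ _).trans ?_
      rw [abs_div, abs_div, abs_two]
      nlinarith
    have h5 : u ^ 2 ≤ |u| := by
      rw [← sq_abs]; nlinarith [abs_nonneg u]
    nlinarith [abs_nonneg u]
  · have h1 : |Real.sinh u| ≤ Real.exp |u| := by
      rw [Real.abs_sinh, Real.sinh_eq]
      have := Real.exp_pos (-|u|)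
      have := Real.exp_pos |u|
      linarith
    nlinarith

/-- the weight on the line -/
noncomputable def Fp (y α : ℝ) : ℝ := (1 - 4 * α ^ 2) ^ 4 * (Real.cosh (2 * Real.pi * y * α) - 1)

noncomputable def Fp1 (y α : ℝ) : ℝ :=
  -32 * α * (1 - 4 * α ^ 2) ^ 3 * (Real.cosh (2 * Real.pi * y * α) - 1) +
    (1 - 4 * α ^ 2) ^ 4 * (2 * Real.pi * y * Real.sinh (2 * Real.pi * y * α))

noncomputable def Fp2 (y α : ℝ) : ℝ :=
  (-32 * (1 - 4 * α ^ 2) ^ 3 + 768 * α ^ 2 * (1 - 4 * α ^ 2) ^ 2) *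
    (Real.cosh (2 * Real.pi * y * α) - 1) +
  2 * (-32 * α * (1 - 4 * α ^ 2) ^ 3) * (2 * Real.pi * y * Real.sinh (2 * Real.pi * y * α)) +
  (1 - 4 * α ^ 2) ^ 4 * ((2 * Real.pi * y) ^ 2 * Real.cosh (2 * Real.pi * y * α))

lemma lin_deriv (c α : ℝ) : HasDerivAt (fun α : ℝ => c * α) c α := by
  simpa using (hasDerivAt_id' α).const_mul c

lemma ch_deriv (y α : ℝ) : HasDerivAt (fun α : ℝ => Real.cosh (2 * Real.pi * y * α) - 1)
    (2 * Real.pi * y * Real.sinh (2 * Real.pi * y * α)) α := by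
  have h := (lin_deriv (2 * Real.pi * y) α).cosh.sub_const 1
  exact h.congr_deriv (by ring)

lemma sh_deriv (y α : ℝ) :
    HasDerivAt (fun α : ℝ => 2 * Real.pi * y * Real.sinh (2 * Real.pi * y * α))
    ((2 * Real.pi * y) ^ 2 * Real.cosh (2 * Real.pi * y * α)) α := by
  have h := (lin_deriv (2 * Real.pi * y) α).sinh.const_mul (2 * Real.pi * y)
  exact h.congr_deriv (by ring)

lemma q_deriv (α : ℝ) : HasDerivAt (fun α : ℝ => 1 - 4 * α ^ 2) (-8 * α) α := by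
  have h := (((hasDerivAt_id' α).pow 2).const_mul 4).const_sub 1
  refine h.congr_deriv ?_
  norm_num
  ring

lemma Fp_deriv (y α : ℝ) : HasDerivAt (Fp y) (Fp1 y α) α := by
  have h := ((q_deriv α).pow 4).mul (ch_deriv y α)
  refine h.congr_deriv ?_
  unfold Fp1
  simp only [Pi.pow_apply]
  push_cast
  ring

lemma Fp1_deriv (y α : ℝ) : HasDerivAt (Fp1 y) (Fp2 y α) α := by
  have h1 : HasDerivAt (fun α : ℝ => -32 * α) (-32) α := lin_deriv (-32) α
  have h2 := (h1.mul ((q_deriv α).pow 3)).mul (ch_deriv y α)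
  have h3 := ((q_deriv α).pow 4).mul (sh_deriv y α)
  have h := h2.add h3
  refine h.congr_deriv ?_
  unfold Fp2
  simp only [Pi.mul_apply, Pi.pow_apply]
  push_cast
  ring

lemma Fp2_bd {y α : ℝ} (h1 : -(1 / 2) ≤ α) (h2 : α ≤ 1 / 2) :
    |Fp2 y α| ≤ 3560 * (y ^ 2 * Real.exp (Real.pi * |y|)) := by
  have hpi := Real.pi_pos
  have hpi2 : Real.pi ^ 2 ≤ 10 := by
    have := Real.pi_lt_d2
    nlinarith
  have ha : α ^ 2 ≤ 1 / 4 := by nlinarith
  have ha1 : |α| ≤ 1 / 2 := abs_le.2 ⟨h1, h2⟩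
  have hq0 : 0 ≤ 1 - 4 * α ^ 2 := by linarith
  have hq1 : 1 - 4 * α ^ 2 ≤ 1 := by nlinarith [sq_nonneg α]
  have hp2 : (1 - 4 * α ^ 2) ^ 2 ≤ 1 := pow_le_one₀ hq0 hq1
  have hp3 : (1 - 4 * α ^ 2) ^ 3 ≤ 1 := pow_le_one₀ hq0 hq1
  have hp4 : (1 - 4 * α ^ 2) ^ 4 ≤ 1 := pow_le_one₀ hq0 hq1
  have hp20 := pow_nonneg hq0 2
  have hp30 := pow_nonneg hq0 3
  have hp40 := pow_nonneg hq0 4
  set u := 2 * Real.pi * y * α with hu
  have hua : |u| ≤ Real.pi * |y| := by
    rw [hu, abs_mul, abs_mul, abs_mul, abs_two, abs_of_pos hpi]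
    have h3 : 0 ≤ 2 * Real.pi * |y| := by positivity
    nlinarith [mul_le_mul_of_nonneg_left ha1 h3]
  have hE : Real.exp |u| ≤ Real.exp (Real.pi * |y|) := Real.exp_le_exp.2 hua
  set E := Real.exp (Real.pi * |y|) with hEd
  have hE0 : 0 < E := Real.exp_pos _
  have hy2 : 0 ≤ y ^ 2 := sq_nonneg y
  have hu2 : u ^ 2 ≤ 10 * y ^ 2 := by
    rw [← sq_abs u]
    calc |u| ^ 2 ≤ (Real.pi * |y|) ^ 2 := pow_le_pow_left₀ (abs_nonneg _) hua 2
      _ = Real.pi ^ 2 * y ^ 2 := by rw [mul_pow, sq_abs]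
      _ ≤ _ := mul_le_mul_of_nonneg_right hpi2 hy2
  have b1 : |Real.cosh u - 1| ≤ 10 * (y ^ 2 * E) := by
    calc |Real.cosh u - 1| ≤ u ^ 2 * Real.exp |u| := cosh_sub u
      _ ≤ (10 * y ^ 2) * E := mul_le_mul hu2 hE (Real.exp_pos _).le (by positivity)
      _ = _ := by ring
  have b2 : |2 * Real.pi * y * Real.sinh u| ≤ 40 * (y ^ 2 * E) := by
    rw [abs_mul, abs_mul, abs_mul, abs_two, abs_of_pos hpi]
    calc 2 * Real.pi * |y| * |Real.sinh u| ≤ 2 * Real.pi * |y| * (2 * |u| * Real.exp |u|) :=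
          mul_le_mul_of_nonneg_left (sinh_abs u) (by positivity)
      _ ≤ 2 * Real.pi * |y| * (2 * (Real.pi * |y|) * E) := by gcongr
      _ = 4 * Real.pi ^ 2 * (|y| ^ 2 * E) := by ring
      _ ≤ 4 * 10 * (|y| ^ 2 * E) := by gcongr
      _ = _ := by rw [sq_abs]; ring
  have b3 : |(2 * Real.pi * y) ^ 2 * Real.cosh u| ≤ 40 * (y ^ 2 * E) := by
    have h5 : Real.cosh u ≤ Real.exp |u| := by
      rw [← Real.cosh_abs, Real.cosh_eq]
      have h2 : Real.exp (-|u|) ≤ Real.exp |u| := Real.exp_le_exp.2 (by linarith [abs_nonneg u])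
      linarith
    rw [abs_mul, abs_of_nonneg (sq_nonneg _), abs_of_pos (Real.cosh_pos u)]
    calc (2 * Real.pi * y) ^ 2 * Real.cosh u ≤ (2 * Real.pi * y) ^ 2 * E :=
          mul_le_mul_of_nonneg_left (h5.trans hE) (sq_nonneg _)
      _ = 4 * Real.pi ^ 2 * (y ^ 2 * E) := by ring
      _ ≤ 4 * 10 * (y ^ 2 * E) := by gcongr
      _ = _ := by ring
  have hM : 0 ≤ y ^ 2 * E := by positivity
  have c1 : |-32 * (1 - 4 * α ^ 2) ^ 3 + 768 * α ^ 2 * (1 - 4 * α ^ 2) ^ 2| ≤ 224 := by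
    have h6 : 0 ≤ 768 * α ^ 2 * (1 - 4 * α ^ 2) ^ 2 := by positivity
    have h7 : 768 * α ^ 2 * (1 - 4 * α ^ 2) ^ 2 ≤ 768 * (1 / 4) * 1 :=
      mul_le_mul (by linarith) hp2 hp20 (by norm_num)
    rw [abs_le]
    constructor <;> linarith
  have c2 : |2 * (-32 * α * (1 - 4 * α ^ 2) ^ 3)| ≤ 32 := by
    rw [abs_mul, abs_mul, abs_mul, abs_of_nonneg hp30, abs_two]
    have h6 : |(-32 : ℝ)| = 32 := by norm_num
    rw [h6]
    have h7 : |α| * (1 - 4 * α ^ 2) ^ 3 ≤ 1 / 2 * 1 := mul_le_mul ha1 hp3 hp30 (by norm_num)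
    linarith
  unfold Fp2
  rw [← hu]
  refine (abs_add_le _ _).trans ?_
  have d1 := abs_add_le ((-32 * (1 - 4 * α ^ 2) ^ 3 + 768 * α ^ 2 * (1 - 4 * α ^ 2) ^ 2) *
    (Real.cosh u - 1)) (2 * (-32 * α * (1 - 4 * α ^ 2) ^ 3) * (2 * Real.pi * y * Real.sinh u))
  rw [abs_mul (-32 * (1 - 4 * α ^ 2) ^ 3 + 768 * α ^ 2 * (1 - 4 * α ^ 2) ^ 2),
    abs_mul (2 * (-32 * α * (1 - 4 * α ^ 2) ^ 3))] at d1
  have d2 : |-32 * (1 - 4 * α ^ 2) ^ 3 + 768 * α ^ 2 * (1 - 4 * α ^ 2) ^ 2| *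
      |Real.cosh u - 1| ≤ 224 * (10 * (y ^ 2 * E)) :=
    mul_le_mul c1 b1 (abs_nonneg _) (by norm_num)
  have d3 : |2 * (-32 * α * (1 - 4 * α ^ 2) ^ 3)| * |2 * Real.pi * y * Real.sinh u| ≤
      32 * (40 * (y ^ 2 * E)) := mul_le_mul c2 b2 (abs_nonneg _) (by norm_num)
  have d4 : |(1 - 4 * α ^ 2) ^ 4 * ((2 * Real.pi * y) ^ 2 * Real.cosh u)| ≤
      1 * (40 * (y ^ 2 * E)) := by
    rw [abs_mul, abs_of_nonneg hp40]
    exact mul_le_mul hp4 b3 (abs_nonneg _) zero_le_one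
  linarith

lemma Fp_bd {y α : ℝ} (h1 : -(1 / 2) ≤ α) (h2 : α ≤ 1 / 2) :
    |Fp y α| ≤ 10 * (y ^ 2 * Real.exp (Real.pi * |y|)) := by
  have hpi := Real.pi_pos
  have hpi2 : Real.pi ^ 2 ≤ 10 := by
    have := Real.pi_lt_d2
    nlinarith
  have ha : α ^ 2 ≤ 1 / 4 := by nlinarith
  have ha1 : |α| ≤ 1 / 2 := abs_le.2 ⟨h1, h2⟩
  have hq0 : 0 ≤ 1 - 4 * α ^ 2 := by linarith
  have hq1 : 1 - 4 * α ^ 2 ≤ 1 := by nlinarith [sq_nonneg α]
  have hp4 : (1 - 4 * α ^ 2) ^ 4 ≤ 1 := pow_le_one₀ hq0 hq1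
  have hp40 := pow_nonneg hq0 4
  unfold Fp
  set u := 2 * Real.pi * y * α with hu
  have hua : |u| ≤ Real.pi * |y| := by
    rw [hu, abs_mul, abs_mul, abs_mul, abs_two, abs_of_pos hpi]
    have h3 : 0 ≤ 2 * Real.pi * |y| := by positivity
    nlinarith [mul_le_mul_of_nonneg_left ha1 h3]
  have hE : Real.exp |u| ≤ Real.exp (Real.pi * |y|) := Real.exp_le_exp.2 hua
  have hy2 : 0 ≤ y ^ 2 := sq_nonneg y
  have hu2 : u ^ 2 ≤ 10 * y ^ 2 := by
    rw [← sq_abs u]
    calc |u| ^ 2 ≤ (Real.pi * |y|) ^ 2 := pow_le_pow_left₀ (abs_nonneg _) hua 2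
      _ = Real.pi ^ 2 * y ^ 2 := by rw [mul_pow, sq_abs]
      _ ≤ _ := mul_le_mul_of_nonneg_right hpi2 hy2
  have b1 : |Real.cosh u - 1| ≤ 10 * (y ^ 2 * Real.exp (Real.pi * |y|)) := by
    calc |Real.cosh u - 1| ≤ u ^ 2 * Real.exp |u| := cosh_sub u
      _ ≤ (10 * y ^ 2) * Real.exp (Real.pi * |y|) :=
          mul_le_mul hu2 hE (Real.exp_pos _).le (by positivity)
      _ = _ := by ring
  rw [abs_mul, abs_of_nonneg hp40]
  calc (1 - 4 * α ^ 2) ^ 4 * |Real.cosh u - 1| ≤ 1 * (10 * (y ^ 2 * Real.exp (Real.pi * |y|))) :=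
        mul_le_mul hp4 b1 (abs_nonneg _) zero_le_one
    _ = _ := by ring

lemma Fp_cont (y : ℝ) : Continuous (Fp y) := by unfold Fp; fun_prop

lemma Fp1_cont (y : ℝ) : Continuous (Fp1 y) := by unfold Fp1; fun_prop

lemma Fp2_cont (y : ℝ) : Continuous (Fp2 y) := by unfold Fp2; fun_prop

/-- integration by parts -/
lemma Fp_parts (y w : ℝ) : w ^ 2 * ∫ α in (-(1 / 2 : ℝ))..(1 / 2), Fp y α * Real.cos (w * α) =
    -∫ α in (-(1 / 2 : ℝ))..(1 / 2), Fp2 y α * Real.cos (w * α) := by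
  have hs : ∀ α : ℝ, HasDerivAt (fun α : ℝ => Real.sin (w * α)) (w * Real.cos (w * α)) α := by
    intro α
    exact (lin_deriv w α).sin.congr_deriv (by ring)
  have hc : ∀ α : ℝ, HasDerivAt (fun α : ℝ => -Real.cos (w * α)) (w * Real.sin (w * α)) α := by
    intro α
    exact (lin_deriv w α).cos.neg.congr_deriv (by ring)
  have i1 := intervalIntegral.integral_mul_deriv_eq_deriv_mul (a := -(1 / 2 : ℝ)) (b := 1 / 2)
    (u := Fp y) (v := fun α => Real.sin (w * α)) (u' := Fp1 y) (v' := fun α => w * Real.cos (w * α))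
    (fun α _ => Fp_deriv y α) (fun α _ => hs α) ((Fp1_cont y).intervalIntegrable _ _)
    (Continuous.intervalIntegrable (by fun_prop) _ _)
  have i2 := intervalIntegral.integral_mul_deriv_eq_deriv_mul (a := -(1 / 2 : ℝ)) (b := 1 / 2)
    (u := Fp1 y) (v := fun α => -Real.cos (w * α)) (u' := Fp2 y)
    (v' := fun α => w * Real.sin (w * α))
    (fun α _ => Fp1_deriv y α) (fun α _ => hc α) ((Fp2_cont y).intervalIntegrable _ _)
    (Continuous.intervalIntegrable (by fun_prop) _ _)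
  have z1 : Fp y (1 / 2) = 0 := by unfold Fp; norm_num
  have z2 : Fp y (-(1 / 2)) = 0 := by unfold Fp; norm_num
  have z3 : Fp1 y (1 / 2) = 0 := by unfold Fp1; norm_num
  have z4 : Fp1 y (-(1 / 2)) = 0 := by unfold Fp1; norm_num
  rw [z1, z2, zero_mul, zero_mul, sub_zero, zero_sub] at i1
  rw [z3, z4, zero_mul, zero_mul, sub_zero, zero_sub] at i2
  have e1 : ∫ α in (-(1 / 2 : ℝ))..(1 / 2), Fp y α * (w * Real.cos (w * α)) =
      w * ∫ α in (-(1 / 2 : ℝ))..(1 / 2), Fp y α * Real.cos (w * α) := by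
    rw [← intervalIntegral.integral_const_mul]
    exact intervalIntegral.integral_congr fun α _ => by ring
  have e2 : ∫ α in (-(1 / 2 : ℝ))..(1 / 2), Fp1 y α * (w * Real.sin (w * α)) =
      w * ∫ α in (-(1 / 2 : ℝ))..(1 / 2), Fp1 y α * Real.sin (w * α) := by
    rw [← intervalIntegral.integral_const_mul]
    exact intervalIntegral.integral_congr fun α _ => by ring
  have e3 : ∫ α in (-(1 / 2 : ℝ))..(1 / 2), Fp2 y α * -Real.cos (w * α) =
      -∫ α in (-(1 / 2 : ℝ))..(1 / 2), Fp2 y α * Real.cos (w * α) := by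
    rw [← intervalIntegral.integral_neg]
    exact intervalIntegral.integral_congr fun α _ => by ring
  rw [e1] at i1
  rw [e2, e3, neg_neg] at i2
  rw [pow_two, mul_assoc, i1, mul_neg, i2]

/-- the difference of the kernels as an integral -/
lemma qk_diff (y x : ℝ) : qk y x - qk 0 x =
    ∫ α in (-(1 / 2 : ℝ))..(1 / 2), Fp y α * Real.cos (2 * Real.pi * x * α) := by
  have htc := om_cont
  have e : ∀ y : ℝ, qk y x = ∫ α in (-(1 / 2 : ℝ))..(1 / 2),
      om α * (Real.cos (2 * Real.pi * x * α) * Real.cosh (2 * Real.pi * y * α)) := by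
    intro y
    unfold qk kC
    have h1 : (∫ α in (-(1 / 2 : ℝ))..(1 / 2),
        (om α : ℂ) * Complex.cos (2 * Real.pi * α * (x + y * I))).re =
        ∫ α in (-(1 / 2 : ℝ))..(1 / 2),
        ((om α : ℂ) * Complex.cos (2 * Real.pi * α * (x + y * I))).re :=
      (Complex.reCLM.intervalIntegral_comp_comm
        (Continuous.intervalIntegrable (by fun_prop) _ _)).symm
    rw [h1]
    refine intervalIntegral.integral_congr fun α _ => ?_
    show ((om α : ℂ) * Complex.cos (2 * Real.pi * α * (x + y * I))).re = _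
    rw [Complex.re_ofReal_mul]
    congr 1
    have h2 : (2 * Real.pi * α * (x + y * I) : ℂ) =
        ((2 * Real.pi * x * α : ℝ) : ℂ) + ((2 * Real.pi * y * α : ℝ) : ℂ) * I := by
      push_cast; ring
    rw [h2, Complex.cos_add_mul_I, ← Complex.ofReal_cos, ← Complex.ofReal_cosh,
      ← Complex.ofReal_sin, ← Complex.ofReal_sinh]
    simp only [Complex.sub_re, Complex.mul_re, Complex.mul_im, Complex.ofReal_re, Complex.ofReal_im,
      Complex.I_re, Complex.I_im]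
    ring
  rw [e y, e 0, ← intervalIntegral.integral_sub
    (Continuous.intervalIntegrable (by fun_prop) _ _)
    (Continuous.intervalIntegrable (by fun_prop) _ _)]
  refine intervalIntegral.integral_congr fun α hα => ?_
  rw [Set.uIcc_of_le (by norm_num)] at hα
  show om α * (Real.cos (2 * Real.pi * x * α) * Real.cosh (2 * Real.pi * y * α)) -
    om α * (Real.cos (2 * Real.pi * x * α) * Real.cosh (2 * Real.pi * 0 * α)) =
    Fp y α * Real.cos (2 * Real.pi * x * α)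
  rw [KernAux.om_eq hα.1 hα.2]
  unfold Fp
  rw [mul_zero, zero_mul, Real.cosh_zero]
  ring

theorem kdiff (y x : ℝ) : |qk y x - qk 0 x| ≤
    110 * (y ^ 2 * Real.exp (Real.pi * |y|)) / (1 + x ^ 2) := by
  have hpi := Real.pi_gt_three
  rw [le_div_iff₀ (by positivity), qk_diff]
  set M := y ^ 2 * Real.exp (Real.pi * |y|) with hM
  have hM0 : 0 ≤ M := by positivity
  set J := ∫ α in (-(1 / 2 : ℝ))..(1 / 2), Fp y α * Real.cos (2 * Real.pi * x * α) with hJ
  have h1 : |J| ≤ 10 * M := by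
    have h := intervalIntegral.norm_integral_le_of_norm_le_const (a := -(1 / 2 : ℝ)) (b := 1 / 2)
      (f := fun α => Fp y α * Real.cos (2 * Real.pi * x * α)) (C := 10 * M) (fun α hα => ?_)
    · rw [Real.norm_eq_abs] at h
      norm_num at h
      exact h
    · rw [Set.uIoc_of_le (by norm_num)] at hα
      rw [Real.norm_eq_abs, abs_mul]
      calc |Fp y α| * |Real.cos (2 * Real.pi * x * α)| ≤ (10 * M) * 1 :=
            mul_le_mul (Fp_bd hα.1.le hα.2) (Real.abs_cos_le_one _) (abs_nonneg _) (by positivity)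
        _ = _ := mul_one _
  have h2 : |∫ α in (-(1 / 2 : ℝ))..(1 / 2), Fp2 y α * Real.cos (2 * Real.pi * x * α)| ≤
      3560 * M := by
    have h := intervalIntegral.norm_integral_le_of_norm_le_const (a := -(1 / 2 : ℝ)) (b := 1 / 2)
      (f := fun α => Fp2 y α * Real.cos (2 * Real.pi * x * α)) (C := 3560 * M) (fun α hα => ?_)
    · rw [Real.norm_eq_abs] at h
      norm_num at h
      exact h
    · rw [Set.uIoc_of_le (by norm_num)] at hα
      rw [Real.norm_eq_abs, abs_mul]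
      calc |Fp2 y α| * |Real.cos (2 * Real.pi * x * α)| ≤ (3560 * M) * 1 :=
            mul_le_mul (Fp2_bd hα.1.le hα.2) (Real.abs_cos_le_one _) (abs_nonneg _) (by positivity)
        _ = _ := mul_one _
  have h3 := Fp_parts y (2 * Real.pi * x)
  have h4 : (2 * Real.pi * x) ^ 2 * |J| ≤ 3560 * M := by
    rw [← abs_of_nonneg (sq_nonneg (2 * Real.pi * x)), ← abs_mul, h3, abs_neg]
    exact h2
  have h5 : 36 * x ^ 2 * |J| ≤ (2 * Real.pi * x) ^ 2 * |J| := by
    apply mul_le_mul_of_nonneg_right _ (abs_nonneg _)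
    have : 36 ≤ (2 * Real.pi) ^ 2 := by nlinarith
    calc 36 * x ^ 2 ≤ (2 * Real.pi) ^ 2 * x ^ 2 := mul_le_mul_of_nonneg_right this (sq_nonneg _)
      _ = _ := by ring
  nlinarith

end Pool.Agent.W2helper93.SW
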