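import Pool.Agent.W2helper93.SW.At
import Pool.Agent.W2helper93.SW.Gau

set_option autoImplicit false

/-! # Gaussian windows -/

namespace Pool.Agent.W2helper93.SW

open Filter Topology MeasureTheory Set
open Pool.Agent.W2helper93.NV
open Pool.Agent.TH850.UV
open H370 (Zf)

/-- the error functional -/
noncomputable def Lam (T : ℝ) (f : ℝ → ℝ) : ℝ := mu T f - gue f

lemma lam_smul (T c : ℝ) (f : ℝ → ℝ) : Lam T (fun x => c * f x) = c * Lam T f := by
  unfold Lam mu gue
  have e1 : ∑ s ∈ Zf riemannZeta 1 T, ∑ s' ∈ Zf riemannZeta 1 T, mm s * mm s' * (c * f (xd T s s')) =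
      c * ∑ s ∈ Zf riemannZeta 1 T, ∑ s' ∈ Zf riemannZeta 1 T, mm s * mm s' * f (xd T s s') := by
    rw [Finset.mul_sum]
    refine Finset.sum_congr rfl fun s _ => ?_
    rw [Finset.mul_sum]
    exact Finset.sum_congr rfl fun s' _ => by ring
  have e2 : ∫ x, c * f x * ks x = c * ∫ x, f x * ks x := by
    rw [← integral_const_mul]
    exact integral_congr_ae (Eventually.of_forall fun x => by ring)
  rw [e1, e2]
  ring

theorem lam_mix {α : Type*} [MeasurableSpace α] {ρ : Measure α} [SFinite ρ] (T : ℝ) (F : α → ℝ → ℝ)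
    (h1 : ∀ x, Integrable (fun p => F p x) ρ)
    (h2 : Integrable (Function.uncurry F) (ρ.prod volume)) :
    Lam T (fun x => ∫ p, F p x ∂ρ) = ∫ p, Lam T (F p) ∂ρ := by
  set G : α → ℝ → ℝ := fun p x => F p x * ks x with hG
  have hGi : Integrable (Function.uncurry G) (ρ.prod volume) := by
    refine Integrable.mono' h2.norm ?_ (Eventually.of_forall fun p => ?_)
    · exact h2.aestronglyMeasurable.mul (ks_cont.comp_aestronglyMeasurable
        measurable_snd.aestronglyMeasurable)
    · simp only [hG]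
      show ‖F p.1 p.2 * ks p.2‖ ≤ ‖F p.1 p.2‖
      rw [norm_mul, Real.norm_of_nonneg (ks_nonneg _)]
      exact mul_le_of_le_one_right (norm_nonneg _) (ks_le _)
  have e1 : mu T (fun x => ∫ p, F p x ∂ρ) = ∫ p, mu T (F p) ∂ρ := by
    unfold mu
    rw [integral_const_mul]
    congr 1
    rw [integral_finsetSum _ fun s _ => integrable_finsetSum _ fun s' _ => (h1 _).const_mul _]
    refine Finset.sum_congr rfl fun s _ => ?_
    rw [integral_finsetSum _ fun s' _ => (h1 _).const_mul _]
    exact Finset.sum_congr rfl fun s' _ => (integral_const_mul _ _).symm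
  have i1 : Integrable (fun p => mu T (F p)) ρ := by
    unfold mu
    exact (integrable_finsetSum _ fun s _ => integrable_finsetSum _ fun s' _ =>
      (h1 _).const_mul _).const_mul _
  have i2 : Integrable (fun p => ∫ x, F p x * ks x) ρ := hGi.integral_prod_left
  have e2 : gue (fun x => ∫ p, F p x ∂ρ) = ∫ p, gue (F p) ∂ρ := by
    unfold gue
    rw [integral_add (h1 0) i2]
    congr 1
    have h3 := integral_integral_swap hGi
    rw [show (∫ p, ∫ x, F p x * ks x ∂volume ∂ρ) = ∫ x, ∫ p, G p x ∂ρ from h3]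
    refine integral_congr_ae (Eventually.of_forall fun x => ?_)
    simp only [hG]
    rw [integral_mul_const]
  have i3 : Integrable (fun p => gue (F p)) ρ := by
    unfold gue
    exact (h1 0).add i2
  unfold Lam
  rw [e1, e2, ← integral_sub i1 i3]

theorem lam_le {α : Type*} [MeasurableSpace α] {ρ : Measure α} [SFinite ρ] (T : ℝ) (F : α → ℝ → ℝ)
    (h1 : ∀ x, Integrable (fun p => F p x) ρ)
    (h2 : Integrable (Function.uncurry F) (ρ.prod volume)) {e : α → ℝ} (he : Integrable e ρ)
    (h3 : ∀ᵐ p ∂ρ, |Lam T (F p)| ≤ e p) :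
    |Lam T (fun x => ∫ p, F p x ∂ρ)| ≤ ∫ p, e p ∂ρ := by
  rw [lam_mix T F h1 h2]
  have h4 : ∀ᵐ p ∂ρ, ‖Lam T (F p)‖ ≤ e p := h3
  have h5 := norm_integral_le_of_norm_le he h4
  rwa [Real.norm_eq_abs] at h5

/-- the Gaussian window -/
noncomputable def gw (W u x : ℝ) : ℝ := Real.exp (-(Real.pi * ((x + u) / W) ^ 2))

/-- the auxiliary density -/
noncomputable def wv' (v : ℝ) : ℝ := Real.pi ^ 9 / 40320 * (v ^ 7 * Real.exp (-(Real.pi * v)))

lemma wv_eq (v : ℝ) : wv v = v * wv' v := by unfold wv wv'; ring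

lemma wv'_int : IntegrableOn (fun v => wv' v * (1 + v) ^ 3) (Ioi 0) := by
  have h7 := (vint 7).const_mul (Real.pi ^ 9 / 40320)
  have h8 := (vint 8).const_mul (3 * (Real.pi ^ 9 / 40320))
  have h9 := (vint 9).const_mul (3 * (Real.pi ^ 9 / 40320))
  have h10 := (vint 10).const_mul (Real.pi ^ 9 / 40320)
  refine (((h7.add h8).add h9).add h10).congr (Eventually.of_forall fun v => ?_)
  simp only [Pi.add_apply]
  unfold wv'
  ring

lemma wv_int1 : IntegrableOn (fun v => wv v * (1 + v)) (Ioi 0) := by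
  have h1 := (vint 8).const_mul (Real.pi ^ 9 / 40320)
  have h2 := (vint 9).const_mul (Real.pi ^ 9 / 40320)
  refine (h1.add h2).congr (Eventually.of_forall fun v => ?_)
  simp only [Pi.add_apply]
  unfold wv
  ring

lemma wv_int0 : IntegrableOn wv (Ioi 0) := by
  refine ((vint 8).const_mul (Real.pi ^ 9 / 40320)).congr (Eventually.of_forall fun v => ?_)
  rfl

lemma two_sqrt_le {v : ℝ} (hv : 0 ≤ v) : 2 * Real.sqrt v ≤ 1 + v := by
  have h := Real.mul_self_sqrt hv
  nlinarith only [h, sq_nonneg (Real.sqrt v - 1)]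

theorem gaw {lam0 : ℝ} (h16 : 16 ≤ lam0) (hW : WMom lam0) : ∃ C T0 : ℝ, 0 < C ∧ 10 ≤ T0 ∧
    ∀ T : ℝ, T0 ≤ T → ∀ W : ℝ, 0 < W → ∀ u : ℝ,
      |Lam T (gw W u)| ≤ C * (1 / W ^ 2 + (1 + |u|) * W ^ 2 / Real.log T) := by
  obtain ⟨C, T0, hC, hT0, hatt⟩ := att h16 hW
  obtain ⟨Cp, hCp, hp⟩ := psi_le
  set J : ℝ := ∫ v in Ioi (0 : ℝ), wv' v * (1 + v) ^ 3 with hJ
  have hpi := Real.pi_pos
  have hw0 : ∀ v : ℝ, 0 < v → 0 ≤ wv' v := fun v hv => by unfold wv'; positivity
  have hJ0 : 0 ≤ J := setIntegral_nonneg measurableSet_Ioi fun v hv => by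
    have hv0 : (0 : ℝ) < v := hv
    have := hw0 v hv0
    positivity
  refine ⟨8 * C * (J + 1), T0, by positivity, hT0, fun T hT W hWp u => ?_⟩
  have hLpos : 0 < Real.log T := Real.log_pos (by linarith)
  set L := Real.log T with hL
  have hu0 := abs_nonneg u
  set ρ : Measure ℝ := volume.restrict (Ioi (0 : ℝ)) with hρ
  set F : ℝ → ℝ → ℝ := fun v x => wv v * (2 * Real.sqrt v * psi (2 * Real.sqrt v * ((x + u) / W))) with hF
  have hFc : Continuous (Function.uncurry F) := by
    simp only [hF]
    have h1 : Continuous fun p : ℝ × ℝ => wv p.1 := wv_cont.comp continuous_fst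
    have h2 : Continuous fun p : ℝ × ℝ => Real.sqrt p.1 := Real.continuous_sqrt.comp continuous_fst
    have h3 : Continuous fun p : ℝ × ℝ => psi (2 * Real.sqrt p.1 * ((p.2 + u) / W)) :=
      psi_cont.comp ((continuous_const.mul h2).mul ((continuous_snd.add continuous_const).div_const W))
    exact h1.mul ((continuous_const.mul h2).mul h3)
  have hmem : ∀ᵐ v ∂ρ, 0 < v := by
    rw [hρ]; exact ae_restrict_mem measurableSet_Ioi
  have hpsi : ∀ z, |psi z| ≤ Cp := fun z => (hp z).trans (div_le_self hCp.le (by nlinarith only [sq_nonneg z]))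
  have i1 : ∀ x, Integrable (fun v => F v x) ρ := by
    intro x
    refine Integrable.mono' (wv_int1.mul_const Cp)
      (hFc.comp (continuous_id.prodMk continuous_const)).aestronglyMeasurable ?_
    filter_upwards [hmem] with v hv
    simp only [hF, Function.comp]
    rw [Real.norm_eq_abs, abs_mul, abs_mul, abs_of_nonneg (wv_nonneg v),
      abs_of_nonneg (by positivity : 0 ≤ 2 * Real.sqrt v)]
    calc wv v * (2 * Real.sqrt v * |psi (2 * Real.sqrt v * ((x + u) / W))|) ≤
        wv v * ((1 + v) * Cp) := by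
          apply mul_le_mul_of_nonneg_left _ (wv_nonneg v)
          exact mul_le_mul (two_sqrt_le hv.le) (hpsi _) (abs_nonneg _) (by positivity)
      _ = _ := by ring
  have hdil : ∀ v : ℝ, 0 < v → ∀ x, F v x =
      (wv v * W) * ((2 * Real.sqrt v / W) * psi ((2 * Real.sqrt v / W) * (x + u))) := by
    intro v hv x
    simp only [hF]
    rw [show 2 * Real.sqrt v * ((x + u) / W) = 2 * Real.sqrt v / W * (x + u) by ring]
    field_simp
  have hβ : ∀ v : ℝ, 0 < v → 0 < 2 * Real.sqrt v / W := fun v hv => by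
    have := Real.sqrt_pos.2 hv
    positivity
  have i2 : Integrable (Function.uncurry F) (ρ.prod volume) := by
    rw [integrable_prod_iff hFc.aestronglyMeasurable]
    constructor
    · filter_upwards [hmem] with v hv
      have h1 : (fun x => Function.uncurry F (v, x)) = fun x =>
          (wv v * W) * ((2 * Real.sqrt v / W) * psi ((2 * Real.sqrt v / W) * (x + u))) :=
        funext fun x => hdil v hv x
      rw [h1]
      exact ((psi_dil_int (hβ v hv) u).const_mul _).const_mul _
    · have h2 : Integrable (fun v => (W * ∫ z, |psi z|) * wv v) ρ := wv_int0.const_mul _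
      refine h2.congr ?_
      filter_upwards [hmem] with v hv
      have hb := hβ v hv
      have h1 : ∀ x, ‖Function.uncurry F (v, x)‖ =
          (wv v * W) * ((2 * Real.sqrt v / W) * |psi ((2 * Real.sqrt v / W) * (x + u))|) := by
        intro x
        show ‖F v x‖ = _
        rw [hdil v hv x, Real.norm_eq_abs, abs_mul (wv v * W), abs_mul (2 * Real.sqrt v / W),
          abs_of_nonneg (mul_nonneg (wv_nonneg v) hWp.le), abs_of_pos hb]
      simp_rw [h1]
      rw [integral_const_mul, integral_const_mul,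
        integral_add_right_eq_self (fun x => |psi (2 * Real.sqrt v / W * x)|) u,
        Measure.integral_comp_mul_left (fun x => |psi x|) (2 * Real.sqrt v / W), smul_eq_mul,
        abs_of_pos (by positivity)]
      field_simp
  have hrep : gw W u = fun x => ∫ v, F v x ∂ρ := by
    funext x
    unfold gw
    rw [gau_mix]
  have hbd : ∀ᵐ v ∂ρ, |Lam T (F v)| ≤
      (8 * C * (1 / W ^ 2 + (1 + |u|) * W ^ 2 / L)) * (wv' v * (1 + v) ^ 3) := by
    filter_upwards [hmem] with v hv
    have hb := hβ v hv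
    have h1 : F v = fun x => (wv v * W) *
        ((2 * Real.sqrt v / W) * psi ((2 * Real.sqrt v / W) * (x + u))) :=
      funext fun x => hdil v hv x
    rw [h1, lam_smul, abs_mul, abs_of_nonneg (mul_nonneg (wv_nonneg v) hWp.le)]
    have h2 := hatt T hT _ hb u
    have hs := Real.sqrt_pos.2 hv
    have hss := Real.sq_sqrt hv.le
    have hsv : Real.sqrt v ≤ 1 + v := by
      have := two_sqrt_le hv.le
      linarith
    have hw := hw0 v hv
    calc wv v * W * |Lam T fun x => (2 * Real.sqrt v / W) * psi ((2 * Real.sqrt v / W) * (x + u))| ≤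
        wv v * W * (C * ((2 * Real.sqrt v / W) ^ 3 + (1 + |u|) / ((2 * Real.sqrt v / W) * L))) :=
          mul_le_mul_of_nonneg_left h2 (mul_nonneg (wv_nonneg v) hWp.le)
      _ = C * wv' v * (8 * (v ^ 2 * Real.sqrt v) * (1 / W ^ 2) +
          (Real.sqrt v / 2) * ((1 + |u|) * W ^ 2 / L)) := by
          rw [wv_eq]
          have e1 : (2 * Real.sqrt v / W) ^ 3 = 8 * (v * Real.sqrt v) / W ^ 3 := by
            rw [div_pow]; congr 1
            calc (2 * Real.sqrt v) ^ 3 = 8 * (Real.sqrt v ^ 2 * Real.sqrt v) := by ring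
              _ = _ := by rw [hss]
          have e2 : (1 + |u|) / ((2 * Real.sqrt v / W) * L) =
              (Real.sqrt v / (2 * v)) * ((1 + |u|) * W / L) := by
            have : Real.sqrt v / (2 * v) = 1 / (2 * Real.sqrt v) := by
              rw [div_eq_div_iff (by positivity) (by positivity)]
              calc Real.sqrt v * (2 * Real.sqrt v) = 2 * Real.sqrt v ^ 2 := by ring
                _ = _ := by rw [hss]; ring
            rw [this]
            field_simp
          rw [e1, e2]
          field_simp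
      _ ≤ C * wv' v * (8 * ((1 + v) ^ 3) * (1 / W ^ 2) +
          (8 * (1 + v) ^ 3) * ((1 + |u|) * W ^ 2 / L)) := by
          apply mul_le_mul_of_nonneg_left _ (by positivity)
          have k1 : v ^ 2 * Real.sqrt v ≤ (1 + v) ^ 3 := by
            calc v ^ 2 * Real.sqrt v ≤ (1 + v) ^ 2 * (1 + v) := by
                  apply mul_le_mul _ hsv hs.le (by positivity)
                  exact pow_le_pow_left₀ hv.le (by linarith) 2
              _ = _ := by ring
          have k2 : Real.sqrt v / 2 ≤ 8 * (1 + v) ^ 3 := by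
            have k3 : (1 + v) ≤ (1 + v) ^ 3 := by
              nlinarith only [hv, sq_nonneg v, mul_pos hv hv, mul_pos (mul_pos hv hv) hv]
            linarith
          have k4 : 0 ≤ 1 / W ^ 2 := by positivity
          have k5 : 0 ≤ (1 + |u|) * W ^ 2 / L := by positivity
          have k6 := mul_le_mul_of_nonneg_right k1 k4
          have k7 := mul_le_mul_of_nonneg_right k2 k5
          nlinarith only [k6, k7]
      _ = _ := by ring
  have hfin := lam_le T F i1 i2 (wv'_int.const_mul (8 * C * (1 / W ^ 2 + (1 + |u|) * W ^ 2 / L))) hbd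
  rw [← hrep, integral_const_mul, ← hJ] at hfin
  refine hfin.trans ?_
  have h1 : 0 ≤ 1 / W ^ 2 + (1 + |u|) * W ^ 2 / L := by positivity
  nlinarith only [mul_nonneg hC.le h1]

end Pool.Agent.W2helper93.SW
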