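import Pool.Agent.W2helper93.SW.Nav2

set_option autoImplicit false

/-! # The low zeros -/

namespace Pool.Agent.W2helper93.SW

open Complex Filter Topology MeasureTheory Set
open Pool.Agent.W2helper93.NV
open Pool.Agent.TH850.UV
open H370 (zz hh mult Zf zset AA good_zeta mem_Zf NN NN_add NN_mono zcount nn_asymp finsum_Zf)

/-- the sum over all pairs of zeros with ordinates in `(0, T]` -/
noncomputable def PF (T : ℝ) (f : ℝ → ℝ) : ℝ :=
  ∑ᶠ p ∈ {p : ℂ × ℂ | p.1 ∈ ZZ ∧ p.2 ∈ ZZ ∧ 0 < p.1.im ∧ p.1.im ≤ T ∧ 0 < p.2.im ∧ p.2.im ≤ T},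
    (zmult p.1 : ℝ) * (zmult p.2 : ℝ) * f ((p.1.im - p.2.im) * (Real.log T / (2 * Real.pi)))

lemma PF_eq (T : ℝ) (f : ℝ → ℝ) : PF T f = ∑ s ∈ (NT_fin T).toFinset, ∑ s' ∈ (NT_fin T).toFinset,
    mm s * mm s' * f (xd T s s') := by
  classical
  unfold PF
  have hset : {p : ℂ × ℂ | p.1 ∈ ZZ ∧ p.2 ∈ ZZ ∧ 0 < p.1.im ∧ p.1.im ≤ T ∧ 0 < p.2.im ∧
      p.2.im ≤ T} = ↑((NT_fin T).toFinset ×ˢ (NT_fin T).toFinset) := by
    ext p
    rw [Finset.mem_coe, Finset.mem_product, Set.Finite.mem_toFinset, Set.Finite.mem_toFinset]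
    constructor
    · rintro ⟨h1, h2, h3, h4, h5, h6⟩
      exact ⟨⟨h1, h3, h4⟩, ⟨h2, h5, h6⟩⟩
    · rintro ⟨⟨h1, h3, h4⟩, ⟨h2, h5, h6⟩⟩
      exact ⟨h1, h2, h3, h4, h5, h6⟩
  rw [hset, finsum_mem_coe_finset, Finset.sum_product]
  rfl

lemma low_gen {T Y M : ℝ} {f : ℝ → ℝ} (hM : ∀ x, |f x| ≤ M)
    (h1 : ∀ t : ℝ, 0 < t → t ≤ 1 → ∑ s' ∈ Zf riemannZeta 1 T,
      mm s' * |f ((t - s'.im) * (Real.log T / (2 * Real.pi)))| ≤ Y)
    (h2 : ∀ t : ℝ, 0 < t → t ≤ 1 → ∑ s' ∈ Zf riemannZeta 1 T,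
      mm s' * |f ((s'.im - t) * (Real.log T / (2 * Real.pi)))| ≤ Y) :
    |PF T f - ∑ s ∈ Zf riemannZeta 1 T, ∑ s' ∈ Zf riemannZeta 1 T, mm s * mm s' * f (xd T s s')| ≤
      2 * KLow * Y + KLow * M := by
  classical
  rw [PF_eq]
  set S := Zf riemannZeta 1 T with hS
  set S' := (NT_fin T).toFinset with hS'
  have hsub : S ⊆ S' := by
    intro s hs
    rw [hS, mem_S] at hs
    rw [hS', Set.Finite.mem_toFinset]
    exact ⟨hs.1, by linarith [hs.2.1], hs.2.2⟩
  set B := S' \ S with hB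
  have hBm : ∀ s ∈ B, s ∈ B0 ∧ 0 < s.im ∧ s.im ≤ 1 := by
    intro s hs
    rw [hB, Finset.mem_sdiff, hS', Set.Finite.mem_toFinset] at hs
    obtain ⟨⟨k1, k2, k3⟩, k4⟩ := hs
    have k5 : s.im ≤ 1 := by
      by_contra hn
      exact k4 (by rw [hS, mem_S]; exact ⟨k1, not_le.1 hn, k3⟩)
    refine ⟨?_, k2, k5⟩
    rw [mem_B0]
    exact ⟨k1, by linarith, by linarith⟩
  have hBsub : B ⊆ B0 := fun s hs => (hBm s hs).1
  have hBB : ∑ s ∈ B, ∑ s' ∈ B, mm s * mm s' ≤ KLow := by
    rw [← Finset.sum_product']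
    have k1 := Finset.sum_le_sum_of_subset_of_nonneg (Finset.product_subset_product hBsub hBsub)
      (f := fun p : ℂ × ℂ => mm p.1 * mm p.2) fun p _ _ => mm2' p.1 p.2
    have k2 : 0 ≤ ∑ s ∈ B0, mm s := Finset.sum_nonneg fun s _ => mm_nonneg s
    unfold KLow
    linarith
  have hB1 : ∑ s ∈ B, mm s ≤ KLow := by
    have k1 := Finset.sum_le_sum_of_subset_of_nonneg hBsub (f := fun p : ℂ => mm p)
      fun p _ _ => mm_nonneg p
    have k2 : 0 ≤ ∑ p ∈ B0 ×ˢ B0, mm p.1 * mm p.2 := Finset.sum_nonneg fun p _ => mm2' p.1 p.2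
    unfold KLow
    linarith
  have hsplit : ∀ g : ℂ → ℝ, ∑ s ∈ S', g s = ∑ s ∈ B, g s + ∑ s ∈ S, g s := fun g =>
    (Finset.sum_sdiff hsub).symm
  have hM0 : 0 ≤ M := (abs_nonneg _).trans (hM 0)
  have e : ∑ s ∈ S', ∑ s' ∈ S', mm s * mm s' * f (xd T s s') -
      ∑ s ∈ S, ∑ s' ∈ S, mm s * mm s' * f (xd T s s') =
      (∑ s ∈ B, ∑ s' ∈ S, mm s * mm s' * f (xd T s s') +
        ∑ s' ∈ B, ∑ s ∈ S, mm s * mm s' * f (xd T s s')) +
        ∑ s ∈ B, ∑ s' ∈ B, mm s * mm s' * f (xd T s s') := by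
    rw [hsplit]
    have k1 : ∀ s, ∑ s' ∈ S', mm s * mm s' * f (xd T s s') =
        ∑ s' ∈ B, mm s * mm s' * f (xd T s s') + ∑ s' ∈ S, mm s * mm s' * f (xd T s s') :=
      fun s => hsplit _
    simp_rw [k1]
    rw [Finset.sum_add_distrib, Finset.sum_add_distrib]
    have k2 : ∑ s ∈ S, ∑ s' ∈ B, mm s * mm s' * f (xd T s s') =
        ∑ s' ∈ B, ∑ s ∈ S, mm s * mm s' * f (xd T s s') := Finset.sum_comm
    rw [k2]
    ring
  rw [e]
  have r1 : |∑ s ∈ B, ∑ s' ∈ S, mm s * mm s' * f (xd T s s')| ≤ KLow * Y := by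
    refine (Finset.abs_sum_le_sum_abs _ _).trans ?_
    have k1 : ∀ s ∈ B, |∑ s' ∈ S, mm s * mm s' * f (xd T s s')| ≤ mm s * Y := by
      intro s hs
      have k2 := hBm s hs
      refine (Finset.abs_sum_le_sum_abs _ _).trans ?_
      have k3 : ∑ s' ∈ S, |mm s * mm s' * f (xd T s s')| = mm s * ∑ s' ∈ S,
          mm s' * |f ((s.im - s'.im) * (Real.log T / (2 * Real.pi)))| := by
        rw [Finset.mul_sum]
        refine Finset.sum_congr rfl fun s' _ => ?_
        rw [abs_mul, abs_of_nonneg (mm2' s s')]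
        unfold xd
        ring
      rw [k3]
      exact mul_le_mul_of_nonneg_left (h1 s.im k2.2.1 k2.2.2) (mm_nonneg s)
    refine (Finset.sum_le_sum k1).trans ?_
    rw [← Finset.sum_mul]
    refine mul_le_mul_of_nonneg_right hB1 ?_
    exact (Finset.sum_nonneg fun s _ => mul_nonneg (mm_nonneg s) (abs_nonneg _)).trans
      (h1 1 one_pos le_rfl)
  have r2 : |∑ s' ∈ B, ∑ s ∈ S, mm s * mm s' * f (xd T s s')| ≤ KLow * Y := by
    refine (Finset.abs_sum_le_sum_abs _ _).trans ?_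
    have k1 : ∀ s' ∈ B, |∑ s ∈ S, mm s * mm s' * f (xd T s s')| ≤ mm s' * Y := by
      intro s' hs'
      have k2 := hBm s' hs'
      refine (Finset.abs_sum_le_sum_abs _ _).trans ?_
      have k3 : ∑ s ∈ S, |mm s * mm s' * f (xd T s s')| = mm s' * ∑ s ∈ S,
          mm s * |f ((s.im - s'.im) * (Real.log T / (2 * Real.pi)))| := by
        rw [Finset.mul_sum]
        refine Finset.sum_congr rfl fun s _ => ?_
        rw [abs_mul, abs_of_nonneg (mm2' s s')]
        unfold xd
        ring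
      rw [k3]
      exact mul_le_mul_of_nonneg_left (h2 s'.im k2.2.1 k2.2.2) (mm_nonneg s')
    refine (Finset.sum_le_sum k1).trans ?_
    rw [← Finset.sum_mul]
    refine mul_le_mul_of_nonneg_right hB1 ?_
    exact (Finset.sum_nonneg fun s _ => mul_nonneg (mm_nonneg s) (abs_nonneg _)).trans
      (h1 1 one_pos le_rfl)
  have r3 : |∑ s ∈ B, ∑ s' ∈ B, mm s * mm s' * f (xd T s s')| ≤ KLow * M := by
    have k1 : |∑ s ∈ B, ∑ s' ∈ B, mm s * mm s' * f (xd T s s')| ≤
        ∑ s ∈ B, ∑ s' ∈ B, mm s * mm s' * M := by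
      refine (Finset.abs_sum_le_sum_abs _ _).trans (Finset.sum_le_sum fun s _ => ?_)
      refine (Finset.abs_sum_le_sum_abs _ _).trans (Finset.sum_le_sum fun s' _ => ?_)
      rw [abs_mul, abs_of_nonneg (mm2' s s')]
      exact mul_le_mul_of_nonneg_left (hM _) (mm2' s s')
    refine k1.trans ?_
    simp_rw [← Finset.sum_mul]
    exact mul_le_mul_of_nonneg_right hBB hM0
  refine (abs_add_le _ _).trans ((add_le_add ((abs_add_le _ _).trans (add_le_add r1 r2)) r3).trans ?_)
  linarith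

/-- Gaussian windows, all pairs -/
theorem gau_all {lam0 : ℝ} (h16 : 16 ≤ lam0) (hWM : WMom lam0) : ∃ C T0 : ℝ, 0 < C ∧ 10 ≤ T0 ∧
    ∀ T : ℝ, T0 ≤ T → ∀ W : ℝ, 0 < W → ∀ u : ℝ,
      |2 * Real.pi / (T * Real.log T) * PF T (gw W u) - gue (gw W u)| ≤
        C * (1 / W ^ 2 + (1 + |u|) * W ^ 2 / Real.log T) := by
  obtain ⟨C1, T1, hC1, hT1, hgaw⟩ := gaw h16 hWM
  obtain ⟨C2, T2, hC2, hT2, hloc⟩ := locw
  obtain ⟨C3, T3, hC3, hT3, htot⟩ := tot
  have hpi := Real.pi_gt_three
  have hpi0 := Real.pi_pos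
  have hK := KLow_nonneg
  have ev : ∀ᶠ T : ℝ in atTop, 1 ≤ Real.log T :=
    Real.tendsto_log_atTop.eventually_ge_atTop _
  obtain ⟨T4, hT4⟩ := ev.exists_forall_of_atTop
  refine ⟨C1 + 2 * Real.pi * (2 * KLow * (C2 + C3 + 1) + KLow), max (max T1 T2) (max T3 T4),
    by positivity, hT1.trans ((le_max_left _ _).trans (le_max_left _ _)),
    fun T hT W hW u => ?_⟩
  have hTT1 : T1 ≤ T := ((le_max_left _ _).trans (le_max_left _ _)).trans hT
  have hTT2 : T2 ≤ T := ((le_max_right _ _).trans (le_max_left _ _)).trans hT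
  have hTT3 : T3 ≤ T := ((le_max_left _ _).trans (le_max_right _ _)).trans hT
  have hTT4 : T4 ≤ T := ((le_max_right _ _).trans (le_max_right _ _)).trans hT
  have hT10 : 10 ≤ T := hT1.trans hTT1
  have hT0 : 0 < T := by linarith
  have hL1 := hT4 T hTT4
  set L := Real.log T with hL
  have hL0 : 0 < L := by linarith
  have hTL : 0 < T * L := by positivity
  have hLT : L ≤ T := by
    have := Real.log_le_sub_one_of_pos hT0
    linarith
  have h1 := hgaw T hTT1 W hW u
  -- the local sum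
  have hY : ∃ Y : ℝ, 0 ≤ Y ∧ (∀ t : ℝ, 0 < t → t ≤ 1 → ∑ s' ∈ Zf riemannZeta 1 T,
      mm s' * |gw W u ((t - s'.im) * (L / (2 * Real.pi)))| ≤ Y) ∧
      (∀ t : ℝ, 0 < t → t ≤ 1 → ∑ s' ∈ Zf riemannZeta 1 T,
      mm s' * |gw W u ((s'.im - t) * (L / (2 * Real.pi)))| ≤ Y) ∧
      Y ≤ (C2 + C3 + 1) * (T * L) * (1 / W ^ 2 + (1 + |u|) * W ^ 2 / L) := by
    have hu := abs_nonneg u
    have hq : 0 < 1 / W ^ 2 + (1 + |u|) * W ^ 2 / L := by positivity
    rcases le_total (W ^ 2) L with hc | hc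
    · refine ⟨C2 * L, by positivity, ?_, ?_, ?_⟩
      · intro t _ _
        refine le_trans (Finset.sum_le_sum fun s' _ => ?_) (hloc T hTT2 (t + 2 * Real.pi * u / L))
        apply mul_le_mul_of_nonneg_left _ (mm_nonneg s')
        rw [abs_of_pos (gw_pos _ _ _)]
        have e1 : ((t - s'.im) * (L / (2 * Real.pi)) + u) / W =
            L / W * xx 1 s' (t + 2 * Real.pi * u / L) := by
          unfold xx
          field_simp
          ring
        unfold gw
        rw [e1, Real.exp_neg, ← one_div]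
        apply one_div_le_one_div_of_le (by positivity)
        have e2 : 1 ≤ L / W := by
          rw [le_div_iff₀ hW]
          nlinarith only [hc, hL1, hW]
        have e3 : 1 ≤ (L / W) ^ 2 := one_le_pow₀ e2
        have e4 := Real.add_one_le_exp (Real.pi * (L / W * xx 1 s' (t + 2 * Real.pi * u / L)) ^ 2)
        rw [mul_pow] at e4 ⊢
        have e5 := sq_nonneg (xx 1 s' (t + 2 * Real.pi * u / L))
        have e6 : xx 1 s' (t + 2 * Real.pi * u / L) ^ 2 ≤
            Real.pi * ((L / W) ^ 2 * xx 1 s' (t + 2 * Real.pi * u / L) ^ 2) := by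
          have e7 : xx 1 s' (t + 2 * Real.pi * u / L) ^ 2 ≤
              (L / W) ^ 2 * xx 1 s' (t + 2 * Real.pi * u / L) ^ 2 := le_mul_of_one_le_left e5 e3
          exact e7.trans (le_mul_of_one_le_left (by positivity) (by linarith))
        linarith
      · intro t _ _
        refine le_trans (Finset.sum_le_sum fun s' _ => ?_) (hloc T hTT2 (t - 2 * Real.pi * u / L))
        apply mul_le_mul_of_nonneg_left _ (mm_nonneg s')
        rw [abs_of_pos (gw_pos _ _ _)]
        have e1 : ((s'.im - t) * (L / (2 * Real.pi)) + u) / W =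
            -(L / W * xx 1 s' (t - 2 * Real.pi * u / L)) := by
          unfold xx
          field_simp
          ring
        unfold gw
        rw [e1, Real.exp_neg, ← one_div, neg_sq]
        apply one_div_le_one_div_of_le (by positivity)
        have e2 : 1 ≤ L / W := by
          rw [le_div_iff₀ hW]
          nlinarith only [hc, hL1, hW]
        have e3 : 1 ≤ (L / W) ^ 2 := one_le_pow₀ e2
        have e4 := Real.add_one_le_exp (Real.pi * (L / W * xx 1 s' (t - 2 * Real.pi * u / L)) ^ 2)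
        rw [mul_pow] at e4 ⊢
        have e5 := sq_nonneg (xx 1 s' (t - 2 * Real.pi * u / L))
        have e6 : xx 1 s' (t - 2 * Real.pi * u / L) ^ 2 ≤
            Real.pi * ((L / W) ^ 2 * xx 1 s' (t - 2 * Real.pi * u / L) ^ 2) := by
          have e7 : xx 1 s' (t - 2 * Real.pi * u / L) ^ 2 ≤
              (L / W) ^ 2 * xx 1 s' (t - 2 * Real.pi * u / L) ^ 2 := le_mul_of_one_le_left e5 e3
          exact e7.trans (le_mul_of_one_le_left (by positivity) (by linarith))
        linarith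
      · -- AM-GM
        have e1 : 1 / L ≤ 1 / W ^ 2 := by
          apply one_div_le_one_div_of_le (by positivity) hc
        have e2 : 1 ≤ T * (1 / W ^ 2 + (1 + |u|) * W ^ 2 / L) := by
          have e3 : 0 ≤ (1 + |u|) * W ^ 2 / L := by positivity
          calc (1 : ℝ) ≤ T * (1 / L) := by
                rw [mul_one_div, le_div_iff₀ hL0]; linarith
            _ ≤ _ := mul_le_mul_of_nonneg_left (by linarith) hT0.le
        calc C2 * L = C2 * L * 1 := by ring
          _ ≤ C2 * L * (T * (1 / W ^ 2 + (1 + |u|) * W ^ 2 / L)) :=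
              mul_le_mul_of_nonneg_left e2 (by positivity)
          _ = C2 * (T * L) * (1 / W ^ 2 + (1 + |u|) * W ^ 2 / L) := by ring
          _ ≤ _ := by
              apply mul_le_mul_of_nonneg_right _ hq.le
              apply mul_le_mul_of_nonneg_right _ hTL.le
              linarith
    · have hN := htot T hTT3
      have hNN : (NN riemannZeta 1 T : ℝ) ≤ (C3 + 1) * (T * L) := by
        have k1 := (abs_le.1 hN).2
        have k2 : T * L / (2 * Real.pi) ≤ T * L := div_le_self hTL.le (by linarith)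
        have k3 : C3 * T ≤ C3 * (T * L) := by
          have := mul_le_mul_of_nonneg_left hL1 (mul_nonneg hC3.le hT0.le)
          linarith
        linarith
      have htriv : ∀ x : ℂ → ℝ, ∑ s' ∈ Zf riemannZeta 1 T, mm s' * |gw W u (x s')| ≤
          (C3 + 1) * (T * L) := by
        intro x
        rw [NN_sum le_rfl] at hNN
        refine le_trans (Finset.sum_le_sum fun s' _ => ?_) hNN
        exact mul_le_of_le_one_right (mm_nonneg s') (gw_le _ _ _)
      refine ⟨(C3 + 1) * (T * L), by positivity, fun t _ _ => htriv _, fun t _ _ => htriv _, ?_⟩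
      have e1 : 1 ≤ 1 / W ^ 2 + (1 + |u|) * W ^ 2 / L := by
        have e2 : 0 ≤ 1 / W ^ 2 := by positivity
        have e3 : 1 ≤ (1 + |u|) * W ^ 2 / L := by
          rw [le_div_iff₀ hL0]
          nlinarith only [hc, hu, sq_nonneg W, mul_nonneg hu (sq_nonneg W)]
        linarith
      calc (C3 + 1) * (T * L) = (C3 + 1) * (T * L) * 1 := by ring
        _ ≤ (C3 + 1) * (T * L) * (1 / W ^ 2 + (1 + |u|) * W ^ 2 / L) :=
            mul_le_mul_of_nonneg_left e1 (by positivity)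
        _ ≤ _ := by
            apply mul_le_mul_of_nonneg_right _ hq.le
            apply mul_le_mul_of_nonneg_right _ hTL.le
            linarith
  obtain ⟨Y, hY0, hY1, hY2, hY3⟩ := hY
  have hlow := low_gen (T := T) (Y := Y) (M := 1) (f := gw W u) (gw_le W u) hY1 hY2
  set PS := ∑ s ∈ Zf riemannZeta 1 T, ∑ s' ∈ Zf riemannZeta 1 T, mm s * mm s' *
    gw W u (xd T s s') with hPS
  set q := 1 / W ^ 2 + (1 + |u|) * W ^ 2 / L with hq
  have hu := abs_nonneg u
  have e1 : 2 * Real.pi / (T * L) * PF T (gw W u) - gue (gw W u) =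
      Lam T (gw W u) + 2 * Real.pi / (T * L) * (PF T (gw W u) - PS) := by
    unfold Lam mu
    ring
  rw [e1]
  have hq1 : 1 ≤ T * L * q := by
    -- 1/W^2 + W^2/L >= 1/L
    have k1 : 1 / L ≤ q := by
      rcases le_total (W ^ 2) L with hc | hc
      · have k2 : 1 / L ≤ 1 / W ^ 2 := one_div_le_one_div_of_le (by positivity) hc
        have k3 : 0 ≤ (1 + |u|) * W ^ 2 / L := by positivity
        linarith
      · have k2 : 1 / L ≤ (1 + |u|) * W ^ 2 / L := by
          apply div_le_div_of_nonneg_right _ hL0.le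
          nlinarith only [hc, hu, hL1, mul_nonneg hu (sq_nonneg W)]
        have k3 : 0 ≤ 1 / W ^ 2 := by positivity
        linarith
    calc (1 : ℝ) ≤ T := by linarith
      _ = T * L * (1 / L) := by field_simp
      _ ≤ T * L * q := mul_le_mul_of_nonneg_left k1 hTL.le
  have e2 : |2 * Real.pi / (T * L) * (PF T (gw W u) - PS)| ≤
      2 * Real.pi * (2 * KLow * (C2 + C3 + 1) + KLow) * q := by
    rw [abs_mul, abs_of_pos (by positivity : 0 < 2 * Real.pi / (T * L))]
    calc 2 * Real.pi / (T * L) * |PF T (gw W u) - PS| ≤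
        2 * Real.pi / (T * L) * (2 * KLow * ((C2 + C3 + 1) * (T * L) * q) + KLow * (T * L * q)) := by
          apply mul_le_mul_of_nonneg_left _ (by positivity)
          refine hlow.trans (add_le_add (mul_le_mul_of_nonneg_left hY3 (by positivity)) ?_)
          exact mul_le_mul_of_nonneg_left hq1 hK
      _ = _ := by
          field_simp
  refine (abs_add_le _ _).trans ((add_le_add h1 e2).trans (le_of_eq ?_))
  ring

/-- compactly supported windows, all pairs -/
theorem msc_all {lam0 : ℝ} (h16 : 16 ≤ lam0) (hWM : WMom lam0) : ∃ C T0 : ℝ, 0 < C ∧ 10 ≤ T0 ∧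
    ∀ T : ℝ, T0 ≤ T → ∀ f f1 f2 f3 f4 : ℝ → ℝ, (∀ x, HasDerivAt f (f1 x) x) →
      (∀ x, HasDerivAt f1 (f2 x) x) → (∀ x, HasDerivAt f2 (f3 x) x) → (∀ x, HasDerivAt f3 (f4 x) x) →
      Continuous f4 → ∀ A : ℝ, (∀ x, A < |x| → f x = 0) → (∀ x, A < |x| → f1 x = 0) →
      (∀ x, A < |x| → f2 x = 0) → (∀ x, A < |x| → f3 x = 0) → (∀ x, A < |x| → f4 x = 0) →
      ∀ W : ℝ, 0 < W → W ≤ A → (1 + A) ^ 5 ≤ Real.log T →
        |2 * Real.pi / (T * Real.log T) * PF T f - gue f| ≤ C * Kn f f1 f2 f4 W A := by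
  obtain ⟨C1, T1, hC1, hT1, hmsc⟩ := msc h16 hWM
  have hpi := Real.pi_gt_three
  have hpi0 := Real.pi_pos
  have hpi2 := Real.pi_lt_d2
  have hK := KLow_nonneg
  refine ⟨C1 + 2 * Real.pi * (2 * KLow * KLow + KLow), T1, by positivity, hT1,
    fun T hT f f1 f2 f3 f4 d1 d2 d3 d4 c4 A s0 s1 s2 s3 s4 W hW hWA hLA => ?_⟩
  have h1 := hmsc T hT f f1 f2 f3 f4 d1 d2 d3 d4 c4 A s0 s1 s2 s3 s4 W hW hWA hLA
  have hT0 : 0 < T := by linarith
  have hL0 : 0 < Real.log T := Real.log_pos (by linarith)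
  set L := Real.log T with hL
  have hA : 0 < A := hW.trans_le hWA
  have hTL : 0 < T * L := by positivity
  have c1 : Continuous f1 := continuous_iff_continuousAt.2 fun x => (d2 x).continuousAt
  have c0 : Continuous f := continuous_iff_continuousAt.2 fun x => (d1 x).continuousAt
  have c2 : Continuous f2 := continuous_iff_continuousAt.2 fun x => (d3 x).continuousAt
  have i1 := int_of_supp c1 s1
  have hAL : A ≤ L := by
    refine le_trans ?_ hLA
    have k1 : 1 ≤ 1 + A := by linarith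
    calc A ≤ (1 + A) ^ 1 := by rw [pow_one]; linarith
      _ ≤ (1 + A) ^ 5 := pow_le_pow_right₀ k1 (by norm_num)
  have hW2 : W ^ 2 ≤ L := by
    refine le_trans ?_ hLA
    have k1 : 1 ≤ 1 + A := by linarith
    calc W ^ 2 ≤ (1 + A) ^ 2 := pow_le_pow_left₀ hW.le (by linarith) 2
      _ ≤ (1 + A) ^ 5 := pow_le_pow_right₀ k1 (by norm_num)
  set n1 : ℝ := ∫ z, |f1 z| with hn1
  have p1 : 0 ≤ n1 := integral_nonneg fun z => abs_nonneg _
  have hM : ∀ x, |f x| ≤ n1 := by
    intro x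
    set y := max (x + 1) (A + 1) with hy
    have hxy : x ≤ y := by linarith [le_max_left (x + 1) (A + 1)]
    have hyA : A < |y| := by
      have := le_max_right (x + 1) (A + 1)
      have := le_abs_self y
      linarith
    have e1 := intervalIntegral.integral_eq_sub_of_hasDerivAt (a := x) (b := y)
      (fun z _ => d1 z) (c1.intervalIntegrable _ _)
    rw [s0 y hyA, zero_sub] at e1
    rw [← abs_neg, ← e1, intervalIntegral.integral_of_le hxy]
    have k1 : ‖∫ z in Ioc x y, f1 z‖ ≤ ∫ z in Ioc x y, ‖f1 z‖ := norm_integral_le_integral_norm _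
    have k2 : ∫ z in Ioc x y, ‖f1 z‖ ≤ ∫ z, ‖f1 z‖ :=
      setIntegral_le_integral i1.norm (Eventually.of_forall fun z => norm_nonneg (f1 z))
    exact k1.trans k2
  have hB1 : ∑ s ∈ B0, mm s ≤ KLow := by
    have k2 : 0 ≤ ∑ p ∈ B0 ×ˢ B0, mm p.1 * mm p.2 := Finset.sum_nonneg fun p _ => mm2' p.1 p.2
    unfold KLow
    linarith
  have hgen : ∀ t : ℝ, 0 < t → t ≤ 1 → ∀ x : ℂ → ℝ,
      (∀ s', |x s'| = |s'.im - t| * (L / (2 * Real.pi))) →
      ∑ s' ∈ Zf riemannZeta 1 T, mm s' * |f (x s')| ≤ KLow * n1 := by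
    intro t ht0 ht1 x hx
    have k1 : ∑ s' ∈ Zf riemannZeta 1 T, mm s' * |f (x s')| ≤
        ∑ s' ∈ (Zf riemannZeta 1 T).filter (· ∈ B0), mm s' * n1 := by
      rw [Finset.sum_filter]
      refine Finset.sum_le_sum fun s' hs' => ?_
      by_cases hm : s' ∈ B0
      · rw [if_pos hm]
        exact mul_le_mul_of_nonneg_left (hM _) (mm_nonneg s')
      · rw [if_neg hm]
        have hs2 := mem_S.1 hs'
        have k2 : 8 < s'.im := by
          by_contra hn
          exact hm (mem_B0.2 ⟨hs2.1, by linarith [hs2.2.1], not_lt.1 hn⟩)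
        have k3 : A < |x s'| := by
          rw [hx s', abs_of_pos (by linarith)]
          have k4 : 7 < s'.im - t := by linarith
          have k5 : 0 < L / (2 * Real.pi) := by positivity
          have k6 : 7 * (L / (2 * Real.pi)) < (s'.im - t) * (L / (2 * Real.pi)) :=
            mul_lt_mul_of_pos_right k4 k5
          have k7 : L ≤ 7 * (L / (2 * Real.pi)) := by
            rw [← mul_div_assoc, le_div_iff₀ (by positivity)]
            nlinarith only [hL0, hpi2]
          linarith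
        rw [s0 _ k3, abs_zero, mul_zero]
    refine k1.trans ?_
    rw [← Finset.sum_mul]
    apply mul_le_mul_of_nonneg_right _ p1
    refine le_trans (Finset.sum_le_sum_of_subset_of_nonneg ?_ fun s _ _ => mm_nonneg s) hB1
    intro s hs
    exact (Finset.mem_filter.1 hs).2
  have hκ : 0 < L / (2 * Real.pi) := by positivity
  have hlow := low_gen (T := T) (Y := KLow * n1) (M := n1) (f := f) hM
    (fun t ht0 ht1 => hgen t ht0 ht1 (fun s' => (t - s'.im) * (L / (2 * Real.pi))) fun s' => by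
      rw [abs_mul, abs_of_pos hκ, abs_sub_comm])
    (fun t ht0 ht1 => hgen t ht0 ht1 (fun s' => (s'.im - t) * (L / (2 * Real.pi))) fun s' => by
      rw [abs_mul, abs_of_pos hκ])
  set PS := ∑ s ∈ Zf riemannZeta 1 T, ∑ s' ∈ Zf riemannZeta 1 T, mm s * mm s' *
    f (xd T s s') with hPS
  have e1 : 2 * Real.pi / (T * L) * PF T f - gue f =
      Lam T f + 2 * Real.pi / (T * L) * (PF T f - PS) := by
    unfold Lam mu
    ring
  rw [e1]
  have hKn1 : n1 / W ^ 2 ≤ Kn f f1 f2 f4 W A := by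
    unfold Kn
    have t1 : 0 ≤ (∫ z, |f z|) / A ^ 3 := div_nonneg (integral_nonneg fun z => abs_nonneg _) (by positivity)
    have t3 : 0 ≤ (∫ z, |f2 z|) / W := div_nonneg (integral_nonneg fun z => abs_nonneg _) (by positivity)
    have t4 : 0 ≤ W * ∫ z, |f4 z| := mul_nonneg hW.le (integral_nonneg fun z => abs_nonneg _)
    linarith
  have e2 : |2 * Real.pi / (T * L) * (PF T f - PS)| ≤
      2 * Real.pi * (2 * KLow * KLow + KLow) * Kn f f1 f2 f4 W A := by
    rw [abs_mul, abs_of_pos (by positivity : 0 < 2 * Real.pi / (T * L))]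
    have k1 : n1 / (T * L) ≤ Kn f f1 f2 f4 W A := by
      refine le_trans ?_ hKn1
      apply div_le_div_of_nonneg_left p1 (by positivity)
      have : L ≤ T * L := le_mul_of_one_le_left hL0.le (by linarith)
      linarith
    calc 2 * Real.pi / (T * L) * |PF T f - PS| ≤
        2 * Real.pi / (T * L) * (2 * KLow * (KLow * n1) + KLow * n1) :=
          mul_le_mul_of_nonneg_left hlow (by positivity)
      _ = 2 * Real.pi * (2 * KLow * KLow + KLow) * (n1 / (T * L)) := by
          field_simp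
      _ ≤ _ := mul_le_mul_of_nonneg_left k1 (by positivity)
  refine (abs_add_le _ _).trans ((add_le_add h1 e2).trans (le_of_eq ?_))
  ring

end Pool.Agent.W2helper93.SW
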