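import Pool.Agent.W2helper93.SW.Mo
import Pool.Agent.W2helper93.SW.KD

set_option autoImplicit false

/-! # Local sums over zeros, and the kernel sum with real arguments -/

namespace Pool.Agent.W2helper93.SW

open Complex Filter Topology MeasureTheory Set
open Pool.Agent.W2helper93.NV
open Pool.Agent.TH850.UV
open H370 (zz hh mult Zf zset AA good_zeta mem_Zf NN NN_add NN_mono zcount nn_asymp finsum_Zf)

lemma summ_int : Summable (fun k : ℤ => 1 / (1 + (k : ℝ) ^ 2)) := by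
  have h1 : Summable (fun m : ℤ => 1 / (m : ℝ) ^ 2) :=
    Real.summable_one_div_int_pow.2 (by norm_num)
  have h2 : Summable (fun m : ℤ => if m = 0 then (1 : ℝ) else 0) := by
    refine summable_of_ne_finset_zero (s := {0}) fun m hm => ?_
    rw [Finset.mem_singleton] at hm
    simp [hm]
  refine Summable.of_nonneg_of_le (fun m => by positivity) (fun m => ?_) (h1.add h2)
  by_cases hm : m = 0
  · simp [hm]
  · have hm2 : (0 : ℝ) < (m : ℝ) ^ 2 := by positivity
    rw [if_neg hm, add_zero]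
    exact one_div_le_one_div_of_le hm2 (by linarith)

/-- local sums -/
theorem locw : ∃ C T0 : ℝ, 0 < C ∧ 10 ≤ T0 ∧ ∀ T : ℝ, T0 ≤ T → ∀ t : ℝ,
    ∑ s ∈ Zf riemannZeta 1 T, mm s * (1 / (1 + xx 1 s t ^ 2)) ≤ C * Real.log T := by
  classical
  obtain ⟨C, T0, hC, hT0, hloc⟩ := loc
  set S0 := ∑' k : ℤ, 1 / (1 + (k : ℝ) ^ 2) with hS0
  have hS00 : 0 ≤ S0 := tsum_nonneg fun k => by positivity
  have hpi := Real.pi_pos
  refine ⟨C * (3 * S0 + 1), T0, by positivity, hT0, fun T hT t => ?_⟩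
  have hL0 : 0 < Real.log T := Real.log_pos (by linarith)
  set S := Zf riemannZeta 1 T with hS
  set f : ℂ → ℤ := fun s => ⌊(s.im - t) / 7⌋ with hf
  rw [← Finset.sum_fiberwise_of_maps_to (s := S) (t := S.image f) (g := f)
    (fun s hs => Finset.mem_image_of_mem _ hs)]
  have key : ∀ k ∈ S.image f, ∑ s ∈ S with f s = k, mm s * (1 / (1 + xx 1 s t ^ 2)) ≤
      3 * (1 / (1 + (k : ℝ) ^ 2)) * (C * Real.log T) := by
    intro k _
    have h1 : ∀ s ∈ S.filter (fun s => f s = k), mm s * (1 / (1 + xx 1 s t ^ 2)) ≤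
        3 * (1 / (1 + (k : ℝ) ^ 2)) * mm s := by
      intro s hs
      have hk := (Finset.mem_filter.1 hs).2
      simp only [hf] at hk
      have h5 : (k : ℝ) ≤ (s.im - t) / 7 := by rw [← hk]; exact Int.floor_le _
      have h6 : (s.im - t) / 7 < k + 1 := by rw [← hk]; exact Int.lt_floor_add_one _
      set v := (s.im - t) / 7 with hv
      have h7 : v ^ 2 ≤ xx 1 s t ^ 2 := by
        have : xx 1 s t = -(7 * v / (2 * Real.pi)) := by unfold xx; rw [hv]; ring
        have e : (7 * v / (2 * Real.pi)) ^ 2 = 49 * v ^ 2 / (2 * Real.pi) ^ 2 := by ring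
        rw [this, neg_sq, e, le_div_iff₀ (by positivity)]
        have h8 : (2 * Real.pi) ^ 2 ≤ 49 := by
          have := Real.pi_lt_d2
          nlinarith only [this, hpi]
        nlinarith only [h8, sq_nonneg v]
      have h9 : 1 + (k : ℝ) ^ 2 ≤ 3 * (1 + v ^ 2) := by
        have hw : (v - (k : ℝ)) ^ 2 ≤ 1 := by nlinarith only [h5, h6]
        nlinarith only [sq_nonneg (v + (v - (k : ℝ))), sq_nonneg v, hw]
      have h10 : 1 / (1 + xx 1 s t ^ 2) ≤ 3 * (1 / (1 + (k : ℝ) ^ 2)) := by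
        rw [mul_one_div, div_le_div_iff₀ (by positivity) (by positivity)]
        linarith
      rw [mul_comm]
      exact mul_le_mul_of_nonneg_right h10 (mm_nonneg s)
    refine (Finset.sum_le_sum h1).trans ?_
    rw [← Finset.mul_sum]
    apply mul_le_mul_of_nonneg_left _ (by positivity)
    refine le_trans (le_of_eq ?_) (hloc T hT (t + 7 * k))
    rw [Nb_sub_eq _ (by linarith)]
    refine Finset.sum_congr ?_ fun _ _ => rfl
    ext s
    rw [Finset.mem_filter, Finset.mem_filter]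
    refine and_congr_right fun _ => ?_
    simp only [hf]
    rw [Int.floor_eq_iff, le_div_iff₀ (by norm_num : (0 : ℝ) < 7), div_lt_iff₀ (by norm_num : (0 : ℝ) < 7)]
    constructor
    · rintro ⟨a, b⟩; constructor <;> linarith
    · rintro ⟨a, b⟩; constructor <;> linarith
  refine (Finset.sum_le_sum key).trans ?_
  rw [← Finset.sum_mul, ← Finset.mul_sum]
  have h2 : ∑ k ∈ S.image f, 1 / (1 + (k : ℝ) ^ 2) ≤ S0 :=
    summ_int.sum_le_tsum _ (fun k _ => by positivity)
  have h3 : 0 ≤ C * Real.log T := by positivity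
  nlinarith only [h2, h3]

/-- the kernel sum with real arguments -/
noncomputable def KR (l : ℝ) (S : Finset ℂ) (t : ℝ) : ℝ := ∑ s ∈ S, mm s * qk 0 (xx l s t)

lemma qx_cont (y l : ℝ) (s : ℂ) : Continuous fun t : ℝ => qk y (xx l s t) :=
  (KernAux.cont_y y).comp (xx_cont l s)

lemma KR_cont (l : ℝ) (S : Finset ℂ) : Continuous (KR l S) := by
  unfold KR
  exact continuous_finsetSum _ fun s _ => continuous_const.mul (qx_cont 0 l s)

lemma q0_decay : ∃ C : ℝ, 0 < C ∧ ∀ x : ℝ, |qk 0 x| ≤ C / (1 + x ^ 2) ^ 2 := by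
  obtain ⟨C, hC, h⟩ := qk_decay
  refine ⟨C, hC, fun x => ?_⟩
  have := h 0 x
  simpa using this

/-- the scaled distance grows with the scale -/
lemma xx_mono {l : ℝ} (hl : 1 ≤ l) (s : ℂ) (t : ℝ) : xx 1 s t ^ 2 ≤ xx l s t ^ 2 := by
  have hpi := Real.pi_pos
  have : xx l s t = l * xx 1 s t := by unfold xx; ring
  rw [this, mul_pow]
  have h1 : 1 ≤ l ^ 2 := one_le_pow₀ hl
  nlinarith only [h1, sq_nonneg (xx 1 s t)]

lemma xx_dist {l : ℝ} (hl : 1 ≤ l) (s : ℂ) {t D : ℝ} (hD : 0 ≤ D) (h : D ≤ |t - s.im|) :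
    1 + D ^ 2 ≤ 40 * (1 + xx l s t ^ 2) := by
  have h1 := xx_mono hl s t
  have hpi := Real.pi_pos
  have h2 : D ^ 2 ≤ (t - s.im) ^ 2 := by
    rw [← sq_abs (t - s.im)]; exact pow_le_pow_left₀ hD h 2
  have h3 : (t - s.im) ^ 2 ≤ 40 * xx 1 s t ^ 2 := by
    unfold xx
    have h4 : (2 * Real.pi) ^ 2 ≤ 40 := by
      have := Real.pi_lt_d2
      nlinarith only [this, hpi]
    have h5 : ((t - s.im) * (1 / (2 * Real.pi))) ^ 2 = (t - s.im) ^ 2 / (2 * Real.pi) ^ 2 := by ring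
    rw [h5]
    have h6 : (t - s.im) ^ 2 = (2 * Real.pi) ^ 2 * ((t - s.im) ^ 2 / (2 * Real.pi) ^ 2) := by
      field_simp
    have h7 : 0 ≤ (t - s.im) ^ 2 / (2 * Real.pi) ^ 2 := by positivity
    nlinarith only [h4, h6, h7]
  linarith

/-- the kernel sum over far points -/
theorem KR_part : ∃ C T0 : ℝ, 0 < C ∧ 10 ≤ T0 ∧ ∀ T : ℝ, T0 ≤ T → ∀ l : ℝ, 1 ≤ l → ∀ t D : ℝ, 0 ≤ D →
    ∀ S' ⊆ Zf riemannZeta 1 T, (∀ s ∈ S', D ≤ |t - s.im|) →
      |KR l S' t| ≤ C * Real.log T / (1 + D ^ 2) := by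
  obtain ⟨C, T0, hC, hT0, hw⟩ := locw
  obtain ⟨Cq, hCq, hq⟩ := q0_decay
  refine ⟨40 * Cq * C, T0, by positivity, hT0, fun T hT l hl t D hD S' hS' hd => ?_⟩
  have h1 := hw T hT t
  unfold KR
  calc |∑ s ∈ S', mm s * qk 0 (xx l s t)| ≤ ∑ s ∈ S', |mm s * qk 0 (xx l s t)| :=
        Finset.abs_sum_le_sum_abs _ _
    _ ≤ ∑ s ∈ S', 40 * Cq / (1 + D ^ 2) * (mm s * (1 / (1 + xx 1 s t ^ 2))) := by
        refine Finset.sum_le_sum fun s hs => ?_
        rw [abs_mul, abs_of_nonneg (mm_nonneg s)]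
        have h2 := hq (xx l s t)
        have h3 := xx_dist hl s hD (hd s hs)
        have h4 := xx_mono hl s t
        have h5 : Cq / (1 + xx l s t ^ 2) ^ 2 ≤ 40 * Cq / (1 + D ^ 2) * (1 / (1 + xx 1 s t ^ 2)) := by
          rw [div_mul_div_comm, div_le_div_iff₀ (by positivity) (by positivity)]
          have h6 : (1 + D ^ 2) * (1 + xx 1 s t ^ 2) ≤ 40 * (1 + xx l s t ^ 2) * (1 + xx l s t ^ 2) :=
            mul_le_mul h3 (by linarith) (by positivity) (by positivity)
          nlinarith only [h6, hCq]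
        calc mm s * |qk 0 (xx l s t)| ≤ mm s * (40 * Cq / (1 + D ^ 2) * (1 / (1 + xx 1 s t ^ 2))) :=
              mul_le_mul_of_nonneg_left (h2.trans h5) (mm_nonneg s)
          _ = _ := by ring
    _ = 40 * Cq / (1 + D ^ 2) * ∑ s ∈ S', mm s * (1 / (1 + xx 1 s t ^ 2)) := by
        rw [Finset.mul_sum]
    _ ≤ 40 * Cq / (1 + D ^ 2) * ∑ s ∈ Zf riemannZeta 1 T, mm s * (1 / (1 + xx 1 s t ^ 2)) := by
        apply mul_le_mul_of_nonneg_left _ (by positivity)
        exact Finset.sum_le_sum_of_subset_of_nonneg hS' fun s _ _ =>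
          mul_nonneg (mm_nonneg s) (by positivity)
    _ ≤ 40 * Cq / (1 + D ^ 2) * (C * Real.log T) := mul_le_mul_of_nonneg_left h1 (by positivity)
    _ = _ := by ring

/-- pointwise bound for the weighted count -/
theorem WWl : ∃ C V0 : ℝ, 0 < C ∧ 10 ≤ V0 ∧ ∀ V : ℝ, V0 ≤ V → ∀ U1 U2 : ℝ, V ≤ U1 → U2 ≤ 2 * V →
    ∀ l : ℝ, 1 ≤ l → l ≤ Real.log V / 16 → ∀ t : ℝ,
      WW l (Zf riemannZeta U1 U2) t ≤ C * Real.log V * Real.exp (Real.log V / 64) := by
  obtain ⟨C, T0, hC, hT0, hw⟩ := locw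
  have hpi := Real.pi_pos
  refine ⟨2 * C, T0, by positivity, hT0, fun V hV U1 U2 hU1 hU2 l hl hlV t => ?_⟩
  have hV10 : 10 ≤ V := hT0.trans hV
  have hV0 : 0 < V := by linarith
  have hU : 1 ≤ U1 := by linarith
  have hl0 : 0 < l := by linarith
  have hL0 : 0 < Real.log V := Real.log_pos (by linarith)
  have h1 := hw (2 * V) (by linarith) t
  have h2 : Real.log (2 * V) ≤ 2 * Real.log V := by
    rw [Real.log_mul two_ne_zero hV0.ne']
    have : Real.log 2 ≤ Real.log V := Real.log_le_log two_pos (by linarith)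
    linarith
  have hsub : Zf riemannZeta U1 U2 ⊆ Zf riemannZeta 1 (2 * V) := by
    intro s hs
    rw [mem_Zf good_zeta hU] at hs
    rw [mem_Zf good_zeta le_rfl]
    exact ⟨hs.1, hs.2.1, by linarith [hs.2.2.1], by linarith [hs.2.2.2.1], hs.2.2.2.2⟩
  unfold WW
  calc ∑ s ∈ Zf riemannZeta U1 U2, mm s * (Real.exp (Real.pi * |yy l s|) / (1 + xx l s t ^ 2)) ≤
      ∑ s ∈ Zf riemannZeta U1 U2, Real.exp (Real.log V / 64) * (mm s * (1 / (1 + xx 1 s t ^ 2))) := by
        refine Finset.sum_le_sum fun s hs => ?_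
        rw [mem_Zf good_zeta hU] at hs
        have h3 : |s.re - 1 / 2| ≤ 1 / 2 := by
          rw [abs_le]; constructor <;> linarith [hs.1, hs.2.1]
        have h4 : Real.pi * |yy l s| ≤ Real.log V / 64 := by
          unfold yy
          rw [abs_mul, abs_of_pos (by positivity : 0 < l / (2 * Real.pi))]
          calc Real.pi * (|s.re - 1 / 2| * (l / (2 * Real.pi))) ≤
              Real.pi * (1 / 2 * (l / (2 * Real.pi))) := by gcongr
            _ = l / 4 := by field_simp; ring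
            _ ≤ Real.log V / 64 := by linarith
        have h5 := xx_mono hl s t
        have h6 : Real.exp (Real.pi * |yy l s|) / (1 + xx l s t ^ 2) ≤
            Real.exp (Real.log V / 64) * (1 / (1 + xx 1 s t ^ 2)) := by
          rw [mul_one_div]
          exact div_le_div₀ (Real.exp_pos _).le (Real.exp_le_exp.2 h4) (by positivity) (by linarith)
        calc _ ≤ mm s * (Real.exp (Real.log V / 64) * (1 / (1 + xx 1 s t ^ 2))) :=
              mul_le_mul_of_nonneg_left h6 (mm_nonneg s)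
          _ = _ := by ring
    _ = Real.exp (Real.log V / 64) * ∑ s ∈ Zf riemannZeta U1 U2, mm s * (1 / (1 + xx 1 s t ^ 2)) := by
        rw [Finset.mul_sum]
    _ ≤ Real.exp (Real.log V / 64) * (C * (2 * Real.log V)) := by
        apply mul_le_mul_of_nonneg_left _ (Real.exp_pos _).le
        refine le_trans (Finset.sum_le_sum_of_subset_of_nonneg hsub fun s _ _ =>
          mul_nonneg (mm_nonneg s) (by positivity)) (h1.trans ?_)
        exact mul_le_mul_of_nonneg_left h2 hC.le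
    _ = _ := by ring

/-- the smoothed count minus the count, with real arguments -/
noncomputable def E0 (l : ℝ) (S : Finset ℂ) (t : ℝ) : ℝ := ∑ s ∈ S, mm s * Jk 0 (xx l s t)

lemma Q0_deriv (l : ℝ) (s : ℂ) (t : ℝ) :
    HasDerivAt (fun τ => Qk 0 (xx l s τ)) (l / (2 * Real.pi) * qk 0 (xx l s t)) t := by
  have hq : Continuous (qk 0) := KernAux.cont_y 0
  have h1 : HasDerivAt (Qk 0) (qk 0 (xx l s t)) (xx l s t) := by
    unfold Qk
    exact ((hq.integral_hasStrictDerivAt 0 (xx l s t)).hasDerivAt).const_add _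
  have h2 : HasDerivAt (fun τ => xx l s τ) (l / (2 * Real.pi)) t := by
    unfold xx
    have := ((hasDerivAt_id' t).sub_const s.im).mul_const (l / (2 * Real.pi))
    simpa using this
  have h3 := h1.comp t h2
  rw [mul_comm]
  exact h3

lemma Q0_J0 {l : ℝ} (hl : 0 < l) (s : ℂ) (t : ℝ) :
    Qk 0 (xx l s t) = Jk 0 (xx l s t) + if s.im < t then 1 else 0 := by
  unfold Jk
  have hc : 0 < l / (2 * Real.pi) := by positivity
  have h : (0 < xx l s t) ↔ s.im < t := by
    unfold xx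
    rw [mul_pos_iff_of_pos_right hc, sub_pos]
  simp only [h]
  ring

lemma dens0 {l : ℝ} (hl : 0 < l) (S : Finset ℂ) (t t' : ℝ) :
    ∫ τ in t..t', l / (2 * Real.pi) * KR l S τ = (Nb S t' - Nb S t) + (E0 l S t' - E0 l S t) := by
  have hc := KR_cont l S
  have h1 : ∀ τ ∈ Set.uIcc t t', HasDerivAt (fun τ => ∑ s ∈ S, mm s * Qk 0 (xx l s τ))
      (l / (2 * Real.pi) * KR l S τ) τ := by
    intro τ _
    have h2 : HasDerivAt (fun τ => ∑ s ∈ S, mm s * Qk 0 (xx l s τ))
        (∑ s ∈ S, mm s * (l / (2 * Real.pi) * qk 0 (xx l s τ))) τ :=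
      HasDerivAt.fun_sum fun s _ => (Q0_deriv l s τ).const_mul _
    refine h2.congr_deriv ?_
    unfold KR
    rw [Finset.mul_sum]
    exact Finset.sum_congr rfl fun s _ => by ring
  rw [intervalIntegral.integral_eq_sub_of_hasDerivAt h1
    ((continuous_const.mul hc).intervalIntegrable _ _)]
  unfold Nb E0
  rw [← Finset.sum_sub_distrib, ← Finset.sum_sub_distrib, ← Finset.sum_sub_distrib,
    ← Finset.sum_add_distrib]
  refine Finset.sum_congr rfl fun s _ => ?_
  rw [Q0_J0 hl, Q0_J0 hl]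
  split_ifs <;> ring

lemma E0_le : ∃ C : ℝ, 0 < C ∧ ∀ (l : ℝ) (S : Finset ℂ) (t : ℝ), |E0 l S t| ≤ C * WW l S t := by
  obtain ⟨C, hC, h⟩ := Jk_le
  refine ⟨C, hC, fun l S t => ?_⟩
  unfold E0 WW
  rw [Finset.mul_sum]
  refine (Finset.abs_sum_le_sum_abs _ _).trans (Finset.sum_le_sum fun s _ => ?_)
  rw [abs_mul, abs_of_nonneg (mm_nonneg s)]
  have h1 := h 0 (xx l s t)
  have h2 : C * Real.exp (Real.pi * |(0 : ℝ)|) / (1 + xx l s t ^ 2) ≤
      C * Real.exp (Real.pi * |yy l s|) / (1 + xx l s t ^ 2) := by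
    have h3 : |(0 : ℝ)| ≤ |yy l s| := by rw [abs_zero]; exact abs_nonneg _
    exact div_le_div_of_nonneg_right (mul_le_mul_of_nonneg_left
      (Real.exp_le_exp.2 (mul_le_mul_of_nonneg_left h3 Real.pi_pos.le)) hC.le) (by positivity)
  calc mm s * |Jk 0 (xx l s t)| ≤
      mm s * (C * Real.exp (Real.pi * |yy l s|) / (1 + xx l s t ^ 2)) :=
        mul_le_mul_of_nonneg_left (h1.trans h2) (mm_nonneg s)
    _ = _ := by ring

/-- the integral of the difference of the two kernel sums -/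
theorem eint : ∃ C V0 : ℝ, 0 < C ∧ 10 ≤ V0 ∧ ∀ V : ℝ, V0 ≤ V → ∀ U1 U2 : ℝ, V ≤ U1 → U2 ≤ 2 * V →
    ∀ l : ℝ, 1 ≤ l → l ≤ Real.log V / 16 → ∀ c d : ℝ,
      |∫ τ in c..d, (K0 l (Zf riemannZeta U1 U2) τ - KR l (Zf riemannZeta U1 U2) τ)| ≤
        C * Real.log V * Real.exp (Real.log V / 64) := by
  obtain ⟨C1, V0, hC1, hV0, hW⟩ := WWl
  obtain ⟨C2, hC2, hE⟩ := EE_le
  obtain ⟨C3, hC3, hE0⟩ := E0_le
  have hpi := Real.pi_pos
  refine ⟨2 * Real.pi * (2 * (C2 + C3)) * C1, V0, by positivity, hV0,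
    fun V hV U1 U2 hU1 hU2 l hl hlV c d => ?_⟩
  have hl0 : 0 < l := by linarith
  set S := Zf riemannZeta U1 U2 with hS
  have h1 := dens hl0 S c d
  have h2 := dens0 hl0 S c d
  rw [intervalIntegral.integral_const_mul] at h1 h2
  have i1 : IntervalIntegrable (K0 l S) volume c d := (K0_cont l S).intervalIntegrable _ _
  have i2 : IntervalIntegrable (KR l S) volume c d := (KR_cont l S).intervalIntegrable _ _
  rw [intervalIntegral.integral_sub i1 i2]
  set A := ∫ τ in c..d, K0 l S τ with hA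
  set B := ∫ τ in c..d, KR l S τ with hB
  have h3 : A - B = 2 * Real.pi / l * ((EE l S d - EE l S c) - (E0 l S d - E0 l S c)) := by
    have : l / (2 * Real.pi) * (A - B) = (EE l S d - EE l S c) - (E0 l S d - E0 l S c) := by
      rw [mul_sub, h1, h2]; ring
    rw [← this]; field_simp
  set M := C1 * Real.log V * Real.exp (Real.log V / 64) with hM
  have w1 := hW V hV U1 U2 hU1 hU2 l hl hlV c
  have w2 := hW V hV U1 U2 hU1 hU2 l hl hlV d
  rw [← hS, ← hM] at w1 w2
  have a1 := (hE l S c).trans (mul_le_mul_of_nonneg_left w1 hC2.le)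
  have a2 := (hE l S d).trans (mul_le_mul_of_nonneg_left w2 hC2.le)
  have a3 := (hE0 l S c).trans (mul_le_mul_of_nonneg_left w1 hC3.le)
  have a4 := (hE0 l S d).trans (mul_le_mul_of_nonneg_left w2 hC3.le)
  have hM0 : 0 ≤ M := (WW_nonneg l S c).trans w1
  rw [h3, abs_mul, abs_of_pos (by positivity : 0 < 2 * Real.pi / l)]
  have h4 : |(EE l S d - EE l S c) - (E0 l S d - E0 l S c)| ≤ 2 * (C2 + C3) * M := by
    refine (abs_sub _ _).trans ?_
    have := abs_sub (EE l S d) (EE l S c)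
    have := abs_sub (E0 l S d) (E0 l S c)
    linarith
  calc 2 * Real.pi / l * |(EE l S d - EE l S c) - (E0 l S d - E0 l S c)| ≤
      2 * Real.pi / 1 * (2 * (C2 + C3) * M) := by gcongr
    _ = _ := by rw [hM]; ring

end Pool.Agent.W2helper93.SW
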