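import Pool.Agent.W2helper93.NV.Mom
import Pool.Agent.W2helper93.NV.Tot

set_option autoImplicit false

/-! # Second moment of weighted counts with a wide window -/

namespace Pool.Agent.W2helper93.SW

open Complex Filter Topology MeasureTheory Set
open Pool.Agent.W2helper93.NV
open H370 (zz hh mult Zf zset AA good_zeta mem_Zf NN NN_add NN_mono zcount nn_asymp finsum_Zf)

/-- exchange of two integrals of a continuous function -/
lemma swap_ii {f : ℝ → ℝ → ℝ} (hf : Continuous (Function.uncurry f)) {a b c d : ℝ} (hab : a ≤ b)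
    (hcd : c ≤ d) : ∫ x in a..b, (∫ y in c..d, f x y) = ∫ y in c..d, (∫ x in a..b, f x y) := by
  rw [intervalIntegral.integral_of_le hab, intervalIntegral.integral_of_le hcd]
  simp_rw [intervalIntegral.integral_of_le hab, intervalIntegral.integral_of_le hcd]
  apply integral_integral_swap
  rw [Measure.prod_restrict]
  have h : IntegrableOn (Function.uncurry f) (Icc a b ×ˢ Icc c d) (volume.prod volume) :=
    hf.continuousOn.integrableOn_compact (isCompact_Icc.prod isCompact_Icc)
  exact h.mono_set (Set.prod_mono Ioc_subset_Icc_self Ioc_subset_Icc_self)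

/-- weighted Cauchy-Schwarz -/
lemma cs_w {f w : ℝ → ℝ} (hf : Continuous f) (hw : Continuous w) (hw0 : ∀ x, 0 < w x) {a b : ℝ}
    (hab : a ≤ b) :
    (∫ u in a..b, f u * w u) ^ 2 ≤ (∫ u in a..b, w u) * ∫ u in a..b, f u ^ 2 * w u := by
  rcases hab.eq_or_lt with rfl | hlt
  · simp
  set A := ∫ u in a..b, w u with hA
  set B := ∫ u in a..b, f u * w u with hB
  have hA0 : 0 < A := intervalIntegral.intervalIntegral_pos_of_pos (hw.intervalIntegrable _ _)
    (fun x => hw0 x) hlt
  have h1 : 0 ≤ ∫ u in a..b, (f u - B / A) ^ 2 * w u :=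
    intervalIntegral.integral_nonneg hab fun u _ => mul_nonneg (sq_nonneg _) (hw0 u).le
  have e1 : ∫ u in a..b, (f u - B / A) ^ 2 * w u =
      (∫ u in a..b, f u ^ 2 * w u) - 2 * (B / A) * B + (B / A) ^ 2 * A := by
    have e2 : ∀ u, (f u - B / A) ^ 2 * w u = f u ^ 2 * w u - 2 * (B / A) * (f u * w u) +
        (B / A) ^ 2 * w u := fun u => by ring
    simp_rw [e2]
    rw [intervalIntegral.integral_add, intervalIntegral.integral_sub,
      intervalIntegral.integral_const_mul, intervalIntegral.integral_const_mul]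
    all_goals exact Continuous.intervalIntegrable (by fun_prop) _ _
  rw [e1] at h1
  have e3 : (∫ u in a..b, f u ^ 2 * w u) - 2 * (B / A) * B + (B / A) ^ 2 * A =
      (∫ u in a..b, f u ^ 2 * w u) - B ^ 2 / A := by
    field_simp
    ring
  rw [e3, sub_nonneg, div_le_iff₀ hA0] at h1
  linarith

/-- the wide weight is an average of narrow ones -/
lemma wide {r R x : ℝ} (hr : 1 ≤ r) (hx : |x| ≤ R - 1) :
    1 / (1 + (x / r) ^ 2) ≤ 3 * ∫ u in (-R)..R, 1 / (1 + (x - u) ^ 2) * (1 / (1 + (u / r) ^ 2)) := by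
  have hr0 : 0 < r := by linarith
  rw [abs_le] at hx
  have hc : Continuous fun u : ℝ => 1 / (1 + (x - u) ^ 2) * (1 / (1 + (u / r) ^ 2)) := by
    refine Continuous.mul ?_ ?_
    · exact continuous_const.div (by fun_prop) fun u => by positivity
    · exact continuous_const.div (by fun_prop) fun u => by positivity
  have h1 : ∫ u in (x - 1)..(x + 1), 1 / (1 + (x - u) ^ 2) * (1 / (1 + (u / r) ^ 2)) ≤
      ∫ u in (-R)..R, 1 / (1 + (x - u) ^ 2) * (1 / (1 + (u / r) ^ 2)) :=
    sub_int hc (fun u => by positivity) (by linarith) (by linarith) (by linarith)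
  have h2 : ∫ u in (x - 1)..(x + 1), 1 / 6 * (1 / (1 + (x / r) ^ 2)) ≤
      ∫ u in (x - 1)..(x + 1), 1 / (1 + (x - u) ^ 2) * (1 / (1 + (u / r) ^ 2)) := by
    refine intervalIntegral.integral_mono_on (by linarith)
      (continuous_const.intervalIntegrable _ _) (hc.intervalIntegrable _ _) fun u hu => ?_
    have h3 : (x - u) ^ 2 ≤ 1 := by
      have := hu.1; have := hu.2
      nlinarith
    have h4 : (u / r) ^ 2 ≤ 2 * (x / r) ^ 2 + 2 := by
      have h5 : (1 / r) ≤ 1 := by rw [div_le_one hr0]; exact hr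
      have h6 : ((x - u) / r) ^ 2 ≤ 1 := by
        rw [div_pow, div_le_one (by positivity)]
        nlinarith
      have h7 : u / r = x / r - (x - u) / r := by ring
      rw [h7]
      nlinarith [sq_nonneg (x / r + (x - u) / r)]
    have h5 : 1 / 2 ≤ 1 / (1 + (x - u) ^ 2) :=
      one_div_le_one_div_of_le (by positivity) (by linarith)
    have h6 : 1 / 3 * (1 / (1 + (x / r) ^ 2)) ≤ 1 / (1 + (u / r) ^ 2) := by
      rw [show 1 / 3 * (1 / (1 + (x / r) ^ 2)) = 1 / (3 * (1 + (x / r) ^ 2)) by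
        field_simp]
      apply one_div_le_one_div_of_le (by positivity)
      nlinarith [sq_nonneg (x / r)]
    calc 1 / 6 * (1 / (1 + (x / r) ^ 2)) = 1 / 2 * (1 / 3 * (1 / (1 + (x / r) ^ 2))) := by ring
      _ ≤ _ := mul_le_mul h5 h6 (by positivity) (by positivity)
  rw [intervalIntegral.integral_const, smul_eq_mul] at h2
  have h3 : x + 1 - (x - 1) = 2 := by ring
  rw [h3] at h2
  linarith

lemma rho_int {r R : ℝ} (hr : 0 < r) (_ : 0 ≤ R) :
    ∫ u in (-R)..R, 1 / (1 + (u / r) ^ 2) ≤ 4 * r := by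
  have h := intervalIntegral.integral_comp_div (a := -R) (b := R) (fun x : ℝ => 1 / (1 + x ^ 2)) hr.ne'
  rw [h, integral_one_div_one_add_sq, smul_eq_mul]
  have h1 := Real.arctan_lt_pi_div_two (R / r)
  have h2 := Real.neg_pi_div_two_lt_arctan (-R / r)
  have h3 := Real.pi_lt_d2
  have h4 : Real.arctan (R / r) - Real.arctan (-R / r) ≤ 4 := by linarith
  rw [mul_comm 4]
  exact mul_le_mul_of_nonneg_left h4 hr.le

/-- the count with weight of width `1 / l` and size given by `l0` -/
noncomputable def ww (l0 l : ℝ) (S : Finset ℂ) (t : ℝ) : ℝ :=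
  ∑ s ∈ S, mm s * (Real.exp (Real.pi * |yy l0 s|) / (1 + xx l s t ^ 2))

lemma ww_nonneg (l0 l : ℝ) (S : Finset ℂ) (t : ℝ) : 0 ≤ ww l0 l S t :=
  Finset.sum_nonneg fun s _ => mul_nonneg (mm_nonneg s) (by positivity)

lemma ww_cont (l0 l : ℝ) (S : Finset ℂ) : Continuous (ww l0 l S) := by
  unfold ww
  refine continuous_finsetSum _ fun s _ => continuous_const.mul ?_
  refine continuous_const.div (by unfold xx; fun_prop) fun t => ?_
  positivity

lemma xx_div (l0 r : ℝ) (s : ℂ) (t : ℝ) : xx (l0 / r) s t = xx l0 s t / r := by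
  unfold xx; ring

lemma xx_shift {l0 : ℝ} (hl : 0 < l0) (s : ℂ) (t u : ℝ) :
    xx l0 s (t - u * (2 * Real.pi / l0)) = xx l0 s t - u := by
  have hpi := Real.pi_pos
  unfold xx
  field_simp
  ring

/-- the wide count through the narrow one -/
lemma ww_le {l0 r R : ℝ} (hl : 0 < l0) (hr : 1 ≤ r) (hR : 2 ≤ R) (S : Finset ℂ) (t : ℝ) :
    ww l0 (l0 / r) S t ≤ 3 * (∫ u in (-R)..R, WW l0 S (t - u * (2 * Real.pi / l0)) *
      (1 / (1 + (u / r) ^ 2))) + 4 * r ^ 2 / R ^ 2 *
        ∑ s ∈ S, mm s * Real.exp (Real.pi * |yy l0 s|) := by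
  have hr0 : 0 < r := by linarith
  have hc : Continuous fun u : ℝ => 1 / (1 + (u / r) ^ 2) :=
    continuous_const.div (by fun_prop) fun u => by positivity
  have e1 : ∫ u in (-R)..R, WW l0 S (t - u * (2 * Real.pi / l0)) * (1 / (1 + (u / r) ^ 2)) =
      ∑ s ∈ S, mm s * Real.exp (Real.pi * |yy l0 s|) *
        ∫ u in (-R)..R, 1 / (1 + (xx l0 s t - u) ^ 2) * (1 / (1 + (u / r) ^ 2)) := by
    have e2 : ∀ u, WW l0 S (t - u * (2 * Real.pi / l0)) * (1 / (1 + (u / r) ^ 2)) =
        ∑ s ∈ S, mm s * Real.exp (Real.pi * |yy l0 s|) *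
          (1 / (1 + (xx l0 s t - u) ^ 2) * (1 / (1 + (u / r) ^ 2))) := by
      intro u
      unfold WW
      rw [Finset.sum_mul]
      refine Finset.sum_congr rfl fun s _ => ?_
      rw [xx_shift hl]
      ring
    simp_rw [e2]
    rw [intervalIntegral.integral_finsetSum fun s _ => ?_]
    · exact Finset.sum_congr rfl fun s _ => intervalIntegral.integral_const_mul _ _
    · refine Continuous.intervalIntegrable ?_ _ _
      refine continuous_const.mul (Continuous.mul ?_ hc)
      exact continuous_const.div (by fun_prop) fun u => by positivity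
  rw [e1]
  unfold ww
  rw [Finset.mul_sum, Finset.mul_sum, ← Finset.sum_add_distrib]
  refine Finset.sum_le_sum fun s _ => ?_
  have hm : 0 ≤ mm s * Real.exp (Real.pi * |yy l0 s|) := mul_nonneg (mm_nonneg s) (Real.exp_pos _).le
  rw [xx_div]
  have h0 : 0 ≤ ∫ u in (-R)..R, 1 / (1 + (xx l0 s t - u) ^ 2) * (1 / (1 + (u / r) ^ 2)) :=
    intervalIntegral.integral_nonneg (by linarith) fun u _ => by positivity
  have key : 1 / (1 + (xx l0 s t / r) ^ 2) ≤
      3 * (∫ u in (-R)..R, 1 / (1 + (xx l0 s t - u) ^ 2) * (1 / (1 + (u / r) ^ 2))) +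
        4 * r ^ 2 / R ^ 2 := by
    rcases le_or_gt |xx l0 s t| (R - 1) with h | h
    · have := wide hr h
      have : 0 ≤ 4 * r ^ 2 / R ^ 2 := by positivity
      linarith
    · have h1 : R / 2 ≤ |xx l0 s t| := by linarith
      have h2 : R ^ 2 / 4 ≤ xx l0 s t ^ 2 := by
        rw [← sq_abs (xx l0 s t)]
        nlinarith only [h1, hR]
      have h3 : 1 / (1 + (xx l0 s t / r) ^ 2) ≤ 4 * r ^ 2 / R ^ 2 := by
        rw [div_le_div_iff₀ (by positivity) (by positivity), div_pow]
        have h4 : r ^ 2 * (xx l0 s t ^ 2 / r ^ 2) = xx l0 s t ^ 2 := by field_simp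
        nlinarith [sq_nonneg r]
      linarith
  calc mm s * (Real.exp (Real.pi * |yy l0 s|) / (1 + (xx l0 s t / r) ^ 2)) =
      (mm s * Real.exp (Real.pi * |yy l0 s|)) * (1 / (1 + (xx l0 s t / r) ^ 2)) := by ring
    _ ≤ (mm s * Real.exp (Real.pi * |yy l0 s|)) *
      (3 * (∫ u in (-R)..R, 1 / (1 + (xx l0 s t - u) ^ 2) * (1 / (1 + (u / r) ^ 2))) +
        4 * r ^ 2 / R ^ 2) := mul_le_mul_of_nonneg_left key hm
    _ = _ := by ring

lemma exp_big {K : ℝ} (hK : 0 < K) : ∃ L0 : ℝ, 1 ≤ L0 ∧ ∀ L : ℝ, L0 ≤ L → K * L ^ 2 ≤ Real.exp (L / 4) := by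
  have h := (Real.tendsto_pow_mul_exp_neg_atTop_nhds_zero 2).eventually_le_const
    (show (0 : ℝ) < 1 / (16 * K) by positivity)
  obtain ⟨x0, hx0⟩ := h.exists_forall_of_atTop
  refine ⟨max 1 (4 * x0), le_max_left _ _, fun L hL => ?_⟩
  have h1 := hx0 (L / 4) (by linarith [(le_max_right _ _).trans hL])
  have hE := Real.exp_pos (L / 4)
  rw [Real.exp_neg, le_div_iff₀ (by positivity)] at h1
  have h2 : (L / 4) ^ 2 * (Real.exp (L / 4))⁻¹ * (16 * K) = K * L ^ 2 / Real.exp (L / 4) := by
    field_simp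
    ring
  rw [h2, div_le_one hE] at h1
  exact h1

theorem mo {lam0 : ℝ} (hlam : 16 ≤ lam0) (hW : WMom lam0) : ∃ C T0 : ℝ, 0 < C ∧ 10 ≤ T0 ∧
    ∀ T : ℝ, T0 ≤ T → ∀ U1 U2 : ℝ, T ≤ U1 → U2 ≤ 2 * T → ∀ r : ℝ, 1 ≤ r → r ≤ Real.log T →
      ∫ t in T..(2 * T), ww (Real.log T / lam0) (Real.log T / lam0 / r) (Zf riemannZeta U1 U2) t ^ 2 ≤
        C * r ^ 2 * T := by
  obtain ⟨Cw, T1, hCw, hT1, hWm⟩ := hW
  obtain ⟨Cn, T2, hCn, hT2, hlow⟩ := low_count
  have hpi := Real.pi_pos
  obtain ⟨L0, hL01, hL0⟩ := exp_big (show (0 : ℝ) < 16 * Cn by positivity)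
  refine ⟨288 * Cw + 2, max (max T1 T2) (max (Real.exp L0) (Real.exp (2 * Real.pi * lam0))),
    by positivity, hT1.trans ((le_max_left _ _).trans (le_max_left _ _)),
    fun T hT U1 U2 hU1 hU2 r hr hrL => ?_⟩
  have hTT1 : T1 ≤ T := ((le_max_left _ _).trans (le_max_left _ _)).trans hT
  have hTT2 : T2 ≤ T := ((le_max_right _ _).trans (le_max_left _ _)).trans hT
  have hTe : Real.exp L0 ≤ T := ((le_max_left _ _).trans (le_max_right _ _)).trans hT
  have hTe2 : Real.exp (2 * Real.pi * lam0) ≤ T :=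
    ((le_max_right _ _).trans (le_max_right _ _)).trans hT
  have hT10 : 10 ≤ T := hT1.trans hTT1
  have hT0 : 0 < T := by linarith
  have hlam0 : 0 < lam0 := by linarith
  set L := Real.log T with hL
  have hLL0 : L0 ≤ L := by rw [hL, Real.le_log_iff_exp_le hT0]; exact hTe
  have hLl : 2 * Real.pi * lam0 ≤ L := by rw [hL, Real.le_log_iff_exp_le hT0]; exact hTe2
  have hLpos : 0 < L := by linarith
  have hL96 : 96 ≤ L := by
    have := Real.pi_gt_three
    nlinarith
  set l0 := L / lam0 with hl0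
  have hl00 : 0 < l0 := by positivity
  have hl2pi : 2 * Real.pi / l0 ≤ 1 := by
    rw [div_le_one hl00, hl0, le_div_iff₀ hlam0]; exact hLl
  have h2l : 0 < 2 * Real.pi / l0 := by positivity
  set S := Zf riemannZeta U1 U2 with hS
  have hr0 : 0 < r := by linarith
  have hTL : T = Real.exp L := by rw [hL, Real.exp_log hT0]
  set R := Real.exp (3 / 4 * L) with hR
  have hR2 : 2 ≤ R := by
    have := Real.add_one_le_exp (3 / 4 * L)
    rw [← hR] at this
    linarith
  have hRT : R ≤ T / 2 := by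
    have h1 : T = R * Real.exp (L / 4) := by
      rw [hR, ← Real.exp_add, hTL]; congr 1; ring
    have h2 : 2 ≤ Real.exp (L / 4) := by
      have := Real.add_one_le_exp (L / 4)
      linarith
    rw [h1]
    nlinarith
  -- the sum of the multiplicities
  have hU : 1 ≤ U1 := by linarith
  have hsum : ∑ s ∈ S, mm s ≤ 4 * Cn * T * L := by
    have h1 := hlow (2 * T) (by linarith) (2 * T) (by linarith) le_rfl
    have h2 : (NN riemannZeta U1 U2 : ℝ) ≤ NN riemannZeta 1 (2 * T) := by
      exact_mod_cast NN_mono good_zeta le_rfl hU hU2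
    rw [NN_sum hU] at h2
    have h3 : Real.log (2 * T) ≤ 2 * L := by
      rw [Real.log_mul two_ne_zero hT0.ne']
      have := Real.log_two_lt_d9
      linarith
    have h4 : Cn * (2 * T * Real.log (2 * T)) ≤ Cn * (2 * T * (2 * L)) := by gcongr
    calc ∑ s ∈ S, mm s ≤ NN riemannZeta 1 (2 * T) := h2
      _ ≤ _ := h1
      _ ≤ _ := h4
      _ = _ := by ring
  have hexp : ∑ s ∈ S, mm s * Real.exp (Real.pi * |yy l0 s|) ≤
      4 * Cn * T * L * Real.exp (L / 64) := by
    calc ∑ s ∈ S, mm s * Real.exp (Real.pi * |yy l0 s|) ≤ ∑ s ∈ S, mm s * Real.exp (L / 64) := by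
          refine Finset.sum_le_sum fun s hs => mul_le_mul_of_nonneg_left ?_ (mm_nonneg s)
          rw [hS, mem_Zf good_zeta hU] at hs
          have h3 : |s.re - 1 / 2| ≤ 1 / 2 := by
            rw [abs_le]; constructor <;> linarith [hs.1, hs.2.1]
          apply Real.exp_le_exp.2
          unfold yy
          rw [abs_mul, abs_of_pos (by positivity : 0 < l0 / (2 * Real.pi))]
          calc Real.pi * (|s.re - 1 / 2| * (l0 / (2 * Real.pi))) ≤
              Real.pi * (1 / 2 * (l0 / (2 * Real.pi))) := by gcongr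
            _ = l0 / 4 := by field_simp; ring
            _ ≤ L / 64 := by
                rw [hl0, div_div]
                apply div_le_div_of_nonneg_left hLpos.le (by norm_num)
                linarith
      _ = (∑ s ∈ S, mm s) * Real.exp (L / 64) := by rw [Finset.sum_mul]
      _ ≤ _ := mul_le_mul_of_nonneg_right hsum (Real.exp_pos _).le
  have htail : 4 * r ^ 2 / R ^ 2 * ∑ s ∈ S, mm s * Real.exp (Real.pi * |yy l0 s|) ≤ r := by
    have h1 := hL0 L hLL0
    have h2 : R ^ 2 = T * Real.exp (L / 2) := by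
      rw [hR, ← Real.exp_nat_mul, hTL, ← Real.exp_add]
      congr 1; push_cast; ring
    calc 4 * r ^ 2 / R ^ 2 * ∑ s ∈ S, mm s * Real.exp (Real.pi * |yy l0 s|) ≤
        4 * r ^ 2 / R ^ 2 * (4 * Cn * T * L * Real.exp (L / 64)) := by gcongr
      _ = r * (r * L * (16 * Cn) * Real.exp (L / 64) / Real.exp (L / 2)) := by
          rw [h2]; field_simp; ring
      _ ≤ r * 1 := by
          apply mul_le_mul_of_nonneg_left _ hr0.le
          rw [div_le_one (Real.exp_pos _)]
          calc r * L * (16 * Cn) * Real.exp (L / 64) ≤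
              L * L * (16 * Cn) * Real.exp (L / 64) := by gcongr
            _ = (16 * Cn * L ^ 2) * Real.exp (L / 64) := by ring
            _ ≤ Real.exp (L / 4) * Real.exp (L / 64) := by gcongr
            _ = Real.exp (L / 4 + L / 64) := (Real.exp_add _ _).symm
            _ ≤ _ := Real.exp_le_exp.2 (by linarith)
      _ = r := mul_one r
  -- the main estimate
  set ρ : ℝ → ℝ := fun u => 1 / (1 + (u / r) ^ 2) with hρ
  have hρc : Continuous ρ := continuous_const.div (by fun_prop) fun u => by positivity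
  have hρ0 : ∀ u, 0 < ρ u := fun u => by simp only [hρ]; positivity
  have hWc := WW_cont l0 S
  have hρi : ∫ u in (-R)..R, ρ u ≤ 4 * r := rho_int hr0 (by linarith)
  set F : ℝ → ℝ → ℝ := fun t u => WW l0 S (t - u * (2 * Real.pi / l0)) ^ 2 * ρ u with hF
  have hFc : Continuous (Function.uncurry F) := by
    simp only [hF]
    have h1 : Continuous fun p : ℝ × ℝ => WW l0 S (p.1 - p.2 * (2 * Real.pi / l0)) :=
      hWc.comp (by fun_prop)
    exact (h1.pow 2).mul (hρc.comp continuous_snd)
  have hpt : ∀ t, ww l0 (l0 / r) S t ^ 2 ≤ 72 * r * (∫ u in (-R)..R, F t u) + 2 * r ^ 2 := by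
    intro t
    have h1 := ww_le hl00 hr hR2 S t
    have hW1 : Continuous fun u : ℝ => WW l0 S (t - u * (2 * Real.pi / l0)) :=
      hWc.comp (by fun_prop)
    have h2 := cs_w hW1 hρc hρ0 (a := -R) (b := R) (by linarith)
    set I1 := ∫ u in (-R)..R, WW l0 S (t - u * (2 * Real.pi / l0)) * ρ u with hI1
    have h3 : I1 ^ 2 ≤ 4 * r * ∫ u in (-R)..R, F t u := by
      refine h2.trans (mul_le_mul_of_nonneg_right hρi ?_)
      exact intervalIntegral.integral_nonneg (by linarith) fun u _ =>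
        mul_nonneg (sq_nonneg _) (hρ0 u).le
    have hI0 : 0 ≤ I1 := intervalIntegral.integral_nonneg (by linarith) fun u _ =>
      mul_nonneg (WW_nonneg _ _ _) (hρ0 u).le
    have h4 : ww l0 (l0 / r) S t ≤ 3 * I1 + r := by linarith
    have h5 := ww_nonneg l0 (l0 / r) S t
    calc ww l0 (l0 / r) S t ^ 2 ≤ (3 * I1 + r) ^ 2 := pow_le_pow_left₀ h5 h4 2
      _ ≤ 18 * I1 ^ 2 + 2 * r ^ 2 := by nlinarith only [sq_nonneg (3 * I1 - r)]
      _ ≤ _ := by nlinarith only [h3]
  have hFtc : Continuous fun t => ∫ u in (-R)..R, F t u :=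
    intervalIntegral.continuous_parametric_intervalIntegral_of_continuous' hFc _ _
  have h6 : ∫ t in T..(2 * T), ww l0 (l0 / r) S t ^ 2 ≤
      ∫ t in T..(2 * T), (72 * r * (∫ u in (-R)..R, F t u) + 2 * r ^ 2) :=
    intervalIntegral.integral_mono_on (by linarith)
      (((ww_cont _ _ _).pow 2).intervalIntegrable _ _)
      (((continuous_const.mul hFtc).add continuous_const).intervalIntegrable _ _)
      fun t _ => hpt t
  have h7 : ∫ t in T..(2 * T), (∫ u in (-R)..R, F t u) ≤ 4 * r * (Cw * T) := by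
    rw [swap_ii hFc (by linarith) (by linarith)]
    have h8 : ∀ u ∈ Set.Icc (-R) R, ∫ t in T..(2 * T), F t u ≤ (Cw * T) * ρ u := by
      intro u hu
      have e1 : ∫ t in T..(2 * T), F t u =
          (∫ t in T..(2 * T), WW l0 S (t - u * (2 * Real.pi / l0)) ^ 2) * ρ u := by
        simp only [hF]
        exact intervalIntegral.integral_mul_const _ _
      rw [e1]
      apply mul_le_mul_of_nonneg_right _ (hρ0 u).le
      have e2 := intervalIntegral.integral_comp_sub_right (a := T) (b := 2 * T)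
        (fun x => WW l0 S x ^ 2) (u * (2 * Real.pi / l0))
      rw [e2]
      have h9 : |u * (2 * Real.pi / l0)| ≤ R := by
        rw [abs_mul, abs_of_pos h2l]
        calc |u| * (2 * Real.pi / l0) ≤ R * 1 :=
              mul_le_mul (abs_le.2 ⟨hu.1, hu.2⟩) hl2pi h2l.le (by linarith)
          _ = R := mul_one R
      rw [abs_le] at h9
      refine (sub_int (hWc.pow 2) (fun _ => sq_nonneg _) ?_ (by linarith) ?_).trans
        (hWm T hTT1 U1 U2 hU1 hU2)
      · linarith [h9.2]
      · linarith [h9.1]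
    have h9 : ∫ u in (-R)..R, (∫ t in T..(2 * T), F t u) ≤ ∫ u in (-R)..R, (Cw * T) * ρ u := by
      refine intervalIntegral.integral_mono_on (by linarith) ?_
        ((continuous_const.mul hρc).intervalIntegrable _ _) h8
      have h1' : Continuous fun p : ℝ × ℝ => WW l0 S (p.2 - p.1 * (2 * Real.pi / l0)) :=
        hWc.comp (by fun_prop)
      have hsw : Continuous (Function.uncurry fun u t : ℝ =>
          WW l0 S (t - u * (2 * Real.pi / l0)) ^ 2 * ρ u) :=
        (h1'.pow 2).mul (hρc.comp continuous_fst)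
      have hc2 := intervalIntegral.continuous_parametric_intervalIntegral_of_continuous'
        (μ := volume) hsw T (2 * T)
      exact hc2.intervalIntegrable _ _
    refine h9.trans ?_
    rw [intervalIntegral.integral_const_mul]
    calc Cw * T * ∫ u in (-R)..R, ρ u ≤ Cw * T * (4 * r) := by gcongr
      _ = _ := by ring
  have j1 : IntervalIntegrable (fun t => 72 * r * ∫ u in (-R)..R, F t u) volume T (2 * T) :=
    (continuous_const.mul hFtc).intervalIntegrable _ _
  have j2 : IntervalIntegrable (fun _ : ℝ => 2 * r ^ 2) volume T (2 * T) :=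
    continuous_const.intervalIntegrable _ _
  rw [intervalIntegral.integral_add j1 j2, intervalIntegral.integral_const_mul,
    intervalIntegral.integral_const, smul_eq_mul] at h6
  refine h6.trans ?_
  have h10 : 72 * r * ∫ t in T..(2 * T), (∫ u in (-R)..R, F t u) ≤ 72 * r * (4 * r * (Cw * T)) := by
    gcongr
  have h11 : (2 * T - T) * (2 * r ^ 2) = 2 * r ^ 2 * T := by ring
  have h12 : 72 * r * (4 * r * (Cw * T)) = 288 * Cw * r ^ 2 * T := by ring
  rw [h11]
  rw [h12] at h10
  linarith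

end Pool.Agent.W2helper93.SW
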