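import Pool.Agent.W2helper93.SW.Gen

set_option autoImplicit false

/-! # General windows: several scales -/

namespace Pool.Agent.W2helper93.SW

open Filter Topology MeasureTheory Set
open Pool.Agent.W2helper93.NV
open Pool.Agent.TH850.UV
open H370 (Zf)

lemma bd_of_supp {f : ℝ → ℝ} (hf : Continuous f) {A : ℝ} (hs : ∀ x, A < |x| → f x = 0) :
    HasCompactSupport f := by
  refine HasCompactSupport.intro (K := Icc (-A) A) isCompact_Icc fun x hx => hs x ?_
  by_contra hcon
  push Not at hcon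
  exact hx ⟨(abs_le.1 hcon).1, (abs_le.1 hcon).2⟩

lemma int_of_supp {f : ℝ → ℝ} (hf : Continuous f) {A : ℝ} (hs : ∀ x, A < |x| → f x = 0) :
    Integrable f := hf.integrable_of_hasCompactSupport (bd_of_supp hf hs)

lemma exists_bd {f : ℝ → ℝ} (hf : Continuous f) {A : ℝ} (hs : ∀ x, A < |x| → f x = 0) :
    ∃ M : ℝ, ∀ x, |f x| ≤ M := by
  obtain ⟨M, hM⟩ := (bd_of_supp hf hs).exists_bound_of_continuous hf
  exact ⟨M, fun x => by rw [← Real.norm_eq_abs]; exact hM x⟩

/-- `x e^{-πx²}` as a mixture of Gaussians -/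
lemma xPG_mix (x : ℝ) : x * PG x = ∫ z, 4 * z * Real.exp (-(2 * Real.pi * z ^ 2)) *
    Real.exp (-(2 * Real.pi * (x - z) ^ 2)) := by
  have hpi := Real.pi_pos
  have e1 : ∀ z, 4 * z * Real.exp (-(2 * Real.pi * z ^ 2)) * Real.exp (-(2 * Real.pi * (x - z) ^ 2)) =
      (fun y => PG x * (4 * (y * Real.exp (-(4 * Real.pi) * y ^ 2)) +
        2 * x * Real.exp (-(4 * Real.pi) * y ^ 2))) (z - x / 2) := by
    intro z
    simp only
    unfold PG
    rw [mul_assoc, ← Real.exp_add]
    have h1 : -(2 * Real.pi * z ^ 2) + -(2 * Real.pi * (x - z) ^ 2) =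
        -(Real.pi * x ^ 2) + -(4 * Real.pi) * (z - x / 2) ^ 2 := by ring
    rw [h1, Real.exp_add]
    ring
  simp_rw [e1]
  rw [integral_sub_right_eq_self (fun y => PG x * (4 * (y * Real.exp (-(4 * Real.pi) * y ^ 2)) +
        2 * x * Real.exp (-(4 * Real.pi) * y ^ 2))) (x / 2), integral_const_mul]
  have i1 : Integrable fun y : ℝ => y * Real.exp (-(4 * Real.pi) * y ^ 2) :=
    integrable_mul_exp_neg_mul_sq (by positivity)
  have i2 : Integrable fun y : ℝ => Real.exp (-(4 * Real.pi) * y ^ 2) :=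
    integrable_exp_neg_mul_sq (by positivity)
  rw [integral_add (i1.const_mul 4) (i2.const_mul (2 * x)), integral_const_mul, integral_const_mul,
    integral_gaussian]
  have h2 : ∫ y : ℝ, y * Real.exp (-(4 * Real.pi) * y ^ 2) = 0 := by
    have h3 := integral_neg_eq_self (fun y : ℝ => y * Real.exp (-(4 * Real.pi) * y ^ 2)) volume
    have h4 : ∀ y : ℝ, -y * Real.exp (-(4 * Real.pi) * (-y) ^ 2) =
        -(y * Real.exp (-(4 * Real.pi) * y ^ 2)) := by
      intro y; rw [neg_sq]; ring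
    simp_rw [h4] at h3
    rw [integral_neg] at h3
    linarith
  have h5 : Real.sqrt (Real.pi / (4 * Real.pi)) = 1 / 2 := by
    rw [show Real.pi / (4 * Real.pi) = (1 / 2) ^ 2 by field_simp; norm_num,
      Real.sqrt_sq (by norm_num)]
  rw [h2, h5]
  ring

/-- multi-scale version of the heat identity -/
theorem heat2 {f f1 f2 f3 f4 : ℝ → ℝ} (h1 : ∀ x, HasDerivAt f (f1 x) x)
    (h2 : ∀ x, HasDerivAt f1 (f2 x) x) (h3 : ∀ x, HasDerivAt f2 (f3 x) x)
    (h4 : ∀ x, HasDerivAt f3 (f4 x) x) (hc4 : Continuous f4) {M : ℝ} (m0 : ∀ x, |f x| ≤ M)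
    (m1 : ∀ x, |f1 x| ≤ M) (m2 : ∀ x, |f2 x| ≤ M) (m3 : ∀ x, |f3 x| ≤ M) (m4 : ∀ x, |f4 x| ≤ M)
    (W A y : ℝ) : f y = BB f A y - (∫ τ in W..A, τ / (2 * Real.pi) * BB f2 τ y) -
      W ^ 2 / (4 * Real.pi) * BB f2 W y + ∫ τ in (0 : ℝ)..W, τ ^ 3 / (8 * Real.pi ^ 2) * BB f4 τ y := by
  have hpi := Real.pi_pos
  have hf2 : Continuous f2 := continuous_iff_continuousAt.2 fun x => (h3 x).continuousAt
  have hd : ∀ τ ∈ Set.uIcc (0 : ℝ) W, HasDerivAt (fun τ => BB f τ y - τ ^ 2 / (4 * Real.pi) * BB f2 τ y)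
      (-(τ ^ 3 / (8 * Real.pi ^ 2) * BB f4 τ y)) τ := by
    intro τ _
    have k1 := BB_deriv h1 h2 hf2 m0 m1 m2 τ y
    have k2 := BB_deriv h3 h4 hc4 m2 m3 m4 τ y
    have k3 : HasDerivAt (fun τ : ℝ => τ ^ 2 / (4 * Real.pi)) (2 * τ / (4 * Real.pi)) τ := by
      have := (hasDerivAt_pow 2 τ).div_const (4 * Real.pi)
      refine this.congr_deriv ?_
      push_cast
      ring
    refine (k1.sub (k3.mul k2)).congr_deriv ?_
    field_simp
    ring
  have hint : IntervalIntegrable (fun τ => -(τ ^ 3 / (8 * Real.pi ^ 2) * BB f4 τ y)) volume 0 W := by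
    have := BB_cont hc4 m4 y
    exact Continuous.intervalIntegrable (by fun_prop) _ _
  have h5 := intervalIntegral.integral_eq_sub_of_hasDerivAt hd hint
  rw [intervalIntegral.integral_neg, BB_zero, BB_zero] at h5
  have hd2 : ∀ τ ∈ Set.uIcc W A, HasDerivAt (fun τ => BB f τ y) (τ / (2 * Real.pi) * BB f2 τ y) τ :=
    fun τ _ => BB_deriv h1 h2 hf2 m0 m1 m2 τ y
  have hint2 : IntervalIntegrable (fun τ => τ / (2 * Real.pi) * BB f2 τ y) volume W A := by
    have := BB_cont hf2 m2 y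
    exact Continuous.intervalIntegrable (by fun_prop) _ _
  have h6 := intervalIntegral.integral_eq_sub_of_hasDerivAt hd2 hint2
  have h7 : (0 : ℝ) ^ 2 / (4 * Real.pi) * f2 y = 0 := by simp
  rw [h7] at h5
  linarith

/-- one integration by parts -/
lemma BB_parts {f1 f2 : ℝ → ℝ} (h2 : ∀ x, HasDerivAt f1 (f2 x) x) (hc2 : Continuous f2) {M : ℝ}
    (m1 : ∀ x, |f1 x| ≤ M) (m2 : ∀ x, |f2 x| ≤ M) (τ y : ℝ) :
    τ * BB f2 τ y = -(2 * Real.pi) * ∫ x, f1 (y - τ * x) * (x * PG x) := by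
  have hf1 : Continuous f1 := continuous_iff_continuousAt.2 fun x => (h2 x).continuousAt
  have hu : ∀ x, HasDerivAt (fun x => f1 (y - τ * x)) (f2 (y - τ * x) * (-τ)) x := by
    intro x
    have h3 : HasDerivAt (fun x : ℝ => y - τ * x) (-τ) x := by
      have := ((hasDerivAt_id' x).const_mul τ).const_sub y
      simpa using this
    exact (h2 (y - τ * x)).comp x h3
  have i0 : Integrable (fun x => f1 (y - τ * x) * (x * PG x)) := by
    refine Integrable.mono' (xPG_int.norm.const_mul M)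
      ((hf1.comp (by fun_prop)).mul (continuous_id.mul PG_cont)).aestronglyMeasurable
      (Eventually.of_forall fun x => ?_)
    rw [norm_mul, Real.norm_eq_abs]
    exact mul_le_mul_of_nonneg_right (m1 _) (norm_nonneg _)
  have i1 : Integrable ((fun x => f1 (y - τ * x)) * fun x => -(2 * Real.pi * x) * PG x) := by
    refine (i0.const_mul (-(2 * Real.pi))).congr (Eventually.of_forall fun x => ?_)
    simp only [Pi.mul_apply]
    ring
  have i2 : Integrable ((fun x => f2 (y - τ * x) * (-τ)) * PG) := by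
    have h5 := (BB_int hc2 m2 τ y).const_mul (-τ)
    refine h5.congr (Eventually.of_forall fun x => ?_)
    simp only [Pi.mul_apply]
    ring
  have i3 : Integrable ((fun x => f1 (y - τ * x)) * PG) := BB_int hf1 m1 τ y
  have h6 := integral_mul_deriv_eq_deriv_mul_of_integrable (fun x _ => hu x)
    (fun x _ => PG_deriv x) i1 i2 i3
  have e3 : ∫ x, f2 (y - τ * x) * (-τ) * PG x = -(τ * BB f2 τ y) := by
    unfold BB
    rw [← integral_const_mul, ← integral_neg]
    refine integral_congr_ae (Eventually.of_forall fun x => ?_)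
    simp only
    ring
  rw [e3, neg_neg] at h6
  rw [← h6, ← integral_const_mul]
  refine integral_congr_ae (Eventually.of_forall fun x => ?_)
  simp only
  ring

/-- the mixing weight in the middle range -/
noncomputable def zz2 (z : ℝ) : ℝ := 4 * z * Real.exp (-(2 * Real.pi * z ^ 2))

lemma zz2_cont : Continuous zz2 := by unfold zz2; fun_prop

lemma zz2_int : Integrable zz2 := by
  have := (integrable_mul_exp_neg_mul_sq (b := 2 * Real.pi) (by have := Real.pi_pos; positivity)).const_mul 4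
  refine this.congr (Eventually.of_forall fun z => ?_)
  unfold zz2
  simp only [neg_mul]
  ring

lemma zz2_int2 : Integrable fun z => |zz2 z| * (1 + |z|) := by
  have hpi := Real.pi_pos
  have h2 : Integrable fun z : ℝ => z ^ 2 * Real.exp (-(2 * Real.pi) * z ^ 2) := by
    have := integrable_rpow_mul_exp_neg_mul_sq (b := 2 * Real.pi) (s := 2) (by positivity) (by norm_num)
    refine this.congr (Eventually.of_forall fun z => ?_)
    simp only [Real.rpow_two]
  refine (zz2_int.norm.add (h2.const_mul 4)).congr (Eventually.of_forall fun z => ?_)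
  simp only [Pi.add_apply, Real.norm_eq_abs]
  have h3 : |zz2 z| = 4 * |z| * Real.exp (-(2 * Real.pi * z ^ 2)) := by
    unfold zz2
    rw [abs_mul, abs_mul, abs_of_pos (Real.exp_pos _), abs_of_pos (by norm_num : (0 : ℝ) < 4)]
  rw [mul_add, mul_one, h3]
  have h4 : z ^ 2 = |z| * |z| := by rw [← sq_abs]; ring
  rw [show -(2 * Real.pi) * z ^ 2 = -(2 * Real.pi * z ^ 2) by ring]
  nth_rewrite 2 [h4]
  ring

/-- the middle range as a mixture of Gaussians -/
lemma mid_mix {f1 f2 : ℝ → ℝ} (h2 : ∀ x, HasDerivAt f1 (f2 x) x) (hc2 : Continuous f2) {A M : ℝ}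
    (hs1 : ∀ x, A < |x| → f1 x = 0)
    (m1 : ∀ x, |f1 x| ≤ M) (m2 : ∀ x, |f2 x| ≤ M) {τ : ℝ} (hτ : 0 < τ) (y : ℝ) :
    τ / (2 * Real.pi) * BB f2 τ y =
      ∫ p : ℝ × ℝ, -(1 / τ) * (f1 p.1 * zz2 p.2) * gw (τ / Real.sqrt 2) (-(p.1 + τ * p.2)) y := by
  have hpi := Real.pi_pos
  have hf1 : Continuous f1 := continuous_iff_continuousAt.2 fun x => (h2 x).continuousAt
  have hf1i : Integrable f1 := int_of_supp hf1 hs1
  have h2s : Real.sqrt 2 ^ 2 = 2 := Real.sq_sqrt (by norm_num)
  have h2p : 0 < Real.sqrt 2 := Real.sqrt_pos.2 (by norm_num)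
  have hgwc : Continuous fun p : ℝ × ℝ => gw (τ / Real.sqrt 2) (-(p.1 + τ * p.2)) y := by
    simp only [gw_eq]
    exact PG_cont.comp (by fun_prop)
  have hgw : ∀ t z, gw (τ / Real.sqrt 2) (-(t + τ * z)) y =
      Real.exp (-(2 * Real.pi * ((y - t) / τ - z) ^ 2)) := by
    intro t z
    unfold gw
    congr 1
    have : ((y + -(t + τ * z)) / (τ / Real.sqrt 2)) ^ 2 = 2 * ((y - t) / τ - z) ^ 2 := by
      rw [div_pow, div_pow, h2s]
      field_simp
      ring
    rw [this]
    ring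
  have i1 : Integrable (fun p : ℝ × ℝ => -(1 / τ) * (f1 p.1 * zz2 p.2) *
      gw (τ / Real.sqrt 2) (-(p.1 + τ * p.2)) y) (volume.prod volume) := by
    have i2 := (hf1i.mul_prod zz2_int).const_mul (-(1 / τ))
    refine Integrable.mono' i2.norm (i2.aestronglyMeasurable.mul hgwc.aestronglyMeasurable)
      (Eventually.of_forall fun p => ?_)
    rw [norm_mul]
    exact mul_le_of_le_one_right (norm_nonneg _) (gw_le _ _ _)
  rw [show (volume : Measure (ℝ × ℝ)) = volume.prod volume from rfl, integral_prod _ i1]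
  have h3 := BB_parts h2 hc2 m1 m2 τ y
  have e1 : τ / (2 * Real.pi) * BB f2 τ y = -∫ x, f1 (y - τ * x) * (x * PG x) := by
    calc τ / (2 * Real.pi) * BB f2 τ y = 1 / (2 * Real.pi) * (τ * BB f2 τ y) := by ring
      _ = _ := by rw [h3]; field_simp
  rw [e1]
  -- change of variables
  set h : ℝ → ℝ := fun x => f1 (y - τ * x) * (x * PG x) with hh
  have e2 : ∫ x, h x = 1 / τ * ∫ t, f1 t * ((y - t) / τ * PG ((y - t) / τ)) := by
    have e3 : ∀ t, f1 t * ((y - t) / τ * PG ((y - t) / τ)) = (fun w => h (w / τ)) (y - t) := by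
      intro t
      simp only [hh]
      rw [mul_div_cancel₀ _ hτ.ne', sub_sub_cancel]
    simp_rw [e3]
    rw [integral_sub_left_eq_self (fun w => h (w / τ)) volume y, Measure.integral_comp_div h τ,
      smul_eq_mul, abs_of_pos hτ]
    field_simp
  rw [e2, ← integral_const_mul, ← integral_neg]
  refine integral_congr_ae (Eventually.of_forall fun t => ?_)
  simp only
  rw [xPG_mix]
  have e4 : ∀ z, -(1 / τ) * (f1 t * zz2 z) * gw (τ / Real.sqrt 2) (-(t + τ * z)) y =
      (-(1 / τ) * f1 t) * (4 * z * Real.exp (-(2 * Real.pi * z ^ 2)) *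
        Real.exp (-(2 * Real.pi * ((y - t) / τ - z) ^ 2))) := by
    intro z
    rw [hgw]
    unfold zz2
    ring
  simp_rw [e4]
  rw [integral_const_mul]
  ring

end Pool.Agent.W2helper93.SW
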