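import Pool.Agent.W2helper93.SW.Msc

set_option autoImplicit false

/-! # General windows: several scales, the bound -/

namespace Pool.Agent.W2helper93.SW

open Filter Topology MeasureTheory Set
open Pool.Agent.W2helper93.NV
open Pool.Agent.TH850.UV
open H370 (Zf)

/-- the norm that controls the error -/
noncomputable def Kn (f f1 f2 f4 : ℝ → ℝ) (W A : ℝ) : ℝ :=
  (∫ z, |f z|) / A ^ 3 + (∫ z, |f1 z|) / W ^ 2 + (∫ z, |f2 z|) / W + W * ∫ z, |f4 z|

lemma Ebd {C L A w u q : ℝ} (hC : 0 ≤ C) (hL : (1 + A) ^ 5 ≤ L) (hw : 0 < w) (hwA : w ≤ A)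
    (hq : 0 ≤ q) (hu : 1 + |u| ≤ (1 + A) * (1 + q)) :
    C * (1 / w ^ 2 + (1 + |u|) * w ^ 2 / L) ≤ 2 * C * (1 + q) / w ^ 2 := by
  have hA : 0 < 1 + A := by linarith
  have hLp : 0 < L := lt_of_lt_of_le (by positivity) hL
  have h1 : (1 + |u|) * w ^ 2 / L ≤ (1 + q) / w ^ 2 := by
    rw [div_le_div_iff₀ hLp (by positivity)]
    have h2 : w ^ 4 ≤ (1 + A) ^ 4 := pow_le_pow_left₀ hw.le (by linarith) 4
    calc (1 + |u|) * w ^ 2 * w ^ 2 = (1 + |u|) * w ^ 4 := by ring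
      _ ≤ ((1 + A) * (1 + q)) * (1 + A) ^ 4 := mul_le_mul hu h2 (by positivity) (by positivity)
      _ = (1 + q) * (1 + A) ^ 5 := by ring
      _ ≤ (1 + q) * L := mul_le_mul_of_nonneg_left hL (by positivity)
  have h3 : 1 / w ^ 2 ≤ (1 + q) / w ^ 2 := by
    apply div_le_div_of_nonneg_right _ (by positivity)
    linarith
  calc C * (1 / w ^ 2 + (1 + |u|) * w ^ 2 / L) ≤ C * ((1 + q) / w ^ 2 + (1 + q) / w ^ 2) :=
        mul_le_mul_of_nonneg_left (add_le_add h3 h1) hC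
    _ = _ := by ring

lemma int_inv_cube {W A : ℝ} (hW : 0 < W) (hWA : W ≤ A) :
    IntegrableOn (fun τ : ℝ => 1 / τ ^ 3) (Ioc W A) ∧ ∫ τ in Ioc W A, 1 / τ ^ 3 ≤ 1 / W ^ 2 := by
  have hne : ∀ τ ∈ Set.uIcc W A, τ ≠ 0 := by
    intro τ hτ
    rw [Set.uIcc_of_le hWA] at hτ
    exact (hW.trans_le hτ.1).ne'
  have hc : ContinuousOn (fun τ : ℝ => 1 / τ ^ 3) (Set.uIcc W A) := by
    intro τ hτ
    have h0 := hne τ hτ
    have : ContinuousAt (fun τ : ℝ => 1 / τ ^ 3) τ := by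
      have h3 : τ ^ 3 ≠ 0 := pow_ne_zero 3 h0
      exact continuousAt_const.div (by fun_prop) h3
    exact this.continuousWithinAt
  have hii : IntervalIntegrable (fun τ : ℝ => 1 / τ ^ 3) volume W A := hc.intervalIntegrable
  refine ⟨(intervalIntegrable_iff_integrableOn_Ioc_of_le hWA).1 hii, ?_⟩
  rw [← intervalIntegral.integral_of_le hWA]
  have hd : ∀ τ ∈ Set.uIcc W A, HasDerivAt (fun τ : ℝ => -(1 / (2 * τ ^ 2))) (1 / τ ^ 3) τ := by
    intro τ hτ
    have h0 := hne τ hτ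
    have h1 : HasDerivAt (fun τ : ℝ => 2 * τ ^ 2) (4 * τ) τ := by
      have := (hasDerivAt_pow 2 τ).const_mul 2
      refine this.congr_deriv ?_
      push_cast
      ring
    have h2 := (h1.inv (by positivity)).neg
    refine (h2.congr_deriv ?_).congr_of_eventuallyEq (Eventually.of_forall fun x => ?_)
    · field_simp
      ring
    · simp only [one_div]
      rfl
  rw [intervalIntegral.integral_eq_sub_of_hasDerivAt hd hii]
  have hA : 0 < A := hW.trans_le hWA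
  have h3 : 0 < 1 / (2 * A ^ 2) := by positivity
  have h4 : 1 / (2 * W ^ 2) ≤ 1 / W ^ 2 := by
    apply one_div_le_one_div_of_le (by positivity)
    nlinarith only [sq_nonneg W]
  linarith

theorem msc {lam0 : ℝ} (h16 : 16 ≤ lam0) (hWM : WMom lam0) : ∃ C T0 : ℝ, 0 < C ∧ 10 ≤ T0 ∧
    ∀ T : ℝ, T0 ≤ T → ∀ f f1 f2 f3 f4 : ℝ → ℝ, (∀ x, HasDerivAt f (f1 x) x) →
      (∀ x, HasDerivAt f1 (f2 x) x) → (∀ x, HasDerivAt f2 (f3 x) x) → (∀ x, HasDerivAt f3 (f4 x) x) →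
      Continuous f4 → ∀ A : ℝ, (∀ x, A < |x| → f x = 0) → (∀ x, A < |x| → f1 x = 0) →
      (∀ x, A < |x| → f2 x = 0) → (∀ x, A < |x| → f3 x = 0) → (∀ x, A < |x| → f4 x = 0) →
      ∀ W : ℝ, 0 < W → W ≤ A → (1 + A) ^ 5 ≤ Real.log T →
        |Lam T f| ≤ C * Kn f f1 f2 f4 W A := by
  obtain ⟨C, T0, hC, hT0, hgaw⟩ := gaw h16 hWM
  have hpi := Real.pi_gt_three
  have hpi0 := Real.pi_pos
  set Z : ℝ := ∫ z, |zz2 z| * (1 + |z|) with hZ
  have hZ0 : 0 ≤ Z := integral_nonneg fun z => by positivity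
  refine ⟨2 * C * (1 + 2 * Z), T0, by positivity, hT0,
    fun T hT f f1 f2 f3 f4 d1 d2 d3 d4 c4 A s0 s1 s2 s3 s4 W hW hWA hLA => ?_⟩
  have hLpos : 0 < Real.log T := Real.log_pos (by linarith)
  set L := Real.log T with hL
  have hA : 0 < A := hW.trans_le hWA
  have c0 : Continuous f := continuous_iff_continuousAt.2 fun x => (d1 x).continuousAt
  have c1 : Continuous f1 := continuous_iff_continuousAt.2 fun x => (d2 x).continuousAt
  have c2 : Continuous f2 := continuous_iff_continuousAt.2 fun x => (d3 x).continuousAt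
  have c3 : Continuous f3 := continuous_iff_continuousAt.2 fun x => (d4 x).continuousAt
  have i0 := int_of_supp c0 s0
  have i1 := int_of_supp c1 s1
  have i2 := int_of_supp c2 s2
  have i4 := int_of_supp c4 s4
  obtain ⟨M0, b0⟩ := exists_bd c0 s0
  obtain ⟨M1, b1⟩ := exists_bd c1 s1
  obtain ⟨M2, b2⟩ := exists_bd c2 s2
  obtain ⟨M3, b3⟩ := exists_bd c3 s3
  obtain ⟨M4, b4⟩ := exists_bd c4 s4
  set M := max (max M0 M1) (max M2 (max M3 M4)) with hM
  have hM0 : M0 ≤ M := (le_max_left _ _).trans (le_max_left _ _)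
  have hM1 : M1 ≤ M := (le_max_right _ _).trans (le_max_left _ _)
  have hM2 : M2 ≤ M := (le_max_left _ _).trans (le_max_right _ _)
  have hM3 : M3 ≤ M := ((le_max_left _ _).trans (le_max_right _ _)).trans (le_max_right _ _)
  have hM4 : M4 ≤ M := ((le_max_right _ _).trans (le_max_right _ _)).trans (le_max_right _ _)
  have m0 : ∀ x, |f x| ≤ M := fun x => (b0 x).trans hM0
  have m1 : ∀ x, |f1 x| ≤ M := fun x => (b1 x).trans hM1
  have m2 : ∀ x, |f2 x| ≤ M := fun x => (b2 x).trans hM2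
  have m3 : ∀ x, |f3 x| ≤ M := fun x => (b3 x).trans hM3
  have m4 : ∀ x, |f4 x| ≤ M := fun x => (b4 x).trans hM4
  set E : ℝ → ℝ → ℝ := fun W u => C * (1 / W ^ 2 + (1 + |u|) * W ^ 2 / L) with hE
  have hE1 : ∀ W : ℝ, 0 < W → ∀ u, |Lam T (gw W u)| ≤ E W u := fun W hW u => hgaw T hT W hW u
  have hE0 : ∀ w u : ℝ, 0 ≤ E w u := fun w u => by simp only [hE]; positivity
  -- bound for points in the support
  have hEz : ∀ w : ℝ, 0 < w → w ≤ A → ∀ z : ℝ, |z| ≤ A → E w (-z) ≤ 2 * C / w ^ 2 := by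
    intro w hw hwA z hz
    have := Ebd (q := 0) (u := -z) hC.le hLA hw hwA le_rfl (by rw [abs_neg]; linarith)
    rw [add_zero, mul_one] at this
    exact this
  -- pieces one and three
  have hone : ∀ h : ℝ → ℝ, Continuous h → (∀ x, A < |x| → h x = 0) → ∀ w : ℝ, 0 < w → w ≤ A →
      |Lam T (fun x => ∫ z, h z * gw w (-z) x)| ≤ 2 * C / w ^ 2 * ∫ z, |h z| ∧
        Integrable (fun x => ∫ z, h z * gw w (-z) x) := by
    intro h hc hs w hw hwA
    have hi := int_of_supp hc hs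
    have hg := gmix (ρ := volume) hE1 hi (w := fun _ => w) (c := fun z => -z)
      measurable_const (by fun_prop) (Eventually.of_forall fun _ => hw)
      (hi.mul_const w) (hi.norm.const_mul (2 * C / w ^ 2)) (Eventually.of_forall fun z => by
        rw [Real.norm_eq_abs, mul_comm]
        by_cases hz : A < |z|
        · rw [hs z hz, abs_zero, mul_zero, mul_zero]
        · exact mul_le_mul_of_nonneg_right (hEz w hw hwA z (not_lt.1 hz)) (abs_nonneg _))
    refine ⟨hg.1.trans (le_of_eq ?_), hg.2⟩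
    rw [integral_const_mul]
    rfl
  obtain ⟨p1, q1⟩ := hone f c0 s0 A hA le_rfl
  obtain ⟨p3, q3⟩ := hone f2 c2 s2 W hW hWA
  -- piece four
  set ρ : Measure (ℝ × ℝ) := (volume.restrict (Ioc (0 : ℝ) W)).prod volume with hρ
  have hτae : ∀ᵐ p : ℝ × ℝ ∂ρ, 0 < p.1 ∧ p.1 ≤ W := by
    have h1 : ∀ᵐ v ∂(volume.restrict (Ioc (0 : ℝ) W)), 0 < v ∧ v ≤ W :=
      ae_restrict_mem measurableSet_Ioc
    exact Measure.quasiMeasurePreserving_fst.ae h1
  have iτ : ∀ n : ℕ, Integrable (fun τ : ℝ => τ ^ n / (8 * Real.pi ^ 2))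
      (volume.restrict (Ioc (0 : ℝ) W)) := by
    intro n
    have : Continuous fun τ : ℝ => τ ^ n / (8 * Real.pi ^ 2) := by fun_prop
    exact (this.integrableOn_Icc (a := 0) (b := W)).mono_set Ioc_subset_Icc_self
  have ic : Integrable (fun _ : ℝ => (1 : ℝ)) (volume.restrict (Ioc (0 : ℝ) W)) :=
    (continuous_const.integrableOn_Icc (a := (0 : ℝ)) (b := W)).mono_set Ioc_subset_Icc_self
  have ia : Integrable (fun p : ℝ × ℝ => p.1 ^ 2 / (8 * Real.pi ^ 2) * f4 p.2) ρ :=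
    (iτ 2).mul_prod i4
  have iaw : Integrable (fun p : ℝ × ℝ => p.1 ^ 2 / (8 * Real.pi ^ 2) * f4 p.2 * p.1) ρ := by
    have h1 := (iτ 3).mul_prod i4
    refine h1.congr (Eventually.of_forall fun p => ?_)
    simp only
    ring
  have ie : Integrable (fun p : ℝ × ℝ => (1 : ℝ) * (2 * C * |f4 p.2|)) ρ :=
    ic.mul_prod (i4.norm.const_mul (2 * C))
  obtain ⟨p4, q4⟩ := gmix (ρ := ρ) (T := T) (E := E) hE1
    (a := fun p : ℝ × ℝ => p.1 ^ 2 / (8 * Real.pi ^ 2) * f4 p.2) (w := fun p => p.1)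
    (c := fun p => -p.2) ia (by fun_prop) (by fun_prop)
    (by filter_upwards [hτae] with p hp; exact hp.1) iaw ie (by
      filter_upwards [hτae] with p hp
      rw [abs_mul, abs_of_nonneg (by positivity : 0 ≤ p.1 ^ 2 / (8 * Real.pi ^ 2)), one_mul]
      by_cases hz : A < |p.2|
      · rw [s4 _ hz, abs_zero, mul_zero, zero_mul, mul_zero]
      · have h1 := hEz p.1 hp.1 (hp.2.trans hWA) p.2 (not_lt.1 hz)
        have hp1 : p.1 ≠ 0 := hp.1.ne'
        have h2 : p.1 ^ 2 / (8 * Real.pi ^ 2) ≤ p.1 ^ 2 := by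
          apply div_le_self (sq_nonneg _)
          nlinarith only [hpi]
        have hp2 : 0 < p.1 ^ 2 := by have := hp.1; positivity
        calc p.1 ^ 2 / (8 * Real.pi ^ 2) * |f4 p.2| * E p.1 (-p.2) ≤
            p.1 ^ 2 * |f4 p.2| * (2 * C / p.1 ^ 2) :=
              mul_le_mul (mul_le_mul_of_nonneg_right h2 (abs_nonneg _)) h1 (hE0 _ _) (by positivity)
          _ = _ := by field_simp)
  have hval4 : ∫ p, (1 : ℝ) * (2 * C * |f4 p.2|) ∂ρ = 2 * C * (W * ∫ z, |f4 z|) := by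
    rw [hρ, integral_prod_mul (fun _ : ℝ => (1 : ℝ)) (fun z : ℝ => 2 * C * |f4 z|),
      integral_const_mul]
    have : ∫ _ in Ioc (0 : ℝ) W, (1 : ℝ) = W := by
      rw [← intervalIntegral.integral_of_le hW.le, intervalIntegral.integral_const, smul_eq_mul]
      ring
    rw [this]
    ring
  rw [hval4] at p4
  -- piece two
  set ρ2 : Measure (ℝ × (ℝ × ℝ)) := (volume.restrict (Ioc W A)).prod volume with hρ2
  have hτae2 : ∀ᵐ p : ℝ × (ℝ × ℝ) ∂ρ2, W < p.1 ∧ p.1 ≤ A := by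
    have h1 : ∀ᵐ v ∂(volume.restrict (Ioc W A)), W < v ∧ v ≤ A :=
      ae_restrict_mem measurableSet_Ioc
    exact Measure.quasiMeasurePreserving_fst.ae h1
  have h2s : Real.sqrt 2 ^ 2 = 2 := Real.sq_sqrt (by norm_num)
  have h2p : 0 < Real.sqrt 2 := Real.sqrt_pos.2 (by norm_num)
  have h21 : 1 ≤ Real.sqrt 2 := Real.one_le_sqrt.2 (by norm_num)
  obtain ⟨icube, vcube⟩ := int_inv_cube hW hWA
  have iinv : Integrable (fun τ : ℝ => -(1 / τ)) (volume.restrict (Ioc W A)) := by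
    have hc : ContinuousOn (fun τ : ℝ => -(1 / τ)) (Set.Icc W A) := by
      intro τ hτ
      have h0 : τ ≠ 0 := (hW.trans_le hτ.1).ne'
      have : ContinuousAt (fun τ : ℝ => -(1 / τ)) τ := (continuousAt_const.div continuousAt_id h0).neg
      exact this.continuousWithinAt
    exact (hc.integrableOn_Icc).mono_set Ioc_subset_Icc_self
  have iprod : Integrable (fun p : ℝ × ℝ => f1 p.1 * zz2 p.2) volume := i1.mul_prod zz2_int
  have ja : Integrable (fun p : ℝ × (ℝ × ℝ) => -(1 / p.1) * (f1 p.2.1 * zz2 p.2.2)) ρ2 :=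
    iinv.mul_prod iprod
  have ic2 : Integrable (fun _ : ℝ => -(1 / Real.sqrt 2)) (volume.restrict (Ioc W A)) :=
    (continuous_const.integrableOn_Icc (a := W) (b := A)).mono_set Ioc_subset_Icc_self
  have jaw : Integrable (fun p : ℝ × (ℝ × ℝ) => -(1 / p.1) * (f1 p.2.1 * zz2 p.2.2) *
      (p.1 / Real.sqrt 2)) ρ2 := by
    have h1 := ic2.mul_prod iprod
    refine h1.congr ?_
    filter_upwards [hτae2] with p hp
    have : p.1 ≠ 0 := (hW.trans hp.1).ne'
    field_simp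
  have iprod2 : Integrable (fun p : ℝ × ℝ => |f1 p.1| * (|zz2 p.2| * (1 + |p.2|))) volume :=
    i1.norm.mul_prod zz2_int2
  have je : Integrable (fun p : ℝ × (ℝ × ℝ) => (4 * C * (1 / p.1 ^ 3)) *
      (|f1 p.2.1| * (|zz2 p.2.2| * (1 + |p.2.2|)))) ρ2 :=
    (icube.const_mul (4 * C)).mul_prod iprod2
  obtain ⟨p2, q2⟩ := gmix (ρ := ρ2) (T := T) (E := E) hE1
    (a := fun p : ℝ × (ℝ × ℝ) => -(1 / p.1) * (f1 p.2.1 * zz2 p.2.2))
    (w := fun p => p.1 / Real.sqrt 2)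
    (c := fun p => -(p.2.1 + p.1 * p.2.2)) ja (by fun_prop) (by fun_prop)
    (by filter_upwards [hτae2] with p hp; exact div_pos (hW.trans hp.1) h2p) jaw je (by
      filter_upwards [hτae2] with p hp
      have hp0 : 0 < p.1 := hW.trans hp.1
      rw [abs_mul, abs_neg, abs_of_pos (by positivity : 0 < 1 / p.1), abs_mul]
      by_cases hz : A < |p.2.1|
      · rw [s1 _ hz, abs_zero]
        simp
      · have hz' := not_lt.1 hz
        have hq0 := abs_nonneg p.2.2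
        have h1 : E (p.1 / Real.sqrt 2) (-(p.2.1 + p.1 * p.2.2)) ≤
            2 * C * (1 + |p.2.2|) / (p.1 / Real.sqrt 2) ^ 2 := by
          refine Ebd hC.le hLA (div_pos hp0 h2p) ((div_le_self hp0.le h21).trans hp.2) hq0 ?_
          rw [abs_neg]
          have h3 : |p.2.1 + p.1 * p.2.2| ≤ A + A * |p.2.2| := by
            refine (abs_add_le _ _).trans (add_le_add hz' ?_)
            rw [abs_mul, abs_of_pos hp0]
            exact mul_le_mul_of_nonneg_right hp.2 hq0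
          nlinarith only [h3, hq0]
        have h4 : 2 * C * (1 + |p.2.2|) / (p.1 / Real.sqrt 2) ^ 2 = 4 * C * (1 + |p.2.2|) / p.1 ^ 2 := by
          rw [div_pow, h2s]
          field_simp
          norm_num
        rw [h4] at h1
        calc 1 / p.1 * (|f1 p.2.1| * |zz2 p.2.2|) * E (p.1 / Real.sqrt 2) (-(p.2.1 + p.1 * p.2.2)) ≤
            1 / p.1 * (|f1 p.2.1| * |zz2 p.2.2|) * (4 * C * (1 + |p.2.2|) / p.1 ^ 2) :=
              mul_le_mul_of_nonneg_left h1 (by positivity)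
          _ = _ := by field_simp)
  have hval2 : ∫ p, (4 * C * (1 / p.1 ^ 3)) * (|f1 p.2.1| * (|zz2 p.2.2| * (1 + |p.2.2|))) ∂ρ2 ≤
      4 * C * Z * ((∫ z, |f1 z|) / W ^ 2) := by
    rw [hρ2, integral_prod_mul (fun τ : ℝ => 4 * C * (1 / τ ^ 3))
      (fun p : ℝ × ℝ => |f1 p.1| * (|zz2 p.2| * (1 + |p.2|))), integral_const_mul]
    have h1 : ∫ p : ℝ × ℝ, |f1 p.1| * (|zz2 p.2| * (1 + |p.2|)) = (∫ z, |f1 z|) * Z := by
      rw [hZ]
      exact integral_prod_mul (μ := volume) (ν := volume) (fun z => |f1 z|)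
        (fun z => |zz2 z| * (1 + |z|))
    rw [h1]
    have h2 : 0 ≤ (∫ z, |f1 z|) * Z := mul_nonneg (integral_nonneg fun z => abs_nonneg _) hZ0
    calc 4 * C * (∫ τ in Ioc W A, 1 / τ ^ 3) * ((∫ z, |f1 z|) * Z) ≤
        4 * C * (1 / W ^ 2) * ((∫ z, |f1 z|) * Z) := by gcongr
      _ = _ := by ring
  -- the representation
  have hrep : f = fun x => ((1 / A) * (∫ z, f z * gw A (-z) x) +
      (-1) * ∫ p, -(1 / p.1) * (f1 p.2.1 * zz2 p.2.2) *
        gw (p.1 / Real.sqrt 2) (-(p.2.1 + p.1 * p.2.2)) x ∂ρ2) +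
      ((-(W / (4 * Real.pi))) * (∫ z, f2 z * gw W (-z) x) +
      ∫ p, p.1 ^ 2 / (8 * Real.pi ^ 2) * f4 p.2 * gw p.1 (-p.2) x ∂ρ) := by
    funext x
    have hh := heat2 d1 d2 d3 d4 c4 m0 m1 m2 m3 m4 W A x
    have hgw : ∀ τ z, PG ((x - z) / τ) = gw τ (-z) x := by
      intro τ z
      rw [gw_eq]
      rfl
    have e1 : ∀ h : ℝ → ℝ, ∀ τ : ℝ, 0 < τ → BB h τ x = 1 / τ * ∫ z, h z * gw τ (-z) x := by
      intro h τ hτ
      rw [BB_conv h hτ]
      congr 1
    have e2 : ∫ τ in (0 : ℝ)..W, τ ^ 3 / (8 * Real.pi ^ 2) * BB f4 τ x =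
        ∫ p, p.1 ^ 2 / (8 * Real.pi ^ 2) * f4 p.2 * gw p.1 (-p.2) x ∂ρ := by
      have i5 : Integrable (fun p : ℝ × ℝ => p.1 ^ 2 / (8 * Real.pi ^ 2) * f4 p.2 *
          gw p.1 (-p.2) x) ρ := by
        have hm : Measurable fun p : ℝ × ℝ => gw p.1 (-p.2) x := by
          simp only [gw_eq]
          exact PG_cont.measurable.comp (by fun_prop)
        refine Integrable.mono' ia.norm (ia.aestronglyMeasurable.mul hm.aestronglyMeasurable)
          (Eventually.of_forall fun p => ?_)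
        rw [norm_mul]
        exact mul_le_of_le_one_right (norm_nonneg _) (gw_le _ _ _)
      rw [hρ, integral_prod _ i5, intervalIntegral.integral_of_le hW.le]
      refine setIntegral_congr_fun measurableSet_Ioc fun τ hτ => ?_
      have hτ0 : 0 < τ := hτ.1
      simp only
      rw [e1 f4 τ hτ0, ← mul_assoc, ← integral_const_mul]
      refine integral_congr_ae (Eventually.of_forall fun z => ?_)
      simp only
      field_simp
    have e3 : ∫ τ in W..A, τ / (2 * Real.pi) * BB f2 τ x =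
        ∫ p, -(1 / p.1) * (f1 p.2.1 * zz2 p.2.2) *
          gw (p.1 / Real.sqrt 2) (-(p.2.1 + p.1 * p.2.2)) x ∂ρ2 := by
      have i5 : Integrable (fun p : ℝ × (ℝ × ℝ) => -(1 / p.1) * (f1 p.2.1 * zz2 p.2.2) *
          gw (p.1 / Real.sqrt 2) (-(p.2.1 + p.1 * p.2.2)) x) ρ2 := by
        have hm : Measurable fun p : ℝ × (ℝ × ℝ) =>
            gw (p.1 / Real.sqrt 2) (-(p.2.1 + p.1 * p.2.2)) x := by
          simp only [gw_eq]
          exact PG_cont.measurable.comp (by fun_prop)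
        refine Integrable.mono' ja.norm (ja.aestronglyMeasurable.mul hm.aestronglyMeasurable)
          (Eventually.of_forall fun p => ?_)
        rw [norm_mul]
        exact mul_le_of_le_one_right (norm_nonneg _) (gw_le _ _ _)
      rw [hρ2, integral_prod _ i5, intervalIntegral.integral_of_le hWA]
      refine setIntegral_congr_fun measurableSet_Ioc fun τ hτ => ?_
      exact mid_mix d2 c2 s1 m1 m2 (hW.trans hτ.1) x
    rw [hh, e1 f A hA, e1 f2 W hW, e2, e3]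
    field_simp
    ring
  have Q1 : Integrable (fun x => (1 / A) * (∫ z, f z * gw A (-z) x)) := q1.const_mul _
  have Q2 : Integrable (fun x => (-1 : ℝ) * ∫ p, -(1 / p.1) * (f1 p.2.1 * zz2 p.2.2) *
        gw (p.1 / Real.sqrt 2) (-(p.2.1 + p.1 * p.2.2)) x ∂ρ2) := q2.const_mul _
  have Q3 : Integrable (fun x => (-(W / (4 * Real.pi))) * (∫ z, f2 z * gw W (-z) x)) :=
    q3.const_mul _
  have Q12 : Integrable (fun x => (1 / A) * (∫ z, f z * gw A (-z) x) +
      (-1 : ℝ) * ∫ p, -(1 / p.1) * (f1 p.2.1 * zz2 p.2.2) *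
        gw (p.1 / Real.sqrt 2) (-(p.2.1 + p.1 * p.2.2)) x ∂ρ2) := Q1.add Q2
  have Q34 : Integrable (fun x => (-(W / (4 * Real.pi))) * (∫ z, f2 z * gw W (-z) x) +
      ∫ p, p.1 ^ 2 / (8 * Real.pi ^ 2) * f4 p.2 * gw p.1 (-p.2) x ∂ρ) := Q3.add q4
  have hlam : Lam T f = ((1 / A) * Lam T (fun x => ∫ z, f z * gw A (-z) x) +
      (-1) * Lam T (fun x => ∫ p, -(1 / p.1) * (f1 p.2.1 * zz2 p.2.2) *
        gw (p.1 / Real.sqrt 2) (-(p.2.1 + p.1 * p.2.2)) x ∂ρ2)) +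
      ((-(W / (4 * Real.pi))) * Lam T (fun x => ∫ z, f2 z * gw W (-z) x) +
      Lam T (fun x => ∫ p, p.1 ^ 2 / (8 * Real.pi ^ 2) * f4 p.2 * gw p.1 (-p.2) x ∂ρ)) := by
    conv_lhs => rw [hrep]
    rw [lam_add T Q12 Q34, lam_add T Q1 Q2, lam_add T Q3 q4, lam_smul, lam_smul, lam_smul]
  rw [hlam]
  have n0 : 0 ≤ ∫ z, |f z| := integral_nonneg fun z => abs_nonneg _
  have n1 : 0 ≤ ∫ z, |f1 z| := integral_nonneg fun z => abs_nonneg _
  have n2 : 0 ≤ ∫ z, |f2 z| := integral_nonneg fun z => abs_nonneg _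
  have n4 : 0 ≤ ∫ z, |f4 z| := integral_nonneg fun z => abs_nonneg _
  have r1 : |(1 / A) * Lam T (fun x => ∫ z, f z * gw A (-z) x)| ≤ 2 * C * ((∫ z, |f z|) / A ^ 3) := by
    rw [abs_mul, abs_of_pos (by positivity : 0 < 1 / A)]
    calc 1 / A * |Lam T (fun x => ∫ z, f z * gw A (-z) x)| ≤ 1 / A * (2 * C / A ^ 2 * ∫ z, |f z|) :=
          mul_le_mul_of_nonneg_left p1 (by positivity)
      _ = _ := by field_simp
  have r2 : |(-1) * Lam T (fun x => ∫ p, -(1 / p.1) * (f1 p.2.1 * zz2 p.2.2) *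
        gw (p.1 / Real.sqrt 2) (-(p.2.1 + p.1 * p.2.2)) x ∂ρ2)| ≤
      4 * C * Z * ((∫ z, |f1 z|) / W ^ 2) := by
    rw [abs_mul, abs_neg, abs_one, one_mul]
    exact p2.trans hval2
  have r3 : |(-(W / (4 * Real.pi))) * Lam T (fun x => ∫ z, f2 z * gw W (-z) x)| ≤
      2 * C * ((∫ z, |f2 z|) / W) := by
    rw [abs_mul, abs_neg, abs_of_pos (by positivity : 0 < W / (4 * Real.pi))]
    have h1 : W / (4 * Real.pi) ≤ W := by
      apply div_le_self hW.le; linarith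
    calc W / (4 * Real.pi) * |Lam T (fun x => ∫ z, f2 z * gw W (-z) x)| ≤
        W * (2 * C / W ^ 2 * ∫ z, |f2 z|) := mul_le_mul h1 p3 (abs_nonneg _) hW.le
      _ = _ := by field_simp
  refine (abs_add_le _ _).trans ((add_le_add ((abs_add_le _ _).trans (add_le_add r1 r2))
    ((abs_add_le _ _).trans (add_le_add r3 p4))).trans ?_)
  unfold Kn
  have t1 : 0 ≤ (∫ z, |f z|) / A ^ 3 := by positivity
  have t2 : 0 ≤ (∫ z, |f1 z|) / W ^ 2 := by positivity
  have t3 : 0 ≤ (∫ z, |f2 z|) / W := by positivity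
  have t4 : 0 ≤ W * ∫ z, |f4 z| := by positivity
  have e5 : 2 * C * (1 + 2 * Z) * ((∫ z, |f z|) / A ^ 3 + (∫ z, |f1 z|) / W ^ 2 + (∫ z, |f2 z|) / W +
      W * ∫ z, |f4 z|) = 2 * C * ((∫ z, |f z|) / A ^ 3) + 4 * C * Z * ((∫ z, |f1 z|) / W ^ 2) +
      2 * C * ((∫ z, |f2 z|) / W) + 2 * C * (W * ∫ z, |f4 z|) +
      (4 * C * Z * ((∫ z, |f z|) / A ^ 3) + 2 * C * ((∫ z, |f1 z|) / W ^ 2) +
        4 * C * Z * ((∫ z, |f2 z|) / W) + 4 * C * Z * (W * ∫ z, |f4 z|)) := by ring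
  rw [e5]
  have t5 : 0 ≤ (4 * C * Z * ((∫ z, |f z|) / A ^ 3) + 2 * C * ((∫ z, |f1 z|) / W ^ 2) +
        4 * C * Z * ((∫ z, |f2 z|) / W) + 4 * C * Z * (W * ∫ z, |f4 z|)) := by positivity
  linarith

end Pool.Agent.W2helper93.SW
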