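import Pool.Agent.W2helper93.SW.Msd
import Pool.Agent.W2helper93.NV.Main

set_option autoImplicit false

/-! # Smooth averages of the pair count -/

namespace Pool.Agent.W2helper93.SW

open Complex Filter Topology MeasureTheory Set
open Pool.Agent.W2helper93.NV
open Pool.Agent.TH850.UV
open H370 (zz hh mult Zf zset AA good_zeta mem_Zf NN NN_add NN_mono zcount nn_asymp finsum_Zf)

/-- the tail integral of the weight -/
noncomputable def Ph (w : ℝ → ℝ) (y : ℝ) : ℝ := ∫ v in y..1, w v

lemma Ph_deriv {w : ℝ → ℝ} (hw : Continuous w) (y : ℝ) : HasDerivAt (Ph w) (-w y) y := by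
  unfold Ph
  exact intervalIntegral.integral_hasDerivAt_left (hw.intervalIntegrable _ _)
    (hw.stronglyMeasurableAtFilter _ _) hw.continuousAt

lemma Ph_right {w : ℝ → ℝ} (hs : ∀ x, 1 < |x| → w x = 0) {y : ℝ} (hy : 1 ≤ y) : Ph w y = 0 := by
  unfold Ph
  rw [intervalIntegral.integral_symm, intervalIntegral.integral_of_le hy,
    setIntegral_eq_zero_of_forall_eq_zero, neg_zero]
  intro x hx
  exact hs x (lt_of_lt_of_le hx.1 (le_abs_self x))

lemma Ph_left {w : ℝ → ℝ} (hw : Continuous w) (hs : ∀ x, 1 < |x| → w x = 0) {y : ℝ} (hy : y ≤ -1) :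
    Ph w y = Ph w (-1) := by
  unfold Ph
  rw [← intervalIntegral.integral_add_adjacent_intervals (hw.intervalIntegrable y (-1))
    (hw.intervalIntegrable (-1) 1), intervalIntegral.integral_of_le hy,
    MeasureTheory.integral_Ioc_eq_integral_Ioo, setIntegral_eq_zero_of_forall_eq_zero, zero_add]
  intro x hx
  refine hs x ?_
  have h1 : x < -1 := hx.2
  have h2 := neg_le_abs x
  linarith

lemma Ph_le {w : ℝ → ℝ} (hw : Continuous w) (hs : ∀ x, 1 < |x| → w x = 0) (y : ℝ) :
    |Ph w y| ≤ ∫ z, |w z| := by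
  have hi : Integrable fun z => ‖w z‖ := (int_of_supp hw hs).norm
  have key : ∀ A : Set ℝ, |∫ z in A, w z| ≤ ∫ z, |w z| := by
    intro A
    have h1 : ‖∫ z in A, w z‖ ≤ ∫ z in A, ‖w z‖ := norm_integral_le_integral_norm _
    have h2 : ∫ z in A, ‖w z‖ ≤ ∫ z, ‖w z‖ :=
      setIntegral_le_integral hi (Eventually.of_forall fun z => norm_nonneg _)
    exact h1.trans h2
  unfold Ph
  rcases le_total y 1 with h | h
  · rw [intervalIntegral.integral_of_le h]
    exact key _
  · rw [intervalIntegral.integral_symm, intervalIntegral.integral_of_le h, abs_neg]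
    exact key _

/-- the even window of the averaged count -/
noncomputable def gA (w : ℝ → ℝ) (a W x : ℝ) : ℝ :=
  Ph w ((x - a) / W) + Ph w ((-x - a) / W) - Ph w (-1)

lemma gA_neg (w : ℝ → ℝ) (a W x : ℝ) : gA w a W (-x) = gA w a W x := by
  unfold gA
  rw [neg_neg]
  ring

lemma gA_pos {w : ℝ → ℝ} (hw : Continuous w) (hs : ∀ x, 1 < |x| → w x = 0) {a W x : ℝ}
    (hW : 0 < W) (hWa : W ≤ a) (hx : 0 ≤ x) : gA w a W x = Ph w ((x - a) / W) := by
  unfold gA
  rw [Ph_left hw hs (y := (-x - a) / W) (by rw [div_le_iff₀ hW]; linarith)]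
  ring

lemma gA_low {w : ℝ → ℝ} (hw : Continuous w) (hs : ∀ x, 1 < |x| → w x = 0) {a W x : ℝ}
    (hW : 0 < W) (hWa : W ≤ a) (hx : 0 ≤ x) (hxa : x ≤ a - W) : gA w a W x = Ph w (-1) := by
  rw [gA_pos hw hs hW hWa hx, Ph_left hw hs]
  rw [div_le_iff₀ hW]
  linarith

lemma gA_out {w : ℝ → ℝ} (hw : Continuous w) (hs : ∀ x, 1 < |x| → w x = 0) {a W x : ℝ}
    (hW : 0 < W) (hWa : W ≤ a) (hx : a + W < |x|) : gA w a W x = 0 := by
  have h : ∀ y : ℝ, 0 ≤ y → a + W < y → gA w a W y = 0 := by
    intro y hy hy2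
    rw [gA_pos hw hs hW hWa hy, Ph_right hs]
    rw [le_div_iff₀ hW]
    linarith
  rcases le_total 0 x with h0 | h0
  · rw [abs_of_nonneg h0] at hx
    exact h x h0 hx
  · rw [abs_of_nonpos h0] at hx
    rw [← gA_neg]
    exact h (-x) (by linarith) hx

lemma gA_le {w : ℝ → ℝ} (hw : Continuous w) (hs : ∀ x, 1 < |x| → w x = 0) {a W : ℝ}
    (hW : 0 < W) (hWa : W ≤ a) (x : ℝ) : |gA w a W x| ≤ ∫ z, |w z| := by
  have h : ∀ y : ℝ, 0 ≤ y → |gA w a W y| ≤ ∫ z, |w z| := by
    intro y hy
    rw [gA_pos hw hs hW hWa hy]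
    exact Ph_le hw hs _
  rcases le_total 0 x with h0 | h0
  · exact h x h0
  · rw [← gA_neg]
    exact h (-x) (by linarith)

/-- one pair -/
lemma nav_pair {w : ℝ → ℝ} (hw : Continuous w) (hs : ∀ x, 1 < |x| → w x = 0) {a W x : ℝ}
    (hW : 0 < W) : ∫ v in (-1 : ℝ)..1, w v * (if x ≤ a + W * v then 1 else 0) =
      Ph w ((x - a) / W) := by
  set y := (x - a) / W with hy
  have hiff : ∀ v : ℝ, x ≤ a + W * v ↔ y ≤ v := by
    intro v
    rw [hy, div_le_iff₀ hW]
    constructor <;> intro h <;> linarith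
  simp_rw [hiff]
  have hcase : ∀ α β : ℝ, α ≤ β → y ≤ α →
      ∫ v in α..β, w v * (if y ≤ v then 1 else 0) = ∫ v in α..β, w v := by
    intro α β hαβ hyα
    refine intervalIntegral.integral_congr fun v hv => ?_
    rw [Set.uIcc_of_le hαβ] at hv
    rw [if_pos (hyα.trans hv.1), mul_one]
  have hcase2 : ∀ α β : ℝ, α ≤ β → β ≤ y →
      ∫ v in α..β, w v * (if y ≤ v then 1 else 0) = 0 := by
    intro α β hαβ hyβ
    rw [intervalIntegral.integral_of_le hαβ, MeasureTheory.integral_Ioc_eq_integral_Ioo]
    refine setIntegral_eq_zero_of_forall_eq_zero fun v hv => ?_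
    rw [if_neg (not_le.2 (lt_of_lt_of_le hv.2 hyβ)), mul_zero]
  rcases le_total y (-1) with h1 | h1
  · rw [hcase _ _ (by norm_num) h1, Ph_left hw hs h1]
    rfl
  · rcases le_total y 1 with h2 | h2
    · have hsplit : ∫ v in (-1 : ℝ)..1, w v * (if y ≤ v then 1 else 0) =
          (∫ v in (-1 : ℝ)..y, w v * (if y ≤ v then 1 else 0)) +
            ∫ v in y..1, w v * (if y ≤ v then 1 else 0) := by
        have hii : ∀ α β : ℝ, IntervalIntegrable (fun v => w v * (if y ≤ v then (1 : ℝ) else 0))
            volume α β := by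
          intro α β
          have hm : Monotone fun v : ℝ => (if y ≤ v then (1 : ℝ) else 0) := by
            intro v v' hvv
            simp only
            by_cases h : y ≤ v
            · rw [if_pos h, if_pos (h.trans hvv)]
            · rw [if_neg h]
              split_ifs <;> norm_num
          exact (hm.intervalIntegrable (μ := volume) (a := α) (b := β)).continuousOn_mul
            hw.continuousOn
        exact (intervalIntegral.integral_add_adjacent_intervals (hii _ _) (hii _ _)).symm
      rw [hsplit, hcase2 _ _ h1 le_rfl, hcase _ _ h2 le_rfl, zero_add]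
      rfl
    · rw [hcase2 _ _ (by norm_num) h2, Ph_right hs h2]

lemma xd_swap (T : ℝ) (s s' : ℂ) : xd T s' s = -xd T s s' := by unfold xd; ring

/-- the averaged count of pairs above height one -/
lemma nav_RR {w : ℝ → ℝ} (hw : Continuous w) (hs : ∀ x, 1 < |x| → w x = 0) {a W T : ℝ}
    (hW : 0 < W) (hWa : W ≤ a) (hL : 0 < Real.log T) (S : Finset ℂ) :
    ∫ v in (-1 : ℝ)..1, w v * RR S (2 * Real.pi * (a + W * v) / Real.log T) =
      1 / 2 * ((∑ s ∈ S, ∑ s' ∈ S, mm s * mm s' * gA w a W (xd T s s')) - Ph w (-1) * EQ S) := by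
  have hpi := Real.pi_pos
  set L := Real.log T with hLd
  have hxpos : ∀ s s' : ℂ, 0 < xd T s s' ↔ 0 < s.im - s'.im := by
    intro s s'
    unfold xd
    have : 0 < Real.log T / (2 * Real.pi) := by positivity
    constructor
    · intro h
      by_contra hn
      exact absurd (mul_nonpos_of_nonpos_of_nonneg (not_lt.1 hn) this.le) (not_le.2 h)
    · intro h; positivity
  have hcond : ∀ (s s' : ℂ) (v : ℝ), s.im - s'.im ≤ 2 * Real.pi * (a + W * v) / L ↔
      xd T s s' ≤ a + W * v := by
    intro s s' v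
    unfold xd
    rw [le_div_iff₀ hL, ← mul_div_assoc, div_le_iff₀ (by positivity)]
    constructor <;> intro h <;> linarith
  have hii : ∀ x : ℝ, IntervalIntegrable (fun v => w v * (if x ≤ a + W * v then (1 : ℝ) else 0))
      volume (-1) 1 := by
    intro x
    have hm : Monotone fun v : ℝ => (if x ≤ a + W * v then (1 : ℝ) else 0) := by
      intro v v' hvv
      simp only
      by_cases h : x ≤ a + W * v
      · rw [if_pos h, if_pos (h.trans (by nlinarith only [hvv, hW]))]
      · rw [if_neg h]
        split_ifs <;> norm_num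
    exact (hm.intervalIntegrable (μ := volume) (a := (-1 : ℝ)) (b := 1)).continuousOn_mul
      hw.continuousOn
  -- one term
  have hterm : ∀ s s' : ℂ, ∀ v : ℝ, w v * (mm s * mm s' *
      (if 0 < s.im - s'.im ∧ s.im - s'.im ≤ 2 * Real.pi * (a + W * v) / L then 1 else 0)) =
      (if 0 < xd T s s' then mm s * mm s' else 0) *
        (w v * (if xd T s s' ≤ a + W * v then 1 else 0)) := by
    intro s s' v
    have hc := hcond s s' v
    by_cases h1 : 0 < s.im - s'.im
    · rw [if_pos ((hxpos s s').2 h1)]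
      by_cases h2 : xd T s s' ≤ a + W * v
      · rw [if_pos ⟨h1, hc.2 h2⟩, if_pos h2]; ring
      · rw [if_neg (fun h => h2 (hc.1 h.2)), if_neg h2]; ring
    · rw [if_neg (fun h => h1 h.1), if_neg (fun h => h1 ((hxpos s s').1 h))]
      ring
  have e1 : ∫ v in (-1 : ℝ)..1, w v * RR S (2 * Real.pi * (a + W * v) / L) =
      ∑ s ∈ S, ∑ s' ∈ S, (if 0 < xd T s s' then mm s * mm s' else 0) *
        Ph w ((xd T s s' - a) / W) := by
    have e2 : ∀ v, w v * RR S (2 * Real.pi * (a + W * v) / L) =
        ∑ s ∈ S, ∑ s' ∈ S, (if 0 < xd T s s' then mm s * mm s' else 0) *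
          (w v * (if xd T s s' ≤ a + W * v then 1 else 0)) := by
      intro v
      unfold RR
      rw [Finset.mul_sum]
      refine Finset.sum_congr rfl fun s _ => ?_
      rw [Finset.mul_sum]
      exact Finset.sum_congr rfl fun s' _ => hterm s s' v
    simp_rw [e2]
    rw [intervalIntegral.integral_finset_sum]
    · refine Finset.sum_congr rfl fun s _ => ?_
      rw [intervalIntegral.integral_finset_sum]
      · refine Finset.sum_congr rfl fun s' _ => ?_
        rw [intervalIntegral.integral_const_mul, nav_pair hw hs hW]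
      · intro s' _
        exact (hii _).const_mul _
    · intro s _
      have : ∀ s' ∈ S, IntervalIntegrable (fun v => (if 0 < xd T s s' then mm s * mm s' else 0) *
          (w v * (if xd T s s' ≤ a + W * v then 1 else 0))) volume (-1) 1 := fun s' _ =>
        (hii _).const_mul _
      have h2 := IntervalIntegrable.sum S this
      rwa [show (∑ s' ∈ S, fun v => (if 0 < xd T s s' then mm s * mm s' else 0) *
          (w v * (if xd T s s' ≤ a + W * v then 1 else 0))) = (fun v => ∑ s' ∈ S,
          (if 0 < xd T s s' then mm s * mm s' else 0) *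
          (w v * (if xd T s s' ≤ a + W * v then 1 else 0))) by
        funext v; rw [Finset.sum_apply]] at h2
  rw [e1]
  -- symmetrisation
  set P : ℝ := ∑ s ∈ S, ∑ s' ∈ S, (if 0 < xd T s s' then mm s * mm s' else 0) *
        Ph w ((xd T s s' - a) / W) with hP
  have hP' : P = ∑ s ∈ S, ∑ s' ∈ S, (if xd T s s' < 0 then mm s * mm s' else 0) *
        gA w a W (xd T s s') := by
    rw [hP, Finset.sum_comm]
    refine Finset.sum_congr rfl fun s _ => Finset.sum_congr rfl fun s' _ => ?_
    rw [xd_swap T s s']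
    by_cases h : xd T s s' < 0
    · rw [if_pos h, if_pos (by linarith), ← gA_neg, gA_pos hw hs hW hWa (by linarith)]
      ring
    · rw [if_neg h, if_neg (by linarith), zero_mul, zero_mul]
  have hP'' : P = ∑ s ∈ S, ∑ s' ∈ S, (if 0 < xd T s s' then mm s * mm s' else 0) *
        gA w a W (xd T s s') := by
    rw [hP]
    refine Finset.sum_congr rfl fun s _ => Finset.sum_congr rfl fun s' _ => ?_
    by_cases h : 0 < xd T s s'
    · rw [if_pos h, gA_pos hw hs hW hWa h.le]
    · rw [if_neg h, zero_mul, zero_mul]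
  have hE : Ph w (-1) * EQ S = ∑ s ∈ S, ∑ s' ∈ S, (if xd T s s' = 0 then mm s * mm s' else 0) *
        gA w a W (xd T s s') := by
    unfold EQ
    rw [Finset.mul_sum]
    refine Finset.sum_congr rfl fun s _ => ?_
    rw [Finset.mul_sum]
    refine Finset.sum_congr rfl fun s' _ => ?_
    have hiff : s.im = s'.im ↔ xd T s s' = 0 := by
      unfold xd
      rw [mul_eq_zero]
      constructor
      · intro h; left; linarith
      · intro h
        rcases h with h | h
        · linarith
        · exact absurd h (by positivity)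
    by_cases h : s.im = s'.im
    · have h' := hiff.1 h
      rw [if_pos h, if_pos h', h', gA_low hw hs hW hWa le_rfl (by linarith)]
      ring
    · have h' : ¬ xd T s s' = 0 := fun k => h (hiff.2 k)
      rw [if_neg h, if_neg h', mul_zero, zero_mul, mul_zero]
  have htot : ∑ s ∈ S, ∑ s' ∈ S, mm s * mm s' * gA w a W (xd T s s') = P + P + Ph w (-1) * EQ S := by
    conv_rhs => rw [hE]; enter [1, 1]; rw [hP'']
    conv_rhs => enter [1, 2]; rw [hP']
    rw [← Finset.sum_add_distrib, ← Finset.sum_add_distrib]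
    refine Finset.sum_congr rfl fun s _ => ?_
    rw [← Finset.sum_add_distrib, ← Finset.sum_add_distrib]
    refine Finset.sum_congr rfl fun s' _ => ?_
    rcases lt_trichotomy (xd T s s') 0 with h | h | h
    · rw [if_neg (not_lt.2 h.le), if_pos h, if_neg h.ne]; ring
    · rw [if_neg (not_lt.2 h.le), if_neg (not_lt.2 h.ge), if_pos h]; ring
    · rw [if_pos h, if_neg (not_lt.2 h.le), if_neg h.ne']; ring
  rw [htot]
  ring

lemma MM_deriv (t : ℝ) : HasDerivAt MM (ks t / (2 * Real.pi)) t := by
  have h : MM = fun a => (a - II a) / (2 * Real.pi) := funext MM_eq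
  rw [h]
  exact ((hasDerivAt_id t).sub (II_deriv t)).div_const _

lemma MM_int (α β : ℝ) : MM β - MM α = ∫ x in α..β, ks x / (2 * Real.pi) := by
  rw [intervalIntegral.integral_eq_sub_of_hasDerivAt (fun x _ => MM_deriv x)
    ((ks_cont.div_const _).intervalIntegrable _ _)]

lemma ks_neg (x : ℝ) : ks (-x) = ks x := by
  unfold ks
  rw [mul_neg, Real.sinc_neg]

/-- the averaged main term -/
lemma nav_main {w : ℝ → ℝ} (hw : Continuous w) (hs : ∀ x, 1 < |x| → w x = 0) {a W : ℝ}
    (hW : 0 < W) (hWa : W ≤ a) :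
    ∫ v in (-1 : ℝ)..1, w v * MM (a + W * v) = 1 / (4 * Real.pi) * ∫ x, gA w a W x * ks x := by
  have hpi := Real.pi_pos
  have hPc : Continuous (Ph w) := continuous_iff_continuousAt.2 fun y => (Ph_deriv hw y).continuousAt
  have hgc : Continuous (gA w a W) := by
    unfold gA
    fun_prop
  -- integration by parts
  have hd1 : ∀ v ∈ Set.uIcc (-1 : ℝ) 1, HasDerivAt (Ph w) (-w v) v := fun v _ => Ph_deriv hw v
  have hd2 : ∀ v ∈ Set.uIcc (-1 : ℝ) 1, HasDerivAt (fun v => MM (a + W * v))
      (ks (a + W * v) / (2 * Real.pi) * W) v := by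
    intro v _
    have h1 : HasDerivAt (fun v : ℝ => a + W * v) W v := by
      simpa using ((hasDerivAt_id v).const_mul W).const_add a
    exact HasDerivAt.comp (h₂ := MM) v (MM_deriv (a + W * v)) h1
  have hib := intervalIntegral.integral_deriv_mul_eq_sub hd1 hd2 (hw.neg.intervalIntegrable _ _)
    (((ks_cont.comp (by fun_prop : Continuous fun v : ℝ => a + W * v)).div_const _).mul
      continuous_const |>.intervalIntegrable _ _)
  rw [Ph_right hs le_rfl, zero_mul, zero_sub] at hib
  have i1 : IntervalIntegrable (fun v => -w v * MM (a + W * v)) volume (-1) 1 :=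
    (hw.neg.mul (MM_cont.comp (by fun_prop : Continuous fun v : ℝ => a + W * v))).intervalIntegrable _ _
  have i2 : IntervalIntegrable (fun v => Ph w v * (ks (a + W * v) / (2 * Real.pi) * W)) volume (-1) 1 :=
    (hPc.mul (((ks_cont.comp (by fun_prop : Continuous fun v : ℝ => a + W * v)).div_const _).mul
      continuous_const)).intervalIntegrable _ _
  rw [intervalIntegral.integral_add i1 i2] at hib
  have e1 : ∫ v in (-1 : ℝ)..1, -w v * MM (a + W * v) = -∫ v in (-1 : ℝ)..1, w v * MM (a + W * v) := by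
    rw [← intervalIntegral.integral_neg]
    exact intervalIntegral.integral_congr fun v _ => by ring
  have e2 : ∫ v in (-1 : ℝ)..1, Ph w v * (ks (a + W * v) / (2 * Real.pi) * W) =
      ∫ x in (a - W)..(a + W), gA w a W x * (ks x / (2 * Real.pi)) := by
    have h1 : W * ∫ v in (-1 : ℝ)..1, (fun x => Ph w ((x - a) / W) * (ks x / (2 * Real.pi)))
        (a + W * v) = ∫ x in (a + W * (-1))..(a + W * 1),
        (fun x => Ph w ((x - a) / W) * (ks x / (2 * Real.pi))) x :=
      intervalIntegral.mul_integral_comp_add_mul (a := (-1 : ℝ)) (b := 1)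
        (f := fun x => Ph w ((x - a) / W) * (ks x / (2 * Real.pi))) W a
    have h2 : ∫ x in (a - W)..(a + W), gA w a W x * (ks x / (2 * Real.pi)) =
        ∫ x in (a + W * (-1))..(a + W * 1), Ph w ((x - a) / W) * (ks x / (2 * Real.pi)) := by
      rw [show a + W * (-1) = a - W by ring, show a + W * 1 = a + W by ring]
      refine intervalIntegral.integral_congr fun x hx => ?_
      rw [Set.uIcc_of_le (by linarith)] at hx
      rw [gA_pos hw hs hW hWa (by linarith [hx.1])]
    rw [h2, ← h1, ← intervalIntegral.integral_const_mul]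
    refine intervalIntegral.integral_congr fun v _ => ?_
    simp only
    rw [show (a + W * v - a) / W = v by field_simp; ring]
    ring
  have e3 : Ph w (-1) * MM (a + W * (-1)) =
      ∫ x in (0 : ℝ)..(a - W), gA w a W x * (ks x / (2 * Real.pi)) := by
    have h0 : MM 0 = 0 := by
      unfold MM
      rw [intervalIntegral.integral_same, mul_zero]
    have h1 := MM_int 0 (a - W)
    rw [h0, sub_zero] at h1
    rw [show a + W * (-1) = a - W by ring, h1, ← intervalIntegral.integral_const_mul]
    refine intervalIntegral.integral_congr fun x hx => ?_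
    rw [Set.uIcc_of_le (by linarith)] at hx
    rw [gA_low hw hs hW hWa hx.1 hx.2]
  have hfc : Continuous fun x => gA w a W x * (ks x / (2 * Real.pi)) :=
    hgc.mul (ks_cont.div_const _)
  have e4 : ∫ v in (-1 : ℝ)..1, w v * MM (a + W * v) =
      ∫ x in (0 : ℝ)..(a + W), gA w a W x * (ks x / (2 * Real.pi)) := by
    rw [← intervalIntegral.integral_add_adjacent_intervals (hfc.intervalIntegrable 0 (a - W))
      (hfc.intervalIntegrable (a - W) (a + W)), ← e3, ← e2]
    rw [e1] at hib
    linarith
  have e5 := even_int hfc (fun x => by simp only [gA_neg, ks_neg]) (a + W)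
  have e6 : ∫ x in (-(a + W))..(a + W), gA w a W x * (ks x / (2 * Real.pi)) =
      ∫ x, gA w a W x * (ks x / (2 * Real.pi)) := by
    rw [intervalIntegral.integral_of_le (by linarith)]
    refine setIntegral_eq_integral_of_ae_compl_eq_zero ?_
    have : ∀ᵐ x : ℝ, x ≠ -(a + W) := by
      rw [ae_iff]; simp
    filter_upwards [this] with x hx hx2
    have h3 : a + W < |x| := by
      by_contra hn
      have hn' := abs_le.1 (not_lt.1 hn)
      exact hx2 ⟨lt_of_le_of_ne hn'.1 (Ne.symm hx), hn'.2⟩
    rw [gA_out hw hs hW hWa h3, zero_mul]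
  have e7 : ∫ x, gA w a W x * (ks x / (2 * Real.pi)) = 1 / (2 * Real.pi) * ∫ x, gA w a W x * ks x := by
    rw [← integral_const_mul]
    refine integral_congr_ae (Eventually.of_forall fun x => ?_)
    simp only
    ring
  rw [e4]
  rw [e6, e7] at e5
  have : ∫ x in (0 : ℝ)..(a + W), gA w a W x * (ks x / (2 * Real.pi)) =
      1 / 2 * (1 / (2 * Real.pi) * ∫ x, gA w a W x * ks x) := by linarith
  rw [this]
  field_simp
  ring

end Pool.Agent.W2helper93.SW
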