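import Pool.Agent.W2helper93.SW.Nav

set_option autoImplicit false

/-! # Smooth averages of the pair count, the bound -/

namespace Pool.Agent.W2helper93.SW

open Complex Filter Topology MeasureTheory Set
open Pool.Agent.W2helper93.NV
open Pool.Agent.TH850.UV
open H370 (zz hh mult Zf zset AA good_zeta mem_Zf NN NN_add NN_mono zcount nn_asymp finsum_Zf)

lemma dp_deriv {h h' : ℝ → ℝ} (hd : ∀ x, HasDerivAt h (h' x) x) (a W x : ℝ) :
    HasDerivAt (fun x => h ((x - a) / W)) (h' ((x - a) / W) / W) x := by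
  have h1 : HasDerivAt (fun x : ℝ => (x - a) / W) (1 / W) x :=
    ((hasDerivAt_id x).sub_const a).div_const W
  have h2 := HasDerivAt.comp x (hd ((x - a) / W)) h1
  refine h2.congr_deriv ?_
  ring

lemma dm_deriv {h h' : ℝ → ℝ} (hd : ∀ x, HasDerivAt h (h' x) x) (a W x : ℝ) :
    HasDerivAt (fun x => h ((-x - a) / W)) (-(h' ((-x - a) / W) / W)) x := by
  have h1 : HasDerivAt (fun x : ℝ => (-x - a) / W) (-1 / W) x :=
    ((hasDerivAt_neg x).sub_const a).div_const W
  have h2 := HasDerivAt.comp x (hd ((-x - a) / W)) h1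
  refine h2.congr_deriv ?_
  ring

lemma dp_int {h : ℝ → ℝ} (hi : Integrable h) {W : ℝ} (hW : 0 < W) (a : ℝ) :
    Integrable (fun x => |h ((x - a) / W)|) ∧ ∫ x, |h ((x - a) / W)| = W * ∫ x, |h x| := by
  have hi' : Integrable fun x => |h x| := hi.norm
  constructor
  · exact (hi'.comp_div hW.ne').comp_sub_right a
  · rw [integral_sub_right_eq_self (fun x => |h (x / W)|) a,
      Measure.integral_comp_div (fun x => |h x|) W, smul_eq_mul, abs_of_pos hW]

lemma dm_int {h : ℝ → ℝ} (hi : Integrable h) {W : ℝ} (hW : 0 < W) (a : ℝ) :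
    Integrable (fun x => |h ((-x - a) / W)|) ∧ ∫ x, |h ((-x - a) / W)| = W * ∫ x, |h x| := by
  obtain ⟨h1, h2⟩ := dp_int hi hW a
  constructor
  · exact h1.comp_neg
  · rw [← h2]
    exact integral_neg_eq_self (fun x => |h ((x - a) / W)|) volume

lemma two_le {h : ℝ → ℝ} (hi : Integrable h) {W : ℝ} (hW : 0 < W) (a : ℝ) {f : ℝ → ℝ}
    {c : ℝ} (hf : ∀ x, |f x| ≤ c * (|h ((-x - a) / W)| + |h ((x - a) / W)|))
    (hfi : Integrable f) : ∫ x, |f x| ≤ c * (2 * W * ∫ x, |h x|) := by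
  obtain ⟨h1, h2⟩ := dp_int hi hW a
  obtain ⟨h3, h4⟩ := dm_int hi hW a
  calc ∫ x, |f x| ≤ ∫ x, c * (|h ((-x - a) / W)| + |h ((x - a) / W)|) :=
        integral_mono hfi.norm ((h3.add h1).const_mul c) hf
    _ = c * (W * (∫ x, |h x|) + W * ∫ x, |h x|) := by
        rw [integral_const_mul, integral_add h3 h1, h2, h4]
    _ = _ := by ring

lemma out_of {a W : ℝ} (hW : 0 < W) {x : ℝ} (hWa : W ≤ a) (hx : a + W < |x|) :
    1 < |(x - a) / W| ∧ 1 < |(-x - a) / W| := by
  have h : ∀ y : ℝ, 0 ≤ y → a + W < y → 1 < |(y - a) / W| ∧ 1 < |(-y - a) / W| := by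
    intro y hy h1
    constructor
    · refine lt_of_lt_of_le ?_ (le_abs_self _)
      rw [lt_div_iff₀ hW]; linarith
    · refine lt_of_lt_of_le ?_ (neg_le_abs _)
      rw [← neg_div, lt_div_iff₀ hW]; linarith
  rcases le_total 0 x with h0 | h0
  · rw [abs_of_nonneg h0] at hx
    exact h x h0 hx
  · rw [abs_of_nonpos h0] at hx
    have := h (-x) (by linarith) hx
    rw [neg_neg] at this
    exact ⟨this.2, this.1⟩

theorem nav {lam0 : ℝ} (h16 : 16 ≤ lam0) (hWM : WMom lam0) : ∃ C T0 : ℝ, 0 < C ∧ 10 ≤ T0 ∧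
    ∀ T : ℝ, T0 ≤ T → ∀ w w1 w2 w3 : ℝ → ℝ, (∀ x, HasDerivAt w (w1 x) x) →
      (∀ x, HasDerivAt w1 (w2 x) x) → (∀ x, HasDerivAt w2 (w3 x) x) → Continuous w3 →
      (∀ x, 1 < |x| → w x = 0) → (∀ x, 1 < |x| → w1 x = 0) → (∀ x, 1 < |x| → w2 x = 0) →
      (∀ x, 1 < |x| → w3 x = 0) →
      ∀ a W : ℝ, 0 < W → W ≤ a → (1 + a + W) ^ 5 ≤ Real.log T →
        |∫ v in (-1 : ℝ)..1, w v * gg T (a + W * v)| ≤
          C * ((∫ z, |w z|) + (∫ z, |w1 z|) + ∫ z, |w3 z|) * (T * Real.log T / W ^ 2) := by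
  obtain ⟨C1, T1, hC1, hT1, hmsc⟩ := msc h16 hWM
  obtain ⟨C2, T2, hC2, hT2, htot⟩ := tot
  have hpi := Real.pi_gt_three
  have hpi0 := Real.pi_pos
  have hK := KLow_nonneg
  set K := KLow with hKdef
  refine ⟨4 * C1 + C2 + 3 * K, max T1 T2, by positivity, hT1.trans (le_max_left _ _),
    fun T hT w w1 w2 w3 d1 d2 d3 c3 s0 s1 s2 s3 a W hW hWa hLa => ?_⟩
  have hT10 : 10 ≤ T := hT1.trans ((le_max_left _ _).trans hT)
  have hTT1 : T1 ≤ T := (le_max_left _ _).trans hT
  have hTT2 : T2 ≤ T := (le_max_right _ _).trans hT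
  have hT0 : 0 < T := by linarith
  have hLpos : 0 < Real.log T := Real.log_pos (by linarith)
  have ha : 0 < a := hW.trans_le hWa
  have c0 : Continuous w := continuous_iff_continuousAt.2 fun x => (d1 x).continuousAt
  have c1 : Continuous w1 := continuous_iff_continuousAt.2 fun x => (d2 x).continuousAt
  have c2 : Continuous w2 := continuous_iff_continuousAt.2 fun x => (d3 x).continuousAt
  have i0 := int_of_supp c0 s0
  have i1 := int_of_supp c1 s1
  have i3 := int_of_supp c3 s3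
  have hPc : Continuous (Ph w) := continuous_iff_continuousAt.2 fun y => (Ph_deriv c0 y).continuousAt
  -- the window
  set f : ℝ → ℝ := gA w a W with hf
  set f1 : ℝ → ℝ := fun x => 1 / W * (w ((-x - a) / W) - w ((x - a) / W)) with hf1
  set f2 : ℝ → ℝ := fun x => 1 / W ^ 2 * (-w1 ((-x - a) / W) - w1 ((x - a) / W)) with hf2
  set f3 : ℝ → ℝ := fun x => 1 / W ^ 3 * (w2 ((-x - a) / W) - w2 ((x - a) / W)) with hf3
  set f4 : ℝ → ℝ := fun x => 1 / W ^ 4 * (-w3 ((-x - a) / W) - w3 ((x - a) / W)) with hf4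
  have D1 : ∀ x, HasDerivAt f (f1 x) x := by
    intro x
    have h1 := dp_deriv (Ph_deriv c0) a W x
    have h2 := dm_deriv (Ph_deriv c0) a W x
    refine ((h1.add h2).sub_const (Ph w (-1))).congr_deriv ?_
    simp only [hf1]
    field_simp
    ring
  have D2 : ∀ x, HasDerivAt f1 (f2 x) x := by
    intro x
    have h1 := dp_deriv d1 a W x
    have h2 := dm_deriv d1 a W x
    refine ((h2.sub h1).const_mul (1 / W)).congr_deriv ?_
    simp only [hf2]
    field_simp
  have D3 : ∀ x, HasDerivAt f2 (f3 x) x := by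
    intro x
    have h1 := dp_deriv d2 a W x
    have h2 := dm_deriv d2 a W x
    refine ((h2.neg.sub h1).const_mul (1 / W ^ 2)).congr_deriv ?_
    simp only [hf3]
    field_simp
  have D4 : ∀ x, HasDerivAt f3 (f4 x) x := by
    intro x
    have h1 := dp_deriv d3 a W x
    have h2 := dm_deriv d3 a W x
    refine ((h2.sub h1).const_mul (1 / W ^ 3)).congr_deriv ?_
    simp only [hf4]
    field_simp
  have C4 : Continuous f4 := by
    simp only [hf4]
    fun_prop
  have C0 : Continuous f := by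
    simp only [hf]
    unfold gA
    fun_prop
  have C1' : Continuous f1 := by simp only [hf1]; fun_prop
  have C2' : Continuous f2 := by simp only [hf2]; fun_prop
  set A := a + W with hA
  have hA0 : 0 < A := by positivity
  have S0 : ∀ x, A < |x| → f x = 0 := fun x hx => gA_out c0 s0 hW hWa hx
  have S1 : ∀ x, A < |x| → f1 x = 0 := fun x hx => by
    obtain ⟨k1, k2⟩ := out_of hW hWa hx
    simp only [hf1, s0 _ k1, s0 _ k2, sub_zero, mul_zero]
  have S2 : ∀ x, A < |x| → f2 x = 0 := fun x hx => by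
    obtain ⟨k1, k2⟩ := out_of hW hWa hx
    simp only [hf2, s1 _ k1, s1 _ k2, neg_zero, sub_zero, mul_zero]
  have S3 : ∀ x, A < |x| → f3 x = 0 := fun x hx => by
    obtain ⟨k1, k2⟩ := out_of hW hWa hx
    simp only [hf3, s2 _ k1, s2 _ k2, sub_zero, mul_zero]
  have S4 : ∀ x, A < |x| → f4 x = 0 := fun x hx => by
    obtain ⟨k1, k2⟩ := out_of hW hWa hx
    simp only [hf4, s3 _ k1, s3 _ k2, neg_zero, sub_zero, mul_zero]
  have hmain := hmsc T hTT1 f f1 f2 f3 f4 D1 D2 D3 D4 C4 A S0 S1 S2 S3 S4 W hW (by linarith)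
    (by rw [hA, ← add_assoc]; exact hLa)
  set n0 : ℝ := ∫ z, |w z| with hn0
  set n1 : ℝ := ∫ z, |w1 z| with hn1
  set n3 : ℝ := ∫ z, |w3 z| with hn3
  have p0 : 0 ≤ n0 := integral_nonneg fun z => abs_nonneg _
  have p1 : 0 ≤ n1 := integral_nonneg fun z => abs_nonneg _
  have p3 : 0 ≤ n3 := integral_nonneg fun z => abs_nonneg _
  -- the norms
  have m0 : ∫ z, |f z| ≤ 2 * A * n0 := by
    have h1 : ∫ z, |f z| = ∫ z in Icc (-A) A, |f z| := by
      symm
      refine setIntegral_eq_integral_of_forall_compl_eq_zero fun x hx => ?_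
      have h3 : A < |x| := by
        by_contra hn
        exact hx (abs_le.1 (not_lt.1 hn))
      rw [S0 x h3, abs_zero]
    rw [h1]
    have h2 : ‖∫ z in Icc (-A) A, |f z|‖ ≤ n0 * (volume.real (Icc (-A) A)) := by
      refine norm_setIntegral_le_of_norm_le_const (by simp) fun x _ => ?_
      rw [Real.norm_eq_abs, abs_abs]
      exact gA_le c0 s0 hW hWa x
    rw [Real.volume_real_Icc_of_le (by linarith)] at h2
    refine (le_abs_self _).trans (h2.trans (le_of_eq ?_))
    ring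
  have m1 : ∫ z, |f1 z| ≤ 2 * n0 := by
    have := two_le i0 hW a (f := f1) (c := 1 / W) (fun x => by
      simp only [hf1]
      rw [abs_mul, abs_of_pos (by positivity : 0 < 1 / W)]
      exact mul_le_mul_of_nonneg_left (abs_sub _ _) (by positivity)) (int_of_supp C1' S1)
    refine this.trans (le_of_eq ?_)
    rw [← hn0]
    field_simp
  have m2 : ∫ z, |f2 z| ≤ 2 * n1 / W := by
    have := two_le i1 hW a (f := f2) (c := 1 / W ^ 2) (fun x => by
      simp only [hf2]
      rw [abs_mul, abs_of_pos (by positivity : 0 < 1 / W ^ 2)]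
      refine mul_le_mul_of_nonneg_left ((abs_sub _ _).trans ?_) (by positivity)
      rw [abs_neg]) (int_of_supp C2' S2)
    refine this.trans (le_of_eq ?_)
    rw [← hn1]
    field_simp
  have m4 : ∫ z, |f4 z| ≤ 2 * n3 / W ^ 3 := by
    have := two_le i3 hW a (f := f4) (c := 1 / W ^ 4) (fun x => by
      simp only [hf4]
      rw [abs_mul, abs_of_pos (by positivity : 0 < 1 / W ^ 4)]
      refine mul_le_mul_of_nonneg_left ((abs_sub _ _).trans ?_) (by positivity)
      rw [abs_neg]) (int_of_supp C4 S4)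
    refine this.trans (le_of_eq ?_)
    rw [← hn3]
    field_simp
  have hKn : Kn f f1 f2 f4 W A ≤ 4 * (n0 + n1 + n3) / W ^ 2 := by
    unfold Kn
    have hWA : W ≤ A := by linarith
    have q0 : (∫ z, |f z|) / A ^ 3 ≤ 2 * n0 / W ^ 2 := by
      calc (∫ z, |f z|) / A ^ 3 ≤ 2 * A * n0 / A ^ 3 := div_le_div_of_nonneg_right m0 (by positivity)
        _ = 2 * n0 / A ^ 2 := by field_simp
        _ ≤ 2 * n0 / W ^ 2 := by
            apply div_le_div_of_nonneg_left (by positivity) (by positivity)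
            exact pow_le_pow_left₀ hW.le hWA 2
    have q1 : (∫ z, |f1 z|) / W ^ 2 ≤ 2 * n0 / W ^ 2 := div_le_div_of_nonneg_right m1 (by positivity)
    have q2 : (∫ z, |f2 z|) / W ≤ 2 * n1 / W ^ 2 := by
      calc (∫ z, |f2 z|) / W ≤ 2 * n1 / W / W := div_le_div_of_nonneg_right m2 hW.le
        _ = _ := by field_simp
    have q4 : W * ∫ z, |f4 z| ≤ 2 * n3 / W ^ 2 := by
      calc W * ∫ z, |f4 z| ≤ W * (2 * n3 / W ^ 3) := mul_le_mul_of_nonneg_left m4 hW.le
        _ = _ := by field_simp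
    have q5 : 4 * (n0 + n1 + n3) / W ^ 2 = 2 * n0 / W ^ 2 + 2 * n0 / W ^ 2 + 2 * n1 / W ^ 2 +
        2 * n3 / W ^ 2 + (2 * n1 / W ^ 2 + 2 * n3 / W ^ 2) := by ring
    have q6 : 0 ≤ 2 * n1 / W ^ 2 + 2 * n3 / W ^ 2 := by positivity
    linarith
  have hLam : |Lam T f| ≤ C1 * (4 * (n0 + n1 + n3) / W ^ 2) :=
    hmain.trans (mul_le_mul_of_nonneg_left hKn hC1.le)
  -- the identity
  set L := Real.log T with hL
  set S := Zf riemannZeta 1 T with hS
  set I := Ph w (-1) with hI
  have hTL : 0 < T * L := by positivity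
  have hIle : |I| ≤ n0 := Ph_le c0 s0 (-1)
  have hB : 1 + a + W ≤ L := by
    refine le_trans ?_ hLa
    have h1 : 1 ≤ 1 + a + W := by linarith
    calc 1 + a + W = (1 + a + W) ^ 1 := (pow_one _).symm
      _ ≤ (1 + a + W) ^ 5 := pow_le_pow_right₀ h1 (by norm_num)
  have hW2 : W ^ 2 ≤ L := by
    refine le_trans ?_ hLa
    have h1 : 1 ≤ 1 + a + W := by linarith
    calc W ^ 2 ≤ (1 + a + W) ^ 2 := pow_le_pow_left₀ hW.le (by linarith) 2
      _ ≤ (1 + a + W) ^ 5 := pow_le_pow_right₀ h1 (by norm_num)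
  have haff : ∀ v ∈ Set.Icc (-1 : ℝ) 1, 2 * Real.pi * (a + W * v) / L ≤ 7 := by
    intro v hv
    rw [div_le_iff₀ hLpos]
    have h1 : a + W * v ≤ L := by nlinarith only [hB, hv.2, hW]
    have hpi2 := Real.pi_lt_d2
    nlinarith only [h1, hpi2, hLpos, hpi0]
  have jN : IntervalIntegrable (fun v => w v * (Nstar T (a + W * v) : ℝ)) volume (-1) 1 := by
    have hm : Monotone fun v : ℝ => (Nstar T (a + W * v) : ℝ) := fun v v' hv =>
      Nat.cast_le.2 (Nstar_mono (by linarith) (by nlinarith only [hv, hW]))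
    exact (hm.intervalIntegrable (μ := volume) (a := (-1 : ℝ)) (b := 1)).continuousOn_mul
      c0.continuousOn
  have jR : IntervalIntegrable (fun v => w v * RR S (2 * Real.pi * (a + W * v) / L)) volume (-1) 1 := by
    have hm : Monotone fun v : ℝ => RR S (2 * Real.pi * (a + W * v) / L) := fun v v' hv => by
      apply RR_mono
      apply div_le_div_of_nonneg_right _ hLpos.le
      nlinarith only [mul_le_mul_of_nonneg_left hv hW.le, hpi0]
    exact (hm.intervalIntegrable (μ := volume) (a := (-1 : ℝ)) (b := 1)).continuousOn_mul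
      c0.continuousOn
  have jM : IntervalIntegrable (fun v => w v * MM (a + W * v)) volume (-1) 1 :=
    (c0.mul (MM_cont.comp (by fun_prop : Continuous fun v : ℝ => a + W * v))).intervalIntegrable _ _
  have jw : IntervalIntegrable w volume (-1) 1 := c0.intervalIntegrable _ _
  have e0 : ∫ v in (-1 : ℝ)..1, w v * gg T (a + W * v) =
      (∫ v in (-1 : ℝ)..1, w v * (Nstar T (a + W * v) : ℝ)) + DD T * I -
        T * L * ∫ v in (-1 : ℝ)..1, w v * MM (a + W * v) := by
    have h1 : ∀ v, w v * gg T (a + W * v) = w v * (Nstar T (a + W * v) : ℝ) + DD T * w v -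
        T * L * (w v * MM (a + W * v)) := by
      intro v
      unfold gg
      ring
    simp_rw [h1]
    have j1 : IntervalIntegrable (fun v => w v * (Nstar T (a + W * v) : ℝ) + DD T * w v)
        volume (-1) 1 := jN.add (jw.const_mul _)
    rw [intervalIntegral.integral_sub j1 (jM.const_mul _),
      intervalIntegral.integral_add jN (jw.const_mul _), intervalIntegral.integral_const_mul,
      intervalIntegral.integral_const_mul]
    rfl
  have e1 : |(∫ v in (-1 : ℝ)..1, w v * (Nstar T (a + W * v) : ℝ)) -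
      ∫ v in (-1 : ℝ)..1, w v * RR S (2 * Real.pi * (a + W * v) / L)| ≤ K * n0 := by
    rw [← intervalIntegral.integral_sub jN jR]
    have h1 : ∀ v ∈ Set.Icc (-1 : ℝ) 1, |w v * (Nstar T (a + W * v) : ℝ) -
        w v * RR S (2 * Real.pi * (a + W * v) / L)| ≤ K * |w v| := by
      intro v hv
      have h2 := Nstar_cmp (T := T) (a := a + W * v) (haff v hv)
      rw [← mul_sub, abs_mul, mul_comm]
      apply mul_le_mul_of_nonneg_right _ (abs_nonneg _)
      rw [abs_of_nonneg (by linarith [h2.1])]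
      linarith [h2.2]
    have h3 : |∫ v in (-1 : ℝ)..1, (w v * (Nstar T (a + W * v) : ℝ) -
        w v * RR S (2 * Real.pi * (a + W * v) / L))| ≤ ∫ v in (-1 : ℝ)..1, K * |w v| := by
      refine (intervalIntegral.abs_integral_le_integral_abs (by norm_num)).trans ?_
      exact intervalIntegral.integral_mono_on (by norm_num) (jN.sub jR).abs
        (jw.abs.const_mul K) h1
    refine h3.trans ?_
    rw [intervalIntegral.integral_const_mul, intervalIntegral.integral_of_le (by norm_num)]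
    apply mul_le_mul_of_nonneg_left _ hK
    exact setIntegral_le_integral i0.norm (Eventually.of_forall fun z => norm_nonneg (w z))
  have e2 := nav_RR (T := T) c0 s0 hW hWa hLpos S
  have e3 := nav_main c0 s0 hW hWa
  have e4 : Lam T f = 2 * Real.pi / (T * L) * (∑ s ∈ S, ∑ s' ∈ S, mm s * mm s' *
      gA w a W (xd T s s')) - (I + ∫ x, gA w a W x * ks x) := by
    have h0 : gA w a W 0 = I := gA_low c0 s0 hW hWa le_rfl (by linarith)
    unfold Lam mu gue
    rw [hf, h0]
  set Sg : ℝ := ∑ s ∈ S, ∑ s' ∈ S, mm s * mm s' * gA w a W (xd T s s') with hSg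
  set G : ℝ := ∫ x, gA w a W x * ks x with hG
  have e5 : 1 / 2 * Sg = T * L / (4 * Real.pi) * (Lam T f + I + G) := by
    rw [e4]
    field_simp
    ring
  have hNE := NE_cmp T
  have hNT := NT_cmp T
  have hN := htot T hTT2
  set R1 := (∫ v in (-1 : ℝ)..1, w v * (Nstar T (a + W * v) : ℝ)) -
      ∫ v in (-1 : ℝ)..1, w v * RR S (2 * Real.pi * (a + W * v) / L) with hR1
  have e6 : ∫ v in (-1 : ℝ)..1, w v * gg T (a + W * v) =
      T * L / (4 * Real.pi) * Lam T f + (I * (((NE T : ℝ) - EQ S) / 2) -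
        I * (((NT T : ℝ) - T * L / (2 * Real.pi)) / 2)) + R1 := by
    rw [e0]
    have h1 : ∫ v in (-1 : ℝ)..1, w v * (Nstar T (a + W * v) : ℝ) =
        R1 + ∫ v in (-1 : ℝ)..1, w v * RR S (2 * Real.pi * (a + W * v) / L) := by rw [hR1]; ring
    rw [h1, e2, e3, mul_sub, e5]
    unfold DD
    field_simp
    ring
  rw [e6]
  have r1 : |T * L / (4 * Real.pi) * Lam T f| ≤ 4 * C1 * (n0 + n1 + n3) * (T * L / W ^ 2) := by
    rw [abs_mul, abs_of_pos (by positivity : 0 < T * L / (4 * Real.pi))]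
    have h1 : T * L / (4 * Real.pi) ≤ T * L := div_le_self hTL.le (by linarith)
    calc T * L / (4 * Real.pi) * |Lam T f| ≤ T * L * (C1 * (4 * (n0 + n1 + n3) / W ^ 2)) :=
          mul_le_mul h1 hLam (abs_nonneg _) hTL.le
      _ = _ := by ring
  have hT1W : T ≤ T * L / W ^ 2 := by
    rw [le_div_iff₀ (by positivity)]
    exact mul_le_mul_of_nonneg_left hW2 hT0.le
  have h1T : 1 ≤ T * L / W ^ 2 := by linarith
  have r2 : |I * (((NE T : ℝ) - EQ S) / 2)| ≤ n0 * K := by
    rw [abs_mul]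
    refine mul_le_mul hIle ?_ (abs_nonneg _) p0
    rw [abs_of_nonneg (by linarith [hNE.1])]
    linarith [hNE.2]
  have r3 : |I * (((NT T : ℝ) - T * L / (2 * Real.pi)) / 2)| ≤ n0 * (K + C2 * T) := by
    rw [abs_mul]
    refine mul_le_mul hIle ?_ (abs_nonneg _) p0
    rw [abs_le] at hN ⊢
    have q2 : 0 ≤ C2 * T := by positivity
    constructor <;> linarith [hN.1, hN.2, hNT.1, hNT.2]
  refine (abs_add_le _ _).trans ((add_le_add ((abs_add_le _ _).trans (add_le_add r1
    ((abs_sub _ _).trans (add_le_add r2 r3)))) e1).trans ?_)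
  set X := T * L / W ^ 2 with hX
  have k1 : n0 * K ≤ K * n0 * X := by
    have := mul_le_mul_of_nonneg_left h1T (mul_nonneg hK p0)
    linarith
  have k2 : n0 * (C2 * T) ≤ C2 * n0 * X := by
    have := mul_le_mul_of_nonneg_left hT1W (mul_nonneg hC2.le p0)
    linarith
  have k3 : n0 ≤ n0 + n1 + n3 := by linarith
  have hX0 : 0 ≤ X := by linarith
  have k4 : (C2 + 3 * K) * n0 * X ≤ (C2 + 3 * K) * (n0 + n1 + n3) * X := by
    apply mul_le_mul_of_nonneg_right _ hX0
    exact mul_le_mul_of_nonneg_left k3 (by positivity)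
  have k5 : (4 * C1 + C2 + 3 * K) * (n0 + n1 + n3) * X = 4 * C1 * (n0 + n1 + n3) * X +
      (C2 + 3 * K) * (n0 + n1 + n3) * X := by ring
  rw [k5]
  nlinarith only [k1, k2, k4]

end Pool.Agent.W2helper93.SW
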