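import Pool.Agent.W2helper93.SW.Psi
import Pool.Agent.W2helper93.NV.Glob

set_option autoImplicit false

/-! # The number of pairs at a given distance -/

namespace Pool.Agent.W2helper93.SW

open Complex Filter Topology MeasureTheory Set
open Pool.Agent.W2helper93.NV
open Pool.Agent.TH850.UV
open H370 (zz hh mult Zf zset AA good_zeta mem_Zf NN NN_add NN_mono zcount nn_asymp finsum_Zf)

lemma mm2' (s s' : ℂ) : 0 ≤ mm s * mm s' := mul_nonneg (mm_nonneg s) (mm_nonneg s')

/-- shifted pairs are not more numerous than close pairs -/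
lemma shift_le {T h : ℝ} (hh : 0 ≤ h) (y : ℝ) :
    ∑ s ∈ Zf riemannZeta 1 T, ∑ s' ∈ Zf riemannZeta 1 T, mm s * mm s' *
      max 0 (h - |s.im - s'.im + y|) ≤ NV.PSum (Zf riemannZeta 1 T) h := by
  set S := Zf riemannZeta 1 T with hS
  have hS1 : ∀ z ∈ S, 1 < z.im ∧ z.im ≤ T := by
    intro z hz
    rw [hS, mem_Zf good_zeta le_rfl] at hz
    exact ⟨hz.2.2.1, hz.2.2.2.1⟩
  set A : ℝ := 1 - h - |y| with hA
  set B : ℝ := max T 1 + |y| with hB
  have hy0 := abs_nonneg y
  have hy1 := neg_abs_le y
  have hy2 := le_abs_self y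
  have hAB : A ≤ B := by
    have := le_max_right T 1
    rw [hA, hB]; linarith
  have hT1 := le_max_left T 1
  set F : ℝ → ℝ := fun t => Nb S (t + h) - Nb S t with hF
  have hFB : BM F := ((Nb_BM S).shift h).sub (Nb_BM S)
  have hFe : ∀ t, F t = ∑ s ∈ S, mm s * wi h s t := fun t => Nb_diff hh S t
  have hwi : ∀ s : ℂ, ∀ t, wi h s (t + y) = wi h (s - y * I) t := by
    intro s t
    unfold wi
    have him : (s - y * I).im = s.im - y := by simp
    rw [him]
    by_cases h1 : t + y ∈ Ioc (s.im - h) s.im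
    · have h2 : t ∈ Ioc (s.im - y - h) (s.im - y) := ⟨by linarith [h1.1], by linarith [h1.2]⟩
      rw [Set.indicator_of_mem h1, Set.indicator_of_mem h2]
    · have h2 : t ∉ Ioc (s.im - y - h) (s.im - y) := fun h2 =>
        h1 ⟨by linarith [h2.1], by linarith [h2.2]⟩
      rw [Set.indicator_of_notMem h1, Set.indicator_of_notMem h2]
  have e1 : ∫ t in A..B, F t * F (t + y) =
      ∑ s ∈ S, ∑ s' ∈ S, mm s * mm s' * max 0 (h - |s.im - s'.im + y|) := by
    have e2 : ∀ t, F t * F (t + y) =
        ∑ s ∈ S, ∑ s' ∈ S, mm s * mm s' * (wi h s t * wi h (s' - y * I) t) := by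
      intro t
      rw [hFe, hFe, Finset.sum_mul_sum]
      refine Finset.sum_congr rfl fun s _ => Finset.sum_congr rfl fun s' _ => ?_
      rw [hwi]
      ring
    simp_rw [e2]
    have i1 : ∀ s s' : ℂ, IntervalIntegrable
        (fun t => mm s * mm s' * (wi h s t * wi h (s' - y * I) t)) volume A B := fun s s' =>
      (((wi_BM h s).mul (wi_BM h (s' - y * I))).ii A B).const_mul _
    rw [intervalIntegral.integral_finsetSum fun s _ => by
      have := IntervalIntegrable.sum S (f := fun s' t => mm s * mm s' * (wi h s t * wi h (s' - y * I) t))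
        (μ := volume) (a := A) (b := B) fun s' _ => i1 s s'
      refine this.congr fun t _ => ?_
      simp [Finset.sum_apply]]
    refine Finset.sum_congr rfl fun s hs => ?_
    rw [intervalIntegral.integral_finsetSum fun s' _ => i1 s s']
    refine Finset.sum_congr rfl fun s' _ => ?_
    have hs1 := hS1 s hs
    rw [intervalIntegral.integral_const_mul, wi_mul_int hh (by rw [hA]; linarith)
      (by rw [hB]; linarith)]
    have him : (s' - y * I).im = s'.im - y := by simp
    rw [him, show s.im - (s'.im - y) = s.im - s'.im + y by ring]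
  rw [← e1]
  have i2 : ∀ x z, IntervalIntegrable (fun t => F t ^ 2) volume x z := by
    intro x z
    simp_rw [sq]
    exact (hFB.mul hFB).ii x z
  have hFB' : BM fun t => F (t + y) := hFB.shift y
  have i3 : IntervalIntegrable (fun t => F (t + y) ^ 2) volume A B := by
    simp_rw [sq]
    exact (hFB'.mul hFB').ii A B
  have i4 : IntervalIntegrable (fun t => F t * F (t + y)) volume A B := (hFB.mul hFB').ii A B
  have h1 : ∫ t in A..B, F t * F (t + y) ≤ ∫ t in A..B, (1 / 2 * F t ^ 2 + 1 / 2 * F (t + y) ^ 2) := by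
    refine intervalIntegral.integral_mono_on hAB i4 (((i2 _ _).const_mul _).add (i3.const_mul _))
      fun t _ => ?_
    nlinarith only [sq_nonneg (F t - F (t + y))]
  rw [intervalIntegral.integral_add ((i2 _ _).const_mul _) (i3.const_mul _),
    intervalIntegral.integral_const_mul, intervalIntegral.integral_const_mul,
    intervalIntegral.integral_comp_add_right (fun t => F t ^ 2) y] at h1
  have h2 : ∫ t in A..B, F t ^ 2 = NV.PSum S h := by
    refine int_sq hh S (fun s hs => ?_) fun s hs => ?_
    · have := hS1 s hs; rw [hA]; linarith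
    · have := hS1 s hs; rw [hB]; linarith
  have h3 : ∫ t in (A + y)..(B + y), F t ^ 2 = NV.PSum S h := by
    refine int_sq hh S (fun s hs => ?_) fun s hs => ?_
    · have := hS1 s hs; rw [hA]; linarith
    · have := hS1 s hs; rw [hB]; linarith
  rw [h2, h3] at h1
  linarith

/-- the number of close pairs -/
lemma PSum_bd {lam0 : ℝ} (h16 : 16 ≤ lam0) (hW : WMom lam0) : ∃ C T0 : ℝ, 0 < C ∧ 10 ≤ T0 ∧
    ∀ T : ℝ, T0 ≤ T → NV.PSum (Zf riemannZeta 1 T) (2 * Real.pi * (2 * lam0) / Real.log T) ≤ C * T := by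
  obtain ⟨C, T1, hC, hT1, hg⟩ := glob h16 hW
  have hpi := Real.pi_pos
  set a := 2 * lam0 with ha
  have ha0 : 0 < a := by linarith
  have hla : 0 < Real.log a := Real.log_pos (by linarith)
  refine ⟨(1 + C) * (2 * Real.pi * a) ^ 2 + 1 / Real.pi ^ 2 * Real.log a + C,
    max T1 (Real.exp (a * Real.log a + 1)), by positivity, hT1.trans (le_max_left _ _), fun T hT => ?_⟩
  have hTT1 : T1 ≤ T := (le_max_left _ _).trans hT
  have hTe : Real.exp (a * Real.log a + 1) ≤ T := (le_max_right _ _).trans hT
  have hTpos : 0 < T := (Real.exp_pos _).trans_le hTe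
  set L := Real.log T with hL
  have hLa : a * Real.log a + 1 ≤ L := by rw [hL, Real.le_log_iff_exp_le hTpos]; exact hTe
  have hL1 : 1 ≤ L := by
    have : 0 < a * Real.log a := by positivity
    linarith
  have hLpos : 0 < L := by linarith
  obtain ⟨κ, hκ1, hκ2⟩ := hg T hTT1
  have h1 := hκ2 a le_rfl (by rw [← hL]; linarith)
  rw [← hL] at h1 hκ1
  have h2 := (abs_le.1 h1).2
  have h3 := (abs_le.1 hκ1).2
  have h4 : κ * (2 * Real.pi * a / L) ^ 2 ≤ (1 + C) * (2 * Real.pi * a) ^ 2 * T := by
    have h5 : κ ≤ (1 + C) * T * L ^ 2 := by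
      have k1 : T * L ^ 2 / (4 * Real.pi ^ 2) ≤ T * L ^ 2 := by
        apply div_le_self (by positivity)
        nlinarith only [Real.pi_gt_three]
      have k2 : C * T * L ≤ C * T * L ^ 2 := by
        apply mul_le_mul_of_nonneg_left _ (by positivity)
        nlinarith only [hL1]
      linarith
    calc κ * (2 * Real.pi * a / L) ^ 2 ≤ ((1 + C) * T * L ^ 2) * (2 * Real.pi * a / L) ^ 2 :=
          mul_le_mul_of_nonneg_right h5 (sq_nonneg _)
      _ = _ := by field_simp
  have h5 : T / Real.pi ^ 2 * Real.log a = 1 / Real.pi ^ 2 * Real.log a * T := by ring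
  rw [h5] at h2
  have h6 : ((1 + C) * (2 * Real.pi * a) ^ 2 + 1 / Real.pi ^ 2 * Real.log a + C) * T =
      (1 + C) * (2 * Real.pi * a) ^ 2 * T + 1 / Real.pi ^ 2 * Real.log a * T + C * T := by ring
  rw [h6]
  linarith

/-- the scaled difference of two heights -/
noncomputable def xd (T : ℝ) (s s' : ℂ) : ℝ := (s.im - s'.im) * (Real.log T / (2 * Real.pi))

/-- the weighted number of pairs near a given distance -/
theorem pb {lam0 : ℝ} (h16 : 16 ≤ lam0) (hW : WMom lam0) : ∃ C T0 : ℝ, 0 < C ∧ 10 ≤ T0 ∧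
    ∀ T : ℝ, T0 ≤ T → ∀ b : ℝ, 0 < b → b ≤ 1 → ∀ u : ℝ,
      ∑ s ∈ Zf riemannZeta 1 T, ∑ s' ∈ Zf riemannZeta 1 T,
        mm s * mm s' * (1 / (1 + b ^ 2 * (xd T s s' + u) ^ 2)) ≤ C * (T * Real.log T) / b := by
  obtain ⟨C, T0, hC, hT0, hP⟩ := PSum_bd h16 hW
  have hpi := Real.pi_pos
  set a := 2 * lam0 with ha
  have ha0 : 0 < a := by linarith
  set K : ℝ := 4 * (1 + a ^ 2) with hK
  have hK0 : 0 < K := by positivity
  refine ⟨K * C / a ^ 2, T0, by positivity, hT0, fun T hT b hb hb1 u => ?_⟩
  have hP' := hP T hT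
  have hTpos : 0 < T := by linarith
  set L := Real.log T with hL
  have hLpos : 0 < L := Real.log_pos (by linarith)
  set h := 2 * Real.pi * a / L with hh
  have hh0 : 0 < h := by positivity
  set c := L / (2 * Real.pi) with hc
  have hc0 : 0 < c := by positivity
  have hch : c * h = a := by rw [hc, hh]; field_simp
  set S := Zf riemannZeta 1 T with hS
  set W : ℝ → ℝ := fun y => (1 + (b * (u - y * c)) ^ 2)⁻¹ with hWd
  have hWc : Continuous W := by
    rw [hWd]
    exact Continuous.inv₀ (by fun_prop) fun y => by positivity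
  have hWpos : ∀ y, 0 < W y := fun y => by simp only [hWd]; positivity
  have hWint : Integrable W ∧ ∫ y, W y = Real.pi / (b * c) := by
    have h1 : W = fun y => (fun x : ℝ => (1 + x ^ 2)⁻¹) ((b * c) * (y - u / c)) := by
      funext y
      simp only [hWd]
      have : (b * (u - y * c)) ^ 2 = (b * c * (y - u / c)) ^ 2 := by field_simp; ring
      rw [this]
    have hbc : 0 < b * c := by positivity
    constructor
    · rw [h1]
      exact (integrable_inv_one_add_sq.comp_mul_left' hbc.ne').comp_sub_right (u / c)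
    · rw [h1, integral_sub_right_eq_self (fun y : ℝ => (1 + (b * c * y) ^ 2)⁻¹) (u / c),
        Measure.integral_comp_mul_left (fun x : ℝ => (1 + x ^ 2)⁻¹) (b * c),
        integral_univ_inv_one_add_sq, smul_eq_mul, abs_of_pos (by positivity)]
      field_simp
  set G : ℝ → ℝ := fun y => ∑ s ∈ S, ∑ s' ∈ S, mm s * mm s' * max 0 (h - |s.im - s'.im + y|) with hG
  have hGle : ∀ y, G y ≤ C * T := fun y => (shift_le hh0.le y).trans hP'
  have hcm : ∀ d : ℝ, Continuous fun y : ℝ => max 0 (h - |d + y|) := fun d => by fun_prop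
  have iWm : ∀ d : ℝ, Integrable fun y => W y * max 0 (h - |d + y|) := by
    intro d
    refine Integrable.mono' (hWint.1.mul_const h) (hWc.mul (hcm d)).aestronglyMeasurable
      (Eventually.of_forall fun y => ?_)
    rw [norm_mul, Real.norm_of_nonneg (hWpos y).le, Real.norm_of_nonneg (le_max_left _ _)]
    apply mul_le_mul_of_nonneg_left _ (hWpos y).le
    exact max_le hh0.le (by linarith [abs_nonneg (d + y)])
  -- a lower bound for each pair
  have hlow : ∀ d : ℝ, h ^ 2 / K * (1 / (1 + b ^ 2 * (d * c + u) ^ 2)) ≤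
      ∫ y, W y * max 0 (h - |d + y|) := by
    intro d
    have h1 : ∫ y in (-d - h / 2)..(-d + h / 2), h / 2 * (2 / K * (1 / (1 + b ^ 2 * (d * c + u) ^ 2))) ≤
        ∫ y in (-d - h / 2)..(-d + h / 2), W y * max 0 (h - |d + y|) := by
      refine intervalIntegral.integral_mono_on (by linarith) (continuous_const.intervalIntegrable _ _)
        ((hWc.mul (hcm d)).intervalIntegrable _ _) fun y hy => ?_
      have h2 : |d + y| ≤ h / 2 := abs_le.2 ⟨by linarith [hy.1], by linarith [hy.2]⟩
      have h3 : h / 2 ≤ max 0 (h - |d + y|) := le_max_of_le_right (by linarith)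
      have h4 : 2 / K * (1 / (1 + b ^ 2 * (d * c + u) ^ 2)) ≤ W y := by
        simp only [hWd]
        rw [div_mul_div_comm, mul_one, ← one_div, div_le_div_iff₀ (by positivity) (by positivity)]
        set p := b * (d * c + u) with hp
        set q := b * ((d + y) * c) with hq
        have h5 : (b * (u - y * c)) ^ 2 ≤ 2 * p ^ 2 + 2 * q ^ 2 := by
          have : b * (u - y * c) = p - q := by rw [hp, hq]; ring
          rw [this]
          nlinarith only [sq_nonneg (p + q)]
        have h6 : q ^ 2 ≤ a ^ 2 := by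
          have : |q| ≤ a := by
            rw [hq, abs_mul, abs_mul, abs_of_pos hb, abs_of_pos hc0]
            calc b * (|d + y| * c) ≤ 1 * (h / 2 * c) := by gcongr
              _ = a / 2 := by rw [← hch]; ring
              _ ≤ a := by linarith
          rw [← sq_abs q]
          exact pow_le_pow_left₀ (abs_nonneg _) this 2
        have h7 : b ^ 2 * (d * c + u) ^ 2 = p ^ 2 := by rw [hp]; ring
        rw [h7, hK]
        nlinarith only [h5, h6, sq_nonneg p, sq_nonneg a, mul_nonneg (sq_nonneg p) (sq_nonneg a)]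
      rw [mul_comm (W y)]
      exact mul_le_mul h3 h4 (by positivity) (le_trans (by positivity) h3)
    rw [intervalIntegral.integral_const, smul_eq_mul] at h1
    have e1 : (-d + h / 2 - (-d - h / 2)) * (h / 2 * (2 / K * (1 / (1 + b ^ 2 * (d * c + u) ^ 2)))) =
        h ^ 2 / K * (1 / (1 + b ^ 2 * (d * c + u) ^ 2)) := by ring
    rw [e1] at h1
    refine h1.trans ?_
    rw [intervalIntegral.integral_of_le (by linarith)]
    exact setIntegral_le_integral (iWm d) (Eventually.of_forall fun y =>
      mul_nonneg (hWpos y).le (le_max_left _ _))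
  have e2 : ∑ s ∈ S, ∑ s' ∈ S, mm s * mm s' * ∫ y, W y * max 0 (h - |s.im - s'.im + y|) =
      ∫ y, W y * G y := by
    have e3 : ∀ y, W y * G y = ∑ s ∈ S, ∑ s' ∈ S, mm s * mm s' * (W y * max 0 (h - |s.im - s'.im + y|)) := by
      intro y
      simp only [hG]
      rw [Finset.mul_sum]
      refine Finset.sum_congr rfl fun s _ => ?_
      rw [Finset.mul_sum]
      exact Finset.sum_congr rfl fun s' _ => by ring
    simp_rw [e3]
    rw [integral_finsetSum _ fun s _ => integrable_finsetSum _ fun s' _ =>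
      (iWm (s.im - s'.im)).const_mul _]
    refine Finset.sum_congr rfl fun s _ => ?_
    rw [integral_finsetSum _ fun s' _ => (iWm (s.im - s'.im)).const_mul _]
    exact Finset.sum_congr rfl fun s' _ => (integral_const_mul _ _).symm
  have h8 : ∫ y, W y * G y ≤ Real.pi / (b * c) * (C * T) := by
    rw [← hWint.2, ← integral_mul_const]
    have iG : Integrable fun y => W y * G y := by
      have e3 : (fun y => W y * G y) = fun y => ∑ s ∈ S, ∑ s' ∈ S, mm s * mm s' *
          (W y * max 0 (h - |s.im - s'.im + y|)) := by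
        funext y
        simp only [hG]
        rw [Finset.mul_sum]
        refine Finset.sum_congr rfl fun s _ => ?_
        rw [Finset.mul_sum]
        exact Finset.sum_congr rfl fun s' _ => by ring
      rw [e3]
      exact integrable_finsetSum _ fun s _ => integrable_finsetSum _ fun s' _ =>
        (iWm (s.im - s'.im)).const_mul _
    exact integral_mono iG (hWint.1.mul_const _) fun y =>
      mul_le_mul_of_nonneg_left (hGle y) (hWpos y).le
  have h9 : h ^ 2 / K * ∑ s ∈ S, ∑ s' ∈ S, mm s * mm s' * (1 / (1 + b ^ 2 * (xd T s s' + u) ^ 2)) ≤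
      ∑ s ∈ S, ∑ s' ∈ S, mm s * mm s' * ∫ y, W y * max 0 (h - |s.im - s'.im + y|) := by
    rw [Finset.mul_sum]
    refine Finset.sum_le_sum fun s _ => ?_
    rw [Finset.mul_sum]
    refine Finset.sum_le_sum fun s' _ => ?_
    have := mul_le_mul_of_nonneg_left (hlow (s.im - s'.im)) (mm2' s s')
    refine le_trans (le_of_eq ?_) this
    unfold xd
    ring
  have h10 := h9.trans (e2.le.trans h8)
  have h11 : ∑ s ∈ S, ∑ s' ∈ S, mm s * mm s' * (1 / (1 + b ^ 2 * (xd T s s' + u) ^ 2)) ≤
      K / h ^ 2 * (Real.pi / (b * c) * (C * T)) := by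
    calc _ = K / h ^ 2 * (h ^ 2 / K * ∑ s ∈ S, ∑ s' ∈ S, mm s * mm s' *
          (1 / (1 + b ^ 2 * (xd T s s' + u) ^ 2))) := by field_simp
      _ ≤ _ := mul_le_mul_of_nonneg_left h10 (by positivity)
  refine h11.trans ?_
  have e4 : K / h ^ 2 * (Real.pi / (b * c) * (C * T)) = K * C / a ^ 2 * (T * L) / b * (1 / 2) := by
    rw [hh, hc]; field_simp
  rw [e4]
  have : 0 ≤ K * C / a ^ 2 * (T * L) / b := by positivity
  linarith

end Pool.Agent.W2helper93.SW
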