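import Pool.Agent.W2helper93.SW.Blk
import Pool.Agent.Helper7.OT.Sinc

set_option autoImplicit false

/-! # The autocorrelation of the kernel -/

namespace Pool.Agent.W2helper93.SW

open Complex Filter Topology MeasureTheory Set
open Pool.Agent.W2helper93.NV
open Pool.Agent.TH850.UV
open H370 (zz hh mult Zf zset AA good_zeta mem_Zf NN NN_add NN_mono zcount nn_asymp finsum_Zf)

/-- a Fubini lemma -/
lemma fub {h w : ℝ → ℝ} (hc : Continuous h) (hi : Integrable h) (he : ∀ x, h (-x) = h x)
    (hw : Continuous w) (b u : ℝ) :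
    ∫ x, h x * (∫ α in (-(1 / 2 : ℝ))..(1 / 2), w α * Real.cos (2 * Real.pi * (b * (x + u)) * α)) =
      ∫ α in (-(1 / 2 : ℝ))..(1 / 2), w α * Real.cos (2 * Real.pi * (b * u) * α) *
        ∫ x, h x * Real.cos (2 * Real.pi * (b * α) * x) := by
  have hle : (-(1 / 2 : ℝ)) ≤ 1 / 2 := by norm_num
  set ν : Measure ℝ := volume.restrict (Ioc (-(1 / 2 : ℝ)) (1 / 2)) with hν
  have hwi : Integrable w ν := by
    rw [hν]
    exact (hw.integrableOn_Icc (a := -(1 / 2)) (b := 1 / 2)).mono_set Ioc_subset_Icc_self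
  set F : ℝ → ℝ → ℝ := fun x α => h x * (w α * Real.cos (2 * Real.pi * (b * (x + u)) * α)) with hF
  have hFi : Integrable (Function.uncurry F) (volume.prod ν) := by
    refine Integrable.mono' (hi.norm.mul_prod hwi.norm) ?_ (Eventually.of_forall fun p => ?_)
    · have : Continuous (Function.uncurry F) := by
        simp only [hF]
        show Continuous fun p : ℝ × ℝ => h p.1 * (w p.2 * Real.cos (2 * Real.pi * (b * (p.1 + u)) * p.2))
        fun_prop
      exact this.aestronglyMeasurable
    · simp only [hF]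
      show ‖h p.1 * (w p.2 * Real.cos (2 * Real.pi * (b * (p.1 + u)) * p.2))‖ ≤ ‖h p.1‖ * ‖w p.2‖
      rw [norm_mul, norm_mul]
      apply mul_le_mul_of_nonneg_left _ (norm_nonneg _)
      refine mul_le_of_le_one_right (norm_nonneg _) ?_
      exact Real.abs_cos_le_one _
  have e1 : ∀ x, h x * (∫ α in (-(1 / 2 : ℝ))..(1 / 2), w α *
      Real.cos (2 * Real.pi * (b * (x + u)) * α)) = ∫ α, F x α ∂ν := by
    intro x
    rw [intervalIntegral.integral_of_le hle, ← integral_const_mul]
  simp_rw [e1]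
  rw [integral_integral_swap hFi, intervalIntegral.integral_of_le hle]
  refine integral_congr_ae (Eventually.of_forall fun α => ?_)
  simp only [hF]
  have hb1 : Integrable fun x => h x * Real.cos (2 * Real.pi * (b * α) * x) := by
    refine Integrable.mono' hi.norm (by
      exact (hc.mul (by fun_prop)).aestronglyMeasurable) (Eventually.of_forall fun x => ?_)
    rw [norm_mul]
    exact mul_le_of_le_one_right (norm_nonneg _) (Real.abs_cos_le_one _)
  have hb2 : Integrable fun x => h x * Real.sin (2 * Real.pi * (b * α) * x) := by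
    refine Integrable.mono' hi.norm (by
      exact (hc.mul (by fun_prop)).aestronglyMeasurable) (Eventually.of_forall fun x => ?_)
    rw [norm_mul]
    exact mul_le_of_le_one_right (norm_nonneg _) (Real.abs_sin_le_one _)
  have hs : ∫ x, h x * Real.sin (2 * Real.pi * (b * α) * x) = 0 := by
    have h1 := integral_neg_eq_self (fun x => h x * Real.sin (2 * Real.pi * (b * α) * x)) volume
    have h2 : ∀ x : ℝ, h (-x) * Real.sin (2 * Real.pi * (b * α) * -x) =
        -(h x * Real.sin (2 * Real.pi * (b * α) * x)) := by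
      intro x
      rw [he, mul_neg, Real.sin_neg]; ring
    simp_rw [h2] at h1
    rw [integral_neg] at h1
    linarith
  have e2 : ∀ x, h x * (w α * Real.cos (2 * Real.pi * (b * (x + u)) * α)) =
      (w α * Real.cos (2 * Real.pi * (b * u) * α)) * (h x * Real.cos (2 * Real.pi * (b * α) * x)) -
      (w α * Real.sin (2 * Real.pi * (b * u) * α)) * (h x * Real.sin (2 * Real.pi * (b * α) * x)) := by
    intro x
    have : 2 * Real.pi * (b * (x + u)) * α = 2 * Real.pi * (b * u) * α + 2 * Real.pi * (b * α) * x := by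
      ring
    rw [this, Real.cos_add]
    ring
  simp_rw [e2]
  rw [integral_sub (hb1.const_mul _) (hb2.const_mul _), integral_const_mul, integral_const_mul, hs,
    mul_zero, sub_zero]

lemma k_cos (x : ℝ) : qk 0 x = ∫ α in (-(1 / 2 : ℝ))..(1 / 2), om α * Real.cos (2 * Real.pi * x * α) := by
  have htc := om_cont0
  unfold qk kC
  have h1 : (∫ α in (-(1 / 2 : ℝ))..(1 / 2),
      (om α : ℂ) * Complex.cos (2 * Real.pi * α * (x + (0 : ℝ) * I))).re =
      ∫ α in (-(1 / 2 : ℝ))..(1 / 2),
      ((om α : ℂ) * Complex.cos (2 * Real.pi * α * (x + (0 : ℝ) * I))).re :=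
    (Complex.reCLM.intervalIntegral_comp_comm
      (Continuous.intervalIntegrable (by fun_prop) _ _)).symm
  rw [h1]
  refine intervalIntegral.integral_congr fun α _ => ?_
  show ((om α : ℂ) * Complex.cos (2 * Real.pi * α * (x + (0 : ℝ) * I))).re = _
  rw [Complex.re_ofReal_mul]
  congr 1
  have h2 : (2 * Real.pi * α * (x + (0 : ℝ) * I) : ℂ) = ((2 * Real.pi * x * α : ℝ) : ℂ) := by
    push_cast; ring
  rw [h2, ← Complex.ofReal_cos, Complex.ofReal_re]

lemma kC_real (x : ℝ) : kC (x : ℂ) = ((qk 0 x : ℝ) : ℂ) := by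
  have h1 := kC_conj (x : ℂ)
  rw [Complex.conj_ofReal] at h1
  have h2 := Complex.conj_eq_iff_re.1 h1.symm
  rw [← h2]
  unfold qk
  congr 3
  push_cast; ring

/-- Fourier inversion for the kernel -/
lemma k_four (α : ℝ) : ∫ x, qk 0 x * Real.cos (2 * Real.pi * α * x) = om α := by
  have hF : FourierTransform.fourier (KernAux.ff 0) = fun w : ℝ => kC (w - (0 : ℝ) * I) := by
    funext w
    exact KernAux.ff_four 0 w
  have h := Continuous.fourierInv_fourier_eq (KernAux.ff_cont 0) (KernAux.ff_int 0) (by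
    rw [hF]; exact KernAux.kC_line_int 0)
  have h0 := congrFun h α
  rw [Real.fourierInv_eq', hF] at h0
  have e1 : ∀ v : ℝ, cexp (((2 * Real.pi * inner ℝ v α : ℝ) : ℂ) * I) • kC (v - (0 : ℝ) * I) =
      cexp (((2 * Real.pi * α * v : ℝ) : ℂ) * I) * ((qk 0 v : ℝ) : ℂ) := by
    intro v
    have h1 : ((v : ℂ) - (0 : ℝ) * I) = (v : ℂ) := by push_cast; ring
    have h2 : (2 * Real.pi * inner ℝ v α : ℝ) = 2 * Real.pi * α * v := by
      simp [inner]
      ring
    rw [h1, kC_real, h2, smul_eq_mul]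
  simp_rw [e1] at h0
  have e2 : KernAux.ff 0 α = ((om α : ℝ) : ℂ) := by
    unfold KernAux.ff
    simp
  rw [e2] at h0
  have hint : Integrable fun v : ℝ => cexp (((2 * Real.pi * α * v : ℝ) : ℂ) * I) * ((qk 0 v : ℝ) : ℂ) := by
    have hk := KernAux.cont_y 0
    refine Integrable.mono' (qk_integrable 0).norm (by
      have : Continuous fun v : ℝ => cexp (((2 * Real.pi * α * v : ℝ) : ℂ) * I) * ((qk 0 v : ℝ) : ℂ) := by
        fun_prop
      exact this.aestronglyMeasurable) (Eventually.of_forall fun v => ?_)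
    rw [norm_mul, Complex.norm_exp_ofReal_mul_I, one_mul, Complex.norm_real]
  have h3 := congrArg Complex.re h0
  rw [Complex.ofReal_re] at h3
  rw [← h3]
  have h4 : (∫ v : ℝ, cexp (((2 * Real.pi * α * v : ℝ) : ℂ) * I) * ((qk 0 v : ℝ) : ℂ)).re =
      ∫ v : ℝ, (cexp (((2 * Real.pi * α * v : ℝ) : ℂ) * I) * ((qk 0 v : ℝ) : ℂ)).re :=
    (integral_re hint).symm
  rw [h4]
  refine integral_congr_ae (Eventually.of_forall fun v => ?_)
  simp only
  rw [mul_comm (cexp _), Complex.re_ofReal_mul, Complex.exp_ofReal_mul_I_re]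

/-- the autocorrelation of the kernel -/
noncomputable def psi (z : ℝ) : ℝ := ∫ x, qk 0 x * qk 0 (x + z)

lemma psi_eq (z : ℝ) : psi z = ∫ α in (-(1 / 2 : ℝ))..(1 / 2), om α ^ 2 * Real.cos (2 * Real.pi * z * α) := by
  have htc := om_cont0
  have h := fub (KernAux.cont_y 0) (qk_integrable 0) (qk_even 0) htc 1 z
  unfold psi
  have e1 : ∀ x, qk 0 (x + z) = ∫ α in (-(1 / 2 : ℝ))..(1 / 2), om α *
      Real.cos (2 * Real.pi * (1 * (x + z)) * α) := by
    intro x
    rw [k_cos, one_mul]
  simp_rw [e1]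
  rw [h]
  refine intervalIntegral.integral_congr fun α _ => ?_
  simp only [one_mul]
  rw [k_four]
  ring

lemma psi_cont : Continuous psi := by
  have htc := om_cont0
  have e : psi = fun z => ∫ α in (-(1 / 2 : ℝ))..(1 / 2), om α ^ 2 * Real.cos (2 * Real.pi * z * α) :=
    funext psi_eq
  rw [e]
  exact intervalIntegral.continuous_parametric_intervalIntegral_of_continuous' (by fun_prop) _ _

lemma psi_even (z : ℝ) : psi (-z) = psi z := by
  rw [psi_eq, psi_eq]
  refine intervalIntegral.integral_congr fun α _ => ?_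
  have : 2 * Real.pi * -z * α = -(2 * Real.pi * z * α) := by ring
  rw [this, Real.cos_neg]

lemma psi_le : ∃ C : ℝ, 0 < C ∧ ∀ z : ℝ, |psi z| ≤ C / (1 + z ^ 2) := by
  obtain ⟨C, hC, h⟩ := q0_decay
  have hpi := Real.pi_pos
  refine ⟨2 * C ^ 2 * Real.pi, by positivity, fun z => ?_⟩
  have h1 : ‖psi z‖ ≤ ∫ x : ℝ, 2 * C ^ 2 / (1 + z ^ 2) * (1 + x ^ 2)⁻¹ := by
    unfold psi
    refine norm_integral_le_of_norm_le (integrable_inv_one_add_sq.const_mul _)
      (Eventually.of_forall fun x => ?_)
    rw [norm_mul, Real.norm_eq_abs, Real.norm_eq_abs]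
    have h2 := h x
    have h3 := h (x + z)
    have h4 : 1 + z ^ 2 ≤ 2 * (1 + x ^ 2) * (1 + (x + z) ^ 2) := by
      nlinarith only [sq_nonneg (x + (x + z)), sq_nonneg x, sq_nonneg (x + z),
        mul_nonneg (sq_nonneg x) (sq_nonneg (x + z))]
    calc |qk 0 x| * |qk 0 (x + z)| ≤ C / (1 + x ^ 2) ^ 2 * (C / (1 + (x + z) ^ 2) ^ 2) :=
          mul_le_mul h2 h3 (abs_nonneg _) (by positivity)
      _ ≤ 2 * C ^ 2 / (1 + z ^ 2) * (1 + x ^ 2)⁻¹ := by
          rw [div_mul_div_comm, ← div_eq_mul_inv, div_div, div_le_div_iff₀ (by positivity)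
            (by positivity)]
          have h5 : (1 + z ^ 2) * (1 + x ^ 2) ≤
              2 * ((1 + x ^ 2) ^ 2 * (1 + (x + z) ^ 2) ^ 2) := by
            have k1 : (1 : ℝ) ≤ 1 + (x + z) ^ 2 := by nlinarith only [sq_nonneg (x + z)]
            have k2 : 0 < 1 + x ^ 2 := by positivity
            calc (1 + z ^ 2) * (1 + x ^ 2) ≤ (2 * (1 + x ^ 2) * (1 + (x + z) ^ 2)) * (1 + x ^ 2) :=
                  mul_le_mul_of_nonneg_right h4 k2.le
              _ = 2 * ((1 + x ^ 2) ^ 2 * (1 + (x + z) ^ 2)) := by ring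
              _ ≤ _ := by
                  apply mul_le_mul_of_nonneg_left _ (by norm_num)
                  apply mul_le_mul_of_nonneg_left _ (by positivity)
                  nlinarith only [k1]
          nlinarith only [h5, sq_nonneg C, mul_le_mul_of_nonneg_left h5 (sq_nonneg C)]
  rw [Real.norm_eq_abs, integral_const_mul, integral_univ_inv_one_add_sq] at h1
  calc |psi z| ≤ _ := h1
    _ = _ := by ring

lemma psi_int : Integrable psi := by
  obtain ⟨C, hC, h⟩ := psi_le
  refine Integrable.mono' (integrable_inv_one_add_sq.const_mul C) psi_cont.aestronglyMeasurable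
    (Eventually.of_forall fun x => ?_)
  rw [Real.norm_eq_abs, ← div_eq_mul_inv]
  exact h x

lemma psi_one : ∫ z, psi z = 1 := by
  have h := integral_convolution (ContinuousLinearMap.mul ℝ ℝ) (qk_integrable 0) (qk_integrable 0)
  rw [qk_integral] at h
  have e1 : ∀ x, (MeasureTheory.convolution (qk 0) (qk 0) (ContinuousLinearMap.mul ℝ ℝ) volume) x =
      psi x := by
    intro x
    rw [convolution_def]
    unfold psi
    rw [← integral_neg_eq_self (fun t => qk 0 t * qk 0 (t + x)) volume]
    refine integral_congr_ae (Eventually.of_forall fun t => ?_)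
    simp only [ContinuousLinearMap.mul_apply']
    rw [qk_even, show -t + x = x - t by ring]
  simp_rw [e1] at h
  rw [h]
  simp

lemma q0_intx (l : ℝ) (hl : 0 < l) (s : ℂ) : Integrable fun t : ℝ => qk 0 (xx l s t) := by
  have h1 := (qk_integrable 0).comp_mul_right' (R := l / (2 * Real.pi))
    (by have := Real.pi_pos; positivity)
  have h2 := h1.comp_sub_right s.im
  exact h2

/-- the sum over pairs -/
noncomputable def Pp (l : ℝ) (S : Finset ℂ) (v : ℝ) : ℝ :=
  ∑ s ∈ S, ∑ s' ∈ S, mm s * mm s' * psi ((v + (s.im - s'.im)) * (l / (2 * Real.pi)))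

lemma pair_int {l : ℝ} (hl : 0 < l) (S : Finset ℂ) (v : ℝ) :
    ∫ t, KR l S t * KR l S (t + v) = 2 * Real.pi / l * Pp l S v := by
  have hpi := Real.pi_pos
  have hc : 0 < l / (2 * Real.pi) := by positivity
  have e1 : ∀ t, KR l S t * KR l S (t + v) = ∑ s ∈ S, ∑ s' ∈ S, mm s * mm s' *
      (qk 0 (xx l s t) * qk 0 (xx l s' (t + v))) := by
    intro t
    unfold KR
    rw [Finset.sum_mul_sum]
    refine Finset.sum_congr rfl fun s _ => Finset.sum_congr rfl fun s' _ => ?_
    ring
  obtain ⟨Cq, hCq, hq⟩ := q0_decay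
  have i1 : ∀ s s' : ℂ, Integrable fun t => qk 0 (xx l s t) * qk 0 (xx l s' (t + v)) := by
    intro s s'
    refine Integrable.mono' ((q0_intx l hl s).norm.mul_const Cq) ?_ (Eventually.of_forall fun t => ?_)
    · have sh : Continuous fun t : ℝ => t + v := continuous_id.add continuous_const
      exact ((qx_cont 0 l s).mul ((qx_cont 0 l s').comp sh)).aestronglyMeasurable
    · rw [norm_mul]
      apply mul_le_mul_of_nonneg_left _ (norm_nonneg _)
      rw [Real.norm_eq_abs]
      refine (hq _).trans ?_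
      apply div_le_self hCq.le
      exact one_le_pow₀ (by nlinarith only [sq_nonneg (xx l s' (t + v))])
  have e2 : ∀ s s' : ℂ, ∫ t, qk 0 (xx l s t) * qk 0 (xx l s' (t + v)) =
      2 * Real.pi / l * psi ((v + (s.im - s'.im)) * (l / (2 * Real.pi))) := by
    intro s s'
    set z := (v + (s.im - s'.im)) * (l / (2 * Real.pi)) with hz
    have h1 : ∀ t, qk 0 (xx l s t) * qk 0 (xx l s' (t + v)) =
        (fun x => qk 0 (x * (l / (2 * Real.pi))) * qk 0 (x * (l / (2 * Real.pi)) + z)) (t - s.im) := by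
      intro t
      simp only [hz]
      unfold xx
      congr 2
      ring
    simp_rw [h1]
    rw [integral_sub_right_eq_self (fun x => qk 0 (x * (l / (2 * Real.pi))) *
      qk 0 (x * (l / (2 * Real.pi)) + z)) s.im,
      Measure.integral_comp_mul_right (fun x => qk 0 x * qk 0 (x + z)) (l / (2 * Real.pi)),
      smul_eq_mul, abs_of_pos (by positivity)]
    unfold psi
    rw [inv_div]
  simp_rw [e1]
  rw [integral_finsetSum _ fun s _ => integrable_finsetSum _ fun s' _ => (i1 s s').const_mul _]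
  unfold Pp
  rw [Finset.mul_sum]
  refine Finset.sum_congr rfl fun s _ => ?_
  rw [integral_finsetSum _ fun s' _ => (i1 s s').const_mul _, Finset.mul_sum]
  refine Finset.sum_congr rfl fun s' _ => ?_
  rw [integral_const_mul, e2]
  ring

end Pool.Agent.W2helper93.SW
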